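import Pool.Agent.Lib_helper80.CW.Small

/-!
# Bipartite graphs whose bipartite complement is `P₅`-free
-/

namespace Pool.Agent.Lib80.CW

open Finset

universe u

set_option linter.unusedSectionVars false

variable {V : Type u} [DecidableEq V] {G : SimpleGraph V} {S : Finset V}

/-- bipartite graph, colours `c`; the bipartite complement has no induced `P₅` -/
theorem MW.bip_cochain (c : V → Bool)
    (hind : ∀ x ∈ S, ∀ y ∈ S, c x = c y → ¬ G.Adj x y)
    (h5 : ∀ t : Bool, ∀ a ∈ S, ∀ d ∈ S, ∀ z ∈ S, ∀ b ∈ S, ∀ e ∈ S, c a = t → c z = t → c e = t →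
      c d = !t → c b = !t → ¬ G.Adj a d → ¬ G.Adj z d → ¬ G.Adj z b → ¬ G.Adj e b →
      G.Adj a b → G.Adj e d → False) :
    MW G S 4 := by
  classical
  obtain ⟨f, hf⟩ := exists_injOn_nat S
  let X := S.filter (fun v => c v = true)
  let Y := S.filter (fun v => c v = false)
  have hX : ∀ v, v ∈ X ↔ v ∈ S ∧ c v = true := fun v => by simp [X]
  have hY : ∀ v, v ∈ Y ↔ v ∈ S ∧ c v = false := fun v => by simp [Y]
  -- common co-neighbour relation on X
  let r : V → V → Prop := fun x x' => ∃ y ∈ Y, ¬ G.Adj x y ∧ ¬ G.Adj x' y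
  have rsymm : ∀ x x', r x x' → r x' x := fun x x' ⟨y, hy, h1, h2⟩ => ⟨y, hy, h2, h1⟩
  have rtrans : ∀ x ∈ X, ∀ x' ∈ X, ∀ x'' ∈ X, r x x' → r x' x'' → r x x'' := by
    rintro x hx x' hx' x'' hx'' ⟨y, hy, h1, h2⟩ ⟨y', hy', h3, h4⟩
    by_cases hxy' : G.Adj x y'
    · by_cases hxy'' : G.Adj x'' y
      · exfalso
        exact h5 true x ((hX x).1 hx).1 y ((hY y).1 hy).1 x' ((hX x').1 hx').1 y' ((hY y').1 hy').1
          x'' ((hX x'').1 hx'').1 ((hX x).1 hx).2 ((hX x').1 hx').2 ((hX x'').1 hx'').2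
          ((hY y).1 hy).2 ((hY y').1 hy').2 h1 h2 h3 h4 hxy' hxy''
      · exact ⟨y, hy, h1, hxy''⟩
    · exact ⟨y', hy', hxy', h4⟩
  -- class of x
  let Cl : V → Finset V := fun x => X.filter (fun u => u = x ∨ r u x)
  have hself : ∀ x ∈ X, x ∈ Cl x := fun x hx => mem_filter.2 ⟨hx, Or.inl rfl⟩
  have hcleq : ∀ x ∈ X, ∀ x' ∈ X, r x x' → Cl x = Cl x' := by
    have hsub : ∀ x ∈ X, ∀ x' ∈ X, r x x' → Cl x ⊆ Cl x' := by
      intro x hx x' hx' hr u hu
      rw [mem_filter] at hu ⊢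
      refine ⟨hu.1, ?_⟩
      rcases hu.2 with rfl | hur
      · exact Or.inr hr
      · exact Or.inr (rtrans u hu.1 x hx x' hx' hur hr)
    intro x hx x' hx' hr
    exact Subset.antisymm (hsub x hx x' hx' hr) (hsub x' hx' x hx (rsymm _ _ hr))
  let βX : V → ℕ := fun x => if h : (Cl x).Nonempty then ((Cl x).image f).min' (h.image f) else 0
  have hβX1 : ∀ x ∈ X, ∀ x' ∈ X, r x x' → βX x = βX x' := by
    intro x hx x' hx' hr
    have := hcleq x hx x' hx' hr
    simp only [βX, this]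
  have hβX2 : ∀ x ∈ X, ∀ x' ∈ X, βX x = βX x' → x ≠ x' → r x x' := by
    intro x hx x' hx' heq hne
    have n1 : (Cl x).Nonempty := ⟨x, hself x hx⟩
    have n2 : (Cl x').Nonempty := ⟨x', hself x' hx'⟩
    simp only [βX, dif_pos n1, dif_pos n2] at heq
    have h1 := ((Cl x).image f).min'_mem (n1.image f)
    have h2 := ((Cl x').image f).min'_mem (n2.image f)
    rw [mem_image] at h1 h2
    obtain ⟨u, hu, hfu⟩ := h1
    obtain ⟨w, hw, hfw⟩ := h2
    have huX : u ∈ X := (mem_filter.1 hu).1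
    have hwX : w ∈ X := (mem_filter.1 hw).1
    have huw : u = w := hf ((hX u).1 huX).1 ((hX w).1 hwX).1 (by rw [hfu, hfw, heq])
    subst huw
    rcases (mem_filter.1 hu).2 with rfl | h3
    · rcases (mem_filter.1 hw).2 with rfl | h4
      · exact absurd rfl hne
      · exact h4
    · rcases (mem_filter.1 hw).2 with rfl | h4
      · exact rsymm _ _ h3
      · exact rtrans x hx u huX x' hx' (rsymm _ _ h3) h4
  let β : V → ℕ := fun v => if c v = true then βX v else
    if h : ∃ x ∈ X, ¬ G.Adj x v then βX h.choose else 0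
  have hβx : ∀ v ∈ X, β v = βX v := fun v hv => by simp [β, ((hX v).1 hv).2]
  have hβy : ∀ y ∈ Y, ∀ x ∈ X, ¬ G.Adj x y → β y = β x := by
    intro y hy x hx hxy
    have hex : ∃ x ∈ X, ¬ G.Adj x y := ⟨x, hx, hxy⟩
    have hc : ¬ (c y = true) := by rw [((hY y).1 hy).2]; simp
    rw [hβx x hx]
    simp only [β, if_neg hc, dif_pos hex]
    exact hβX1 _ hex.choose_spec.1 _ hx ⟨y, hy, hex.choose_spec.2, hxy⟩
  have hadj : ∀ x ∈ X, ∀ y ∈ Y, β x ≠ β y → G.Adj x y := by
    intro x hx y hy hne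
    by_contra h'
    exact hne (hβy y hy x hx h').symm
  have hXc : ∀ v ∈ S, c v = true → v ∈ X := fun v hv h' => (hX v).2 ⟨hv, h'⟩
  have hYc : ∀ v ∈ S, c v = false → v ∈ Y := fun v hv h' => (hY v).2 ⟨hv, h'⟩
  have := MW.of_blocks (G := G) (S := S) (K := 2) (m := 2) (by norm_num) β
    (fun v => if c v = true then 0 else 1) ?_ ?_
  · simpa using this
  · intro x hx x' hx' y hy y' hy' hcx hcy hxy hxy'
    rcases hx1 : c x with _ | _ <;> rcases hy1 : c y with _ | _ <;>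
      rcases hx2 : c x' with _ | _ <;> rcases hy2 : c y' with _ | _ <;>
      simp [hx1, hy1, hx2, hy2] at hcx hcy
    · exact ⟨fun h' => absurd h' (hind x hx y hy (by rw [hx1, hy1])),
        fun h' => absurd h' (hind x' hx' y' hy' (by rw [hx2, hy2]))⟩
    · exact ⟨fun _ => (hadj y' (hXc y' hy' hy2) x' (hYc x' hx' hx2) (by omega)).symm,
        fun _ => (hadj y (hXc y hy hy1) x (hYc x hx hx1) (by omega)).symm⟩
    · exact ⟨fun _ => (hadj x' (hXc x' hx' hx2) y' (hYc y' hy' hy2) (by omega)),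
        fun _ => (hadj x (hXc x hx hx1) y (hYc y hy hy1) (by omega))⟩
    · exact ⟨fun h' => absurd h' (hind x hx y hy (by rw [hx1, hy1])),
        fun h' => absurd h' (hind x' hx' y' hy' (by rw [hx2, hy2]))⟩
  · intro i
    refine MW.chain c (fun x hx y hy hcc => hind x (mem_filter.1 hx).1 y (mem_filter.1 hy).1 hcc) ?_
    intro x hx x' hx' y hy y' hy' h1 h2 h3 h4 hxy hxy'
    rw [mem_filter] at hx hx' hy hy'
    by_contra hcon
    push Not at hcon
    have hxX := hXc x hx.1 h1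
    have hxX' := hXc x' hx'.1 h2
    have hyY := hYc y hy.1 h3
    have hyY' := hYc y' hy'.1 h4
    have hne : x ≠ x' := by
      rintro rfl; exact hcon.1 hxy'
    have hβ : βX x = βX x' := by
      rw [← hβx x hxX, ← hβx x' hxX', hx.2, hx'.2]
    obtain ⟨y'', hy'', h5', h6⟩ := hβX2 x hxX x' hxX' hβ hne
    exact h5 false y' hy'.1 x hx.1 y'' ((hY y'').1 hy'').1 x' hx'.1 y hy.1 h4 ((hY y'').1 hy'').2 h3
      h1 h2 (fun h' => hcon.1 h'.symm) (fun h' => h5' h'.symm) (fun h' => h6 h'.symm)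
      (fun h' => hcon.2 h'.symm) hxy'.symm hxy.symm

end Pool.Agent.Lib80.CW
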