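import Pool.Agent.Lib_helper80.CW.Small

/-!
# The three-class block lemma

For two colours `i`, `i + 1` orient `x → y` iff `x` (colour `i`) and `y` (colour `i + 1`) are
adjacent, and `y → x` otherwise.  A minimal nonempty set that is closed under in-neighbours is
either a single vertex, or a triangle together with some isolated vertices.  Peeling off these
sets gives an ordered block decomposition.
-/

namespace Pool.Agent.Lib80.CW

open Finset

universe u

set_option linter.unusedSectionVars false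

variable {V : Type u} [DecidableEq V]

/-- the peeling form of the ordered block lemma -/
theorem MW.of_peel {G : SimpleGraph V} {K m : ℕ} (hm : 1 ≤ m) (c : V → Fin K)
    (R : Fin K → Fin K → Prop) (P : Finset V → Prop)
    (hP : ∀ T : Finset V, P T → T.Nonempty → ∃ B ⊆ T, B.Nonempty ∧ MW G B m ∧ P (T \ B) ∧
      ∀ x ∈ B, ∀ y ∈ T, y ∉ B → (G.Adj x y ↔ R (c x) (c y)))
    (S : Finset V) (hS : P S) : MW G S (K * m) := by
  classical
  have key : ∀ n : ℕ, ∀ S : Finset V, S.card ≤ n → P S → ∃ β : V → ℕ,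
      (∀ x ∈ S, ∀ y ∈ S, β x < β y → (G.Adj x y ↔ R (c x) (c y))) ∧
      (∀ i, MW G (S.filter (fun v => β v = i)) m) := by
    intro n
    induction n with
    | zero =>
      intro S hS _
      have : S = ∅ := card_eq_zero.1 (by omega)
      subst this
      exact ⟨fun _ => 0, fun x hx => absurd hx (notMem_empty x), fun i => Or.inl (by simp)⟩
    | succ n ih =>
      intro S hcard hS
      rcases S.eq_empty_or_nonempty with rfl | hne
      · exact ⟨fun _ => 0, fun x hx => absurd hx (notMem_empty x), fun i => Or.inl (by simp)⟩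
      obtain ⟨B, hBS, hBne, hBm, hPB, hR⟩ := hP S hS hne
      have hlt : (S \ B).card ≤ n := by
        have h1 : (S \ B).card < S.card := card_lt_card
          (sdiff_ssubset hBS hBne)
        omega
      obtain ⟨β, h1, h2⟩ := ih (S \ B) hlt hPB
      refine ⟨fun v => if v ∈ B then 0 else β v + 1, ?_, ?_⟩
      · intro x hx y hy hxy
        by_cases hyB : y ∈ B
        · simp [hyB] at hxy
        by_cases hxB : x ∈ B
        · exact hR x hxB y hy hyB
        · simp only [hyB, hxB, if_false] at hxy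
          exact h1 x (mem_sdiff.2 ⟨hx, hxB⟩) y (mem_sdiff.2 ⟨hy, hyB⟩) (by omega)
      · intro i
        rcases i with _ | i
        · have : S.filter (fun v => (if v ∈ B then 0 else β v + 1) = 0) = B := by
            ext v
            simp only [mem_filter]
            constructor
            · rintro ⟨_, h⟩
              by_contra hc
              simp [hc] at h
            · intro h
              exact ⟨hBS h, by simp [h]⟩
          rw [this]
          exact hBm
        · have : S.filter (fun v => (if v ∈ B then 0 else β v + 1) = i + 1) =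
              (S \ B).filter (fun v => β v = i) := by
            ext v
            simp only [mem_filter, mem_sdiff]
            constructor
            · rintro ⟨h3, h⟩
              by_cases hc : v ∈ B
              · simp [hc] at h
              · simp only [hc, if_false] at h
                exact ⟨⟨h3, hc⟩, by omega⟩
            · rintro ⟨⟨h3, h4⟩, h⟩
              exact ⟨h3, by simp [h4, h]⟩
          rw [this]
          exact h2 i
  obtain ⟨β, h1, h2⟩ := key S.card S le_rfl hS
  refine MW.of_blocks hm β c ?_ h2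
  intro x hx x' hx' y hy y' hy' hcx hcy hxy hxy'
  rw [h1 x hx y hy hxy, h1 x' hx' y' hy' hxy', hcx, hcy]

/-- the orientation -/
def Arc (G : SimpleGraph V) (c : V → Fin 3) (x y : V) : Prop :=
  (c y = c x + 1 ∧ G.Adj x y) ∨ (c x = c y + 1 ∧ ¬ G.Adj x y)

section arc

variable {G : SimpleGraph V} {c : V → Fin 3} {x y z : V}

theorem fin3_cases (i j : Fin 3) : i = j ∨ j = i + 1 ∨ i = j + 1 := by
  revert i j; decide

theorem fin3_succ_ne (i : Fin 3) : i ≠ i + 1 := by
  revert i; decide

theorem fin3_succ2_ne (i : Fin 3) : i ≠ i + 1 + 1 := by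
  revert i; decide

theorem fin3_succ3 (i : Fin 3) : i + 1 + 1 + 1 = i := by
  revert i; decide

theorem Arc.ne (h : Arc G c x y) : c x ≠ c y := by
  rcases h with ⟨h, _⟩ | ⟨h, _⟩
  · rw [h]; exact fin3_succ_ne _
  · rw [h]; exact (fin3_succ_ne _).symm

theorem arc_or (h : c x ≠ c y) : Arc G c x y ∨ Arc G c y x := by
  rcases fin3_cases (c x) (c y) with h1 | h1 | h1
  · exact absurd h1 h
  · by_cases h2 : G.Adj x y
    · exact Or.inl (Or.inl ⟨h1, h2⟩)
    · exact Or.inr (Or.inr ⟨h1, fun h3 => h2 h3.symm⟩)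
  · by_cases h2 : G.Adj x y
    · exact Or.inr (Or.inl ⟨h1, h2.symm⟩)
    · exact Or.inl (Or.inr ⟨h1, h2⟩)

theorem Arc.asymm (h : Arc G c x y) (h' : Arc G c y x) : False := by
  rcases h with ⟨h, h1⟩ | ⟨h, h1⟩ <;> rcases h' with ⟨h', h2⟩ | ⟨h', h2⟩
  · rw [h] at h'; exact fin3_succ2_ne _ h'
  · exact h2 h1.symm
  · exact h1 h2.symm
  · rw [h] at h'; exact fin3_succ2_ne _ h'

/-- the only directed triangles are triangles and independent transversals -/
theorem arc_three (h1 : Arc G c x y) (h2 : Arc G c y z) (h3 : Arc G c z x) :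
    (G.Adj x y ∧ G.Adj y z ∧ G.Adj z x ∧ c y = c x + 1 ∧ c z = c y + 1) ∨
    (¬ G.Adj x y ∧ ¬ G.Adj y z ∧ ¬ G.Adj z x) := by
  have e3 := h3.ne
  rcases h1 with ⟨h, h1⟩ | ⟨h, h1⟩ <;> rcases h2 with ⟨h', h2⟩ | ⟨h', h2⟩
  · left
    refine ⟨h1, h2, ?_, h, h'⟩
    rcases h3 with ⟨h'', h3⟩ | ⟨h'', h3⟩
    · exact h3
    · rw [h', h] at h''
      exact absurd (h''.symm) (fin3_succ_ne _)
  · exfalso
    rw [h'] at h
    exact e3 (add_right_cancel h)
  · exfalso
    exact e3 (by rw [h, h'])
  · right
    refine ⟨h1, h2, ?_⟩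
    rcases h3 with ⟨h'', h3⟩ | ⟨h'', h3⟩
    · rw [h, h'] at h''
      exact absurd (h''.symm) (fin3_succ_ne _)
    · exact h3

end arc

/-- `B` is closed under in-neighbours inside `S` -/
def InClosed (G : SimpleGraph V) (c : V → Fin 3) (S B : Finset V) : Prop :=
  ∀ y ∈ B, ∀ x ∈ S, Arc G c x y → x ∈ B

theorem exists_min_inClosed (G : SimpleGraph V) (c : V → Fin 3) {S : Finset V}
    (hS : S.Nonempty) : ∃ B ⊆ S, B.Nonempty ∧ InClosed G c S B ∧
      ∀ B' ⊆ B, B'.Nonempty → InClosed G c S B' → B' = B := by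
  classical
  have hne : (S.powerset.filter (fun B => B.Nonempty ∧ InClosed G c S B)).Nonempty :=
    ⟨S, mem_filter.2 ⟨mem_powerset_self S, hS, fun _ _ x hx _ => hx⟩⟩
  obtain ⟨B, hB, hmin⟩ := exists_min_image _ card hne
  obtain ⟨h1, h2, h3⟩ := mem_filter.1 hB
  refine ⟨B, mem_powerset.1 h1, h2, h3, fun B' hB' hne' hcl => ?_⟩
  exact eq_of_subset_of_card_le hB'
    (hmin B' (mem_filter.2 ⟨mem_powerset.2 (hB'.trans (mem_powerset.1 h1)), hne', hcl⟩))

/-- minimal in-closed sets without directed triangles are single vertices -/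
theorem min_inClosed_single {G : SimpleGraph V} {c : V → Fin 3} {S B : Finset V}
    (hBne : B.Nonempty) (hcl : InClosed G c S B)
    (hmin : ∀ B' ⊆ B, B'.Nonempty → InClosed G c S B' → B' = B)
    (h3 : ∀ x ∈ B, ∀ y ∈ B, ∀ z ∈ B, Arc G c x y → Arc G c y z → Arc G c z x → False)
    (h4 : ∀ x ∈ B, ∀ y ∈ B, ∀ x' ∈ B, ∀ y' ∈ B, c x = c x' → c y = c y' →
      Arc G c x y → Arc G c y x' → Arc G c x' y' → Arc G c y' x → False) :
    ∃ v, B = {v} := by
  classical
  let D : V → Finset V := fun v => B.filter (fun w => Arc G c w v ∨ ∃ z ∈ B, Arc G c w z ∧ Arc G c z v)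
  obtain ⟨v, hv, hvmin⟩ := exists_min_image B (fun v => (D v).card) hBne
  have hno : ∀ u ∈ B, ¬ Arc G c u v := by
    intro u hu huv
    have hsub : D u ⊆ D v := by
      intro w hw
      obtain ⟨hwB, hw⟩ := mem_filter.1 hw
      refine mem_filter.2 ⟨hwB, ?_⟩
      rcases hw with hw | ⟨z, hz, hwz, hzu⟩
      · exact Or.inr ⟨u, hu, hw, huv⟩
      · -- w → z → u → v
        by_cases hwv : c w = c v
        · have hzv : c z ≠ c v := by rw [← hwv]; exact hwz.ne.symm
          rcases arc_or (G := G) hzv with h | h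
          · exact Or.inr ⟨z, hz, hwz, h⟩
          · exact (h3 v hv z hz u hu h hzu huv).elim
        · rcases arc_or (G := G) hwv with h | h
          · exact Or.inl h
          · exfalso
            -- v → w → z → u → v
            by_cases hzv : c z = c v
            · by_cases hwu : c w = c u
              · exact h4 v hv w hwB z hz u hu hzv.symm hwu h hwz hzu huv
              · rcases arc_or (G := G) hwu with h' | h'
                · exact h3 v hv w hwB u hu h h' huv
                · exact h3 u hu w hwB z hz h' hwz hzu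
            · rcases arc_or (G := G) hzv with h' | h'
              · exact h3 v hv w hwB z hz h hwz h'
              · exact h3 v hv z hz u hu h' hzu huv
    have huD : u ∈ D v := mem_filter.2 ⟨hu, Or.inl huv⟩
    have huD' : u ∉ D u := by
      intro h
      rcases (mem_filter.1 h).2 with h | ⟨z, _, h, h'⟩
      · exact h.ne rfl
      · exact h.asymm h'
    have hlt : (D u).card < (D v).card :=
      card_lt_card ((ssubset_iff_of_subset hsub).2 ⟨u, huD, huD'⟩)
    exact absurd (hvmin u hu) (by omega)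
  refine ⟨v, (hmin {v} (singleton_subset_iff.2 hv) (singleton_nonempty v) ?_).symm⟩
  intro y hy x hx hxy
  rw [mem_singleton] at hy
  subst hy
  exact (hno x (hcl y hv x hx hxy) hxy).elim

/-- minimal in-closed sets containing a triangle are a triangle plus isolated vertices -/
theorem min_inClosed_triangle {G : SimpleGraph V} {c : V → Fin 3} {S B : Finset V}
    (hdia : DiamondFree G)
    (hind : ∀ x ∈ S, ∀ y ∈ S, c x = c y → ¬ G.Adj x y)
    (h2k2 : ∀ x ∈ S, ∀ x' ∈ S, ∀ y ∈ S, ∀ y' ∈ S, c x = c x' → c y = c y' → c x ≠ c y →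
      G.Adj x y → G.Adj x' y' → ¬ G.Adj x y' → ¬ G.Adj x' y → False)
    (htr : ∀ x ∈ S, ∀ y ∈ S, ∀ z ∈ S, c x ≠ c y → c y ≠ c z → c x ≠ c z →
      ¬ G.Adj x y → ¬ G.Adj y z → ¬ G.Adj x z → False)
    (hBS : B ⊆ S) (hcl : InClosed G c S B)
    (hmin : ∀ B' ⊆ B, B'.Nonempty → InClosed G c S B' → B' = B)
    (T : Fin 3 → V) (hT : ∀ i, T i ∈ B) (hcT : ∀ i, c (T i) = i)
    (hadj : ∀ i, G.Adj (T i) (T (i + 1))) : MW G B 1 := by
  classical
  have hTS : ∀ i, T i ∈ S := fun i => hBS (hT i)
  have hadj2 : ∀ i, G.Adj (T (i + 1 + 1)) (T i) := by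
    intro i
    have := hadj (i + 1 + 1)
    rwa [fin3_succ3] at this
  -- the key statement
  have star : ∀ x ∈ S, ∀ w ∈ S, ¬ G.Adj x (T (c x + 1)) → ¬ G.Adj w (T (c w + 1 + 1)) →
      ¬ Arc G c x w := by
    rintro x hx w hw h1 h2 (⟨h3, h4⟩ | ⟨h3, h4⟩)
    · rw [h3, fin3_succ3] at h2
      refine h2k2 x hx (T (c x)) (hTS _) w hw (T (c x + 1)) (hTS _) (hcT _).symm ?_ ?_ h4
        (hadj _) h1 (fun h => h2 h.symm)
      · rw [hcT]; exact h3
      · rw [h3]; exact fin3_succ_ne _
    · rw [h3] at h1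
      refine htr x hx w hw (T (c w + 1 + 1)) (hTS _) ?_ ?_ ?_ h4 h2 h1
      · rw [h3]; exact (fin3_succ_ne _).symm
      · rw [hcT]; exact fin3_succ2_ne _
      · rw [hcT, h3]; exact fin3_succ_ne _
  -- a vertex adjacent to both is in the triangle
  have both : ∀ x ∈ S, G.Adj x (T (c x + 1)) → G.Adj x (T (c x + 1 + 1)) → x = T (c x) := by
    intro x hx h1 h2
    by_contra hne
    exact hind x hx (T (c x)) (hTS _) (hcT _).symm
      (hdia (T (c x + 1)) (T (c x + 1 + 1)) x (T (c x)) (hadj _) h1.symm h2.symm (hadj _).symm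
        (hadj2 _) hne)
  -- the vertices before the triangle
  let Bf : Finset V := B.filter (fun v => G.Adj v (T (c v + 1)) ∧ ¬ G.Adj v (T (c v + 1 + 1)))
  have hBf : InClosed G c S Bf := by
    intro w hw x hx hxw
    obtain ⟨hwB, hw1, hw2⟩ := mem_filter.1 hw
    have hxB : x ∈ B := hcl w hwB x hx hxw
    have h1 : G.Adj x (T (c x + 1)) := by
      by_contra h
      exact star x hx w (hBS hwB) h hw2 hxw
    refine mem_filter.2 ⟨hxB, h1, fun h2 => ?_⟩
    have h3 := both x hx h1 h2
    rcases hxw with ⟨h4, h5⟩ | ⟨h4, h5⟩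
    · rw [h4, fin3_succ3, ← h3] at hw2
      exact hw2 h5.symm
    · rw [← h4, ← h3] at hw1
      exact h5 hw1.symm
  have hBf0 : ∀ v ∈ B, G.Adj v (T (c v + 1)) → G.Adj v (T (c v + 1 + 1)) := by
    by_contra hcon
    push Not at hcon
    obtain ⟨v, hv, h1, h2⟩ := hcon
    have h3 := hmin Bf (filter_subset _ _) ⟨v, mem_filter.2 ⟨hv, h1, h2⟩⟩ hBf
    have h4 : T 0 ∈ Bf := h3 ▸ hT 0
    have h5 := (mem_filter.1 h4).2.2
    rw [hcT] at h5
    exact h5 (hadj2 0).symm
  -- the triangle and its extras
  let X : Finset V := B.filter (fun v => v = T (c v) ∨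
    (¬ G.Adj v (T (c v + 1)) ∧ ¬ G.Adj v (T (c v + 1 + 1))))
  have hX : InClosed G c S X := by
    intro v hv x hx hxv
    obtain ⟨hvB, hv⟩ := mem_filter.1 hv
    have hxB : x ∈ B := hcl v hvB x hx hxv
    refine mem_filter.2 ⟨hxB, ?_⟩
    by_contra hcon
    push Not at hcon
    obtain ⟨hne, hcon⟩ := hcon
    have h1 : ¬ G.Adj x (T (c x + 1)) := fun h => hne (both x hx h (hBf0 x hxB h))
    have h2 : G.Adj x (T (c x + 1 + 1)) := hcon h1
    rcases hv with hv | ⟨hv1, hv2⟩
    · rcases hxv with ⟨h4, h5⟩ | ⟨h4, h5⟩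
      · rw [← h4, ← hv] at h1
        exact h1 h5
      · rw [h4, fin3_succ3, ← hv] at h2
        exact h5 h2
    · exact star x hx v (hBS hvB) h1 hv2 hxv
  have hXB : ∀ v ∈ B, v = T (c v) ∨ (¬ G.Adj v (T (c v + 1)) ∧ ¬ G.Adj v (T (c v + 1 + 1))) := by
    intro v hv
    have h1 : T 0 ∈ X := mem_filter.2 ⟨hT 0, Or.inl (by rw [hcT])⟩
    have h2 := hmin X (filter_subset _ _) ⟨T 0, h1⟩ hX
    have h3 : v ∈ X := h2 ▸ hv
    exact (mem_filter.1 h3).2
  -- adjacent vertices are in the triangle
  have hadjX : ∀ u ∈ B, ∀ v ∈ B, G.Adj u v → u = T (c u) := by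
    intro u hu v hv huv
    by_contra hne
    obtain ⟨hu1, hu2⟩ := (hXB u hu).resolve_left hne
    rcases fin3_cases (c u) (c v) with h | h | h
    · exact hind u (hBS hu) v (hBS hv) h huv
    · rcases hXB v hv with h1 | ⟨h1, h2⟩
      · rw [← h, ← h1] at hu1
        exact hu1 huv
      · exact star u (hBS hu) v (hBS hv) hu1 h2 (Or.inl ⟨h, huv⟩)
    · rcases hXB v hv with h1 | ⟨h1, h2⟩
      · rw [h, fin3_succ3, ← h1] at hu2
        exact hu2 huv
      · exact star v (hBS hv) u (hBS hu) h1 hu2 (Or.inl ⟨h, huv.symm⟩)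
  refine MW.cluster (fun a ha b hb d hd hab hbd hne => ?_)
  have ea := hadjX a ha b hb hab
  have ed := hadjX d hd b hb hbd.symm
  have hcc : c a ≠ c d := fun h => hne (by rw [ea, ed, h])
  rcases fin3_cases (c a) (c d) with h | h | h
  · exact absurd h hcc
  · rw [ea, ed, h]; exact hadj _
  · rw [ea, ed, h]; exact (hadj _).symm

theorem MW.block3 {G : SimpleGraph V} {S : Finset V} (c : V → Fin 3)
    (hdia : DiamondFree G)
    (hind : ∀ x ∈ S, ∀ y ∈ S, c x = c y → ¬ G.Adj x y)
    (h2k2 : ∀ x ∈ S, ∀ x' ∈ S, ∀ y ∈ S, ∀ y' ∈ S, c x = c x' → c y = c y' → c x ≠ c y →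
      G.Adj x y → G.Adj x' y' → ¬ G.Adj x y' → ¬ G.Adj x' y → False)
    (htr : ∀ x ∈ S, ∀ y ∈ S, ∀ z ∈ S, c x ≠ c y → c y ≠ c z → c x ≠ c z →
      ¬ G.Adj x y → ¬ G.Adj y z → ¬ G.Adj x z → False) : MW G S 7 := by
  classical
  have main : MW G S (3 * 1) := by
    refine MW.of_peel le_rfl c (fun i j => j = i + 1) (fun T => T ⊆ S) ?_ S Subset.rfl
    intro T hTS hTne
    obtain ⟨B, hBT, hBne, hcl, hmin⟩ := exists_min_inClosed G c hTne
    have hBS : B ⊆ S := hBT.trans hTS
    refine ⟨B, hBT, hBne, ?_, sdiff_subset.trans hTS, ?_⟩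
    · by_cases htri : ∃ x ∈ B, ∃ y ∈ B, ∃ z ∈ B, G.Adj x y ∧ G.Adj y z ∧ G.Adj z x ∧
        c y = c x + 1 ∧ c z = c y + 1
      · obtain ⟨x, hx, y, hy, z, hz, hxy, hyz, hzx, h1, h2⟩ := htri
        have h3 : c z = c x + 1 + 1 := by rw [h2, h1]
        let T3 : Fin 3 → V := fun i => if i = c x then x else if i = c x + 1 then y else z
        have e0 : T3 (c x) = x := by simp [T3]
        have e1 : T3 (c x + 1) = y := by
          simp [T3]
        have e2 : T3 (c x + 1 + 1) = z := by
          have h5 : c x + 1 + 1 ≠ c x := (fin3_succ2_ne _).symm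
          have h6 : c x + 1 + 1 ≠ c x + 1 := (fin3_succ_ne _).symm
          simp only [T3, h5, h6, if_false]
        have hcase : ∀ i : Fin 3, i = c x ∨ i = c x + 1 ∨ i = c x + 1 + 1 := by
          generalize c x = j
          revert j
          decide
        refine min_inClosed_triangle hdia (fun a ha b hb => hind a (hTS ha) b (hTS hb))
          (fun a ha a' ha' b hb b' hb' => h2k2 a (hTS ha) a' (hTS ha') b (hTS hb) b' (hTS hb'))
          (fun a ha b hb d hd => htr a (hTS ha) b (hTS hb) d (hTS hd)) hBT hcl hmin T3 ?_ ?_ ?_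
        · intro i
          rcases hcase i with rfl | rfl | rfl
          · rw [e0]; exact hx
          · rw [e1]; exact hy
          · rw [e2]; exact hz
        · intro i
          rcases hcase i with rfl | rfl | rfl
          · rw [e0]
          · rw [e1]; exact h1
          · rw [e2]; exact h3
        · intro i
          rcases hcase i with rfl | rfl | rfl
          · rw [e0, e1]; exact hxy
          · rw [e1, e2]; exact hyz
          · rw [e2, fin3_succ3, e0]; exact hzx
      · obtain ⟨v, hv⟩ := min_inClosed_single hBne hcl hmin (c := c) (G := G) (by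
          intro x hx y hy z hz h1 h2 h3
          rcases arc_three h1 h2 h3 with ⟨a1, a2, a3, a4, a5⟩ | ⟨a1, a2, a3⟩
          · exact htri ⟨x, hx, y, hy, z, hz, a1, a2, a3, a4, a5⟩
          · exact htr x (hBS hx) y (hBS hy) z (hBS hz) h1.ne h2.ne h3.ne.symm a1 a2
              (fun h => a3 h.symm)) (by
          intro x hx y hy x' hx' y' hy' e1 e2 h1 h2 h3 h4
          have hne : c x ≠ c y := h1.ne
          rcases h1 with ⟨b1, a1⟩ | ⟨b1, a1⟩
          · -- c y = c x + 1, x ~ y
            have n1 : c x ≠ c y + 1 := by rw [b1]; exact fin3_succ2_ne _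
            have a2 : ¬ G.Adj y x' := by
              rcases h2 with ⟨b, _⟩ | ⟨_, b⟩
              · rw [← e1] at b; exact absurd b n1
              · exact b
            have a3 : G.Adj x' y' := by
              rcases h3 with ⟨_, b⟩ | ⟨b, _⟩
              · exact b
              · rw [← e1, ← e2] at b; exact absurd b n1
            have a4 : ¬ G.Adj y' x := by
              rcases h4 with ⟨b, _⟩ | ⟨_, b⟩
              · rw [← e2] at b; exact absurd b n1
              · exact b
            exact h2k2 x (hBS hx) x' (hBS hx') y (hBS hy) y' (hBS hy') e1 e2 hne a1 a3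
              (fun h => a4 h.symm) (fun h => a2 h.symm)
          · -- c x = c y + 1, x ≁ y
            have n1 : c y ≠ c x + 1 := by rw [b1]; exact fin3_succ2_ne _
            have a2 : G.Adj y x' := by
              rcases h2 with ⟨_, b⟩ | ⟨b, _⟩
              · exact b
              · rw [← e1] at b; exact absurd b n1
            have a3 : ¬ G.Adj x' y' := by
              rcases h3 with ⟨b, _⟩ | ⟨_, b⟩
              · rw [← e1, ← e2] at b; exact absurd b n1
              · exact b
            have a4 : G.Adj y' x := by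
              rcases h4 with ⟨_, b⟩ | ⟨b, _⟩
              · exact b
              · rw [← e2] at b; exact absurd b n1
            exact h2k2 x' (hBS hx') x (hBS hx) y (hBS hy) y' (hBS hy') e1.symm e2
              (by rw [← e1]; exact hne) a2.symm a4.symm a3 a1)
        rw [hv]
        exact Or.inr (.single v)
    · intro x hx y hy hyB
      by_cases hc : c x = c y
      · constructor
        · intro h
          exact absurd h (hind x (hBS hx) y (hTS hy) hc)
        · intro h
          rw [hc] at h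
          exact absurd h (fin3_succ_ne _)
      · have h1 : ¬ Arc G c y x := fun h => hyB (hcl x hx y hy h)
        rcases (arc_or (G := G) hc).resolve_right h1 with ⟨h2, h3⟩ | ⟨h2, h3⟩
        · exact ⟨fun _ => h2, fun _ => h3⟩
        · refine ⟨fun h => absurd h h3, fun h => ?_⟩
          rw [h] at h2
          exact absurd h2 (fin3_succ2_ne _)
  exact main.mono (by norm_num)

end Pool.Agent.Lib80.CW
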