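import Pool.Agent.Lib_helper80.CW.CheckK
import Pool.Agent.Lib_helper80.CW.Bip

/-!
# Graphs containing an induced `C₆`
-/

namespace Pool.Agent.Lib80.CW

open Finset

universe u

set_option linter.unusedSectionVars false

/-- combine a list of deletion statements -/
theorem del_list {V : Type u} [DecidableEq V] {ι : Type*} (L : List ι) (Q : ι → Finset V → Prop)
    (mono : ∀ i, ∀ D D' : Finset V, D ⊆ D' → Q i D → Q i D')
    (h : ∀ i ∈ L, ∃ D : Finset V, D.card ≤ 1 ∧ Q i D) :
    ∃ D : Finset V, D.card ≤ L.length ∧ ∀ i ∈ L, Q i D := by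
  induction L with
  | nil => exact ⟨∅, by simp, by simp⟩
  | cons i L ih =>
    obtain ⟨D, hD, hQ⟩ := ih (fun j hj => h j (List.mem_cons_of_mem _ hj))
    obtain ⟨D', hD', hQ'⟩ := h i List.mem_cons_self
    refine ⟨D' ∪ D, (card_union_le _ _).trans (by simp only [List.length_cons]; omega), ?_⟩
    intro j hj
    rcases List.mem_cons.1 hj with rfl | hj
    · exact mono _ _ _ subset_union_left hQ'
    · exact mono _ _ _ subset_union_right (hQ j hj)

/-- the 6-cycle -/
def FC6 : Pat := fun i j => (i + 1) % 6 == j || (j + 1) % 6 == i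

namespace C6

/-- codes of independent classes -/
def ind : List ℕ := [5, 17, 20, 21, 10, 34, 40, 42, 9, 18, 36]
/-- codes of clique classes -/
def cl : List ℕ := [3, 6, 12, 24, 48, 33]
/-- codes of singletons -/
def sg : List ℕ := [11, 19, 13, 37, 25, 41, 22, 38, 26, 50, 44, 52, 27, 45, 54]
/-- attached to the odd vertices -/
def odd : List ℕ := [5, 17, 20, 21]
/-- attached to the even vertices -/
def even : List ℕ := [10, 34, 40, 42]
/-- antipodal -/
def anti : List ℕ := [9, 18, 36]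

def L1 : List Emb := [.dia 1 6 0 2, .dia 4 6 3 5, .dia 2 6 1 3, .dia 0 6 1 5, .dia 3 6 2 4,
  .dia 5 6 0 4, .p15 6 2 1 0 5 4, .p15 6 1 2 3 4 5, .p15 6 2 3 4 5 0, .p15 6 1 0 5 4 3,
  .p15 6 5 0 1 2 3, .p15 6 0 1 2 3 4]

theorem chk1 : ∀ T, T < 64 → T ∈ ind ++ cl ++ sg ∨
    found false (6 + 1) (pat 6 FC6 (tl [T]) (El [])) L1 = true := by
  decide

def L2 : List Emb := [.dia 6 7 0 2, .dia 6 7 1 3, .dia 6 7 0 4, .dia 6 7 2 4, .dia 6 7 1 5,
  .dia 6 7 3 5, .dia 6 7 0 3, .dia 6 7 1 4, .dia 6 7 2 5]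

theorem chk2 : ∀ T ∈ ind, found false (6 + 2) (pat 6 FC6 (tl [T, T]) (El [true])) L2 = true := by
  decide

def L3 : List Emb := [.dia 0 1 6 7, .dia 1 2 6 7, .dia 2 3 6 7, .dia 3 4 6 7, .dia 4 5 6 7,
  .dia 0 5 6 7]

theorem chk3 : ∀ T ∈ cl, found false (6 + 2) (pat 6 FC6 (tl [T, T]) (El [false])) L3 = true := by
  decide

def L4 : List Emb := [.dia 6 7 0 3, .dia 6 7 1 4, .dia 6 7 2 5, .dia 0 1 6 7, .dia 2 3 6 7,
  .dia 1 2 6 7, .dia 0 5 6 7, .dia 3 4 6 7, .dia 4 5 6 7]

theorem chk4 : ∀ T ∈ sg, ∀ b : Bool,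
    found false (6 + 2) (pat 6 FC6 (tl [T, T]) (El [b])) L4 = true := by
  decide

def L5 : List Emb := [.p15 6 1 2 7 4 5, .p15 6 2 1 7 5 4, .p15 6 5 0 7 2 3, .p15 6 2 3 7 5 0,
  .p15 6 1 0 7 4 3, .p15 6 0 1 7 3 4, .p15 1 5 4 3 6 7, .p15 5 1 2 3 6 7, .p15 2 4 5 0 6 7,
  .p15 4 2 1 0 6 7, .p15 6 2 1 7 4 5, .p15 4 6 0 1 2 7, .p15 5 3 2 1 6 7, .p15 3 5 0 1 6 7,
  .p15 2 0 5 4 6 7, .p15 0 2 3 4 6 7, .p15 5 6 1 2 3 7, .p15 3 6 1 0 5 7, .p15 1 3 4 5 6 7,
  .p15 3 1 0 5 6 7, .p15 0 4 3 2 6 7, .p15 4 0 1 2 6 7, .p15 7 1 2 6 5 4, .p15 0 6 2 3 4 7]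

theorem chk5 : ∀ A ∈ anti, ∀ T ∈ ind, A = T ∨
    found false (6 + 2) (pat 6 FC6 (tl [A, T]) (El [true])) L5 = true ∨
    found false (6 + 2) (pat 6 FC6 (tl [A, T]) (El [false])) L5 = true := by
  decide

def L6 : List Emb := [.dia 6 7 0 2, .dia 6 7 0 4, .dia 6 7 2 4, .dia 6 7 1 3, .dia 6 7 1 5,
  .dia 6 7 3 5]

def sds : List (ℕ × ℕ) := [(5, 21), (17, 21), (20, 21), (10, 42), (34, 42), (40, 42)]

theorem chk6 : ∀ q ∈ sds,
    found false (6 + 2) (pat 6 FC6 (tl [q.1, q.2]) (El [true])) L6 = true := by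
  decide

def prs : List (ℕ × ℕ) := [(5, 17), (5, 20), (17, 20), (10, 34), (10, 40), (34, 40)]

def L7 : List Emb := [.dia 0 6 7 8, .dia 2 6 7 8, .dia 4 6 7 8, .dia 1 6 7 8, .dia 3 6 7 8,
  .dia 5 6 7 8]

theorem chk7 : ∀ q ∈ prs, found false (6 + 3) (pat 6 FC6 (tl [q.1, q.2, q.2])
      (El [true, true, false])) L7 = true ∧
    found false (6 + 3) (pat 6 FC6 (tl [q.2, q.1, q.1])
      (El [true, true, false])) L7 = true := by
  decide

def L8 : List Emb := [.p15 5 8 6 2 7 9, .p15 5 6 8 2 9 7, .p15 2 6 8 5 9 7, .p15 0 6 8 3 9 7,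
  .p15 4 6 8 1 9 7, .p15 3 8 6 0 7 9, .p15 1 8 6 4 7 9, .p15 1 6 8 4 9 7, .p15 3 6 8 0 9 7]

theorem chk8 : ∀ q ∈ prs, found false (6 + 4) (pat 6 FC6 (tl [q.1, q.1, q.2, q.2])
      (El [false, true, false, false, true, false])) L8 = true := by
  decide


variable {V : Type u} [DecidableEq V] [Fintype V] {G : SimpleGraph V} {p : ℕ → V}

section

variable (hf : Frame G 6 FC6 p) (hd : DiamondFree G) (hp : P15Free G)

include hf hd hp

theorem code_mem {v : V} (hv : ∀ i < 6, v ≠ p i) : code G 6 p v ∈ ind ++ cl ++ sg := by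
  rcases chk1 (code G 6 p v) (code_lt G 6 p v) with h | h
  · exact h
  · exact (hf.no1 hd hp (by simp) v hv _ rfl _ h).elim

theorem ind_nadj {v w : V} (hv : ∀ i < 6, v ≠ p i) (hw : ∀ i < 6, w ≠ p i)
    (h : code G 6 p v = code G 6 p w) (hi : code G 6 p v ∈ ind) : ¬ G.Adj v w := by
  intro hvw
  exact hf.no2 hd hp (by simp) v w hvw.ne hv hw _ _ rfl h.symm true (by simp [hvw]) _ (chk2 _ hi)

theorem cl_adj {v w : V} (hvw : v ≠ w) (hv : ∀ i < 6, v ≠ p i) (hw : ∀ i < 6, w ≠ p i)
    (h : code G 6 p v = code G 6 p w) (hi : code G 6 p v ∈ cl) : G.Adj v w := by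
  by_contra hn
  exact hf.no2 hd hp (by simp) v w hvw hv hw _ _ rfl h.symm false (by simp [hn]) _ (chk3 _ hi)

theorem sg_eq {v w : V} (hv : ∀ i < 6, v ≠ p i) (hw : ∀ i < 6, w ≠ p i)
    (h : code G 6 p v = code G 6 p w) (hi : code G 6 p v ∈ sg) : v = w := by
  by_contra hvw
  classical
  exact hf.no2 hd hp (by simp) v w hvw hv hw _ _ rfl h.symm (decide (G.Adj v w)) (by simp) _
    (chk4 _ hi _)

theorem anti_hom {v w v' w' : V} (hv : ∀ i < 6, v ≠ p i) (hw : ∀ i < 6, w ≠ p i)
    (hv' : ∀ i < 6, v' ≠ p i) (hw' : ∀ i < 6, w' ≠ p i)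
    (h1 : code G 6 p v = code G 6 p v') (h2 : code G 6 p w = code G 6 p w')
    (ha : code G 6 p v ∈ anti) (hi : code G 6 p w ∈ ind) (hne : code G 6 p v ≠ code G 6 p w) :
    G.Adj v w ↔ G.Adj v' w' := by
  have hvw : v ≠ w := fun h => hne (by rw [h])
  have hvw' : v' ≠ w' := fun h => hne (by rw [h1, h2, h])
  rcases chk5 _ ha _ hi with h | h | h
  · exact absurd h hne
  · have e1 : ¬ G.Adj v w := fun h' =>
      hf.no2 hd hp (by simp) v w hvw hv hw _ _ rfl rfl true (by simp [h']) _ h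
    have e2 : ¬ G.Adj v' w' := fun h' =>
      hf.no2 hd hp (by simp) v' w' hvw' hv' hw' _ _ h1.symm h2.symm true (by simp [h']) _ h
    exact ⟨fun h' => absurd h' e1, fun h' => absurd h' e2⟩
  · have e1 : G.Adj v w := by
      by_contra h'
      exact hf.no2 hd hp (by simp) v w hvw hv hw _ _ rfl rfl false (by simp [h']) _ h
    have e2 : G.Adj v' w' := by
      by_contra h'
      exact hf.no2 hd hp (by simp) v' w' hvw' hv' hw' _ _ h1.symm h2.symm false (by simp [h']) _ h
    exact ⟨fun _ => e2, fun _ => e1⟩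

theorem side_nadj {v w : V} (hv : ∀ i < 6, v ≠ p i) (hw : ∀ i < 6, w ≠ p i) (q : ℕ × ℕ)
    (hq : q ∈ sds) (h1 : code G 6 p v = q.1) (h2 : code G 6 p w = q.2) : ¬ G.Adj v w := by
  intro hvw
  exact hf.no2 hd hp (by simp) v w hvw.ne hv hw _ _ h1 h2 true (by simp [hvw]) _ (chk6 q hq)

/-- at most one edge between two partially attached classes on the same side -/
theorem one_edge (q : ℕ × ℕ) (hq : q ∈ prs) : ∃ D : Finset V, D.card ≤ 1 ∧
    ∀ v w, v ∉ D → w ∉ D → (∀ i < 6, v ≠ p i) → (∀ i < 6, w ≠ p i) → code G 6 p v = q.1 →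
      code G 6 p w = q.2 → ¬ G.Adj v w := by
  have hne : ∀ q ∈ prs, q.1 ≠ q.2 := by decide
  have hqi : ∀ q ∈ prs, q.1 ∈ ind ∧ q.2 ∈ ind := by decide
  by_cases hex : ∃ v w, (∀ i < 6, v ≠ p i) ∧ (∀ i < 6, w ≠ p i) ∧ code G 6 p v = q.1 ∧
      code G 6 p w = q.2 ∧ G.Adj v w
  · obtain ⟨v, w, hv, hw, cv, cw, hvw⟩ := hex
    refine ⟨{v}, by simp, ?_⟩
    intro v' w' hv'D hw'D hv' hw' cv' cw' hvw'
    have hvv' : v ≠ v' := fun h => hv'D (by simp [h])
    have n1 : ¬ G.Adj v v' := ind_nadj hf hd hp hv hv' (by rw [cv, cv'])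
      (by rw [cv]; exact (hqi q hq).1)
    by_cases hww' : w = w'
    · subst hww'
      exact hf.no3 hd hp (by simp) w v v' hvw.ne.symm hvw'.ne.symm hvv' hw hv hv' _ _ _ cw cv cv'
        true true false (by simp [hvw.symm]) (by simp [hvw'.symm]) (by simp [n1]) _ (chk7 q hq).2
    · have n2 : ¬ G.Adj w w' := ind_nadj hf hd hp hw hw' (by rw [cw, cw'])
        (by rw [cw]; exact (hqi q hq).2)
      by_cases e1 : G.Adj v w'
      · exact hf.no3 hd hp (by simp) v w w' hvw.ne e1.ne hww' hv hw hw' _ _ _ cv cw cw'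
          true true false (by simp [hvw]) (by simp [e1]) (by simp [n2]) _ (chk7 q hq).1
      · by_cases e2 : G.Adj v' w
        · exact hf.no3 hd hp (by simp) w v v' hvw.ne.symm e2.ne.symm hvv' hw hv hv' _ _ _ cw cv cv'
            true true false (by simp [hvw.symm]) (by simp [e2.symm]) (by simp [n1]) _ (chk7 q hq).2
        · have d1 : v ≠ w' := fun h => hne q hq (by rw [← cv, ← cw', h])
          have d2 : v' ≠ w := fun h => hne q hq (by rw [← cv', ← cw, h])
          exact hf.no4 hd hp (by simp) v v' w w' hvv' hvw.ne d2 d1 hvw'.ne hww' hv hv' hw hw'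
            _ _ _ _ cv cv' cw cw' false true false false true false (by simp [n1]) (by simp [hvw])
            (by simp [e2]) (by simp [e1]) (by simp [hvw']) (by simp [n2]) _ (chk8 q hq)
  · refine ⟨∅, by simp, ?_⟩
    intro v w _ _ hv hw cv cw hvw
    exact hex ⟨v, w, hv, hw, cv, cw, hvw⟩


theorem c6_frame {c : ℕ} (hc : CliquesLT G c) : MW G univ (3 ^ (6 * c + 40) * 256) := by
  classical
  -- the deleted sets
  obtain ⟨D1, hD1, hD1'⟩ := del_list prs (fun q D => ∀ v w, v ∉ D → w ∉ D →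
    (∀ i < 6, v ≠ p i) → (∀ i < 6, w ≠ p i) → code G 6 p v = q.1 →
      code G 6 p w = q.2 → ¬ G.Adj v w)
    (fun q D D' hDD h v w hv hw => h v w (fun h' => hv (hDD h')) (fun h' => hw (hDD h')))
    (fun q hq => one_edge hf hd hp q hq)
  let D0 : Finset V := (range 6).image p
  have hD0 : D0.card ≤ 6 := card_image_le.trans (by simp)
  have hD0' : ∀ v, v ∉ D0 → ∀ i < 6, v ≠ p i := by
    intro v hv i hi h
    exact hv (mem_image.2 ⟨i, mem_range.2 hi, h.symm⟩)
  let D2 : Finset V := univ.filter (fun v => v ∉ D0 ∧ code G 6 p v ∈ sg)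
  have hD2 : D2.card ≤ 15 := by
    refine (card_le_card_of_injOn (t := sg.toFinset) (fun v => code G 6 p v) ?_ ?_).trans
      (by decide)
    · intro v hv
      have := (mem_filter.1 hv).2.2
      exact List.mem_toFinset.2 this
    · intro v hv w hw hvw
      have h1 := (mem_filter.1 hv).2
      have h2 := (mem_filter.1 hw).2
      exact sg_eq hf hd hp (hD0' v h1.1) (hD0' w h2.1) hvw h1.2
  let D3 : Finset V := cl.toFinset.biUnion (fun T => univ.filter (fun v => v ∉ D0 ∧ code G 6 p v = T))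
  have hD3 : D3.card ≤ 6 * c := by
    refine (card_biUnion_le_card_mul _ _ c ?_).trans (Nat.mul_le_mul_right _ (by decide))
    intro T hT
    refine (hc _ ?_).le
    intro v hv w hw hvw
    have h1 := (mem_filter.1 (mem_coe.1 hv)).2
    have h2 := (mem_filter.1 (mem_coe.1 hw)).2
    refine cl_adj hf hd hp hvw (hD0' v h1.1) (hD0' w h2.1) (by rw [h1.2, h2.2]) ?_
    rw [h1.2]; exact List.mem_toFinset.1 hT
  let D : Finset V := D0 ∪ (D1 ∪ (D2 ∪ D3))
  have hD : D.card ≤ 6 * c + 40 := by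
    have h1 := card_union_le D0 (D1 ∪ (D2 ∪ D3))
    have h2 := card_union_le D1 (D2 ∪ D3)
    have h3 := card_union_le D2 D3
    have h4 : prs.length = 6 := rfl
    simp only [D]
    omega
  refine MW.of_sdiff D hD (by norm_num) ?_
  have hS : ∀ v ∈ (univ : Finset V) \ D, (∀ i < 6, v ≠ p i) ∧ v ∉ D1 ∧ code G 6 p v ∈ ind := by
    intro v hv
    rw [mem_sdiff] at hv
    simp only [D, mem_union, not_or] at hv
    obtain ⟨_, h0, h1, h2, h3⟩ := hv
    have hfr := hD0' v h0
    refine ⟨hfr, h1, ?_⟩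
    have := code_mem hf hd hp hfr
    rw [List.mem_append, List.mem_append] at this
    rcases this with (h | h) | h
    · exact h
    · exact absurd (mem_biUnion.2 ⟨_, List.mem_toFinset.2 h, mem_filter.2 ⟨mem_univ _, h0, rfl⟩⟩) h3
    · exact absurd (mem_filter.2 ⟨mem_univ _, h0, h⟩) h2
  -- side lemma
  have hodd_even : ∀ T ∈ ind, T ∈ odd ∨ T ∈ even ∨ T ∈ anti := by decide
  have hside : ∀ v ∈ (univ : Finset V) \ D, ∀ w ∈ (univ : Finset V) \ D,
      ((code G 6 p v ∈ odd ∧ code G 6 p w ∈ odd) ∨ (code G 6 p v ∈ even ∧ code G 6 p w ∈ even)) →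
      ¬ G.Adj v w := by
    intro v hv w hw h
    obtain ⟨v1, v2, v3⟩ := hS v hv
    obtain ⟨w1, w2, w3⟩ := hS w hw
    have hcases : ∀ A B : ℕ, ((A ∈ odd ∧ B ∈ odd) ∨ (A ∈ even ∧ B ∈ even)) → A = B ∨ (A, B) ∈ prs ∨
        (B, A) ∈ prs ∨ (A, B) ∈ sds ∨ (B, A) ∈ sds := by
      have : ∀ L ∈ [odd, even], ∀ A ∈ L, ∀ B ∈ L, A = B ∨ (A, B) ∈ prs ∨
        (B, A) ∈ prs ∨ (A, B) ∈ sds ∨ (B, A) ∈ sds := by decide
      rintro A B (⟨h1, h2⟩ | ⟨h1, h2⟩)
      · exact this odd (by simp) A h1 B h2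
      · exact this even (by simp) A h1 B h2
    rcases hcases _ _ h with h | h | h | h | h
    · exact ind_nadj hf hd hp v1 w1 h v3
    · exact hD1' _ h v w v2 w2 v1 w1 rfl rfl
    · exact fun h' => hD1' _ h w v w2 v2 w1 v1 rfl rfl h'.symm
    · exact side_nadj hf hd hp v1 w1 _ h rfl rfl
    · exact fun h' => side_nadj hf hd hp w1 v1 _ h rfl rfl h'.symm
  let β : V → ℕ := fun v => if code G 6 p v = 9 then 1 else if code G 6 p v = 18 then 2 else
    if code G 6 p v = 36 then 3 else 0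
  have hβ : ∀ v, β v ≠ 0 → code G 6 p v ∈ anti := by
    intro v hv
    simp only [β] at hv
    by_cases h1 : code G 6 p v = 9
    · rw [h1]; decide
    · by_cases h2 : code G 6 p v = 18
      · rw [h2]; decide
      · by_cases h3 : code G 6 p v = 36
        · rw [h3]; decide
        · simp [h1, h2, h3] at hv
  have hlt : ∀ v, code G 6 p v < 64 := fun v => code_lt G 6 p v
  refine MW.of_blocks (K := 64) (m := 4) (by norm_num) β
    (fun v => ⟨code G 6 p v, hlt v⟩) ?_ ?_
  · intro x hx x' hx' y hy y' hy' hcx hcy hxy hxy'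
    rw [Fin.mk.injEq] at hcx hcy
    obtain ⟨x1, x2, x3⟩ := hS x hx
    obtain ⟨y1, y2, y3⟩ := hS y hy
    obtain ⟨x1', x2', x3'⟩ := hS x' hx'
    obtain ⟨y1', y2', y3'⟩ := hS y' hy'
    have hya : code G 6 p y ∈ anti := hβ y (by omega)
    have hne : code G 6 p y ≠ code G 6 p x := by
      intro h
      have : β x = β y := by simp only [β, h]
      omega
    rw [G.adj_comm x y, G.adj_comm x' y']
    exact anti_hom hf hd hp y1 x1 y1' x1' hcy hcx hya x3 hne
  · intro i
    by_cases hi : i = 0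
    · subst hi
      have hoe : ∀ v ∈ ((univ : Finset V) \ D).filter (fun v => β v = 0),
          code G 6 p v ∈ odd ∨ code G 6 p v ∈ even := by
        intro v hv
        rw [mem_filter] at hv
        rcases hodd_even _ (hS v hv.1).2.2 with h | h | h
        · exact Or.inl h
        · exact Or.inr h
        · exfalso
          have h1 : ∀ T ∈ anti, T = 9 ∨ T = 18 ∨ T = 36 := by decide
          have := hv.2
          simp only [β] at this
          rcases h1 _ h with h2 | h2 | h2 <;> rw [h2] at this <;> simp at this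
      have hnot : ∀ T, T ∈ even → T ∉ odd := by
        have : ∀ T ∈ even, T ∉ odd := by decide
        exact this
      refine MW.bip_cochain (fun v => decide (code G 6 p v ∈ odd)) ?_ ?_
      · intro x hx y hy hxy
        have hx' := hoe x hx
        have hy' := hoe y hy
        refine hside x (mem_filter.1 hx).1 y (mem_filter.1 hy).1 ?_
        rcases hx' with hx' | hx' <;> rcases hy' with hy' | hy'
        · exact Or.inl ⟨hx', hy'⟩
        · have := hnot _ hy'
          simp [hx', this] at hxy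
        · have := hnot _ hx'
          simp [hy', this] at hxy
        · exact Or.inr ⟨hx', hy'⟩
      · intro t a ha d hd' z hz b hb e he ca cz ce cd cb n1 n2 n3 n4 e1 e2
        -- a common neighbour of b and d on the frame
        have key : ∀ A B : List ℕ, (A = odd ∧ B = even ∨ A = even ∧ B = odd) →
            code G 6 p a ∈ A → code G 6 p z ∈ A → code G 6 p e ∈ A → code G 6 p d ∈ B →
            code G 6 p b ∈ B → False := by
          intro A B hAB hA1 hA2 hA3 hB1 hB2
          have hchk : ∀ q ∈ [(odd, even), (even, odd)], ∀ T ∈ q.2, ∀ T' ∈ q.2, ∃ i < 6,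
              T.testBit i = true ∧ T'.testBit i = true ∧ ∀ U ∈ q.1, U.testBit i = false := by
            decide
          have hABq : (A, B) ∈ [(odd, even), (even, odd)] := by
            rcases hAB with ⟨rfl, rfl⟩ | ⟨rfl, rfl⟩ <;> simp
          obtain ⟨i, hi, h1, h2, h3⟩ := hchk _ hABq _ hB1 _ hB2
          have sA : ∀ u ∈ ((univ : Finset V) \ D).filter (fun v => β v = 0),
              ∀ w ∈ ((univ : Finset V) \ D).filter (fun v => β v = 0),
              (code G 6 p u ∈ A ∧ code G 6 p w ∈ A ∨ code G 6 p u ∈ B ∧ code G 6 p w ∈ B) →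
              ¬ G.Adj u w := by
            intro u hu w hw h
            refine hside u (mem_filter.1 hu).1 w (mem_filter.1 hw).1 ?_
            rcases hAB with ⟨rfl, rfl⟩ | ⟨rfl, rfl⟩
            · exact h
            · exact h.symm
          have pd : G.Adj (p i) d := ((testBit_code G p d hi).1 h1).symm
          have pb : G.Adj (p i) b := ((testBit_code G p b hi).1 h2).symm
          have pn : ∀ u, code G 6 p u ∈ A → ¬ G.Adj u (p i) := by
            intro u hu h'
            have := (testBit_code G p u hi).2 h'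
            rw [h3 _ hu] at this
            exact absurd this (by simp)
          exact hp z a b (p i) d e e1 pb.symm pd e2.symm (pn a hA1) n1
            (sA a ha e he (Or.inl ⟨hA1, hA3⟩)) (sA b hb d hd' (Or.inr ⟨hB2, hB1⟩))
            (fun h => n4 h.symm) (fun h => pn e hA3 h.symm) (sA z hz a ha (Or.inl ⟨hA2, hA1⟩))
            n3 (pn z hA2) n2 (sA z hz e he (Or.inl ⟨hA2, hA3⟩))
        have hmem : ∀ u ∈ ((univ : Finset V) \ D).filter (fun v => β v = 0), ∀ s : Bool,
            decide (code G 6 p u ∈ odd) = s → code G 6 p u ∈ (if s = true then odd else even) := by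
          intro u hu s hs
          rcases s with _ | _
          · simp only [decide_eq_false_iff_not] at hs
            simpa using (hoe u hu).resolve_left hs
          · simpa using hs
        cases t
        · exact key even odd (Or.inr ⟨rfl, rfl⟩) (hmem a ha _ ca) (hmem z hz _ cz) (hmem e he _ ce)
            (hmem d hd' _ cd) (hmem b hb _ cb)
        · exact key odd even (Or.inl ⟨rfl, rfl⟩) (hmem a ha _ ca) (hmem z hz _ cz) (hmem e he _ ce)
            (hmem d hd' _ cd) (hmem b hb _ cb)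
    · refine (MW.indep ?_).mono (by norm_num)
      intro a ha b hb
      rw [mem_filter] at ha hb
      have h1 : code G 6 p a = code G 6 p b := by
        have hh : ∀ v, β v = i → code G 6 p v = if i = 1 then 9 else if i = 2 then 18 else 36 := by
          intro v hv
          simp only [β] at hv
          by_cases h1 : code G 6 p v = 9
          · simp [h1] at hv; subst hv; simp [h1]
          · by_cases h2 : code G 6 p v = 18
            · simp [h2] at hv; subst hv; simp [h2]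
            · by_cases h3 : code G 6 p v = 36
              · simp [h3] at hv; subst hv; simp [h3]
              · simp [h1, h2, h3] at hv; exact absurd hv.symm hi
        rw [hh a ha.2, hh b hb.2]
      exact ind_nadj hf hd hp (hS a ha.1).1 (hS b hb.1).1 h1 (hS a ha.1).2.2

end

end C6

/-- the `C₆` case -/
theorem c6_case {V : Type u} [Fintype V] [DecidableEq V] {G : SimpleGraph V} (hd : DiamondFree G)
    (hp : P15Free G) (h6 : ¬ C6Free G) {c : ℕ} (hc : CliquesLT G c) :
    MW G univ (3 ^ (6 * c + 40) * 256) := by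
  by_contra hcon
  refine h6 (fun a b x d e f h1 h2 h3 h4 h5 h6' n1 n2 n3 n4 n5 n6 n7 n8 n9 => hcon ?_)
  have hfr : Frame G 6 FC6 (fun i => [a, b, x, d, e, f].getD i a) := by
    refine Frame.of_adj ?_ (by decide)
    have m1 : ¬ G.Adj x a := fun h => n1 h.symm
    have m2 : ¬ G.Adj d a := fun h => n2 h.symm
    have m3 : ¬ G.Adj e a := fun h => n3 h.symm
    have m4 : ¬ G.Adj d b := fun h => n4 h.symm
    have m5 : ¬ G.Adj e b := fun h => n5 h.symm
    have m6 : ¬ G.Adj f b := fun h => n6 h.symm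
    have m7 : ¬ G.Adj e x := fun h => n7 h.symm
    have m8 : ¬ G.Adj f x := fun h => n8 h.symm
    have m9 : ¬ G.Adj f d := fun h => n9 h.symm
    intro i hi j hj
    interval_cases i <;> interval_cases j <;>
      simp [FC6, h1, h2, h3, h4, h5, h6', h1.symm, h2.symm, h3.symm, h4.symm, h5.symm, h6'.symm,
        n1, n2, n3, n4, n5, n6, n7, n8, n9, m1, m2, m3, m4, m5, m6, m7, m8, m9]
  exact C6.c6_frame hfr hd hp hc

end Pool.Agent.Lib80.CW
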