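import Pool.Agent.Lib_helper80.CW.Small

/-!
# A reflective checker for forbidden induced subgraphs in a frame with extra vertices
-/

namespace Pool.Agent.Lib80.CW

open Finset

universe u

set_option linter.unusedSectionVars false

/-- adjacency patterns on `ℕ` -/
abbrev Pat := ℕ → ℕ → Bool

/-- a candidate forbidden subgraph -/
inductive Emb
  | dia (a b c d : ℕ)
  | p15 (z a b c d e : ℕ)
  | c6 (a b c d e f : ℕ)

/-- does the candidate realise a forbidden subgraph in the pattern (on `n` vertices)? `flag` allows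
the use of `C₆` -/
def Emb.test (flag : Bool) (n : ℕ) (P : Pat) : Emb → Bool
  | .dia a b c d => P a b && P a c && P b c && P a d && P b d && !P c d && (c != d) &&
      Nat.blt a n && Nat.blt b n && Nat.blt c n && Nat.blt d n
  | .p15 z a b c d e => P a b && P b c && P c d && P d e && !P a c && !P a d && !P a e && !P b d &&
      !P b e && !P c e && !P z a && !P z b && !P z c && !P z d && !P z e &&
      Nat.blt z n && Nat.blt a n && Nat.blt b n && Nat.blt c n && Nat.blt d n && Nat.blt e n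
  | .c6 a b c d e f => flag && P a b && P b c && P c d && P d e && P e f && P f a && !P a c &&
      !P a d && !P a e && !P b d && !P b e && !P b f && !P c e && !P c f && !P d f &&
      Nat.blt a n && Nat.blt b n && Nat.blt c n && Nat.blt d n && Nat.blt e n && Nat.blt f n

/-- the pattern `P` on `n` vertices is realised by `f` -/
structure Real {V : Type u} (G : SimpleGraph V) (n : ℕ) (f : ℕ → V) (P : Pat) : Prop where
  inj : ∀ i < n, ∀ j < n, f i = f j → i = j
  adj : ∀ i < n, ∀ j < n, (G.Adj (f i) (f j) ↔ P i j = true)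

variable {V : Type u} {G : SimpleGraph V}

theorem Real.nadj {n : ℕ} {f : ℕ → V} {P : Pat} (hr : Real G n f P) {i j : ℕ} (hi : i < n)
    (hj : j < n) (h : P i j = false) : ¬ G.Adj (f i) (f j) := by
  rw [hr.adj i hi j hj, h]; simp

theorem Emb.sound {flag : Bool} (hd : DiamondFree G) (hp : P15Free G)
    (h6 : flag = true → C6Free G) {n : ℕ} {f : ℕ → V} {P : Pat} (hr : Real G n f P) (e : Emb)
    (he : e.test flag n P = true) : False := by
  cases e with
  | dia a b c d =>
    simp only [Emb.test, Bool.and_eq_true, Nat.blt_eq, bne_iff_ne, ne_eq, Bool.not_eq_true'] at he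
    obtain ⟨⟨⟨⟨⟨⟨⟨⟨⟨⟨h1, h2⟩, h3⟩, h4⟩, h5⟩, h6'⟩, h7⟩, ha⟩, hb⟩, hc⟩, hd'⟩ := he
    have := hd (f a) (f b) (f c) (f d) ((hr.adj a ha b hb).2 h1) ((hr.adj a ha c hc).2 h2)
      ((hr.adj b hb c hc).2 h3) ((hr.adj a ha d hd').2 h4) ((hr.adj b hb d hd').2 h5)
      (fun h => h7 (hr.inj c hc d hd' h))
    exact hr.nadj hc hd' h6' this
  | p15 z a b c d e =>
    simp only [Emb.test, Bool.and_eq_true, Nat.blt_eq, Bool.not_eq_true'] at he
    obtain ⟨⟨⟨⟨⟨⟨⟨⟨⟨⟨⟨⟨⟨⟨⟨⟨⟨⟨⟨⟨h1, h2⟩, h3⟩, h4⟩, n1⟩, n2⟩, n3⟩, n4⟩, n5⟩, n6⟩, z1⟩, z2⟩, z3⟩, z4⟩, z5⟩,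
      hz⟩, ha⟩, hb⟩, hc⟩, hd'⟩, he'⟩ := he
    exact hp (f z) (f a) (f b) (f c) (f d) (f e) ((hr.adj a ha b hb).2 h1) ((hr.adj b hb c hc).2 h2)
      ((hr.adj c hc d hd').2 h3) ((hr.adj d hd' e he').2 h4) (hr.nadj ha hc n1) (hr.nadj ha hd' n2)
      (hr.nadj ha he' n3) (hr.nadj hb hd' n4) (hr.nadj hb he' n5) (hr.nadj hc he' n6)
      (hr.nadj hz ha z1) (hr.nadj hz hb z2) (hr.nadj hz hc z3) (hr.nadj hz hd' z4)
      (hr.nadj hz he' z5)
  | c6 a b c d e g =>
    simp only [Emb.test, Bool.and_eq_true, Nat.blt_eq, Bool.not_eq_true'] at he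
    obtain ⟨⟨⟨⟨⟨⟨⟨⟨⟨⟨⟨⟨⟨⟨⟨⟨⟨⟨⟨⟨⟨hfl, h1⟩, h2⟩, h3⟩, h4⟩, h5⟩, h6'⟩, n1⟩, n2⟩, n3⟩, n4⟩, n5⟩, n6⟩, n7⟩,
      n8⟩, n9⟩, ha⟩, hb⟩, hc⟩, hd'⟩, he'⟩, hg⟩ := he
    exact h6 hfl (f a) (f b) (f c) (f d) (f e) (f g) ((hr.adj a ha b hb).2 h1)
      ((hr.adj b hb c hc).2 h2) ((hr.adj c hc d hd').2 h3) ((hr.adj d hd' e he').2 h4)
      ((hr.adj e he' g hg).2 h5) ((hr.adj g hg a ha).2 h6') (hr.nadj ha hc n1) (hr.nadj ha hd' n2)
      (hr.nadj ha he' n3) (hr.nadj hb hd' n4) (hr.nadj hb he' n5) (hr.nadj hb hg n6)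
      (hr.nadj hc he' n7) (hr.nadj hc hg n8) (hr.nadj hd' hg n9)

/-- one of the candidates is a forbidden subgraph -/
def found (flag : Bool) (n : ℕ) (P : Pat) (L : List Emb) : Bool := L.any (fun e => e.test flag n P)

theorem found_sound {flag : Bool} (hd : DiamondFree G) (hp : P15Free G)
    (h6 : flag = true → C6Free G) {n : ℕ} {f : ℕ → V} {P : Pat} (hr : Real G n f P) {L : List Emb}
    (h : found flag n P L = true) : False := by
  rw [found, List.any_eq_true] at h
  obtain ⟨e, _, he⟩ := h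
  exact e.sound hd hp h6 hr he

/-- frame pattern `F` on `m` vertices, extra vertices `m, m+1, ...` with attachment codes `T a` and
mutual adjacency `E` -/
def pat (m : ℕ) (F : Pat) (T : ℕ → ℕ) (E : Pat) : Pat := fun i j =>
  bif Nat.blt i m then (bif Nat.blt j m then F i j else (T (j - m)).testBit i)
  else bif Nat.blt j m then (T (i - m)).testBit j else E (i - m) (j - m)

/-- attachment code of a vertex -/
noncomputable def code (G : SimpleGraph V) (m : ℕ) (p : ℕ → V) (v : V) : ℕ :=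
  open Classical in Nat.ofBits (fun i : Fin m => decide (G.Adj v (p i)))

theorem code_lt (G : SimpleGraph V) (m : ℕ) (p : ℕ → V) (v : V) : code G m p v < 2 ^ m :=
  Nat.ofBits_lt_two_pow _

theorem testBit_code (G : SimpleGraph V) {m : ℕ} (p : ℕ → V) (v : V) {i : ℕ} (hi : i < m) :
    (code G m p v).testBit i = true ↔ G.Adj v (p i) := by
  rw [code, Nat.testBit_ofBits_lt _ _ hi]; simp

attribute [irreducible] code

/-- a frame -/
structure Frame (G : SimpleGraph V) (m : ℕ) (F : Pat) (p : ℕ → V) : Prop where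
  inj : ∀ i < m, ∀ j < m, p i = p j → i = j
  adj : ∀ i < m, ∀ j < m, (G.Adj (p i) (p j) ↔ F i j = true)

theorem Frame.of_adj {m : ℕ} {F : Pat} {p : ℕ → V}
    (h : ∀ i < m, ∀ j < m, (G.Adj (p i) (p j) ↔ F i j = true))
    (tw : ∀ i < m, ∀ j < m, i = j ∨ ∃ k < m, F i k ≠ F j k) : Frame G m F p := by
  refine ⟨fun i hi j hj hij => ?_, h⟩
  rcases tw i hi j hj with h' | ⟨k, hk, hne⟩
  · exact h'
  · exfalso
    apply hne
    have h1 := h i hi k hk
    have h2 := h j hj k hk
    rw [hij] at h1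
    rw [Bool.eq_iff_iff]
    exact h1.symm.trans h2

theorem Frame.real {m : ℕ} {F : Pat} {p : ℕ → V} (hf : Frame G m F p) (k : ℕ) (x : ℕ → V)
    (hx : ∀ a < k, ∀ b < k, x a = x b → a = b) (hxp : ∀ a < k, ∀ i < m, x a ≠ p i) (T : ℕ → ℕ)
    (hT : ∀ a < k, code G m p (x a) = T a) (E : Pat)
    (hE : ∀ a < k, ∀ b < k, (G.Adj (x a) (x b) ↔ E a b = true)) :
    Real G (m + k) (fun i => if i < m then p i else x (i - m)) (pat m F T E) := by
  constructor
  · intro i hi j hj hij
    by_cases h1 : i < m <;> by_cases h2 : j < m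
    · simp only [h1, h2, if_true] at hij; exact hf.inj i h1 j h2 hij
    · simp only [h1, h2, if_true, if_false] at hij
      exact absurd hij.symm (hxp _ (by omega) _ h1)
    · simp only [h1, h2, if_true, if_false] at hij
      exact absurd hij (hxp _ (by omega) _ h2)
    · simp only [h1, h2, if_false] at hij
      have := hx _ (by omega) _ (by omega) hij
      omega
  · intro i hi j hj
    by_cases h1 : i < m <;> by_cases h2 : j < m
    · have e1 : Nat.blt i m = true := by simpa using h1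
      have e2 : Nat.blt j m = true := by simpa using h2
      simp only [pat, h1, h2, if_true, e1, e2, cond_true]; exact hf.adj i h1 j h2
    · have e1 : Nat.blt i m = true := by simpa using h1
      have e2 : Nat.blt j m = false := by
        rw [Bool.eq_false_iff]; simpa using h2
      simp only [pat, h1, h2, if_true, if_false, e1, e2, cond_true, cond_false]
      rw [← hT _ (by omega : j - m < k), testBit_code G p _ h1]
      exact G.adj_comm _ _
    · have e2 : Nat.blt j m = true := by simpa using h2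
      have e1 : Nat.blt i m = false := by
        rw [Bool.eq_false_iff]; simpa using h1
      simp only [pat, h1, h2, if_true, if_false, e1, e2, cond_true, cond_false]
      rw [← hT _ (by omega : i - m < k), testBit_code G p _ h2]
    · have e1 : Nat.blt i m = false := by
        rw [Bool.eq_false_iff]; simpa using h1
      have e2 : Nat.blt j m = false := by
        rw [Bool.eq_false_iff]; simpa using h2
      simp only [pat, h1, h2, if_false, e1, e2, cond_false]
      exact hE _ (by omega) _ (by omega)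

end Pool.Agent.Lib80.CW
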