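import Pool.Agent.Lib_helper80.CW.Check

/-!
# Instances of the checker for few extra vertices (generated)
-/

namespace Pool.Agent.Lib80.CW

open Finset

universe u

set_option linter.unusedVariables false
set_option linter.unusedSimpArgs false
set_option linter.unnecessarySeqFocus false

/-- codes from a list -/
def tl (l : List ℕ) : ℕ → ℕ := fun a => l.getD a 0

/-- mutual adjacency from the list `[01, 02, 12, 03, 13, 23, ...]` -/
def El (l : List Bool) : Pat := fun a b =>
  bif Nat.blt a b then l.getD (b * (b - 1) / 2 + a) false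
  else bif Nat.blt b a then l.getD (a * (a - 1) / 2 + b) false else false

/-- vertices from a list -/
def vl {V : Type u} (v : V) (l : List V) : ℕ → V := fun a => l.getD a v

variable {V : Type u} {G : SimpleGraph V}

theorem Frame.no1 {m : ℕ} {F : Pat} {p : ℕ → V} (hf : Frame G m F p) {flag : Bool}
    (hd : DiamondFree G) (hp : P15Free G) (h6 : flag = true → C6Free G) (x0 : V)
    (f0 : ∀ i < m, x0 ≠ p i)
    (T0 : ℕ) (t0 : code G m p x0 = T0)
    (L : List Emb)
    (h : found flag (m + 1) (pat m F (tl [T0]) (El [])) L = true) : False := by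
  refine found_sound hd hp h6 (hf.real 1 (vl x0 [x0]) ?_ ?_ _ ?_ _ ?_) h
  · intro a ha b hb hab
    omega
  · intro a ha i hi
    interval_cases a <;> simp only [vl, List.getD_cons_zero, List.getD_cons_succ]
    · exact f0 i hi
  · intro a ha
    interval_cases a <;> simp only [vl, tl, List.getD_cons_zero, List.getD_cons_succ]
    · exact t0
  · intro a ha b hb
    interval_cases a <;> interval_cases b
    · exact ⟨fun h => absurd h (SimpleGraph.irrefl _), fun h => absurd h Bool.false_ne_true⟩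

theorem Frame.no2 {m : ℕ} {F : Pat} {p : ℕ → V} (hf : Frame G m F p) {flag : Bool}
    (hd : DiamondFree G) (hp : P15Free G) (h6 : flag = true → C6Free G) (x0 x1 : V)
    (n01 : x0 ≠ x1)
    (f0 : ∀ i < m, x0 ≠ p i) (f1 : ∀ i < m, x1 ≠ p i)
    (T0 T1 : ℕ) (t0 : code G m p x0 = T0) (t1 : code G m p x1 = T1)
    (b01 : Bool)
    (e01 : G.Adj x0 x1 ↔ b01 = true)
    (L : List Emb)
    (h : found flag (m + 2) (pat m F (tl [T0, T1]) (El [b01])) L = true) : False := by
  refine found_sound hd hp h6 (hf.real 2 (vl x0 [x0, x1]) ?_ ?_ _ ?_ _ ?_) h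
  · intro a ha b hb hab
    interval_cases a <;> interval_cases b <;>
      simp [vl, n01, n01.symm] at hab ⊢
  · intro a ha i hi
    interval_cases a <;> simp only [vl, List.getD_cons_zero, List.getD_cons_succ]
    · exact f0 i hi
    · exact f1 i hi
  · intro a ha
    interval_cases a <;> simp only [vl, tl, List.getD_cons_zero, List.getD_cons_succ]
    · exact t0
    · exact t1
  · intro a ha b hb
    interval_cases a <;> interval_cases b
    · exact ⟨fun h => absurd h (SimpleGraph.irrefl _), fun h => absurd h Bool.false_ne_true⟩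
    · exact e01
    · exact (G.adj_comm _ _).trans e01
    · exact ⟨fun h => absurd h (SimpleGraph.irrefl _), fun h => absurd h Bool.false_ne_true⟩

theorem Frame.no3 {m : ℕ} {F : Pat} {p : ℕ → V} (hf : Frame G m F p) {flag : Bool}
    (hd : DiamondFree G) (hp : P15Free G) (h6 : flag = true → C6Free G) (x0 x1 x2 : V)
    (n01 : x0 ≠ x1) (n02 : x0 ≠ x2) (n12 : x1 ≠ x2)
    (f0 : ∀ i < m, x0 ≠ p i) (f1 : ∀ i < m, x1 ≠ p i) (f2 : ∀ i < m, x2 ≠ p i)
    (T0 T1 T2 : ℕ) (t0 : code G m p x0 = T0) (t1 : code G m p x1 = T1) (t2 : code G m p x2 = T2)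
    (b01 b02 b12 : Bool)
    (e01 : G.Adj x0 x1 ↔ b01 = true) (e02 : G.Adj x0 x2 ↔ b02 = true) (e12 : G.Adj x1 x2 ↔ b12 = true)
    (L : List Emb)
    (h : found flag (m + 3) (pat m F (tl [T0, T1, T2]) (El [b01, b02, b12])) L = true) : False := by
  refine found_sound hd hp h6 (hf.real 3 (vl x0 [x0, x1, x2]) ?_ ?_ _ ?_ _ ?_) h
  · intro a ha b hb hab
    interval_cases a <;> interval_cases b <;>
      simp [vl, n01, n01.symm, n02, n02.symm, n12, n12.symm] at hab ⊢
  · intro a ha i hi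
    interval_cases a <;> simp only [vl, List.getD_cons_zero, List.getD_cons_succ]
    · exact f0 i hi
    · exact f1 i hi
    · exact f2 i hi
  · intro a ha
    interval_cases a <;> simp only [vl, tl, List.getD_cons_zero, List.getD_cons_succ]
    · exact t0
    · exact t1
    · exact t2
  · intro a ha b hb
    interval_cases a <;> interval_cases b
    · exact ⟨fun h => absurd h (SimpleGraph.irrefl _), fun h => absurd h Bool.false_ne_true⟩
    · exact e01
    · exact e02
    · exact (G.adj_comm _ _).trans e01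
    · exact ⟨fun h => absurd h (SimpleGraph.irrefl _), fun h => absurd h Bool.false_ne_true⟩
    · exact e12
    · exact (G.adj_comm _ _).trans e02
    · exact (G.adj_comm _ _).trans e12
    · exact ⟨fun h => absurd h (SimpleGraph.irrefl _), fun h => absurd h Bool.false_ne_true⟩

theorem Frame.no4 {m : ℕ} {F : Pat} {p : ℕ → V} (hf : Frame G m F p) {flag : Bool}
    (hd : DiamondFree G) (hp : P15Free G) (h6 : flag = true → C6Free G) (x0 x1 x2 x3 : V)
    (n01 : x0 ≠ x1) (n02 : x0 ≠ x2) (n12 : x1 ≠ x2) (n03 : x0 ≠ x3) (n13 : x1 ≠ x3) (n23 : x2 ≠ x3)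
    (f0 : ∀ i < m, x0 ≠ p i) (f1 : ∀ i < m, x1 ≠ p i) (f2 : ∀ i < m, x2 ≠ p i) (f3 : ∀ i < m, x3 ≠ p i)
    (T0 T1 T2 T3 : ℕ) (t0 : code G m p x0 = T0) (t1 : code G m p x1 = T1) (t2 : code G m p x2 = T2) (t3 : code G m p x3 = T3)
    (b01 b02 b12 b03 b13 b23 : Bool)
    (e01 : G.Adj x0 x1 ↔ b01 = true) (e02 : G.Adj x0 x2 ↔ b02 = true) (e12 : G.Adj x1 x2 ↔ b12 = true) (e03 : G.Adj x0 x3 ↔ b03 = true) (e13 : G.Adj x1 x3 ↔ b13 = true) (e23 : G.Adj x2 x3 ↔ b23 = true)
    (L : List Emb)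
    (h : found flag (m + 4) (pat m F (tl [T0, T1, T2, T3]) (El [b01, b02, b12, b03, b13, b23])) L = true) : False := by
  refine found_sound hd hp h6 (hf.real 4 (vl x0 [x0, x1, x2, x3]) ?_ ?_ _ ?_ _ ?_) h
  · intro a ha b hb hab
    interval_cases a <;> interval_cases b <;>
      simp [vl, n01, n01.symm, n02, n02.symm, n12, n12.symm, n03, n03.symm, n13, n13.symm, n23, n23.symm] at hab ⊢
  · intro a ha i hi
    interval_cases a <;> simp only [vl, List.getD_cons_zero, List.getD_cons_succ]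
    · exact f0 i hi
    · exact f1 i hi
    · exact f2 i hi
    · exact f3 i hi
  · intro a ha
    interval_cases a <;> simp only [vl, tl, List.getD_cons_zero, List.getD_cons_succ]
    · exact t0
    · exact t1
    · exact t2
    · exact t3
  · intro a ha b hb
    interval_cases a <;> interval_cases b
    · exact ⟨fun h => absurd h (SimpleGraph.irrefl _), fun h => absurd h Bool.false_ne_true⟩
    · exact e01
    · exact e02
    · exact e03
    · exact (G.adj_comm _ _).trans e01
    · exact ⟨fun h => absurd h (SimpleGraph.irrefl _), fun h => absurd h Bool.false_ne_true⟩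
    · exact e12
    · exact e13
    · exact (G.adj_comm _ _).trans e02
    · exact (G.adj_comm _ _).trans e12
    · exact ⟨fun h => absurd h (SimpleGraph.irrefl _), fun h => absurd h Bool.false_ne_true⟩
    · exact e23
    · exact (G.adj_comm _ _).trans e03
    · exact (G.adj_comm _ _).trans e13
    · exact (G.adj_comm _ _).trans e23
    · exact ⟨fun h => absurd h (SimpleGraph.irrefl _), fun h => absurd h Bool.false_ne_true⟩

theorem Frame.no5 {m : ℕ} {F : Pat} {p : ℕ → V} (hf : Frame G m F p) {flag : Bool}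
    (hd : DiamondFree G) (hp : P15Free G) (h6 : flag = true → C6Free G) (x0 x1 x2 x3 x4 : V)
    (n01 : x0 ≠ x1) (n02 : x0 ≠ x2) (n12 : x1 ≠ x2) (n03 : x0 ≠ x3) (n13 : x1 ≠ x3) (n23 : x2 ≠ x3) (n04 : x0 ≠ x4) (n14 : x1 ≠ x4) (n24 : x2 ≠ x4) (n34 : x3 ≠ x4)
    (f0 : ∀ i < m, x0 ≠ p i) (f1 : ∀ i < m, x1 ≠ p i) (f2 : ∀ i < m, x2 ≠ p i) (f3 : ∀ i < m, x3 ≠ p i) (f4 : ∀ i < m, x4 ≠ p i)
    (T0 T1 T2 T3 T4 : ℕ) (t0 : code G m p x0 = T0) (t1 : code G m p x1 = T1) (t2 : code G m p x2 = T2) (t3 : code G m p x3 = T3) (t4 : code G m p x4 = T4)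
    (b01 b02 b12 b03 b13 b23 b04 b14 b24 b34 : Bool)
    (e01 : G.Adj x0 x1 ↔ b01 = true) (e02 : G.Adj x0 x2 ↔ b02 = true) (e12 : G.Adj x1 x2 ↔ b12 = true) (e03 : G.Adj x0 x3 ↔ b03 = true) (e13 : G.Adj x1 x3 ↔ b13 = true) (e23 : G.Adj x2 x3 ↔ b23 = true) (e04 : G.Adj x0 x4 ↔ b04 = true) (e14 : G.Adj x1 x4 ↔ b14 = true) (e24 : G.Adj x2 x4 ↔ b24 = true) (e34 : G.Adj x3 x4 ↔ b34 = true)
    (L : List Emb)
    (h : found flag (m + 5) (pat m F (tl [T0, T1, T2, T3, T4]) (El [b01, b02, b12, b03, b13, b23, b04, b14, b24, b34])) L = true) : False := by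
  refine found_sound hd hp h6 (hf.real 5 (vl x0 [x0, x1, x2, x3, x4]) ?_ ?_ _ ?_ _ ?_) h
  · intro a ha b hb hab
    interval_cases a <;> interval_cases b <;>
      simp [vl, n01, n01.symm, n02, n02.symm, n12, n12.symm, n03, n03.symm, n13, n13.symm, n23, n23.symm, n04, n04.symm, n14, n14.symm, n24, n24.symm, n34, n34.symm] at hab ⊢
  · intro a ha i hi
    interval_cases a <;> simp only [vl, List.getD_cons_zero, List.getD_cons_succ]
    · exact f0 i hi
    · exact f1 i hi
    · exact f2 i hi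
    · exact f3 i hi
    · exact f4 i hi
  · intro a ha
    interval_cases a <;> simp only [vl, tl, List.getD_cons_zero, List.getD_cons_succ]
    · exact t0
    · exact t1
    · exact t2
    · exact t3
    · exact t4
  · intro a ha b hb
    interval_cases a <;> interval_cases b
    · exact ⟨fun h => absurd h (SimpleGraph.irrefl _), fun h => absurd h Bool.false_ne_true⟩
    · exact e01
    · exact e02
    · exact e03
    · exact e04
    · exact (G.adj_comm _ _).trans e01
    · exact ⟨fun h => absurd h (SimpleGraph.irrefl _), fun h => absurd h Bool.false_ne_true⟩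
    · exact e12
    · exact e13
    · exact e14
    · exact (G.adj_comm _ _).trans e02
    · exact (G.adj_comm _ _).trans e12
    · exact ⟨fun h => absurd h (SimpleGraph.irrefl _), fun h => absurd h Bool.false_ne_true⟩
    · exact e23
    · exact e24
    · exact (G.adj_comm _ _).trans e03
    · exact (G.adj_comm _ _).trans e13
    · exact (G.adj_comm _ _).trans e23
    · exact ⟨fun h => absurd h (SimpleGraph.irrefl _), fun h => absurd h Bool.false_ne_true⟩
    · exact e34
    · exact (G.adj_comm _ _).trans e04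
    · exact (G.adj_comm _ _).trans e14
    · exact (G.adj_comm _ _).trans e24
    · exact (G.adj_comm _ _).trans e34
    · exact ⟨fun h => absurd h (SimpleGraph.irrefl _), fun h => absurd h Bool.false_ne_true⟩

theorem Frame.no6 {m : ℕ} {F : Pat} {p : ℕ → V} (hf : Frame G m F p) {flag : Bool}
    (hd : DiamondFree G) (hp : P15Free G) (h6 : flag = true → C6Free G) (x0 x1 x2 x3 x4 x5 : V)
    (n01 : x0 ≠ x1) (n02 : x0 ≠ x2) (n12 : x1 ≠ x2) (n03 : x0 ≠ x3) (n13 : x1 ≠ x3) (n23 : x2 ≠ x3) (n04 : x0 ≠ x4) (n14 : x1 ≠ x4) (n24 : x2 ≠ x4) (n34 : x3 ≠ x4) (n05 : x0 ≠ x5) (n15 : x1 ≠ x5) (n25 : x2 ≠ x5) (n35 : x3 ≠ x5) (n45 : x4 ≠ x5)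
    (f0 : ∀ i < m, x0 ≠ p i) (f1 : ∀ i < m, x1 ≠ p i) (f2 : ∀ i < m, x2 ≠ p i) (f3 : ∀ i < m, x3 ≠ p i) (f4 : ∀ i < m, x4 ≠ p i) (f5 : ∀ i < m, x5 ≠ p i)
    (T0 T1 T2 T3 T4 T5 : ℕ) (t0 : code G m p x0 = T0) (t1 : code G m p x1 = T1) (t2 : code G m p x2 = T2) (t3 : code G m p x3 = T3) (t4 : code G m p x4 = T4) (t5 : code G m p x5 = T5)
    (b01 b02 b12 b03 b13 b23 b04 b14 b24 b34 b05 b15 b25 b35 b45 : Bool)
    (e01 : G.Adj x0 x1 ↔ b01 = true) (e02 : G.Adj x0 x2 ↔ b02 = true) (e12 : G.Adj x1 x2 ↔ b12 = true) (e03 : G.Adj x0 x3 ↔ b03 = true) (e13 : G.Adj x1 x3 ↔ b13 = true) (e23 : G.Adj x2 x3 ↔ b23 = true) (e04 : G.Adj x0 x4 ↔ b04 = true) (e14 : G.Adj x1 x4 ↔ b14 = true) (e24 : G.Adj x2 x4 ↔ b24 = true) (e34 : G.Adj x3 x4 ↔ b34 = true) (e05 : G.Adj x0 x5 ↔ b05 = true) (e15 : G.Adj x1 x5 ↔ b15 = true) (e25 : G.Adj x2 x5 ↔ b25 = true) (e35 : G.Adj x3 x5 ↔ b35 = true) (e45 : G.Adj x4 x5 ↔ b45 = true)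
    (L : List Emb)
    (h : found flag (m + 6) (pat m F (tl [T0, T1, T2, T3, T4, T5]) (El [b01, b02, b12, b03, b13, b23, b04, b14, b24, b34, b05, b15, b25, b35, b45])) L = true) : False := by
  refine found_sound hd hp h6 (hf.real 6 (vl x0 [x0, x1, x2, x3, x4, x5]) ?_ ?_ _ ?_ _ ?_) h
  · intro a ha b hb hab
    interval_cases a <;> interval_cases b <;>
      simp [vl, n01, n01.symm, n02, n02.symm, n12, n12.symm, n03, n03.symm, n13, n13.symm, n23, n23.symm, n04, n04.symm, n14, n14.symm, n24, n24.symm, n34, n34.symm, n05, n05.symm, n15, n15.symm, n25, n25.symm, n35, n35.symm, n45, n45.symm] at hab ⊢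
  · intro a ha i hi
    interval_cases a <;> simp only [vl, List.getD_cons_zero, List.getD_cons_succ]
    · exact f0 i hi
    · exact f1 i hi
    · exact f2 i hi
    · exact f3 i hi
    · exact f4 i hi
    · exact f5 i hi
  · intro a ha
    interval_cases a <;> simp only [vl, tl, List.getD_cons_zero, List.getD_cons_succ]
    · exact t0
    · exact t1
    · exact t2
    · exact t3
    · exact t4
    · exact t5
  · intro a ha b hb
    interval_cases a <;> interval_cases b
    · exact ⟨fun h => absurd h (SimpleGraph.irrefl _), fun h => absurd h Bool.false_ne_true⟩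
    · exact e01
    · exact e02
    · exact e03
    · exact e04
    · exact e05
    · exact (G.adj_comm _ _).trans e01
    · exact ⟨fun h => absurd h (SimpleGraph.irrefl _), fun h => absurd h Bool.false_ne_true⟩
    · exact e12
    · exact e13
    · exact e14
    · exact e15
    · exact (G.adj_comm _ _).trans e02
    · exact (G.adj_comm _ _).trans e12
    · exact ⟨fun h => absurd h (SimpleGraph.irrefl _), fun h => absurd h Bool.false_ne_true⟩
    · exact e23
    · exact e24
    · exact e25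
    · exact (G.adj_comm _ _).trans e03
    · exact (G.adj_comm _ _).trans e13
    · exact (G.adj_comm _ _).trans e23
    · exact ⟨fun h => absurd h (SimpleGraph.irrefl _), fun h => absurd h Bool.false_ne_true⟩
    · exact e34
    · exact e35
    · exact (G.adj_comm _ _).trans e04
    · exact (G.adj_comm _ _).trans e14
    · exact (G.adj_comm _ _).trans e24
    · exact (G.adj_comm _ _).trans e34
    · exact ⟨fun h => absurd h (SimpleGraph.irrefl _), fun h => absurd h Bool.false_ne_true⟩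
    · exact e45
    · exact (G.adj_comm _ _).trans e05
    · exact (G.adj_comm _ _).trans e15
    · exact (G.adj_comm _ _).trans e25
    · exact (G.adj_comm _ _).trans e35
    · exact (G.adj_comm _ _).trans e45
    · exact ⟨fun h => absurd h (SimpleGraph.irrefl _), fun h => absurd h Bool.false_ne_true⟩

theorem Frame.no7 {m : ℕ} {F : Pat} {p : ℕ → V} (hf : Frame G m F p) {flag : Bool}
    (hd : DiamondFree G) (hp : P15Free G) (h6 : flag = true → C6Free G) (x0 x1 x2 x3 x4 x5 x6 : V)
    (n01 : x0 ≠ x1) (n02 : x0 ≠ x2) (n12 : x1 ≠ x2) (n03 : x0 ≠ x3) (n13 : x1 ≠ x3) (n23 : x2 ≠ x3) (n04 : x0 ≠ x4) (n14 : x1 ≠ x4) (n24 : x2 ≠ x4) (n34 : x3 ≠ x4) (n05 : x0 ≠ x5) (n15 : x1 ≠ x5) (n25 : x2 ≠ x5) (n35 : x3 ≠ x5) (n45 : x4 ≠ x5) (n06 : x0 ≠ x6) (n16 : x1 ≠ x6) (n26 : x2 ≠ x6) (n36 : x3 ≠ x6) (n46 : x4 ≠ x6) (n56 : x5 ≠ x6)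
    (f0 : ∀ i < m, x0 ≠ p i) (f1 : ∀ i < m, x1 ≠ p i) (f2 : ∀ i < m, x2 ≠ p i) (f3 : ∀ i < m, x3 ≠ p i) (f4 : ∀ i < m, x4 ≠ p i) (f5 : ∀ i < m, x5 ≠ p i) (f6 : ∀ i < m, x6 ≠ p i)
    (T0 T1 T2 T3 T4 T5 T6 : ℕ) (t0 : code G m p x0 = T0) (t1 : code G m p x1 = T1) (t2 : code G m p x2 = T2) (t3 : code G m p x3 = T3) (t4 : code G m p x4 = T4) (t5 : code G m p x5 = T5) (t6 : code G m p x6 = T6)
    (b01 b02 b12 b03 b13 b23 b04 b14 b24 b34 b05 b15 b25 b35 b45 b06 b16 b26 b36 b46 b56 : Bool)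
    (e01 : G.Adj x0 x1 ↔ b01 = true) (e02 : G.Adj x0 x2 ↔ b02 = true) (e12 : G.Adj x1 x2 ↔ b12 = true) (e03 : G.Adj x0 x3 ↔ b03 = true) (e13 : G.Adj x1 x3 ↔ b13 = true) (e23 : G.Adj x2 x3 ↔ b23 = true) (e04 : G.Adj x0 x4 ↔ b04 = true) (e14 : G.Adj x1 x4 ↔ b14 = true) (e24 : G.Adj x2 x4 ↔ b24 = true) (e34 : G.Adj x3 x4 ↔ b34 = true) (e05 : G.Adj x0 x5 ↔ b05 = true) (e15 : G.Adj x1 x5 ↔ b15 = true) (e25 : G.Adj x2 x5 ↔ b25 = true) (e35 : G.Adj x3 x5 ↔ b35 = true) (e45 : G.Adj x4 x5 ↔ b45 = true) (e06 : G.Adj x0 x6 ↔ b06 = true) (e16 : G.Adj x1 x6 ↔ b16 = true) (e26 : G.Adj x2 x6 ↔ b26 = true) (e36 : G.Adj x3 x6 ↔ b36 = true) (e46 : G.Adj x4 x6 ↔ b46 = true) (e56 : G.Adj x5 x6 ↔ b56 = true)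
    (L : List Emb)
    (h : found flag (m + 7) (pat m F (tl [T0, T1, T2, T3, T4, T5, T6]) (El [b01, b02, b12, b03, b13, b23, b04, b14, b24, b34, b05, b15, b25, b35, b45, b06, b16, b26, b36, b46, b56])) L = true) : False := by
  refine found_sound hd hp h6 (hf.real 7 (vl x0 [x0, x1, x2, x3, x4, x5, x6]) ?_ ?_ _ ?_ _ ?_) h
  · intro a ha b hb hab
    interval_cases a <;> interval_cases b <;>
      simp [vl, n01, n01.symm, n02, n02.symm, n12, n12.symm, n03, n03.symm, n13, n13.symm, n23, n23.symm, n04, n04.symm, n14, n14.symm, n24, n24.symm, n34, n34.symm, n05, n05.symm, n15, n15.symm, n25, n25.symm, n35, n35.symm, n45, n45.symm, n06, n06.symm, n16, n16.symm, n26, n26.symm, n36, n36.symm, n46, n46.symm, n56, n56.symm] at hab ⊢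
  · intro a ha i hi
    interval_cases a <;> simp only [vl, List.getD_cons_zero, List.getD_cons_succ]
    · exact f0 i hi
    · exact f1 i hi
    · exact f2 i hi
    · exact f3 i hi
    · exact f4 i hi
    · exact f5 i hi
    · exact f6 i hi
  · intro a ha
    interval_cases a <;> simp only [vl, tl, List.getD_cons_zero, List.getD_cons_succ]
    · exact t0
    · exact t1
    · exact t2
    · exact t3
    · exact t4
    · exact t5
    · exact t6
  · intro a ha b hb
    interval_cases a <;> interval_cases b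
    · exact ⟨fun h => absurd h (SimpleGraph.irrefl _), fun h => absurd h Bool.false_ne_true⟩
    · exact e01
    · exact e02
    · exact e03
    · exact e04
    · exact e05
    · exact e06
    · exact (G.adj_comm _ _).trans e01
    · exact ⟨fun h => absurd h (SimpleGraph.irrefl _), fun h => absurd h Bool.false_ne_true⟩
    · exact e12
    · exact e13
    · exact e14
    · exact e15
    · exact e16
    · exact (G.adj_comm _ _).trans e02
    · exact (G.adj_comm _ _).trans e12
    · exact ⟨fun h => absurd h (SimpleGraph.irrefl _), fun h => absurd h Bool.false_ne_true⟩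
    · exact e23
    · exact e24
    · exact e25
    · exact e26
    · exact (G.adj_comm _ _).trans e03
    · exact (G.adj_comm _ _).trans e13
    · exact (G.adj_comm _ _).trans e23
    · exact ⟨fun h => absurd h (SimpleGraph.irrefl _), fun h => absurd h Bool.false_ne_true⟩
    · exact e34
    · exact e35
    · exact e36
    · exact (G.adj_comm _ _).trans e04
    · exact (G.adj_comm _ _).trans e14
    · exact (G.adj_comm _ _).trans e24
    · exact (G.adj_comm _ _).trans e34
    · exact ⟨fun h => absurd h (SimpleGraph.irrefl _), fun h => absurd h Bool.false_ne_true⟩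
    · exact e45
    · exact e46
    · exact (G.adj_comm _ _).trans e05
    · exact (G.adj_comm _ _).trans e15
    · exact (G.adj_comm _ _).trans e25
    · exact (G.adj_comm _ _).trans e35
    · exact (G.adj_comm _ _).trans e45
    · exact ⟨fun h => absurd h (SimpleGraph.irrefl _), fun h => absurd h Bool.false_ne_true⟩
    · exact e56
    · exact (G.adj_comm _ _).trans e06
    · exact (G.adj_comm _ _).trans e16
    · exact (G.adj_comm _ _).trans e26
    · exact (G.adj_comm _ _).trans e36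
    · exact (G.adj_comm _ _).trans e46
    · exact (G.adj_comm _ _).trans e56
    · exact ⟨fun h => absurd h (SimpleGraph.irrefl _), fun h => absurd h Bool.false_ne_true⟩

end Pool.Agent.Lib80.CW
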