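import Pool.Agent.Lib_helper80.CW.MW

/-!
# Forbidden subgraphs, modules, primality
-/

namespace Pool.Agent.Lib80.CW

open Finset

universe u

variable {V : Type u}

/-- no induced diamond: the edge `a b` has no two nonadjacent common neighbours `c`, `d` -/
def DiamondFree (G : SimpleGraph V) : Prop :=
  ∀ a b c d, G.Adj a b → G.Adj a c → G.Adj b c → G.Adj a d → G.Adj b d → c ≠ d → G.Adj c d

/-- no induced `P₁ + P₅` (isolated vertex `z`, path `a b c d e`) -/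
def P15Free (G : SimpleGraph V) : Prop :=
  ∀ z a b c d e, G.Adj a b → G.Adj b c → G.Adj c d → G.Adj d e →
    ¬ G.Adj a c → ¬ G.Adj a d → ¬ G.Adj a e → ¬ G.Adj b d → ¬ G.Adj b e → ¬ G.Adj c e →
    ¬ G.Adj z a → ¬ G.Adj z b → ¬ G.Adj z c → ¬ G.Adj z d → ¬ G.Adj z e → False

/-- no induced `P₅` -/
def P5Free (G : SimpleGraph V) : Prop :=
  ∀ a b c d e, G.Adj a b → G.Adj b c → G.Adj c d → G.Adj d e →
    ¬ G.Adj a c → ¬ G.Adj a d → ¬ G.Adj a e → ¬ G.Adj b d → ¬ G.Adj b e → ¬ G.Adj c e → False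

/-- no induced `C₅` -/
def C5Free (G : SimpleGraph V) : Prop :=
  ∀ a b c d e, G.Adj a b → G.Adj b c → G.Adj c d → G.Adj d e → G.Adj e a →
    ¬ G.Adj a c → ¬ G.Adj a d → ¬ G.Adj b d → ¬ G.Adj b e → ¬ G.Adj c e → False

/-- no induced `C₆` -/
def C6Free (G : SimpleGraph V) : Prop :=
  ∀ a b c d e f, G.Adj a b → G.Adj b c → G.Adj c d → G.Adj d e → G.Adj e f → G.Adj f a →
    ¬ G.Adj a c → ¬ G.Adj a d → ¬ G.Adj a e → ¬ G.Adj b d → ¬ G.Adj b e → ¬ G.Adj b f →
    ¬ G.Adj c e → ¬ G.Adj c f → ¬ G.Adj d f → False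

/-- `M` is a module: vertices outside `M` do not distinguish vertices of `M` -/
def IsModule (G : SimpleGraph V) (M : Finset V) : Prop :=
  ∀ a ∈ M, ∀ b ∈ M, ∀ w, w ∉ M → (G.Adj a w ↔ G.Adj b w)

/-- prime graph: only trivial modules -/
def Prime [Fintype V] (G : SimpleGraph V) : Prop :=
  ∀ M : Finset V, IsModule G M → M.card ≤ 1 ∨ M = univ

/-- all cliques have fewer than `c` vertices -/
def CliquesLT (G : SimpleGraph V) (c : ℕ) : Prop :=
  ∀ K : Finset V, G.IsClique (K : Set V) → K.card < c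

end Pool.Agent.Lib80.CW
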