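import Pool.Agent.Lib_helper80.CW.Small

/-!
# Three cliques with matchings between them
-/

namespace Pool.Agent.Lib80.CW

open Finset

universe u

variable {V : Type u} [DecidableEq V]

/-- three classes (colours `c`), each a clique, every vertex has at most one neighbour in each of
the other classes -/
theorem MW.matchings3 {G : SimpleGraph V} {S : Finset V} (c : V → Fin 3)
    (hcl : ∀ x ∈ S, ∀ y ∈ S, c x = c y → x ≠ y → G.Adj x y)
    (hm : ∀ x ∈ S, ∀ y ∈ S, ∀ y' ∈ S, c y = c y' → c x ≠ c y → G.Adj x y → G.Adj x y' → y = y') :
    MW G S 7 := by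
  classical
  -- neighbours in other classes
  let N : V → Finset V := fun v => S.filter (fun w => c v ≠ c w ∧ G.Adj v w)
  have hN : ∀ v w, w ∈ N v ↔ w ∈ S ∧ c v ≠ c w ∧ G.Adj v w := fun v w => by
    simp only [N, mem_filter]
  have hNcard : ∀ v ∈ S, (N v).card ≤ 2 := by
    intro v hv
    have h1 : (N v).card ≤ ((univ : Finset (Fin 3)).erase (c v)).card := by
      refine card_le_card_of_injOn c ?_ ?_
      · intro w hw
        have hw' := (hN v w).1 hw
        exact mem_coe.2 (mem_erase.2 ⟨fun h => hw'.2.1 h.symm, mem_univ _⟩)
      · intro w hw w' hw' hww'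
        have h1 := (hN v w).1 hw
        have h2 := (hN v w').1 hw'
        exact hm v hv w h1.1 w' h2.1 hww' h1.2.1 h1.2.2 h2.2.2
    have h2 : ((univ : Finset (Fin 3)).erase (c v)).card = 2 := by
      rw [card_erase_of_mem (mem_univ _)]; rfl
    omega
  -- few traces if few edges leave
  have hfew : ∀ P ⊆ S, ∑ a ∈ P, (N a \ P).card ≤ 2 → Few G S P 7 := by
    intro P hP hcut
    let O : Finset V := P.filter (fun a => (N a \ P).Nonempty)
    have hO : O.card ≤ 2 := by
      refine le_trans ?_ hcut
      have e1 : O.card = ∑ _a ∈ O, 1 := by simp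
      rw [e1]
      refine le_trans (sum_le_sum (fun a ha => ?_))
        (sum_le_sum_of_subset (f := fun a => (N a \ P).card) (filter_subset _ P))
      exact card_pos.2 (mem_filter.1 ha).2
    refine ⟨fun v => if h : v ∈ O then Fin.castLE (by omega) (O.equivFin ⟨v, h⟩)
      else ⟨2 + (c v : ℕ), by have := (c v).2; omega⟩, ?_⟩
    intro a ha b hb hab w hw hwP
    by_cases haO : a ∈ O <;> by_cases hbO : b ∈ O
    · simp only [dif_pos haO, dif_pos hbO] at hab
      have := O.equivFin.injective (Fin.castLE_injective _ hab)
      rw [Subtype.mk.injEq] at this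
      rw [this]
    · simp only [dif_pos haO, dif_neg hbO] at hab
      exfalso
      have h1 := congrArg Fin.val hab
      have h2 := (O.equivFin ⟨a, haO⟩).2
      simp only [Fin.val_castLE] at h1
      omega
    · simp only [dif_neg haO, dif_pos hbO] at hab
      exfalso
      have h1 := congrArg Fin.val hab
      have h2 := (O.equivFin ⟨b, hbO⟩).2
      simp only [Fin.val_castLE] at h1
      omega
    · simp only [dif_neg haO, dif_neg hbO] at hab
      have h1 := congrArg Fin.val hab
      have hcc : c a = c b := by
        apply Fin.ext
        simp only at h1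
        omega
      have key : ∀ x ∈ P, x ∉ O → (G.Adj x w ↔ c x = c w) := by
        intro x hx hxO
        constructor
        · intro hxw
          by_contra hne
          exact hxO (mem_filter.2 ⟨hx, ⟨w, mem_sdiff.2 ⟨(hN x w).2 ⟨hw, hne, hxw⟩, hwP⟩⟩⟩)
        · intro hxw
          exact hcl x (hP hx) w hw hxw (fun h => hwP (h ▸ hx))
      rw [key a ha haO, key b hb hbO, hcc]
  -- greedy construction
  have key : ∀ n, n ≤ S.card → ∃ P ⊆ S, P.card = n ∧ ∑ a ∈ P, (N a \ P).card ≤ 2 ∧
      (P = ∅ ∨ Dec G S 7 P) := by
    intro n
    induction n with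
    | zero => intro _; exact ⟨∅, empty_subset _, rfl, by simp, Or.inl rfl⟩
    | succ n ih =>
      intro hn
      obtain ⟨P, hPS, hPc, hcut, hdec⟩ := ih (by omega)
      have hstep : ∃ v ∈ S, v ∉ P ∧
          ∑ a ∈ insert v P, (N a \ insert v P).card ≤ 2 := by
        by_cases hopen : ∃ u ∈ P, (N u \ P).Nonempty
        · obtain ⟨u, hu, v, hv⟩ := hopen
          rw [mem_sdiff] at hv
          have hvN := (hN u v).1 hv.1
          refine ⟨v, hvN.1, hv.2, ?_⟩
          rw [sum_insert hv.2]
          have h1 : ∑ a ∈ P, (N a \ insert v P).card < ∑ a ∈ P, (N a \ P).card := by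
            refine sum_lt_sum (fun a _ => card_le_card (sdiff_subset_sdiff Subset.rfl
              (subset_insert _ _))) ⟨u, hu, ?_⟩
            refine card_lt_card ⟨sdiff_subset_sdiff Subset.rfl (subset_insert _ _), ?_⟩
            intro hsub
            have := hsub (mem_sdiff.2 hv)
            rw [mem_sdiff] at this
            exact this.2 (mem_insert_self _ _)
          have h2 : (N v \ insert v P).card < (N v).card := by
            refine card_lt_card ⟨sdiff_subset, ?_⟩
            intro hsub
            have huv : u ∈ N v := (hN v u).2 ⟨hPS hu, fun h => hvN.2.1 h.symm, hvN.2.2.symm⟩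
            have := hsub huv
            rw [mem_sdiff] at this
            exact this.2 (mem_insert_of_mem hu)
          have h3 := hNcard v hvN.1
          omega
        · push Not at hopen
          obtain ⟨v, hvS, hvP⟩ : ∃ v ∈ S, v ∉ P := by
            by_contra hcon
            push Not at hcon
            have : S.card ≤ P.card := card_le_card hcon
            omega
          refine ⟨v, hvS, hvP, ?_⟩
          rw [sum_insert hvP]
          have h1 : ∑ a ∈ P, (N a \ insert v P).card = 0 := by
            refine sum_eq_zero (fun a ha => ?_)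
            have h1 : (N a \ insert v P) ⊆ N a \ P :=
              sdiff_subset_sdiff Subset.rfl (subset_insert _ _)
            have h2 : N a \ P = ∅ := by
              have := hopen a ha
              exact not_nonempty_iff_eq_empty.1 (by simpa using this)
            rw [h2] at h1
            rw [subset_empty.1 h1, card_empty]
          have h2 : (N v \ insert v P).card ≤ (N v).card := card_le_card sdiff_subset
          have h3 := hNcard v hvS
          omega
      obtain ⟨v, hvS, hvP, hcut'⟩ := hstep
      have hsub : insert v P ⊆ S := insert_subset hvS hPS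
      refine ⟨insert v P, hsub, by rw [card_insert_of_notMem hvP, hPc], hcut', Or.inr ?_⟩
      rcases hdec with hP | hdec
      · subst hP
        exact .single v
      · have hf := hfew _ hsub hcut'
        have heq : insert v P = P ∪ {v} := by
          ext w; simp
        rw [heq] at hf ⊢
        exact .union _ _ hdec (.single v) (disjoint_singleton_right.2 hvP) hf
  obtain ⟨P, hPS, hPc, _, hdec⟩ := key S.card le_rfl
  have hPeq : P = S := eq_of_subset_of_card_le hPS (by omega)
  rw [hPeq] at hdec
  exact hdec

end Pool.Agent.Lib80.CW
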