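import Pool.Agent.Lib_helper80.CW.Small

/-!
# Clique-width expressions, and module-width bounds clique-width
-/

namespace Pool.Agent.Lib80.CW

open Finset

universe u

set_option linter.unusedSectionVars false

variable {V : Type u}

/-- `k`-expressions over the vertex set `V`: a single labelled vertex, disjoint union, joining
all vertices labelled `i` to all vertices labelled `j`, relabelling `i` to `j` -/
inductive Expr (k : ℕ) (V : Type u) : Type u
  | vertex (v : V) (i : Fin k) : Expr k V
  | union (e f : Expr k V) : Expr k V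
  | join (i j : Fin k) (e : Expr k V) : Expr k V
  | relabel (i j : Fin k) (e : Expr k V) : Expr k V

namespace Expr

variable {k : ℕ}

/-- `v` is a vertex of the graph built by `e`, carrying the label `i` -/
def HasLabel : Expr k V → V → Fin k → Prop
  | vertex v i, w, l => w = v ∧ l = i
  | union e f, w, l => e.HasLabel w l ∨ f.HasLabel w l
  | join _ _ e, w, l => e.HasLabel w l
  | relabel i j e, w, l => (e.HasLabel w l ∧ l ≠ i) ∨ (e.HasLabel w i ∧ l = j)

/-- `v` is a vertex of the graph built by `e` -/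
def Mem (e : Expr k V) (v : V) : Prop := ∃ i, e.HasLabel v i

/-- adjacency in the graph built by `e` -/
def Adj : Expr k V → V → V → Prop
  | vertex _ _, _, _ => False
  | union e f, u, v => e.Adj u v ∨ f.Adj u v
  | join i j e, u, v => e.Adj u v ∨ (e.HasLabel u i ∧ e.HasLabel v j) ∨
      (e.HasLabel u j ∧ e.HasLabel v i)
  | relabel _ _ e, u, v => e.Adj u v

/-- well-formed: unions are disjoint, joins are between different labels -/
def WF : Expr k V → Prop
  | vertex _ _ => True
  | union e f => e.WF ∧ f.WF ∧ ∀ v, ¬ (e.Mem v ∧ f.Mem v)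
  | join i j e => e.WF ∧ i ≠ j
  | relabel _ _ e => e.WF

end Expr

/-- `G` is built by some well-formed `k`-expression, i.e. `G` has clique-width at most `k` -/
def CliqueWidthLE (G : SimpleGraph V) (k : ℕ) : Prop :=
  ∃ e : Expr k V, e.WF ∧ (∀ v, e.Mem v) ∧ ∀ u v, G.Adj u v ↔ e.Adj u v

section

variable [DecidableEq V]

/-- The labelled graphs built by clique-width expressions with `k` labels, on vertex sets that are
finite subsets of `V`.  `Built k S E l` : the graph with vertex set `S`, edge relation `E` and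
labelling `l` (restricted to `S`) has a `k`-expression. -/
inductive Built (k : ℕ) : Finset V → (V → V → Prop) → (V → Fin k) → Prop
  | single (v : V) (i : Fin k) : Built k {v} (fun _ _ => False) (fun _ => i)
  | union {S T : Finset V} {E F : V → V → Prop} {l m : V → Fin k} (hd : Disjoint S T)
      (hS : Built k S E l) (hT : Built k T F m) :
      Built k (S ∪ T) (fun u v => E u v ∨ F u v) (fun v => if v ∈ S then l v else m v)
  | relabel {S : Finset V} {E : V → V → Prop} {l : V → Fin k} (i j : Fin k)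
      (hS : Built k S E l) :
      Built k S E (fun v => if l v = i then j else l v)
  | join {S : Finset V} {E : V → V → Prop} {l : V → Fin k} (i j : Fin k) (hij : i ≠ j)
      (hS : Built k S E l) :
      Built k S (fun u v => E u v ∨
        (u ∈ S ∧ v ∈ S ∧ ((l u = i ∧ l v = j) ∨ (l u = j ∧ l v = i)))) l

theorem Built.congr {k : ℕ} {S : Finset V} {E F : V → V → Prop} {l m : V → Fin k}
    (h : Built k S E l) (hE : ∀ u v, E u v ↔ F u v) (hl : ∀ v, l v = m v) :
    Built k S F m := by
  have h1 : E = F := by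
    funext u v
    exact propext (hE u v)
  have h2 : l = m := funext hl
  rw [← h1, ← h2]
  exact h

/-- Simultaneous relabelling of the labels in `s`. -/
theorem Built.relabelSet {k : ℕ} {S : Finset V} {E : V → V → Prop} {l : V → Fin k}
    (h : Built k S E l) (f : Fin k → Fin k) (s : Finset (Fin k)) (hf : ∀ i ∈ s, f i ∉ s) :
    Built k S E (fun v => if l v ∈ s then f (l v) else l v) := by
  induction s using Finset.induction_on with
  | empty => simpa using h
  | @insert a s ha ih =>
    have hf' : ∀ i ∈ s, f i ∉ s := fun i hi hc =>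
      hf i (mem_insert_of_mem hi) (mem_insert_of_mem hc)
    have h1 := (ih hf').relabel a (f a)
    refine h1.congr (fun _ _ => Iff.rfl) (fun v => ?_)
    by_cases h2 : l v ∈ s
    · have h3 : f (l v) ≠ a := fun e => hf (l v) (mem_insert_of_mem h2) (e ▸ mem_insert_self _ _)
      simp [h2, h3]
    · by_cases h3 : l v = a
      · subst h3
        simp [h2]
      · simp [h2, h3]

/-- Simultaneous join. -/
theorem Built.joinSet {k : ℕ} {S : Finset V} {E : V → V → Prop} {l : V → Fin k}
    (h : Built k S E l) (P : Finset (Fin k × Fin k)) (hP : ∀ p ∈ P, p.1 ≠ p.2) :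
    Built k S (fun u v => E u v ∨ (u ∈ S ∧ v ∈ S ∧ ((l u, l v) ∈ P ∨ (l v, l u) ∈ P))) l := by
  induction P using Finset.induction_on with
  | empty => simpa using h
  | @insert a P ha ih =>
    have h1 := (ih (fun p hp => hP p (mem_insert_of_mem hp))).join a.1 a.2
      (hP a (mem_insert_self _ _))
    refine h1.congr (fun u v => ?_) (fun _ => rfl)
    simp only [mem_insert, Prod.ext_iff]
    tauto

theorem built_of_dec {G : SimpleGraph V} {U A : Finset V} {k : ℕ} (hk : 0 < k)
    (h : Dec G U k A) : A ⊆ U →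
    ∃ l : V → Fin (3 * k), Built (3 * k) A (fun u v => u ∈ A ∧ v ∈ A ∧ G.Adj u v) l ∧
      (∀ v ∈ A, (l v).val < k) ∧
      (∀ u ∈ A, ∀ v ∈ A, l u = l v → ∀ w ∈ U, w ∉ A → (G.Adj u w ↔ G.Adj v w)) := by
  classical
  induction h with
  | single v =>
    intro _
    refine ⟨fun _ => ⟨0, by omega⟩, (Built.single v _).congr (fun a b => ?_) (fun _ => rfl),
      fun _ _ => hk, fun a ha b hb _ w _ _ => ?_⟩
    · simp only [mem_singleton, false_iff, not_and]
      intro h1 h2
      subst h1
      subst h2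
      exact G.loopless.irrefl _
    · rw [mem_singleton.1 ha, mem_singleton.1 hb]
  | union A B hA hB hd ht ihA ihB =>
    intro hABU
    have hAU : A ⊆ U := subset_union_left.trans hABU
    have hBU : B ⊆ U := subset_union_right.trans hABU
    obtain ⟨lA, bA, smA, trA⟩ := ihA hAU
    obtain ⟨lB, bB, smB, trB⟩ := ihB hBU
    obtain ⟨g, hg⟩ := ht
    -- step 1 : move the labels of `B`
    let s1 : Finset (Fin (3 * k)) := univ.filter (fun i => i.val < k)
    let f1 : Fin (3 * k) → Fin (3 * k) := fun i => if hi : i.val < k then ⟨i.val + k, by omega⟩ else i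
    have hf1 : ∀ i ∈ s1, f1 i ∉ s1 := by
      intro i hi
      have hi' : i.val < k := (mem_filter.1 hi).2
      simp only [s1, f1, hi', dif_pos, mem_filter, mem_univ, true_and]
      omega
    have b1 := bB.relabelSet f1 s1 hf1
    set lB' : V → Fin (3 * k) := fun v => if lB v ∈ s1 then f1 (lB v) else lB v with hlB'
    have vB' : ∀ v ∈ B, (lB' v).val = (lB v).val + k := by
      intro v hv
      have h1 : (lB v).val < k := smB v hv
      have h2 : lB v ∈ s1 := mem_filter.2 ⟨mem_univ _, h1⟩
      simp only [hlB', h2, if_true, f1, h1, dif_pos]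
    -- step 2 : disjoint union
    have b2 := bA.union hd b1
    set l1 : V → Fin (3 * k) := fun v => if v ∈ A then lA v else lB' v with hl1
    have l1A : ∀ v ∈ A, l1 v = lA v := fun v hv => by simp [hl1, hv]
    have l1B : ∀ v ∈ B, l1 v = lB' v := fun v hv => by
      have : v ∉ A := fun hc => disjoint_left.1 hd hc hv
      simp [hl1, this]
    -- step 3 : joins
    let P : Finset (Fin (3 * k) × Fin (3 * k)) := univ.filter (fun p => p.1.val < k ∧ k ≤ p.2.val ∧
      ∃ u ∈ A, ∃ v ∈ B, lA u = p.1 ∧ lB' v = p.2 ∧ G.Adj u v)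
    have hP : ∀ p ∈ P, p.1 ≠ p.2 := by
      intro p hp e
      obtain ⟨_, h1, h2, _⟩ := mem_filter.1 hp
      rw [e] at h1
      omega
    have b3 := b2.joinSet P hP
    have key : ∀ u ∈ A ∪ B, ∀ v ∈ A ∪ B, (l1 u, l1 v) ∈ P → u ∈ A ∧ v ∈ B ∧ G.Adj u v := by
      intro u hu v hv hp
      obtain ⟨_, h1, h2, u', hu', v', hv', e1, e2, hadj⟩ := mem_filter.1 hp
      simp only at h1 h2 e1 e2
      have huA : u ∈ A := by
        rcases mem_union.1 hu with h | h
        · exact h
        · rw [l1B u h, vB' u h] at h1; omega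
      have hvB : v ∈ B := by
        rcases mem_union.1 hv with h | h
        · rw [l1A v h] at h2
          have := smA v h
          omega
        · exact h
      refine ⟨huA, hvB, ?_⟩
      rw [l1A u huA] at e1
      rw [l1B v hvB] at e2
      have e3 : lB v' = lB v := by
        apply Fin.ext
        have := congrArg Fin.val e2
        rw [vB' v' hv', vB' v hvB] at this
        omega
      have h3 : G.Adj u v' := (trA u' hu' u huA e1 v' (hBU hv')
        (fun hc => disjoint_left.1 hd hc hv')).1 hadj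
      exact ((trB v' hv' v hvB e3 u (hAU huA)
        (fun hc => disjoint_left.1 hd huA hc)).1 h3.symm).symm
    have key2 : ∀ u ∈ A, ∀ v ∈ B, G.Adj u v → (l1 u, l1 v) ∈ P := by
      intro u hu v hv hadj
      refine mem_filter.2 ⟨mem_univ _, ?_, ?_, u, hu, v, hv, (l1A u hu).symm, (l1B v hv).symm, hadj⟩
      · simpa [l1A u hu] using smA u hu
      · simp only [l1B v hv, vB' v hv]; omega
    -- step 4 : relabel upwards
    let rep : Fin (3 * k) → Fin k := fun i =>
      if hi : ∃ u ∈ A ∪ B, l1 u = i then g hi.choose else ⟨0, hk⟩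
    let s4 : Finset (Fin (3 * k)) := univ.filter (fun i => i.val < 2 * k)
    let f4 : Fin (3 * k) → Fin (3 * k) := fun i => ⟨2 * k + (rep i).val, by have := (rep i).2; omega⟩
    have hf4 : ∀ i ∈ s4, f4 i ∉ s4 := by
      intro i _
      simp only [s4, f4, mem_filter, mem_univ, true_and]
      omega
    have b4 := b3.relabelSet f4 s4 hf4
    set l4 : V → Fin (3 * k) := fun v => if l1 v ∈ s4 then f4 (l1 v) else l1 v with hl4
    have sm1 : ∀ v ∈ A ∪ B, (l1 v).val < 2 * k := by
      intro v hv
      rcases mem_union.1 hv with h | h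
      · rw [l1A v h]; have := smA v h; omega
      · rw [l1B v h, vB' v h]; have := smB v h; omega
    have v4 : ∀ v ∈ A ∪ B, (l4 v).val = 2 * k + (rep (l1 v)).val := by
      intro v hv
      have h2 : l1 v ∈ s4 := mem_filter.2 ⟨mem_univ _, sm1 v hv⟩
      simp only [hl4, h2, if_true, f4]
    -- step 5 : relabel downwards
    let s5 : Finset (Fin (3 * k)) := univ.filter (fun i => 2 * k ≤ i.val)
    let f5 : Fin (3 * k) → Fin (3 * k) := fun i => ⟨i.val - 2 * k, by omega⟩
    have hf5 : ∀ i ∈ s5, f5 i ∉ s5 := by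
      intro i _
      simp only [s5, f5, mem_filter, mem_univ, true_and]
      have := i.2
      omega
    have b5 := b4.relabelSet f5 s5 hf5
    set l5 : V → Fin (3 * k) := fun v => if l4 v ∈ s5 then f5 (l4 v) else l4 v with hl5
    have v5 : ∀ v ∈ A ∪ B, (l5 v).val = (rep (l1 v)).val := by
      intro v hv
      have h1 := v4 v hv
      have h2 : l4 v ∈ s5 := mem_filter.2 ⟨mem_univ _, by omega⟩
      simp only [hl5, h2, if_true, f5]
      omega
    have same : ∀ u ∈ A ∪ B, ∀ v ∈ A ∪ B, l1 u = l1 v → ∀ w ∈ U, w ∉ A ∪ B →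
        (G.Adj u w ↔ G.Adj v w) := by
      intro u hu v hv e w hw hwn
      have hwA : w ∉ A := fun hc => hwn (mem_union_left _ hc)
      have hwB : w ∉ B := fun hc => hwn (mem_union_right _ hc)
      rcases mem_union.1 hu with h | h <;> rcases mem_union.1 hv with h' | h'
      · rw [l1A u h, l1A v h'] at e
        exact trA u h v h' e w hw hwA
      · exfalso
        have h1 := congrArg Fin.val e
        rw [l1A u h, l1B v h', vB' v h'] at h1
        have := smA u h
        omega
      · exfalso
        have h1 := congrArg Fin.val e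
        rw [l1A v h', l1B u h, vB' u h] at h1
        have := smA v h'
        omega
      · rw [l1B u h, l1B v h'] at e
        refine trB u h v h' ?_ w hw hwB
        apply Fin.ext
        have := congrArg Fin.val e
        rw [vB' u h, vB' v h'] at this
        omega
    have hrep : ∀ v ∈ A ∪ B, ∃ u ∈ A ∪ B, l1 u = l1 v ∧ rep (l1 v) = g u := by
      intro v hv
      have hex : ∃ u ∈ A ∪ B, l1 u = l1 v := ⟨v, hv, rfl⟩
      refine ⟨hex.choose, hex.choose_spec.1, hex.choose_spec.2, ?_⟩
      simp only [rep, hex, dif_pos]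
    refine ⟨l5, b5.congr (fun u v => ?_) (fun _ => rfl), fun v hv => ?_, ?_⟩
    · constructor
      · rintro ((⟨h1, h2, h3⟩ | ⟨h1, h2, h3⟩) | ⟨h1, h2, h3 | h3⟩)
        · exact ⟨mem_union_left _ h1, mem_union_left _ h2, h3⟩
        · exact ⟨mem_union_right _ h1, mem_union_right _ h2, h3⟩
        · exact ⟨h1, h2, (key u h1 v h2 h3).2.2⟩
        · exact ⟨h1, h2, (key v h2 u h1 h3).2.2.symm⟩
      · rintro ⟨h1, h2, h3⟩
        rcases mem_union.1 h1 with h4 | h4 <;> rcases mem_union.1 h2 with h5 | h5
        · exact Or.inl (Or.inl ⟨h4, h5, h3⟩)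
        · exact Or.inr ⟨h1, h2, Or.inl (key2 u h4 v h5 h3)⟩
        · exact Or.inr ⟨h1, h2, Or.inr (key2 v h5 u h4 h3.symm)⟩
        · exact Or.inl (Or.inr ⟨h4, h5, h3⟩)
    · rw [v5 v hv]
      exact (rep (l1 v)).2
    · intro u hu v hv e w hw hwn
      have e' : rep (l1 u) = rep (l1 v) := by
        apply Fin.ext
        rw [← v5 u hu, ← v5 v hv, e]
      obtain ⟨u', hu', eu, gu⟩ := hrep u hu
      obtain ⟨v', hv', ev, gv⟩ := hrep v hv
      rw [← same u' hu' u hu eu w hw hwn, ← same v' hv' v hv ev w hw hwn]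
      refine hg u' hu' v' hv' ?_ w hw hwn
      rw [← gu, ← gv, e']

/-- from `Built` to expressions -/
theorem Built.toExpr {k : ℕ} {S : Finset V} {E : V → V → Prop} {l : V → Fin k}
    (h : Built k S E l) : ∃ e : Expr k V, e.WF ∧ (∀ v i, e.HasLabel v i ↔ (v ∈ S ∧ l v = i)) ∧
      (∀ u v, e.Adj u v ↔ E u v) := by
  induction h with
  | single v i =>
    refine ⟨Expr.vertex v i, trivial, fun w j => ?_, fun _ _ => Iff.rfl⟩
    simp only [Expr.HasLabel, mem_singleton]
    constructor
    · rintro ⟨h1, h2⟩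
      exact ⟨h1, h2.symm⟩
    · rintro ⟨h1, h2⟩
      exact ⟨h1, h2.symm⟩
  | @union S T E F l m hd hS hT ihS ihT =>
    obtain ⟨e, e1, e2, e3⟩ := ihS
    obtain ⟨f, f1, f2, f3⟩ := ihT
    refine ⟨Expr.union e f, ⟨e1, f1, ?_⟩, fun v i => ?_, fun u v => ?_⟩
    · rintro v ⟨⟨i, hi⟩, ⟨j, hj⟩⟩
      exact disjoint_left.1 hd ((e2 v i).1 hi).1 ((f2 v j).1 hj).1
    · show (e.HasLabel v i ∨ f.HasLabel v i) ↔ _
      rw [e2, f2, mem_union]
      by_cases h1 : v ∈ S
      · have h2 : v ∉ T := fun h => disjoint_left.1 hd h1 h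
        simp [h1, h2]
      · simp [h1]
    · show (e.Adj u v ∨ f.Adj u v) ↔ _
      rw [e3, f3]
  | @relabel S E l i j hS ih =>
    obtain ⟨e, e1, e2, e3⟩ := ih
    refine ⟨Expr.relabel i j e, e1, fun v a => ?_, fun u v => e3 u v⟩
    show ((e.HasLabel v a ∧ a ≠ i) ∨ (e.HasLabel v i ∧ a = j)) ↔ _
    rw [e2, e2]
    by_cases h1 : l v = i
    · simp only [h1, if_true]
      constructor
      · rintro (⟨⟨_, h2⟩, h3⟩ | ⟨⟨h2, _⟩, h3⟩)
        · exact absurd h2.symm h3
        · exact ⟨h2, h3.symm⟩
      · rintro ⟨h2, h3⟩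
        exact Or.inr ⟨⟨h2, trivial⟩, h3.symm⟩
    · simp only [h1, if_false, and_false, false_and, or_false]
      constructor
      · rintro ⟨⟨h2, h3⟩, _⟩
        exact ⟨h2, h3⟩
      · rintro ⟨h2, h3⟩
        exact ⟨⟨h2, h3⟩, fun h => h1 (h3.trans h)⟩
  | @join S E l i j hij hS ih =>
    obtain ⟨e, e1, e2, e3⟩ := ih
    refine ⟨Expr.join i j e, ⟨e1, hij⟩, fun v a => e2 v a, fun u v => ?_⟩
    show (e.Adj u v ∨ (e.HasLabel u i ∧ e.HasLabel v j) ∨ (e.HasLabel u j ∧ e.HasLabel v i)) ↔ _
    rw [e3, e2, e2, e2, e2]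
    tauto

end

/-- module-width bounds clique-width -/
theorem cliqueWidthLE_of_MW [Fintype V] [DecidableEq V] [Nonempty V] {G : SimpleGraph V} {k : ℕ}
    (hk : 0 < k) (h : MW G univ k) : CliqueWidthLE G (3 * k) := by
  rcases h with h | h
  · exact absurd h (univ_nonempty.ne_empty)
  · obtain ⟨l, hl, _⟩ := built_of_dec hk h Subset.rfl
    obtain ⟨e, e1, e2, e3⟩ := hl.toExpr
    refine ⟨e, e1, fun v => ⟨l v, (e2 v (l v)).2 ⟨mem_univ _, rfl⟩⟩, fun u v => ?_⟩
    rw [e3]
    simp

end Pool.Agent.Lib80.CW
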