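import Pool.Agent.Lib_helper80.CW.Small

/-!
# The large clique case: Ramsey and eight independent representatives
-/

namespace Pool.Agent.Lib80.CW

open Finset

universe u

theorem ramsey_aux {W : Type*} [DecidableEq W] (E : W → W → Prop) (hE : ∀ x y, E x y → E y x) :
    ∀ n a b : ℕ, a + b = n → ∀ K : Finset W, 2 ^ n ≤ K.card →
      ∃ J ⊆ K, (J.card = a ∧ ∀ x ∈ J, ∀ y ∈ J, x ≠ y → E x y) ∨
        (J.card = b ∧ ∀ x ∈ J, ∀ y ∈ J, x ≠ y → ¬ E x y) := by
  classical
  intro n
  induction n with
  | zero =>
    intro a b hab K _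
    exact ⟨∅, empty_subset _, Or.inl ⟨by rw [card_empty]; omega, by simp⟩⟩
  | succ n ih =>
    intro a b hab K hK
    rcases Nat.eq_zero_or_pos a with rfl | ha
    · exact ⟨∅, empty_subset _, Or.inl ⟨card_empty, by simp⟩⟩
    rcases Nat.eq_zero_or_pos b with rfl | hb
    · exact ⟨∅, empty_subset _, Or.inr ⟨card_empty, by simp⟩⟩
    have hpos : 0 < K.card := lt_of_lt_of_le (by positivity) hK
    obtain ⟨v, hv⟩ := card_pos.1 hpos
    have h1 := card_filter_add_card_filter_not (s := K.erase v) (fun w => E v w)
    have h2 : (K.erase v).card = K.card - 1 := card_erase_of_mem hv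
    have h3 : 2 ^ (n + 1) = 2 ^ n + 2 ^ n := by rw [pow_succ]; ring
    rcases le_or_gt (2 ^ n) ((K.erase v).filter (fun w => E v w)).card with h | h
    · obtain ⟨J, hJ, hJ'⟩ := ih (a - 1) b (by omega) _ h
      have hJK : J ⊆ K := hJ.trans ((filter_subset _ _).trans (erase_subset _ _))
      rcases hJ' with ⟨hc, hJ'⟩ | hJ'
      · have hvJ : v ∉ J := fun hvJ => by
          have := (mem_filter.1 (hJ hvJ)).1
          exact (notMem_erase v K) this
        refine ⟨insert v J, insert_subset hv hJK, Or.inl ⟨?_, ?_⟩⟩
        · rw [card_insert_of_notMem hvJ]; omega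
        · intro x hx y hy hxy
          rcases mem_insert.1 hx with hx1 | hx1
          · rcases mem_insert.1 hy with hy1 | hy1
            · exact absurd (hx1.trans hy1.symm) hxy
            · rw [hx1]; exact (mem_filter.1 (hJ hy1)).2
          · rcases mem_insert.1 hy with hy1 | hy1
            · rw [hy1]; exact hE _ _ (mem_filter.1 (hJ hx1)).2
            · exact hJ' x hx1 y hy1 hxy
      · exact ⟨J, hJK, Or.inr hJ'⟩
    · have h' : 2 ^ n ≤ ((K.erase v).filter (fun w => ¬ E v w)).card := by omega
      obtain ⟨J, hJ, hJ'⟩ := ih a (b - 1) (by omega) _ h'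
      have hJK : J ⊆ K := hJ.trans ((filter_subset _ _).trans (erase_subset _ _))
      rcases hJ' with hJ' | ⟨hc, hJ'⟩
      · exact ⟨J, hJK, Or.inl hJ'⟩
      · have hvJ : v ∉ J := fun hvJ => by
          have := (mem_filter.1 (hJ hvJ)).1
          exact (notMem_erase v K) this
        refine ⟨insert v J, insert_subset hv hJK, Or.inr ⟨?_, ?_⟩⟩
        · rw [card_insert_of_notMem hvJ]; omega
        · intro x hx y hy hxy
          rcases mem_insert.1 hx with hx1 | hx1
          · rcases mem_insert.1 hy with hy1 | hy1
            · exact absurd (hx1.trans hy1.symm) hxy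
            · rw [hx1]; exact (mem_filter.1 (hJ hy1)).2
          · rcases mem_insert.1 hy with hy1 | hy1
            · rw [hy1]; exact fun h => (mem_filter.1 (hJ hx1)).2 (hE _ _ h)
            · exact hJ' x hx1 y hy1 hxy

theorem exists_eight {W : Type*} [DecidableEq W] (E : W → W → Prop) (hE : ∀ x y, E x y → E y x)
    (K : Finset W) (hK : 2 ^ 16 ≤ K.card) :
    ∃ J ⊆ K, J.card = 8 ∧ ((∀ x ∈ J, ∀ y ∈ J, x ≠ y → E x y) ∨ (∀ x ∈ J, ∀ y ∈ J, x ≠ y → ¬ E x y)) := by
  obtain ⟨J, hJ, h⟩ := ramsey_aux E hE 16 8 8 rfl K hK
  rcases h with ⟨h1, h2⟩ | ⟨h1, h2⟩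
  · exact ⟨J, hJ, h1, Or.inl h2⟩
  · exact ⟨J, hJ, h1, Or.inr h2⟩

variable {V : Type u} [DecidableEq V] [Fintype V]

/-- eight independent representatives -/
theorem large_indep {G : SimpleGraph V} (hd : DiamondFree G) (hp : P15Free G) (hpr : Prime G)
    (K : Finset V) (hK : ∀ x ∈ K, ∀ y ∈ K, x ≠ y → G.Adj x y)
    (hK1 : ∀ v, v ∉ K → ∀ x ∈ K, ∀ y ∈ K, G.Adj v x → G.Adj v y → x = y)
    (J : Finset V) (hJK : J ⊆ K) (hJ : J.card = 8) (r : V → V) (hrK : ∀ x ∈ J, r x ∉ K)
    (hr : ∀ x ∈ J, G.Adj (r x) x) (hi : ∀ x ∈ J, ∀ y ∈ J, ¬ G.Adj (r x) (r y)) :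
    MW G univ 18 := by
  classical
  -- avoiding
  have avoid : ∀ v, v ∉ K → ∀ v', v' ∉ K → ∀ A : Finset V, A.card ≤ 5 →
      ∃ x ∈ J, ¬ G.Adj v x ∧ ¬ G.Adj v' x ∧ x ∉ A := by
    intro v hv v' hv' A hA
    have h1 : (J.filter (fun x => G.Adj v x)).card ≤ 1 := by
      rw [card_le_one]
      intro a ha b hb
      obtain ⟨ha, ha'⟩ := mem_filter.1 ha
      obtain ⟨hb, hb'⟩ := mem_filter.1 hb
      exact hK1 v hv a (hJK ha) b (hJK hb) ha' hb'
    have h2 : (J.filter (fun x => G.Adj v' x)).card ≤ 1 := by
      rw [card_le_one]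
      intro a ha b hb
      obtain ⟨ha, ha'⟩ := mem_filter.1 ha
      obtain ⟨hb, hb'⟩ := mem_filter.1 hb
      exact hK1 v' hv' a (hJK ha) b (hJK hb) ha' hb'
    have h3 : ((J.filter (fun x => G.Adj v x) ∪ J.filter (fun x => G.Adj v' x)) ∪ A).card < J.card := by
      have := card_union_le (J.filter (fun x => G.Adj v x) ∪ J.filter (fun x => G.Adj v' x)) A
      have := card_union_le (J.filter (fun x => G.Adj v x)) (J.filter (fun x => G.Adj v' x))
      omega
    obtain ⟨x, hxJ, hx⟩ := exists_mem_notMem_of_card_lt_card h3
    rw [mem_union, mem_union, mem_filter, mem_filter] at hx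
    exact ⟨x, hxJ, fun h => hx (Or.inl (Or.inl ⟨hxJ, h⟩)), fun h => hx (Or.inl (Or.inr ⟨hxJ, h⟩)),
      fun h => hx (Or.inr h)⟩
  have hKK : ∀ x ∈ J, ∀ y ∈ J, x ≠ y → G.Adj x y := fun x hx y hy => hK x (hJK hx) y (hJK hy)
  have hrx : ∀ x ∈ J, ∀ y ∈ K, x ≠ y → ¬ G.Adj (r x) y := fun x hx y hy hxy h =>
    hxy (hK1 (r x) (hrK x hx) x (hJK hx) y hy (hr x hx) h)
  -- the classes
  let isU : V → Prop := fun v => v ∉ K ∧ ∀ x ∈ J, ¬ G.Adj v x → G.Adj v (r x)
  let isN : V → Prop := fun v => v ∉ K ∧ ∀ x ∈ J, ¬ G.Adj v x → ¬ G.Adj v (r x)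
  -- claim 1
  have claim1 : ∀ v, v ∉ K → isU v ∨ isN v := by
    intro v hv
    by_contra hcon
    have hN : ¬ isN v := fun h => hcon (Or.inr h)
    have hU : ¬ isU v := fun h => hcon (Or.inl h)
    simp only [isN, not_and, not_forall, not_not] at hN
    simp only [isU, not_and, not_forall] at hU
    obtain ⟨xi, hxi, hvi, hai⟩ := hN hv
    obtain ⟨xk, hxk, hvk, hak⟩ := hU hv
    have hik : xi ≠ xk := by rintro rfl; exact hak hai
    -- misses at most one
    have one : ∀ xj ∈ J, ¬ G.Adj v xj → ¬ G.Adj v (r xj) → xj = xk := by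
      intro xj hxj hvj haj
      by_contra hjk
      have hij : xi ≠ xj := by rintro rfl; exact haj hai
      refine hp (r xk) (r xj) xj xi (r xi) v (hr xj hxj) (hKK _ hxj _ hxi hij.symm)
        (hr xi hxi).symm hai.symm (hrx _ hxj _ (hJK hxi) hij.symm) (hi _ hxj _ hxi)
        (fun h => haj h.symm) (fun h => hrx _ hxi _ (hJK hxj) hij h.symm) (fun h => hvj h.symm)
        (fun h => hvi h.symm) (hi _ hxk _ hxj) (hrx _ hxk _ (hJK hxj) (Ne.symm hjk))
        (hrx _ hxk _ (hJK hxi) hik.symm) (hi _ hxk _ hxi) (fun h => hak h.symm)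
    obtain ⟨xj, hxj, hvj, _, hj⟩ := avoid v hv v hv {xi, xk} (card_le_two.trans (by norm_num))
    have hji : xj ≠ xi := by rintro rfl; exact hj (by simp)
    have hjk : xj ≠ xk := by rintro rfl; exact hj (by simp)
    have haj : G.Adj v (r xj) := by
      by_contra h
      exact hjk (one xj hxj hvj h)
    obtain ⟨y, hy, hvy, _, hyA⟩ := avoid v hv v hv {xi, xj, xk} (card_le_three.trans (by norm_num))
    have hyi : y ≠ xi := by rintro rfl; exact hyA (by simp)
    have hyj : y ≠ xj := by rintro rfl; exact hyA (by simp)
    have hyk : y ≠ xk := by rintro rfl; exact hyA (by simp)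
    refine hp (r xk) y xi (r xi) v (r xj) (hKK _ hy _ hxi hyi) (hr xi hxi).symm hai.symm haj
      (fun h => hrx _ hxi _ (hJK hy) hyi.symm h.symm) (fun h => hvy h.symm)
      (fun h => hrx _ hxj _ (hJK hy) hyj.symm h.symm) (fun h => hvi h.symm)
      (fun h => hrx _ hxj _ (hJK hxi) hji h.symm) (hi _ hxi _ hxj)
      (hrx _ hxk _ (hJK hy) hyk.symm) (hrx _ hxk _ (hJK hxi) hik.symm) (hi _ hxk _ hxi)
      (fun h => hak h.symm) (hi _ hxk _ hxj)
  -- claim 2
  have claim2 : ∀ u, isU u → ∀ u', isU u' → ¬ G.Adj u u' := by
    rintro u ⟨hu, hu1⟩ u' ⟨hu', hu1'⟩ huu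
    obtain ⟨x, hx, h1, h2, _⟩ := avoid u hu u' hu' ∅ (by simp)
    obtain ⟨y, hy, h3, h4, h5⟩ := avoid u hu u' hu' {x} (by simp)
    have hxy : x ≠ y := by rintro rfl; exact h5 (by simp)
    refine hi x hx y hy (hd u u' (r x) (r y) huu (hu1 x hx h1) (hu1' x hx h2) (hu1 y hy h3)
      (hu1' y hy h4) ?_)
    intro h
    exact hrx x hx y (hJK hy) hxy (h ▸ hr y hy)
  -- claim 3
  have claim3 : ∀ u, isU u → ∀ v, isN v → G.Adj u v := by
    rintro u ⟨hu, hu1⟩ v ⟨hv, hv1⟩
    by_contra huv
    obtain ⟨x, hx, h1, h2, _⟩ := avoid u hu v hv ∅ (by simp)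
    obtain ⟨y, hy, h3, h4, h5⟩ := avoid u hu v hv {x} (by simp)
    have hxy : y ≠ x := by rintro rfl; exact h5 (by simp)
    obtain ⟨z, hz, h6, h7, h8⟩ := avoid u hu v hv {x, y} (card_le_two.trans (by norm_num))
    have hzx : z ≠ x := by rintro rfl; exact h8 (by simp)
    have hzy : z ≠ y := by rintro rfl; exact h8 (by simp)
    refine hp v z x (r x) u (r y) (hKK _ hz _ hx hzx) (hr x hx).symm (hu1 x hx h1).symm
      (hu1 y hy h3) (fun h => hrx _ hx _ (hJK hz) hzx.symm h.symm) (fun h => h6 h.symm)
      (fun h => hrx _ hy _ (hJK hz) hzy.symm h.symm) (fun h => h1 h.symm)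
      (fun h => hrx _ hy _ (hJK hx) hxy h.symm) (hi _ hx _ hy) h7 h2 (hv1 x hx h2)
      (fun h => huv h.symm) (hv1 y hy h4)
  -- claim 4
  have claim4' : ∀ v, isN v → ∀ v', isN v' → ∀ y ∈ K, G.Adj v y → ¬ G.Adj v' y →
      ¬ G.Adj v v' := by
    rintro v ⟨hv, hv1⟩ v' ⟨hv', hv1'⟩ y hy hvy hvy' hvv
    obtain ⟨j, hj, h1, h2, h3⟩ := avoid v hv v' hv' {y} (by simp)
    have hjy : j ≠ y := by rintro rfl; exact h3 (by simp)
    obtain ⟨k, hk, h4, h5, h6⟩ := avoid v hv v' hv' {y, j} (card_le_two.trans (by norm_num))
    have hky : k ≠ y := by rintro rfl; exact h6 (by simp)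
    have hkj : k ≠ j := by rintro rfl; exact h6 (by simp)
    refine hp (r k) (r j) j y v v' (hr j hj) (hK _ (hJK hj) _ hy hjy) hvy.symm hvv
      (hrx _ hj _ hy hjy) (fun h => hv1 j hj h1 h.symm) (fun h => hv1' j hj h2 h.symm)
      (fun h => h1 h.symm) (fun h => h2 h.symm) (fun h => hvy' h.symm)
      (hi _ hk _ hj) (hrx _ hk _ (hJK hj) hkj) (hrx _ hk _ hy hky)
      (fun h => hv1 k hk h4 h.symm) (fun h => hv1' k hk h5 h.symm)
  -- labels
  let lab : V → Option V := fun v =>
    if v ∈ K then some v else if h : ∃ x ∈ K, G.Adj v x then some h.choose else none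
  have lab1 : ∀ v ∈ K, lab v = some v := fun v hv => by simp only [lab, if_pos hv]
  have lab2 : ∀ v, v ∉ K → ∀ x ∈ K, (G.Adj v x ↔ lab v = some x) := by
    intro v hv x hx
    simp only [lab, if_neg hv]
    constructor
    · intro h
      have hex : ∃ x ∈ K, G.Adj v x := ⟨x, hx, h⟩
      rw [dif_pos hex, hK1 v hv _ hex.choose_spec.1 x hx hex.choose_spec.2 h]
    · intro h
      by_cases hex : ∃ x ∈ K, G.Adj v x
      · rw [dif_pos hex] at h
        have h' := Option.some.inj h
        rw [← h']; exact hex.choose_spec.2
      · rw [dif_neg hex] at h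
        exact absurd h (by simp)
  have lab3 : ∀ v x, lab v = some x → x ∈ K := by
    intro v x h
    by_cases hv : v ∈ K
    · rw [lab1 v hv] at h
      exact (Option.some.inj h) ▸ hv
    · simp only [lab, if_neg hv] at h
      by_cases hex : ∃ x ∈ K, G.Adj v x
      · rw [dif_pos hex] at h
        rw [← Option.some.inj h]; exact hex.choose_spec.1
      · rw [dif_neg hex] at h
        exact absurd h (by simp)
  have claim4 : ∀ v, isN v → ∀ v', isN v' → lab v ≠ lab v' → ¬ G.Adj v v' := by
    intro v hv v' hv' hne
    rcases hl : lab v with _ | y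
    · rcases hl' : lab v' with _ | y
      · exact absurd (hl.trans hl'.symm) hne
      · have hy := lab3 v' y hl'
        have h1 : G.Adj v' y := (lab2 v' hv'.1 y hy).2 hl'
        have h2 : ¬ G.Adj v y := fun h => by
          have := (lab2 v hv.1 y hy).1 h
          rw [hl] at this
          exact absurd this (by simp)
        exact fun h => claim4' v' hv' v hv y hy h1 h2 h.symm
    · have hy := lab3 v y hl
      have h1 : G.Adj v y := (lab2 v hv.1 y hy).2 hl
      have h2 : ¬ G.Adj v' y := fun h => by
        have := (lab2 v' hv'.1 y hy).1 h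
        exact hne (hl.trans this.symm)
      exact claim4' v hv v' hv' y hy h1 h2
  let c : V → Fin 3 := fun v => if v ∈ K then 0 else if isU v then 1 else 2
  let T : Fin 3 → Fin 3 → Prop := fun i j => (i = 0 ∧ j = 0) ∨ (i = 1 ∧ j = 2) ∨ (i = 2 ∧ j = 1)
  have hc : ∀ v, (v ∈ K ∧ c v = 0) ∨ (v ∉ K ∧ isU v ∧ c v = 1) ∨ (v ∉ K ∧ isN v ∧ c v = 2) := by
    intro v
    by_cases hv : v ∈ K
    · left; exact ⟨hv, by simp only [c, if_pos hv]⟩
    · by_cases hU : isU v
      · right; left; exact ⟨hv, hU, by simp only [c, if_neg hv, if_pos hU]⟩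
      · right; right
        exact ⟨hv, (claim1 v hv).resolve_left hU, by simp only [c, if_neg hv, if_neg hU]⟩
  have table : ∀ x y, lab x ≠ lab y → (G.Adj x y ↔ T (c x) (c y)) := by
    intro x y hne
    rcases hc x with ⟨hx, hcx⟩ | ⟨hx, hxU, hcx⟩ | ⟨hx, hxN, hcx⟩ <;>
    rcases hc y with ⟨hy, hcy⟩ | ⟨hy, hyU, hcy⟩ | ⟨hy, hyN, hcy⟩
    · have h : G.Adj x y := hK x hx y hy (by rintro rfl; exact hne rfl)
      simp [T, hcx, hcy, h]
    · have h : ¬ G.Adj x y := fun h => hne ((lab1 x hx).trans ((lab2 y hy x hx).1 h.symm).symm)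
      simp [T, hcx, hcy, h]
    · have h : ¬ G.Adj x y := fun h => hne ((lab1 x hx).trans ((lab2 y hy x hx).1 h.symm).symm)
      simp [T, hcx, hcy, h]
    · have h : ¬ G.Adj x y := fun h => hne (((lab2 x hx y hy).1 h).trans (lab1 y hy).symm)
      simp [T, hcx, hcy, h]
    · have h : ¬ G.Adj x y := claim2 x hxU y hyU
      simp [T, hcx, hcy, h]
    · have h : G.Adj x y := claim3 x hxU y hyN
      simp [T, hcx, hcy, h]
    · have h : ¬ G.Adj x y := fun h => hne (((lab2 x hx y hy).1 h).trans (lab1 y hy).symm)
      simp [T, hcx, hcy, h]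
    · have h : G.Adj x y := (claim3 y hyU x hxN).symm
      simp [T, hcx, hcy, h]
    · have h : ¬ G.Adj x y := claim4 x hxN y hyN hne
      simp [T, hcx, hcy, h]
  obtain ⟨f, hf⟩ := exists_injOn_nat (univ : Finset V)
  have hf' : Function.Injective f := fun a b hab => hf (by simp) (by simp) hab
  let β : V → ℕ := fun v => (lab v).elim 0 (fun x => f x + 1)
  have hβ0 : ∀ v, β v = 0 → lab v = none := by
    intro v h
    rcases hl : lab v with _ | x
    · rfl
    · simp [β, hl] at h
  have hβ1 : ∀ v x, β v = f x + 1 → lab v = some x := by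
    intro v x h
    rcases hl : lab v with _ | y
    · simp [β, hl] at h
    · simp only [β, hl, Option.elim] at h
      rw [hf' (by omega : f y = f x)]
  have hβne : ∀ x y, β x < β y → lab x ≠ lab y := by
    intro x y h he
    simp only [β, he] at h
    exact lt_irrefl _ h
  have main : MW G univ (3 * 3) := by
    refine MW.of_blocks (by norm_num) β c ?_ ?_
    · intro x _ x' _ y _ y' _ h1 h2 h3 h4
      rw [table x y (hβne _ _ h3), table x' y' (hβne _ _ h4), h1, h2]
    · intro i
      rcases Nat.eq_zero_or_pos i with rfl | hi0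
      · -- block without label
        have hZK : ∀ v, β v = 0 → v ∉ K := by
          intro v h hv
          have := hβ0 v h
          rw [lab1 v hv] at this
          exact absurd this (by simp)
        by_cases hUe : ∃ u, isU u
        · obtain ⟨u, hu⟩ := hUe
          have h1 : MW G (univ.filter (fun v => β v = 0)) (2 * 1) := by
            refine MW.of_blocks le_rfl (fun v => if isU v then 0 else 1)
              (fun v => if isU v then (0 : Fin 2) else 1) ?_ ?_
            · have key : ∀ x ∈ univ.filter (fun v => β v = 0), ∀ y ∈ univ.filter (fun v => β v = 0),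
                  (if isU x then 0 else 1) < (if isU y then 0 else 1) → G.Adj x y := by
                intro x hx y hy hxy
                by_cases hxU : isU x
                · by_cases hyU : isU y
                  · simp only [if_pos hxU, if_pos hyU] at hxy
                    exact absurd hxy (by norm_num)
                  · exact claim3 x hxU y ((claim1 y (hZK y (mem_filter.1 hy).2)).resolve_left hyU)
                · by_cases hyU : isU y
                  · simp only [if_neg hxU, if_pos hyU] at hxy
                    exact absurd hxy (by norm_num)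
                  · simp only [if_neg hxU, if_neg hyU] at hxy
                    exact absurd hxy (by norm_num)
              intro x hx x' hx' y hy y' hy' _ _ h3 h4
              exact iff_of_true (key x hx y hy h3) (key x' hx' y' hy' h4)
            · intro i
              rcases i with _ | _ | i
              · refine MW.indep ?_
                intro a ha b hb
                have haU : isU a := by
                  by_contra h
                  have := (mem_filter.1 ha).2
                  rw [if_neg h] at this
                  exact absurd this (by norm_num)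
                have hbU : isU b := by
                  by_contra h
                  have := (mem_filter.1 hb).2
                  rw [if_neg h] at this
                  exact absurd this (by norm_num)
                exact claim2 a haU b hbU
              · refine MW.cluster ?_
                have hN : ∀ a ∈ (univ.filter (fun v => β v = 0)).filter
                    (fun v => (if isU v then 0 else 1) = 0 + 1), isN a := by
                  intro a ha
                  obtain ⟨ha1, ha2⟩ := mem_filter.1 ha
                  have haU : ¬ isU a := by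
                    intro h
                    rw [if_pos h] at ha2
                    exact absurd ha2 (by norm_num)
                  exact (claim1 a (hZK a (mem_filter.1 ha1).2)).resolve_left haU
                intro a ha b hb d hd' hab hbd hne
                exact hd u b a d (claim3 u hu b (hN b hb)) (claim3 u hu a (hN a ha)) hab.symm
                  (claim3 u hu d (hN d hd')) hbd hne
              · left
                rw [filter_eq_empty_iff]
                intro v _ h
                by_cases hv : isU v
                · rw [if_pos hv] at h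
                  omega
                · rw [if_neg hv] at h
                  omega
          exact h1.mono (by norm_num)
        · left
          push Not at hUe
          have hmod : IsModule G (univ.filter (fun v => β v ≠ 0)) := by
            have key : ∀ a ∈ univ.filter (fun v => β v ≠ 0), ∀ w,
                w ∉ univ.filter (fun v => β v ≠ 0) → ¬ G.Adj a w := by
              intro a ha w hw haw
              have hw0 : β w = 0 := by
                by_contra h
                exact hw (mem_filter.2 ⟨mem_univ _, h⟩)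
              have hwl := hβ0 w hw0
              have hwK := hZK w hw0
              have ha0 := (mem_filter.1 ha).2
              by_cases haK : a ∈ K
              · have := (lab2 w hwK a haK).1 haw.symm
                rw [hwl] at this
                exact absurd this (by simp)
              · refine claim4 a ((claim1 a haK).resolve_left (hUe a)) w
                  ((claim1 w hwK).resolve_left (hUe w)) ?_ haw
                intro h
                refine ha0 ?_
                simp only [β, h, hwl, Option.elim]
            intro a ha b hb w hw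
            exact iff_of_false (key a ha w hw) (key b hb w hw)
          rcases hpr _ hmod with h | h
          · exfalso
            have h2 : K ⊆ univ.filter (fun v => β v ≠ 0) := by
              intro x hx
              refine mem_filter.2 ⟨mem_univ _, fun h => hZK x h hx⟩
            have h3 := card_le_card h2
            have h4 := card_le_card hJK
            omega
          · rw [filter_eq_empty_iff]
            intro v _ hv
            have : v ∈ univ.filter (fun v => β v ≠ 0) := by rw [h]; exact mem_univ _
            exact (mem_filter.1 this).2 hv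
      · by_cases hex : ∃ x, f x + 1 = i
        · obtain ⟨x, rfl⟩ := hex
          by_cases hxK : x ∈ K
          · have h1 : MW G (univ.filter (fun v => v ∉ K ∧ G.Adj v x)) 1 := by
              refine MW.cluster ?_
              intro a ha b hb d hd' hab hbd hne
              obtain ⟨_, ha1, ha2⟩ := mem_filter.1 ha
              obtain ⟨_, hb1, hb2⟩ := mem_filter.1 hb
              obtain ⟨_, hd1, hd2⟩ := mem_filter.1 hd'
              exact hd b x a d hb2 hab.symm ha2.symm hbd hd2.symm hne
            have h2 := h1.insertVertex x (by norm_num)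
            refine h2.subset ?_
            intro v hv
            have hl := hβ1 v x (mem_filter.1 hv).2
            by_cases hvK : v ∈ K
            · rw [lab1 v hvK] at hl
              rw [Option.some.inj hl]
              exact mem_insert_self _ _
            · exact mem_insert_of_mem (mem_filter.2 ⟨mem_univ _, hvK, (lab2 v hvK x hxK).2 hl⟩)
          · left
            rw [filter_eq_empty_iff]
            intro v _ h
            exact hxK (lab3 v x (hβ1 v x h))
        · left
          rw [filter_eq_empty_iff]
          intro v _ h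
          rcases hl : lab v with _ | y
          · simp [β, hl] at h; omega
          · simp only [β, hl, Option.elim] at h
            exact hex ⟨y, h⟩
  exact main.mono (by norm_num)

end Pool.Agent.Lib80.CW
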