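import Pool.Agent.Lib_helper80.CW.LargeClique
import Pool.Agent.Lib_helper80.CW.LargeIndep

/-!
# The large clique case
-/

namespace Pool.Agent.Lib80.CW

open Finset

universe u

variable {V : Type u} [DecidableEq V] [Fintype V]

/-- size of a clique that counts as large -/
def c0 : ℕ := 2 ^ 16 + 2

theorem large_case {G : SimpleGraph V} (hd : DiamondFree G) (hp : P15Free G) (hpr : Prime G)
    (h : ¬ CliquesLT G c0) : MW G univ 2000 := by
  classical
  unfold CliquesLT at h
  push Not at h
  obtain ⟨K0, hK0, hc0⟩ := h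
  -- a maximum clique
  obtain ⟨K, hK, hmax⟩ := exists_max_image (univ.filter (fun K : Finset V => G.IsClique (K : Set V)))
    card ⟨K0, mem_filter.2 ⟨mem_univ _, hK0⟩⟩
  have hKc : G.IsClique (K : Set V) := (mem_filter.1 hK).2
  have hKcard : c0 ≤ K.card := hc0.trans (hmax K0 (mem_filter.2 ⟨mem_univ _, hK0⟩))
  have hc : (65538 : ℕ) ≤ K.card := by
    have : c0 = 65538 := by norm_num [c0]
    omega
  have hKK : ∀ x ∈ K, ∀ y ∈ K, x ≠ y → G.Adj x y := fun x hx y hy hxy => hKc hx hy hxy
  have hK1 : ∀ v, v ∉ K → ∀ x ∈ K, ∀ y ∈ K, G.Adj v x → G.Adj v y → x = y := by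
    intro v hv x hx y hy hvx hvy
    by_contra hxy
    have hall : ∀ z ∈ K, G.Adj v z := by
      intro z hz
      by_cases hzx : z = x
      · rw [hzx]; exact hvx
      by_cases hzy : z = y
      · rw [hzy]; exact hvy
      refine hd x y v z (hKK x hx y hy hxy) hvx.symm hvy.symm (hKK x hx z hz (Ne.symm hzx))
        (hKK y hy z hz (Ne.symm hzy)) ?_
      rintro rfl; exact hv hz
    have h1 : G.IsClique ((insert v K : Finset V) : Set V) := by
      rw [coe_insert, SimpleGraph.isClique_insert]
      exact ⟨hKc, fun z hz _ => hall z hz⟩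
    have h2 := hmax (insert v K) (mem_filter.2 ⟨mem_univ _, h1⟩)
    rw [card_insert_of_notMem hv] at h2
    omega
  -- used labels
  let K' : Finset V := K.filter (fun x => ∃ v, v ∉ K ∧ G.Adj v x)
  have hun : (K.filter (fun x => ¬ ∃ v, v ∉ K ∧ G.Adj v x)).card ≤ 1 := by
    rw [card_le_one]
    intro x hx y hy
    obtain ⟨hx, hx'⟩ := mem_filter.1 hx
    obtain ⟨hy, hy'⟩ := mem_filter.1 hy
    push Not at hx' hy'
    by_contra hxy
    have hmod : IsModule G {x, y} := by
      have key : ∀ w, w ∉ ({x, y} : Finset V) → (G.Adj x w ↔ G.Adj y w) := by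
        intro w hw
        have hwx : w ≠ x := by rintro rfl; exact hw (by simp)
        have hwy : w ≠ y := by rintro rfl; exact hw (by simp)
        by_cases hwK : w ∈ K
        · exact iff_of_true (hKK x hx w hwK hwx.symm) (hKK y hy w hwK hwy.symm)
        · exact iff_of_false (fun h => hx' w hwK h.symm) (fun h => hy' w hwK h.symm)
      intro a ha b hb w hw
      rw [mem_insert, mem_singleton] at ha hb
      rcases ha with rfl | rfl <;> rcases hb with rfl | rfl
      · rfl
      · exact key w hw
      · exact (key w hw).symm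
      · rfl
    rcases hpr _ hmod with h | h
    · rw [card_pair hxy] at h; omega
    · have h1 : K.card ≤ ({x, y} : Finset V).card := card_le_card (by rw [h]; exact subset_univ _)
      rw [card_pair hxy] at h1
      omega
  have hsum := card_filter_add_card_filter_not (s := K) (fun x => ∃ v, v ∉ K ∧ G.Adj v x)
  have hK'card : 2 ^ 16 ≤ K'.card := by
    have : (2 : ℕ) ^ 16 = 65536 := by norm_num
    have h2 : K'.card = (K.filter (fun x => ∃ v, v ∉ K ∧ G.Adj v x)).card := rfl
    omega
  have hK'K : K' ⊆ K := filter_subset _ _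
  let r : V → V := fun x => if h : ∃ v, v ∉ K ∧ G.Adj v x then h.choose else x
  have hr : ∀ x ∈ K', r x ∉ K ∧ G.Adj (r x) x := by
    intro x hx
    have hex : ∃ v, v ∉ K ∧ G.Adj v x := (mem_filter.1 hx).2
    simp only [r, dif_pos hex]
    exact hex.choose_spec
  obtain ⟨J, hJ, hJ8, hcase⟩ := exists_eight (fun x y => G.Adj (r x) (r y))
    (fun x y h => SimpleGraph.Adj.symm h) K' hK'card
  have hJK : J ⊆ K := hJ.trans hK'K
  rcases hcase with hcase | hcase
  · exact large_clique hd hp hpr K hKK hK1 J hJK hJ8 r (fun x hx => (hr x (hJ hx)).1)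
      (fun x hx => (hr x (hJ hx)).2) hcase
  · refine (large_indep hd hp hpr K hKK hK1 J hJK hJ8 r (fun x hx => (hr x (hJ hx)).1)
      (fun x hx => (hr x (hJ hx)).2) ?_).mono (by norm_num)
    intro x hx y hy
    by_cases hxy : x = y
    · subst hxy; exact G.loopless.irrefl _
    · exact hcase x hx y hy hxy

end Pool.Agent.Lib80.CW
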