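import Pool.Agent.Lib_helper80.CW.Small

/-!
# The `P₅`-free case with an induced `C₅`
-/

namespace Pool.Agent.Lib80.CW

open Finset

universe u

set_option linter.unusedSectionVars false

variable {V : Type u}

/-- `f 0, ..., f 4` is an induced `C₅` -/
def Frame5 (G : SimpleGraph V) (f : Fin 5 → V) : Prop :=
  ∀ i j, G.Adj (f i) (f j) ↔ (j = i + 1 ∨ i = j + 1)

def TZ (G : SimpleGraph V) (f : Fin 5 → V) (v : V) : Prop := ∀ j, ¬ G.Adj v (f j)
def TX (G : SimpleGraph V) (f : Fin 5 → V) (i : Fin 5) (v : V) : Prop :=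
  ∀ j, G.Adj v (f j) ↔ (j = i + 1 ∨ j = i + 4)
def TY (G : SimpleGraph V) (f : Fin 5 → V) (i : Fin 5) (v : V) : Prop :=
  ∀ j, G.Adj v (f j) ↔ (j = i ∨ j = i + 1 ∨ j = i + 3)

theorem Frame5.rot {G : SimpleGraph V} {f : Fin 5 → V} (hF : Frame5 G f) (i : Fin 5) :
    Frame5 G (fun j => f (i + j)) := by
  intro j k
  rw [hF]
  simp [add_assoc]

theorem fin5_cases : ∀ i j : Fin 5, j = i ∨ j = i + 1 ∨ i = j + 1 ∨ j = i + 2 ∨ i = j + 2 := by
  decide

theorem classify_bool : ∀ p : Fin 5 → Bool, (∀ i, ¬ (p i = true ∧ p (i + 1) = true ∧ p (i + 2) = true)) →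
    (∀ i, p i = true → p (i + 1) = true ∨ p (i + 2) = true ∨ p (i + 3) = true) →
    (∀ i, p i = true → p (i + 4) = true ∨ p (i + 3) = true ∨ p (i + 2) = true) →
    (∀ j, ¬ p j = true) ∨ (∃ i, ∀ j, p j = true ↔ (j = i + 1 ∨ j = i + 4)) ∨
    (∃ i, ∀ j, p j = true ↔ (j = i ∨ j = i + 1 ∨ j = i + 3)) := by
  decide

theorem classify5 {G : SimpleGraph V} (hd : DiamondFree G) (h5 : P5Free G) {f : Fin 5 → V}
    (hF : Frame5 G f) (v : V) : TZ G f v ∨ (∃ i, TX G f i v) ∨ (∃ i, TY G f i v) := by
  classical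
  have key := classify_bool (fun j => decide (G.Adj v (f j))) ?_ ?_ ?_
  · simpa only [decide_eq_true_eq, TZ, TX, TY] using key
  · intro i
    simp only [decide_eq_true_eq]
    rintro ⟨h1, h2, h3⟩
    have n : ¬ G.Adj (f i) (f (i + 2)) := by rw [hF]; simp [add_assoc]
    have hne : f i ≠ f (i + 2) := by
      intro h
      have h4 : G.Adj (f i) (f (i + 4)) := by rw [hF]; simp [add_assoc]
      rw [h, hF] at h4
      simp [add_assoc] at h4
    exact n (hd v (f (i + 1)) (f i) (f (i + 2)) h2 h1 (by rw [hF]; simp) h3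
      (by rw [hF]; simp [add_assoc]) hne)
  · intro i
    simp only [decide_eq_true_eq]
    intro h1
    by_contra h2
    push Not at h2
    refine h5 v (f i) (f (i + 1)) (f (i + 2)) (f (i + 3)) h1 ?_ ?_ ?_ h2.1 h2.2.1 h2.2.2 ?_ ?_ ?_ <;>
      rw [hF] <;> simp [add_assoc]
  · intro i
    simp only [decide_eq_true_eq]
    intro h1
    by_contra h2
    push Not at h2
    refine h5 v (f i) (f (i + 4)) (f (i + 3)) (f (i + 2)) h1 ?_ ?_ ?_ h2.1 h2.2.1 h2.2.2 ?_ ?_ ?_ <;>
      rw [hF] <;> simp [add_assoc]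

section loc

variable {G : SimpleGraph V} {f : Fin 5 → V}

theorem loc_X_indep (hd : DiamondFree G) (hF : Frame5 G f) {u v : V}
    (hu : TX G f 0 u) (hv : TX G f 0 v) : ¬ G.Adj u v := by
  intro h
  have h1 : G.Adj (f 1) (f 4) := hd u v (f 1) (f 4) h ((hu 1).2 (by decide)) ((hv 1).2 (by decide))
    ((hu 4).2 (by decide)) ((hv 4).2 (by decide)) (by
      intro h
      have h4 : G.Adj (f 1) (f 2) := by rw [hF]; decide
      rw [h, hF] at h4
      revert h4
      decide)
  rw [hF] at h1
  revert h1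
  decide

theorem loc_X_succ (h5 : P5Free G) (hF : Frame5 G f) {u v : V}
    (hu : TX G f 0 u) (hv : TX G f 1 v) : G.Adj u v := by
  by_contra h
  exact h5 u (f 4) (f 0) v (f 2) ((hu 4).2 (by decide)) ((hF _ _).2 (by decide))
    ((hv 0).2 (by decide)).symm ((hv 2).2 (by decide)) (mt (hu 0).1 (by decide)) h
    (mt (hu 2).1 (by decide)) (fun h' => mt (hv 4).1 (by decide) h'.symm)
    (mt (hF _ _).1 (by decide)) (mt (hF _ _).1 (by decide))

theorem loc_X_two (hd : DiamondFree G) (h5 : P5Free G) (hF : Frame5 G f) {u u' v v' : V}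
    (hu : TX G f 0 u) (hu' : TX G f 0 u') (hv : TX G f 2 v) (hv' : TX G f 2 v')
    (huv : G.Adj u v) (huv' : G.Adj u' v') : u = u' := by
  have hind : ¬ G.Adj u u' := loc_X_indep hd hF hu hu'
  have hind' : ¬ G.Adj v v' := by
    have := loc_X_indep hd (hF.rot 2) (u := v) (v := v') (by
      intro j
      rw [hv]
      revert j
      decide) (by
      intro j
      rw [hv']
      revert j
      decide)
    exact this
  have hvv : u = u' ∨ v = v' ∨ (¬ G.Adj u v' ∧ ¬ G.Adj u' v) := by
    by_contra hcon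
    push Not at hcon
    obtain ⟨h1, h2, h3⟩ := hcon
    by_cases h4 : G.Adj u v'
    · exact hind' (hd u (f 1) v v' ((hu 1).2 (by decide)) huv ((hv 1).2 (by decide)).symm h4
        ((hv' 1).2 (by decide)).symm h2)
    · have h6 := h3 h4
      exact hind' (hd u' (f 1) v v' ((hu' 1).2 (by decide)) h6 ((hv 1).2 (by decide)).symm huv'
        ((hv' 1).2 (by decide)).symm h2)
  rcases hvv with h | h | ⟨h1, h2⟩
  · exact h
  · subst h
    by_contra hne
    exact hind (hd v (f 1) u u' ((hv 1).2 (by decide)) huv.symm ((hu 1).2 (by decide)).symm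
      huv'.symm ((hu' 1).2 (by decide)).symm hne)
  · exfalso
    exact h5 u v (f 3) v' u' huv ((hv 3).2 (by decide)) ((hv' 3).2 (by decide)).symm huv'.symm
      (mt (hu 3).1 (by decide)) h1 hind hind' (fun h => h2 h.symm)
      (fun h => mt (hu' 3).1 (by decide) h.symm)

theorem loc_Z_X (h5 : P5Free G) (hF : Frame5 G f) {z x : V}
    (hz : TZ G f z) (hx : TX G f 0 x) : ¬ G.Adj z x := by
  intro h
  exact h5 z x (f 1) (f 2) (f 3) h ((hx 1).2 (by decide)) ((hF _ _).2 (by decide))
    ((hF _ _).2 (by decide)) (hz _) (hz _) (hz _) (mt (hx 2).1 (by decide))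
    (mt (hx 3).1 (by decide)) (mt (hF _ _).1 (by decide))

theorem loc_Z_Y (h5 : P5Free G) (hF : Frame5 G f) {z z' y : V}
    (hz : TZ G f z) (hz' : TZ G f z') (hy : TY G f 0 y) (h : G.Adj z y) (h' : G.Adj z' z) :
    G.Adj z' y := by
  by_contra hn
  exact h5 z' z y (f 3) (f 2) h' h ((hy 3).2 (by decide)) ((hF _ _).2 (by decide)) hn (hz' _)
    (hz' _) (hz _) (hz _) (mt (hy 2).1 (by decide))

theorem loc_Y_eq (hd : DiamondFree G) (hF : Frame5 G f) {y y' : V}
    (hy : TY G f 0 y) (hy' : TY G f 0 y') : y = y' := by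
  by_contra hne
  have h1 : G.Adj y y' := hd (f 0) (f 1) y y' ((hF _ _).2 (by decide)) ((hy 0).2 (by decide)).symm
    ((hy 1).2 (by decide)).symm ((hy' 0).2 (by decide)).symm ((hy' 1).2 (by decide)).symm hne
  have h2 : G.Adj (f 0) (f 3) := hd y y' (f 0) (f 3) h1 ((hy 0).2 (by decide))
    ((hy' 0).2 (by decide)) ((hy 3).2 (by decide)) ((hy' 3).2 (by decide)) (by
      intro h
      have h4 : G.Adj (f 0) (f 1) := by rw [hF]; decide
      rw [h, hF] at h4
      revert h4
      decide)
  rw [hF] at h2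
  revert h2
  decide

theorem fin5_shift : ∀ i j k : Fin 5, (k + j = i + 1 ∨ k + j = i + 4) ↔
    (j = i - k + 1 ∨ j = i - k + 4) := by
  decide

theorem TX.rot {i : Fin 5} {v : V} (h : TX G f i v) (k : Fin 5) :
    TX G (fun j => f (k + j)) (i - k) v := by
  intro j
  rw [h (k + j)]
  exact fin5_shift i j k

theorem TY.rot {i : Fin 5} {v : V} (h : TY G f i v) :
    TY G (fun j => f (i + j)) 0 v := by
  intro j
  rw [h (i + j)]
  simp

theorem TZ.rot {v : V} (h : TZ G f v) (k : Fin 5) :
    TZ G (fun j => f (k + j)) v := fun j => h (k + j)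

theorem X_indep (hd : DiamondFree G) (hF : Frame5 G f) {i : Fin 5} {u v : V}
    (hu : TX G f i u) (hv : TX G f i v) : ¬ G.Adj u v := by
  have hu' := hu.rot i
  have hv' := hv.rot i
  rw [sub_self] at hu' hv'
  exact loc_X_indep hd (hF.rot i) hu' hv'

theorem X_succ (h5 : P5Free G) (hF : Frame5 G f) {i : Fin 5} {u v : V}
    (hu : TX G f i u) (hv : TX G f (i + 1) v) : G.Adj u v := by
  have hu' := hu.rot i
  have hv' := hv.rot i
  rw [sub_self] at hu'
  rw [add_sub_cancel_left] at hv'
  exact loc_X_succ h5 (hF.rot i) hu' hv'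

theorem X_two (hd : DiamondFree G) (h5 : P5Free G) (hF : Frame5 G f) {i : Fin 5} {u u' v v' : V}
    (hu : TX G f i u) (hu' : TX G f i u') (hv : TX G f (i + 2) v) (hv' : TX G f (i + 2) v')
    (huv : G.Adj u v) (huv' : G.Adj u' v') : u = u' := by
  have a1 := hu.rot i
  have a2 := hu'.rot i
  have a3 := hv.rot i
  have a4 := hv'.rot i
  rw [sub_self] at a1 a2
  rw [add_sub_cancel_left] at a3 a4
  exact loc_X_two hd h5 (hF.rot i) a1 a2 a3 a4 huv huv'

theorem Z_X (h5 : P5Free G) (hF : Frame5 G f) {i : Fin 5} {z x : V}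
    (hz : TZ G f z) (hx : TX G f i x) : ¬ G.Adj z x := by
  have a1 := hx.rot i
  rw [sub_self] at a1
  exact loc_Z_X h5 (hF.rot i) (hz.rot i) a1

theorem Z_Y (h5 : P5Free G) (hF : Frame5 G f) {i : Fin 5} {z z' y : V}
    (hz : TZ G f z) (hz' : TZ G f z') (hy : TY G f i y) (h : G.Adj z y) (h' : G.Adj z' z) :
    G.Adj z' y :=
  loc_Z_Y h5 (hF.rot i) (hz.rot i) (hz'.rot i) hy.rot h h'

theorem Y_eq (hd : DiamondFree G) (hF : Frame5 G f) {i : Fin 5} {y y' : V}
    (hy : TY G f i y) (hy' : TY G f i y') : y = y' :=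
  loc_Y_eq hd (hF.rot i) hy.rot hy'.rot

theorem TX.index {i j : Fin 5} {v : V} (h : TX G f i v) (h' : TX G f j v) : i = j := by
  have key : ∀ i j : Fin 5, (∀ k : Fin 5, (k = i + 1 ∨ k = i + 4) ↔ (k = j + 1 ∨ k = j + 4)) →
      i = j := by decide
  exact key i j (fun k => (h k).symm.trans (h' k))

end loc

variable [DecidableEq V] [Fintype V]

/-- diamond-free, `P₅`-free, prime, with an induced `C₅` -/
theorem noP5_C5_case {G : SimpleGraph V} (hd : DiamondFree G) (h5 : P5Free G) (hc : ¬ C5Free G)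
    (hpr : Prime G) : MW G univ (3 ^ 20 * 6) := by
  classical
  unfold C5Free at hc
  push Not at hc
  obtain ⟨a, b, c, d, e, h1, h2, h3, h4, h6, n1, n2, n3, n4, n5, -⟩ := hc
  obtain ⟨f, hF⟩ : ∃ f : Fin 5 → V, Frame5 G f := by
    refine ⟨![a, b, c, d, e], ?_⟩
    have hs : ∀ i, G.Adj (![a, b, c, d, e] i) (![a, b, c, d, e] (i + 1)) := by
      intro i
      fin_cases i
      · exact h1
      · exact h2
      · exact h3
      · exact h4
      · exact h6
    have hn : ∀ i, ¬ G.Adj (![a, b, c, d, e] i) (![a, b, c, d, e] (i + 2)) := by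
      intro i
      fin_cases i
      · exact n1
      · exact n3
      · exact n5
      · exact fun h => n2 h.symm
      · exact fun h => n4 h.symm
    intro i j
    rcases fin5_cases i j with rfl | rfl | rfl | rfl | rfl
    · simp
    · simp [hs]
    · simp [(hs j).symm]
    · simp [hn, add_assoc]
    · have : ¬ G.Adj (![a, b, c, d, e] (j + 2)) (![a, b, c, d, e] j) := fun h => hn j h.symm
      simp [this, add_assoc]
  -- the sets
  let Y : Finset V := univ.filter (fun v => ∃ i, TY G f i v)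
  let W : Finset V := univ.filter (fun v => ∃ i, TX G f i v ∧ ∃ w, TX G f (i + 2) w ∧ G.Adj v w)
  have hYcard : Y.card ≤ 5 := by
    have hg : ∀ v, ∃ i : Fin 5, (∃ i, TY G f i v) → TY G f i v := by
      intro v
      by_cases h : ∃ i, TY G f i v
      · obtain ⟨i, hi⟩ := h
        exact ⟨i, fun _ => hi⟩
      · exact ⟨0, fun h' => absurd h' h⟩
    choose g hg using hg
    have h7 : Y.card ≤ (univ : Finset (Fin 5)).card := by
      refine card_le_card_of_injOn g (fun _ _ => mem_univ _) ?_
      intro y hy y' hy' hyy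
      have hy1 := hg y (mem_filter.1 hy).2
      have hy2 := hg y' (mem_filter.1 hy').2
      exact Y_eq hd hF hy1 (by rw [hyy]; exact hy2)
    simpa using h7
  have hWcard : W.card ≤ 5 := by
    have hg : ∀ v, ∃ i : Fin 5, (∃ i, TX G f i v ∧ ∃ w, TX G f (i + 2) w ∧ G.Adj v w) →
        (TX G f i v ∧ ∃ w, TX G f (i + 2) w ∧ G.Adj v w) := by
      intro v
      by_cases h : ∃ i, TX G f i v ∧ ∃ w, TX G f (i + 2) w ∧ G.Adj v w
      · obtain ⟨i, hi⟩ := h
        exact ⟨i, fun _ => hi⟩
      · exact ⟨0, fun h' => absurd h' h⟩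
    choose g hg using hg
    have h7 : W.card ≤ (univ : Finset (Fin 5)).card := by
      refine card_le_card_of_injOn g (fun _ _ => mem_univ _) ?_
      intro y hy y' hy' hyy
      obtain ⟨x1, w, x2, x3⟩ := hg y (mem_filter.1 hy).2
      have hy2 := hg y' (mem_filter.1 hy').2
      rw [← hyy] at hy2
      obtain ⟨x1', w', x2', x3'⟩ := hy2
      exact X_two hd h5 hF x1 x1' x2 x2' x3 x3'
    simpa using h7
  have hDcard : (Y ∪ W).card ≤ 15 := (card_union_le _ _).trans (by omega)
  -- every vertex of `Z` has a neighbour in `Y`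
  have hZ : ∀ z, TZ G f z → ∃ y, (∃ i, TY G f i y) ∧ G.Adj z y := by
    let Z0 : Finset V := univ.filter (fun z => TZ G f z ∧ ∀ y, (∃ i, TY G f i y) → ¬ G.Adj z y)
    have hmod : ∀ z ∈ Z0, ∀ w, w ∉ Z0 → ¬ G.Adj z w := by
      intro z hz w hw hzw
      obtain ⟨-, hz1, hz2⟩ := mem_filter.1 hz
      rcases classify5 hd h5 hF w with h | ⟨i, h⟩ | h
      · have hw2 : ∃ y, (∃ i, TY G f i y) ∧ G.Adj w y := by
          by_contra hcon
          push Not at hcon
          exact hw (mem_filter.2 ⟨mem_univ _, h, hcon⟩)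
        obtain ⟨y, ⟨i, hy⟩, hwy⟩ := hw2
        exact hz2 y ⟨i, hy⟩ (Z_Y h5 hF h hz1 hy hwy hzw)
      · exact Z_X h5 hF hz1 h hzw
      · exact hz2 w h hzw
    have hM : IsModule G (univ \ Z0) := by
      intro x hx y hy w hw
      have hwZ : w ∈ Z0 := by
        by_contra h
        exact hw (mem_sdiff.2 ⟨mem_univ _, h⟩)
      exact ⟨fun h => absurd h.symm (hmod w hwZ x (mem_sdiff.1 hx).2),
        fun h => absurd h.symm (hmod w hwZ y (mem_sdiff.1 hy).2)⟩
    have hf : ∀ i, f i ∈ univ \ Z0 := by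
      intro i
      refine mem_sdiff.2 ⟨mem_univ _, fun h => ?_⟩
      have h8 := (mem_filter.1 h).2.1 (i + 1)
      rw [hF] at h8
      exact h8 (Or.inl rfl)
    have hne : f 0 ≠ f 1 := by
      have : G.Adj (f 0) (f 1) := (hF 0 1).2 (Or.inl rfl)
      exact this.ne
    rcases hpr _ hM with h7 | h7
    · rw [card_le_one] at h7
      exact absurd (h7 _ (hf 0) _ (hf 1)) hne
    · intro z hz
      by_contra hcon
      push Not at hcon
      have h8 : z ∈ Z0 := mem_filter.2 ⟨mem_univ _, hz, hcon⟩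
      have h9 : z ∈ univ \ Z0 := by rw [h7]; exact mem_univ z
      exact (mem_sdiff.1 h9).2 h8
  -- the class of a vertex
  have hcl : ∀ v, ∃ k : Fin 6, v ∉ Y ∪ W → ((∃ i : Fin 5, k = i.castSucc ∧ TX G f i v) ∨
      (k = Fin.last 5 ∧ TZ G f v)) := by
    intro v
    rcases classify5 hd h5 hF v with h | ⟨i, h⟩ | h
    · exact ⟨Fin.last 5, fun _ => Or.inr ⟨rfl, h⟩⟩
    · exact ⟨i.castSucc, fun _ => Or.inl ⟨i, rfl, h⟩⟩
    · have h8 : v ∈ Y := mem_filter.2 ⟨mem_univ _, h⟩
      exact ⟨0, fun h' => absurd (mem_union_left _ h8) h'⟩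
  choose cl hcl using hcl
  have main : MW G (univ \ (Y ∪ W)) (6 * 1) := by
    refine MW.of_blocks le_rfl (fun v => (cl v : ℕ)) cl ?_ ?_
    · intro x hx x' hx' y hy y' hy' hcx hcy hxy hxy'
      have hx := (mem_sdiff.1 hx).2
      have hx' := (mem_sdiff.1 hx').2
      have hy := (mem_sdiff.1 hy).2
      have hy' := (mem_sdiff.1 hy').2
      rcases hcl x hx with ⟨i, ei, hi⟩ | ⟨ei, hi⟩
      · rcases hcl x' hx' with ⟨i', ei', hi'⟩ | ⟨ei', hi'⟩
        · have hii : i = i' := by
            rw [ei, ei'] at hcx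
            exact Fin.castSucc_injective _ hcx
          subst hii
          rcases hcl y hy with ⟨j, ej, hj⟩ | ⟨ej, hj⟩
          · rcases hcl y' hy' with ⟨j', ej', hj'⟩ | ⟨ej', hj'⟩
            · have hjj : j = j' := by
                rw [ej, ej'] at hcy
                exact Fin.castSucc_injective _ hcy
              subst hjj
              rcases fin5_cases i j with h | h | h | h | h
              · exfalso
                simp only [ei, ej, h] at hxy
                exact lt_irrefl _ hxy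
              · rw [h] at hj hj'
                exact iff_of_true (X_succ h5 hF hi hj) (X_succ h5 hF hi' hj')
              · rw [h] at hi hi'
                exact iff_of_true (X_succ h5 hF hj hi).symm (X_succ h5 hF hj' hi').symm
              · rw [h] at hj hj'
                exact iff_of_false (fun h' => hx (mem_union_right _ (mem_filter.2 ⟨mem_univ _,
                  i, hi, y, hj, h'⟩))) (fun h' => hx' (mem_union_right _ (mem_filter.2 ⟨mem_univ _,
                  i, hi', y', hj', h'⟩)))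
              · rw [h] at hi hi'
                exact iff_of_false (fun h' => hy (mem_union_right _ (mem_filter.2 ⟨mem_univ _,
                  j, hj, x, hi, h'.symm⟩))) (fun h' => hy' (mem_union_right _ (mem_filter.2
                  ⟨mem_univ _, j, hj', x', hi', h'.symm⟩)))
            · exfalso
              rw [ej, ej'] at hcy
              exact (Fin.castSucc_lt_last j).ne hcy
          · rcases hcl y' hy' with ⟨j', ej', hj'⟩ | ⟨ej', hj'⟩
            · exfalso
              rw [ej, ej'] at hcy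
              exact (Fin.castSucc_lt_last j').ne hcy.symm
            · exact iff_of_false (fun h' => Z_X h5 hF hj hi h'.symm)
                (fun h' => Z_X h5 hF hj' hi' h'.symm)
        · exfalso
          rw [ei, ei'] at hcx
          exact (Fin.castSucc_lt_last i).ne hcx
      · exfalso
        have h7 := (cl y).2
        simp only [ei, Fin.val_last] at hxy
        omega
    · intro k
      by_cases hk : k < 5
      · refine MW.indep (fun x hx y hy => ?_)
        obtain ⟨hx1, hx2⟩ := mem_filter.1 hx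
        obtain ⟨hy1, hy2⟩ := mem_filter.1 hy
        rcases hcl x (mem_sdiff.1 hx1).2 with ⟨i, ei, hi⟩ | ⟨ei, hi⟩
        · rcases hcl y (mem_sdiff.1 hy1).2 with ⟨j, ej, hj⟩ | ⟨ej, hj⟩
          · have hij : i = j := by
              apply Fin.ext
              simp only [ei, Fin.val_castSucc] at hx2
              simp only [ej, Fin.val_castSucc] at hy2
              omega
            subst hij
            exact X_indep hd hF hi hj
          · exfalso
            simp only [ej, Fin.val_last] at hy2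
            omega
        · exfalso
          simp only [ei, Fin.val_last] at hx2
          omega
      · have hZZ : ∀ x ∈ (univ \ (Y ∪ W)).filter (fun v => (cl v : ℕ) = k), TZ G f x := by
          intro x hx
          obtain ⟨hx1, hx2⟩ := mem_filter.1 hx
          rcases hcl x (mem_sdiff.1 hx1).2 with ⟨i, ei, hi⟩ | ⟨ei, hi⟩
          · exfalso
            simp only [ei, Fin.val_castSucc] at hx2
            have := i.2
            omega
          · exact hi
        refine MW.cluster (fun x hx y hy z hz hxy hyz hne => ?_)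
        have hx' := hZZ x hx
        have hy' := hZZ y hy
        have hz' := hZZ z hz
        obtain ⟨w, ⟨i, hw⟩, hyw⟩ := hZ y hy'
        have hxw : G.Adj x w := Z_Y h5 hF hy' hx' hw hyw hxy
        have hzw : G.Adj z w := Z_Y h5 hF hy' hz' hw hyw hyz.symm
        exact hd y w x z hyw hxy.symm hxw.symm hyz hzw.symm hne
  exact (MW.of_sdiff (Y ∪ W) hDcard (by norm_num) main).mono (by norm_num)

end Pool.Agent.Lib80.CW
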