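import Pool.Agent.Lib_helper80.CW.NoP5c
import Pool.Agent.Lib_helper80.CW.NoP5C5

/-!
# The `P₅`-free case

`bip_case` is in `NoP5a.lean`, `noP5_C5_case` in `NoP5C5.lean`.
-/

namespace Pool.Agent.Lib80.CW

open Finset

universe u

variable {V : Type u} [DecidableEq V] [Fintype V]

/-- diamond-free, `P₅`-free, `C₅`-free, prime, bounded cliques -/
theorem noP5_noC5_case {G : SimpleGraph V} (hd : DiamondFree G) (h5 : P5Free G) (hc : C5Free G)
    (hpr : Prime G) {c : ℕ} (hc0 : CliquesLT G c) : MW G univ (2 * c + 100) :=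
  noP5_noC5_case' hd h5 hc hpr hc0

end Pool.Agent.Lib80.CW
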