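import Pool.Agent.Lib_helper80.CW.P5Chk

/-!
# `C₆`-free graphs containing an induced `P₅`
-/

namespace Pool.Agent.Lib80.CW

open Finset

universe u

set_option linter.unusedSectionVars false

namespace P5F

theorem cF5 {S T U : ℕ} (h : (S, T, U) ∈ ft) :
    found true (5 + 2) (pat 5 FP5 (tl [T, U]) (El [false])) L13 = true := by
  have h' := chkF5 _ h
  exact h'

theorem c12A {S T U : ℕ} (h : (S, T, U) ∈ ft) :
    found true (5 + 4) (pat 5 FP5 (tl [S, S, T, U])
      (El [false, true, true, true, true, true])) L12 = true := by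
  have h' := chk12A _ h
  exact h'

theorem c12B {S T U : ℕ} (h : (S, T, U) ∈ ft) (b0 b1 : Bool) :
    found true (5 + 5) (pat 5 FP5 (tl [S, S, T, U, U])
      (El [false, true, true, true, b1, true, b0, true, true, false])) L12 = true := by
  have h' := chk12B _ h b0 b1
  exact h'

theorem c12C {S T U : ℕ} (h : (S, T, U) ∈ ft) (b0 b1 : Bool) :
    found true (5 + 5) (pat 5 FP5 (tl [S, S, U, T, T])
      (El [false, true, true, true, b1, true, b0, true, true, false])) L12 = true := by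
  have h' := chk12C _ h b0 b1
  exact h'

theorem c12D {S T U : ℕ} (h : (S, T, U) ∈ ft) (b0 b1 b2 b3 : Bool) :
    found true (5 + 6) (pat 5 FP5 (tl [S, S, T, U, T, U])
      (El [false, true, b2, true, b3, true, b0, true, false, true, b1, true, true, false, true])) L12
      = true := by
  have h' := chk12D _ h b0 b1 b2 b3
  exact h'

variable {V : Type u} [DecidableEq V] [Fintype V] {G : SimpleGraph V} {p : ℕ → V}

section

variable (hf : Frame G 5 FP5 p) (hd : DiamondFree G) (hp : P15Free G) (h6 : C6Free G)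

include hf hd hp h6

theorem code_mem {v : V} (hv : ∀ i < 5, v ≠ p i) : code G 5 p v ∈ IC ++ CL ++ SG := by
  rcases chk1 (code G 5 p v) (code_lt G 5 p v) with h | h
  · exact h
  · exact (hf.no1 hd hp (fun _ => h6) v hv _ rfl _ h).elim

theorem i2_nadj {v w : V} (hv : ∀ i < 5, v ≠ p i) (hw : ∀ i < 5, w ≠ p i)
    (h : code G 5 p v = code G 5 p w) (hi : code G 5 p v ∈ I2) : ¬ G.Adj v w := by
  intro hvw
  exact hf.no2 hd hp (fun _ => h6) v w hvw.ne hv hw _ _ rfl h.symm true (by simp [hvw]) _ (chk2 _ hi)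

theorem cl_adj {v w : V} (hvw : v ≠ w) (hv : ∀ i < 5, v ≠ p i) (hw : ∀ i < 5, w ≠ p i)
    (h : code G 5 p v = code G 5 p w) (hi : code G 5 p v ∈ CL) : G.Adj v w := by
  by_contra hn
  exact hf.no2 hd hp (fun _ => h6) v w hvw hv hw _ _ rfl h.symm false (by simp [hn]) _ (chk3 _ hi)

theorem sg_eq {v w : V} (hv : ∀ i < 5, v ≠ p i) (hw : ∀ i < 5, w ≠ p i)
    (h : code G 5 p v = code G 5 p w) (hi : code G 5 p v ∈ SG) : v = w := by
  by_contra hvw
  classical
  exact hf.no2 hd hp (fun _ => h6) v w hvw hv hw _ _ rfl h.symm (decide (G.Adj v w)) (by simp) _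
    (chk4 _ hi _)

/-- neighbourhoods are clusters -/
theorem nbhd_cluster (u : V) {x y z : V} (h1 : G.Adj u x) (h2 : G.Adj u y) (h3 : G.Adj u z)
    (hxy : G.Adj x y) (hyz : G.Adj y z) (hxz : x ≠ z) : G.Adj x z :=
  hd u y x z h2 h1 hxy.symm h3 hyz hxz

/-- a vertex distinguishing an edge of a cluster class with two nontrivial components -/
theorem comp_dist {i : ℕ} (hi : i < 5) {a b a2 b2 w : V} (ha : ∀ i < 5, a ≠ p i)
    (hb : ∀ i < 5, b ≠ p i) (ha2 : ∀ i < 5, a2 ≠ p i) (hb2 : ∀ i < 5, b2 ≠ p i)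
    (hw : ∀ i < 5, w ≠ p i) (ca : code G 5 p a = 2 ^ i) (cb : code G 5 p b = 2 ^ i)
    (ca2 : code G 5 p a2 = 2 ^ i) (cb2 : code G 5 p b2 = 2 ^ i) (hab : G.Adj a b)
    (hab2 : G.Adj a2 b2) (n1 : ¬ G.Adj a a2) (n2 : ¬ G.Adj a b2) (n3 : ¬ G.Adj b a2)
    (n4 : ¬ G.Adj b b2) (hwa : G.Adj a w) (hwb : ¬ G.Adj b w) (hne : w ≠ b) :
    i = 2 ∧ code G 5 p w = 27 := by
  classical
  have hpa : G.Adj a (p i) := (testBit_code G p a hi).1 (by rw [ca]; exact Nat.testBit_two_pow_self)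
  have hpb : G.Adj b (p i) := (testBit_code G p b hi).1 (by rw [cb]; exact Nat.testBit_two_pow_self)
  rcases chk5 i hi _ (code_mem hf hd hp h6 hw) with h | h | h
  · exfalso
    have hwp := (testBit_code G p w hi).1 h
    exact hwb (nbhd_cluster hf hd hp h6 (p i) hwp.symm hpa.symm hpb.symm hwa.symm hab hne).symm
  · exact h
  · exfalso
    have d1 : a ≠ a2 := by rintro rfl; exact n2 hab2
    have d2 : a ≠ b2 := by rintro rfl; exact n1 hab2.symm
    have d3 : b ≠ a2 := by rintro rfl; exact n4 hab2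
    have d4 : b ≠ b2 := by rintro rfl; exact n3 hab2.symm
    have d5 : a2 ≠ w := by rintro rfl; exact n1 hwa
    have d6 : b2 ≠ w := by rintro rfl; exact n2 hwa
    exact hf.no5 hd hp (fun _ => h6) a b a2 b2 w hab.ne d1 d3 d2 d4 hab2.ne hwa.ne hne.symm d5 d6
      ha hb ha2 hb2 hw _ _ _ _ _ ca cb ca2 cb2 rfl true false false false false true true false
      (decide (G.Adj a2 w)) (decide (G.Adj b2 w)) (by simp [hab]) (by simp [n1]) (by simp [n3])
      (by simp [n2]) (by simp [n4]) (by simp [hab2]) (by simp [hwa]) (by simp [hwb]) (by simp)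
      (by simp) _ (h _ _)

/-- three components distinguished by one vertex of class `27` are impossible -/
theorem comp_dist3 {a b a2 b2 a3 b3 w : V} (ha : ∀ i < 5, a ≠ p i)
    (hb : ∀ i < 5, b ≠ p i) (ha2 : ∀ i < 5, a2 ≠ p i) (hb2 : ∀ i < 5, b2 ≠ p i)
    (ha3 : ∀ i < 5, a3 ≠ p i) (hb3 : ∀ i < 5, b3 ≠ p i)
    (hw : ∀ i < 5, w ≠ p i) (ca : code G 5 p a = 4) (cb : code G 5 p b = 4)
    (ca2 : code G 5 p a2 = 4) (cb2 : code G 5 p b2 = 4) (ca3 : code G 5 p a3 = 4)
    (cb3 : code G 5 p b3 = 4) (cw : code G 5 p w = 27) (hab : G.Adj a b)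
    (hab2 : G.Adj a2 b2) (hab3 : G.Adj a3 b3) (n1 : ¬ G.Adj a a2) (n2 : ¬ G.Adj a b2)
    (n3 : ¬ G.Adj b a2) (n4 : ¬ G.Adj b b2) (m1 : ¬ G.Adj a a3) (m2 : ¬ G.Adj a b3)
    (m3 : ¬ G.Adj b a3) (m4 : ¬ G.Adj b b3) (k1 : ¬ G.Adj a2 a3) (k2 : ¬ G.Adj a2 b3)
    (k3 : ¬ G.Adj b2 a3) (k4 : ¬ G.Adj b2 b3) (hwa : G.Adj a w) (hwb : ¬ G.Adj b w) (hne : w ≠ b)
    (hwa2 : G.Adj a2 w) (hwb2 : ¬ G.Adj b2 w) (hne2 : w ≠ b2) : False := by
  classical
  have d1 : a ≠ a2 := by rintro rfl; exact n2 hab2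
  have d2 : a ≠ b2 := by rintro rfl; exact n1 hab2.symm
  have d3 : b ≠ a2 := by rintro rfl; exact n4 hab2
  have d4 : b ≠ b2 := by rintro rfl; exact n3 hab2.symm
  have e1 : a ≠ a3 := by rintro rfl; exact m2 hab3
  have e2 : a ≠ b3 := by rintro rfl; exact m1 hab3.symm
  have e3 : b ≠ a3 := by rintro rfl; exact m4 hab3
  have e4 : b ≠ b3 := by rintro rfl; exact m3 hab3.symm
  have g1 : a2 ≠ a3 := by rintro rfl; exact k2 hab3
  have g2 : a2 ≠ b3 := by rintro rfl; exact k1 hab3.symm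
  have g3 : b2 ≠ a3 := by rintro rfl; exact k4 hab3
  have g4 : b2 ≠ b3 := by rintro rfl; exact k3 hab3.symm
  have w3 : a3 ≠ w := by rintro rfl; exact m1 hwa
  have w4 : b3 ≠ w := by rintro rfl; exact m2 hwa
  exact hf.no7 hd hp (fun _ => h6) a b a2 b2 a3 b3 w hab.ne d1 d3 d2 d4 hab2.ne e1 e3 g1 g3
    e2 e4 g2 g4 hab3.ne hwa.ne hne.symm hwa2.ne hne2.symm w3 w4 ha hb ha2 hb2 ha3 hb3 hw
    _ _ _ _ _ _ _ ca cb ca2 cb2 ca3 cb3 cw true false false false false true false false false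
    false false false false false true true false true false (decide (G.Adj a3 w))
    (decide (G.Adj b3 w)) (by simp [hab]) (by simp [n1]) (by simp [n3]) (by simp [n2])
    (by simp [n4]) (by simp [hab2]) (by simp [m1]) (by simp [m3]) (by simp [k1]) (by simp [k3])
    (by simp [m2]) (by simp [m4]) (by simp [k2]) (by simp [k4]) (by simp [hab3]) (by simp [hwa])
    (by simp [hwb]) (by simp [hwa2]) (by simp [hwb2]) (by simp) (by simp) _ (chk6 _ _)


omit hd hp h6 in
theorem frame_code {a b : V} (h : code G 5 p a = code G 5 p b) {j : ℕ} (hj : j < 5) :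
    G.Adj a (p j) ↔ G.Adj b (p j) := by
  rw [← testBit_code G p a hj, ← testBit_code G p b hj, h]

theorem E_trans {i : ℕ} (hi : i < 5) {u v w : V} (cu : code G 5 p u = 2 ^ i)
    (cv : code G 5 p v = 2 ^ i) (cw : code G 5 p w = 2 ^ i) (h1 : u = v ∨ G.Adj u v)
    (h2 : v = w ∨ G.Adj v w) : u = w ∨ G.Adj u w := by
  rcases h1 with rfl | h1
  · exact h2
  · rcases h2 with rfl | h2
    · exact Or.inr h1
    · by_cases h : u = w
      · exact Or.inl h
      · refine Or.inr (nbhd_cluster hf hd hp h6 (p i) ?_ ?_ ?_ h1 h2 h)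
        · exact ((testBit_code G p u hi).1 (by rw [cu]; exact Nat.testBit_two_pow_self)).symm
        · exact ((testBit_code G p v hi).1 (by rw [cv]; exact Nat.testBit_two_pow_self)).symm
        · exact ((testBit_code G p w hi).1 (by rw [cw]; exact Nat.testBit_two_pow_self)).symm

/-- a nontrivial component of a cluster class is not a module -/
theorem comp_distinguished (hpr : Prime G) {i : ℕ} (hi : i < 5) {x y z : V}
    (hx : ∀ i < 5, x ≠ p i) (hy : ∀ i < 5, y ≠ p i) (cx : code G 5 p x = 2 ^ i)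
    (cy : code G 5 p y = 2 ^ i) (hxy : G.Adj x y) (hz : ¬ (z = x ∨ G.Adj z x))
    (_cz : code G 5 p z = 2 ^ i) :
    ∃ a b w, (∀ i < 5, a ≠ p i) ∧ (∀ i < 5, b ≠ p i) ∧ (∀ i < 5, w ≠ p i) ∧
      code G 5 p a = 2 ^ i ∧ code G 5 p b = 2 ^ i ∧ (a = x ∨ G.Adj a x) ∧ (b = x ∨ G.Adj b x) ∧
      G.Adj a b ∧ G.Adj a w ∧ ¬ G.Adj b w ∧ w ≠ b := by
  classical
  let M : Finset V := univ.filter (fun v => (∀ i < 5, v ≠ p i) ∧ code G 5 p v = 2 ^ i ∧
    (v = x ∨ G.Adj v x))
  have hM : ∀ v, v ∈ M ↔ (∀ i < 5, v ≠ p i) ∧ code G 5 p v = 2 ^ i ∧ (v = x ∨ G.Adj v x) := by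
    intro v; simp [M]
  have hxM : x ∈ M := (hM x).2 ⟨hx, cx, Or.inl rfl⟩
  have hyM : y ∈ M := (hM y).2 ⟨hy, cy, Or.inr hxy.symm⟩
  by_contra hcon
  push Not at hcon
  have key : ∀ a ∈ M, ∀ b ∈ M, ∀ w, w ∉ M → G.Adj a w → G.Adj b w := by
    intro a ha b hb w hw haw
    by_contra hbw
    obtain ⟨a1, a2, a3⟩ := (hM a).1 ha
    obtain ⟨b1, b2, b3⟩ := (hM b).1 hb
    have hwf : ∀ i < 5, w ≠ p i := by
      intro j hj hwj
      subst hwj
      exact hbw ((frame_code hf (a2.trans b2.symm) hj).1 haw)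
    have hwb : w ≠ b := fun h => hw (h ▸ hb)
    have hab : a = b ∨ G.Adj a b := E_trans hf hd hp h6 hi a2 cx b2 a3
      (b3.imp Eq.symm (fun h => h.symm))
    rcases hab with rfl | hab
    · exact hbw haw
    · exact hwb (hcon a b w a1 b1 hwf a2 b2 a3 b3 hab haw hbw)
  have hmod : IsModule G M := fun a ha b hb w hw => ⟨key a ha b hb w hw, key b hb a ha w hw⟩
  rcases hpr M hmod with h | h
  · have : x = y := card_le_one.1 h x hxM y hyM
    exact hxy.ne this
  · have : z ∈ M := by rw [h]; exact mem_univ _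
    exact hz ((hM z).1 this).2.2

theorem W_card (hpr : Prime G) {c : ℕ} (hc : CliquesLT G c) {i : ℕ} (hi : i < 5) (W : Finset V)
    (hW : ∀ v ∈ W, (∀ i < 5, v ≠ p i) ∧ code G 5 p v = 2 ^ i ∧
      ∃ y, (∀ i < 5, y ≠ p i) ∧ code G 5 p y = 2 ^ i ∧ G.Adj v y) : W.card ≤ 2 * c := by
  classical
  -- the component of x inside W
  have hcomp : ∀ x ∈ W, (W.filter (fun v => v = x ∨ G.Adj v x)).card ≤ c := by
    intro x hx
    refine (hc _ ?_).le
    intro u hu v hv huv
    have hu' := mem_filter.1 (mem_coe.1 hu)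
    have hv' := mem_filter.1 (mem_coe.1 hv)
    exact (E_trans hf hd hp h6 hi (hW u hu'.1).2.1 (hW x hx).2.1 (hW v hv'.1).2.1 hu'.2
      (hv'.2.imp Eq.symm (fun h => h.symm))).resolve_left huv
  by_cases h1 : ∃ x1, x1 ∈ W
  · obtain ⟨x1, hx1⟩ := h1
    by_cases h2 : ∃ x2 ∈ W, ¬ (x2 = x1 ∨ G.Adj x2 x1)
    · obtain ⟨x2, hx2, hn2⟩ := h2
      by_cases h3 : ∃ x3 ∈ W, ¬ (x3 = x1 ∨ G.Adj x3 x1) ∧ ¬ (x3 = x2 ∨ G.Adj x3 x2)
      · exfalso
        obtain ⟨x3, hx3, hn3, hn3'⟩ := h3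
        obtain ⟨f1, c1, y1, g1, k1, e1⟩ := hW x1 hx1
        obtain ⟨f2, c2, y2, g2, k2, e2⟩ := hW x2 hx2
        obtain ⟨f3, c3, y3, g3, k3, e3⟩ := hW x3 hx3
        -- nonadjacency between different components
        have hsep : ∀ u v s t, code G 5 p u = 2 ^ i → code G 5 p v = 2 ^ i → code G 5 p s = 2 ^ i →
            code G 5 p t = 2 ^ i → ¬ (t = s ∨ G.Adj t s) → (u = s ∨ G.Adj u s) →
            (v = t ∨ G.Adj v t) → ¬ G.Adj u v := by
          intro u v s t cu cv cs ct hts hus hvt huv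
          apply hts
          have h1 := E_trans hf hd hp h6 hi ct cv cu (hvt.imp Eq.symm (fun h => h.symm))
            (Or.inr huv.symm)
          exact E_trans hf hd hp h6 hi ct cu cs h1 hus
        obtain ⟨a, b, w, fa, fb, fw, ca, cb, ha, hb, hab, haw, hbw, hwb⟩ :=
          comp_distinguished hf hd hp h6 hpr hi f1 g1 c1 k1 e1 hn2 c2
        obtain ⟨a', b', w', fa', fb', fw', ca', cb', ha', hb', hab', haw', hbw', hwb'⟩ :=
          comp_distinguished hf hd hp h6 hpr hi f2 g2 c2 k2 e2 hn3' c3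
        have r1 := comp_dist hf hd hp h6 hi fa fb f2 g2 fw ca cb c2 k2 hab e2
          (hsep _ _ _ _ ca c2 c1 c2 hn2 ha (Or.inl rfl))
          (hsep _ _ _ _ ca k2 c1 c2 hn2 ha (Or.inr e2.symm))
          (hsep _ _ _ _ cb c2 c1 c2 hn2 hb (Or.inl rfl))
          (hsep _ _ _ _ cb k2 c1 c2 hn2 hb (Or.inr e2.symm)) haw hbw hwb
        have r2 := comp_dist hf hd hp h6 hi fa' fb' f3 g3 fw' ca' cb' c3 k3 hab' e3
          (hsep _ _ _ _ ca' c3 c2 c3 hn3' ha' (Or.inl rfl))
          (hsep _ _ _ _ ca' k3 c2 c3 hn3' ha' (Or.inr e3.symm))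
          (hsep _ _ _ _ cb' c3 c2 c3 hn3' hb' (Or.inl rfl))
          (hsep _ _ _ _ cb' k3 c2 c3 hn3' hb' (Or.inr e3.symm)) haw' hbw' hwb'
        have hww : w = w' := sg_eq hf hd hp h6 fw fw' (by rw [r1.2, r2.2]) (by rw [r1.2]; decide)
        subst hww
        obtain ⟨hi2, cw⟩ := r1
        subst hi2
        exact comp_dist3 hf hd hp h6 fa fb fa' fb' f3 g3 fw ca cb ca' cb' c3 k3 cw hab hab' e3
          (hsep _ _ _ _ ca ca' c1 c2 hn2 ha ha')
          (hsep _ _ _ _ ca cb' c1 c2 hn2 ha hb')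
          (hsep _ _ _ _ cb ca' c1 c2 hn2 hb ha')
          (hsep _ _ _ _ cb cb' c1 c2 hn2 hb hb')
          (hsep _ _ _ _ ca c3 c1 c3 hn3 ha (Or.inl rfl))
          (hsep _ _ _ _ ca k3 c1 c3 hn3 ha (Or.inr e3.symm))
          (hsep _ _ _ _ cb c3 c1 c3 hn3 hb (Or.inl rfl))
          (hsep _ _ _ _ cb k3 c1 c3 hn3 hb (Or.inr e3.symm))
          (hsep _ _ _ _ ca' c3 c2 c3 hn3' ha' (Or.inl rfl))
          (hsep _ _ _ _ ca' k3 c2 c3 hn3' ha' (Or.inr e3.symm))
          (hsep _ _ _ _ cb' c3 c2 c3 hn3' hb' (Or.inl rfl))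
          (hsep _ _ _ _ cb' k3 c2 c3 hn3' hb' (Or.inr e3.symm))
          haw hbw hwb haw' hbw' hwb'
      · push Not at h3
        have hsub : W ⊆ W.filter (fun v => v = x1 ∨ G.Adj v x1) ∪
            W.filter (fun v => v = x2 ∨ G.Adj v x2) := by
          intro v hv
          rw [mem_union, mem_filter, mem_filter]
          by_cases h : v = x1 ∨ G.Adj v x1
          · exact Or.inl ⟨hv, h⟩
          · exact Or.inr ⟨hv, h3 v hv (by push Not at h; exact h)⟩
        calc W.card ≤ _ := card_le_card hsub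
          _ ≤ _ := card_union_le _ _
          _ ≤ c + c := add_le_add (hcomp x1 hx1) (hcomp x2 hx2)
          _ = 2 * c := by ring
    · push Not at h2
      have hsub : W ⊆ W.filter (fun v => v = x1 ∨ G.Adj v x1) := by
        intro v hv
        rw [mem_filter]
        refine ⟨hv, ?_⟩
        exact h2 v hv
      calc W.card ≤ _ := card_le_card hsub
        _ ≤ c := hcomp x1 hx1
        _ ≤ 2 * c := by omega
  · push Not at h1
    rw [eq_empty_iff_forall_notMem.2 h1]; simp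


/-- homogeneity of a pair of classes after deleting one vertex -/
theorem pair_del (Good : V → Prop) (hG : ∀ v, Good v → ∀ i < 5, v ≠ p i)
    (hG2 : ∀ v w, Good v → Good w → code G 5 p v = code G 5 p w → code G 5 p v ∈ IC →
      ¬ G.Adj v w) (q : ℕ × ℕ) (hq : q ∈ nonN) :
    ∃ D : Finset V, D.card ≤ 1 ∧ ((∀ v w, v ∉ D → w ∉ D → Good v → Good w →
      code G 5 p v = q.1 → code G 5 p w = q.2 → ¬ G.Adj v w) ∨
      (q ∉ ety ∧ ∀ v w, Good v → Good w → code G 5 p v = q.1 → code G 5 p w = q.2 →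
        G.Adj v w)) := by
  classical
  obtain ⟨hne, hi1, hi2⟩ := chkne.1 q hq
  have hrect : ∀ s s' t t', (Good s ∧ code G 5 p s = q.1) → (Good s' ∧ code G 5 p s' = q.1) →
      (Good t ∧ code G 5 p t = q.2) → (Good t' ∧ code G 5 p t' = q.2) → s ≠ s' → t ≠ t' →
      ∀ b0 b1 b2 b3 : Bool, (G.Adj s t ↔ b0 = true) → (G.Adj s t' ↔ b1 = true) →
      (G.Adj s' t ↔ b2 = true) → (G.Adj s' t' ↔ b3 = true) →
      (found true (5 + 4) (pat 5 FP5 (tl [q.1, q.1, q.2, q.2])
        (El [false, b0, b2, b1, b3, false])) L7 = true ∨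
       found true (5 + 4) (pat 5 FP5 (tl [q.1, q.1, q.2, q.2])
        (El [false, b0, b2, b1, b3, false])) L8 = true) → False := by
    intro s s' t t' hs hs' ht ht' hss htt b0 b1 b2 b3 h0 h1 h2 h3 hfd
    have n1 : ¬ G.Adj s s' := hG2 s s' hs.1 hs'.1 (hs.2.trans hs'.2.symm) (by rw [hs.2]; exact hi1)
    have n2 : ¬ G.Adj t t' := hG2 t t' ht.1 ht'.1 (ht.2.trans ht'.2.symm) (by rw [ht.2]; exact hi2)
    have d1 : s ≠ t := by rintro rfl; exact hne (hs.2.symm.trans ht.2)
    have d2 : s ≠ t' := by rintro rfl; exact hne (hs.2.symm.trans ht'.2)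
    have d3 : s' ≠ t := by rintro rfl; exact hne (hs'.2.symm.trans ht.2)
    have d4 : s' ≠ t' := by rintro rfl; exact hne (hs'.2.symm.trans ht'.2)
    rcases hfd with h | h
    · exact hf.no4 hd hp (fun _ => h6) s s' t t' hss d1 d3 d2 d4 htt (hG s hs.1) (hG s' hs'.1)
        (hG t ht.1) (hG t' ht'.1) _ _ _ _ hs.2 hs'.2 ht.2 ht'.2 false b0 b2 b1 b3 false
        (by simp [n1]) h0 h2 h1 h3 (by simp [n2]) _ h
    · exact hf.no4 hd hp (fun _ => h6) s s' t t' hss d1 d3 d2 d4 htt (hG s hs.1) (hG s' hs'.1)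
        (hG t ht.1) (hG t' ht'.1) _ _ _ _ hs.2 hs'.2 ht.2 ht'.2 false b0 b2 b1 b3 false
        (by simp [n1]) h0 h2 h1 h3 (by simp [n2]) _ h
  obtain ⟨D, hD, h⟩ := pair_hom (G := G) (fun v => Good v ∧ code G 5 p v = q.1)
    (fun v => Good v ∧ code G 5 p v = q.2) (by
      intro s s' t t' hs hs' ht ht' hss htt
      by_contra hb
      rw [Bool.not_eq_false] at hb
      exact hrect s s' t t' hs hs' ht ht' hss htt _ _ _ _ (by simp) (by simp) (by simp) (by simp)
        (Or.inl (chk7 q hq _ _ _ _ hb)))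
  refine ⟨D, hD, ?_⟩
  rcases h with h | ⟨h, s, s', t, t', hs, hs', ht, ht', hss, htt⟩
  · left
    intro v w hv hw gv gw cv cw
    exact h v w hv hw ⟨gv, cv⟩ ⟨gw, cw⟩
  · right
    refine ⟨?_, fun v w gv gw cv cw => h v w ⟨gv, cv⟩ ⟨gw, cw⟩⟩
    intro hqe
    exact hrect s s' t t' hs hs' ht ht' hss htt true true true true
      (by simpa using h s t hs ht) (by simpa using h s t' hs ht') (by simpa using h s' t hs' ht)
      (by simpa using h s' t' hs' ht') (Or.inr (chk8 q hqe))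

/-- evidence: `x` and the frame vertex of its class differ on `y` -/
def Evid (G : SimpleGraph V) (p : ℕ → V) (x y : V) : Prop :=
  ¬ (G.Adj x y ↔ (code G 5 p y).testBit (idx (code G 5 p x)) = true)

/-- at most one vertex in a split class has evidence on both sides -/
theorem both_uniq (V1 : Finset V) (h1 : ∀ v ∈ V1, (∀ i < 5, v ≠ p i) ∧ code G 5 p v ∈ IC)
    (h2 : ∀ v ∈ V1, ∀ w ∈ V1, code G 5 p v = code G 5 p w → ¬ G.Adj v w)
    (h3 : ∀ v ∈ V1, ∀ w ∈ V1, (code G 5 p v, code G 5 p w) ∈ ety → ¬ G.Adj v w)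
    {S : ℕ} (hS : S ∈ SP) {x x' : V} (hx : x ∈ V1) (hx' : x' ∈ V1) (cx : code G 5 p x = S)
    (cx' : code G 5 p x' = S) {y z y' z' : V} (hy : y ∈ V1) (hz : z ∈ V1) (hy' : y' ∈ V1)
    (hz' : z' ∈ V1) (cy : code G 5 p y ∈ Lb S) (cz : code G 5 p z ∈ Rb S)
    (cy' : code G 5 p y' ∈ Lb S) (cz' : code G 5 p z' ∈ Rb S) (exy : Evid G p x y)
    (exz : Evid G p x z) (exy' : Evid G p x' y') (exz' : Evid G p x' z') : x = x' := by
  classical
  -- evidence forces y ~ z and membership in ft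
  have key : ∀ u a b, u ∈ V1 → a ∈ V1 → b ∈ V1 → code G 5 p u = S → code G 5 p a ∈ Lb S →
      code G 5 p b ∈ Rb S → Evid G p u a → Evid G p u b →
      G.Adj a b ∧ (S, code G 5 p a, code G 5 p b) ∈ ft := by
    intro u a b hu ha hb cu ca cb eua eub
    obtain ⟨d1, d2, d3⟩ := chkSP S hS _ ca _ cb
    have n1 : u ≠ a := by rintro rfl; exact d1 cu.symm
    have n2 : u ≠ b := by rintro rfl; exact d2 cu.symm
    have n3 : a ≠ b := by rintro rfl; exact d3 rfl
    have e1 : G.Adj u a ↔ (!((code G 5 p a).testBit (idx S))) = true := by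
      rw [Evid, cu] at eua
      by_cases h : G.Adj u a <;> by_cases h' : (code G 5 p a).testBit (idx S) = true <;>
        simp_all
    have e2 : G.Adj u b ↔ (!((code G 5 p b).testBit (idx S))) = true := by
      rw [Evid, cu] at eub
      by_cases h : G.Adj u b <;> by_cases h' : (code G 5 p b).testBit (idx S) = true <;>
        simp_all
    have hab : G.Adj a b := by
      by_contra hn
      exact hf.no3 hd hp (fun _ => h6) u a b n1 n2 n3 (h1 u hu).1 (h1 a ha).1 (h1 b hb).1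
        _ _ _ cu rfl rfl _ _ false e1 e2 (by simp [hn]) _ (chk11 S hS _ ca _ cb)
    refine ⟨hab, ?_⟩
    rcases chkft S hS _ ca _ cb with h | h | h
    · exact absurd hab (h3 a ha b hb h)
    · exact absurd hab.symm (h3 b hb a ha h)
    · exact h
  by_contra hne
  obtain ⟨ayz, hq⟩ := key x y z hx hy hz cx cy cz exy exz
  obtain ⟨ayz', hq'⟩ := key x' y' z' hx' hy' hz' cx' cy' cz' exy' exz'
  have hqq := chkft3 _ hq _ hq' rfl
  rw [Prod.mk.injEq, Prod.mk.injEq] at hqq
  obtain ⟨-, hTT, hUU⟩ := hqq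
  obtain ⟨hb1, hb2⟩ := chkft2 _ hq
  simp only at hb1 hb2
  have adj_of : ∀ u a, code G 5 p u = S → (code G 5 p a).testBit (idx S) = false → Evid G p u a →
      G.Adj u a := by
    intro u a cu hb he
    rw [Evid, cu, hb] at he
    by_contra h'
    exact he (by simp [h'])
  have a1 : G.Adj x y := adj_of x y cx hb1 exy
  have a2 : G.Adj x z := adj_of x z cx hb2 exz
  have a1' : G.Adj x' y' := adj_of x' y' cx' (by rw [← hTT]; exact hb1) exy'
  have a2' : G.Adj x' z' := adj_of x' z' cx' (by rw [← hUU]; exact hb2) exz'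
  obtain ⟨d1, d2, d3⟩ := chkSP S hS _ cy _ cz
  have nTU : ∀ a b, a ∈ V1 → b ∈ V1 → code G 5 p a = code G 5 p y → code G 5 p b = code G 5 p z →
      G.Adj a b := by
    intro a b ha hb ca cb
    by_contra hn
    have n3 : a ≠ b := by rintro rfl; exact d3 (ca.symm.trans cb)
    exact hf.no2 hd hp (fun _ => h6) a b n3 (h1 a ha).1 (h1 b hb).1 _ _ ca cb false (by simp [hn]) _
      (cF5 hq)
  have nxx : ¬ G.Adj x x' := h2 x hx x' hx' (cx.trans cx'.symm)
  have dne : ∀ u a, code G 5 p u ≠ code G 5 p a → u ≠ a := fun u a h h' => h (by rw [h'])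
  have dxy : x ≠ y := dne _ _ (by rw [cx]; exact d1)
  have dxz : x ≠ z := dne _ _ (by rw [cx]; exact d2)
  have dxy' : x ≠ y' := dne _ _ (by rw [cx, ← hTT]; exact d1)
  have dxz' : x ≠ z' := dne _ _ (by rw [cx, ← hUU]; exact d2)
  have dx'y : x' ≠ y := dne _ _ (by rw [cx']; exact d1)
  have dx'z : x' ≠ z := dne _ _ (by rw [cx']; exact d2)
  have dx'y' : x' ≠ y' := dne _ _ (by rw [cx', ← hTT]; exact d1)
  have dx'z' : x' ≠ z' := dne _ _ (by rw [cx', ← hUU]; exact d2)
  have dyz : y ≠ z := dne _ _ d3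
  have dyz' : y ≠ z' := dne _ _ (by rw [← hUU]; exact d3)
  have dy'z : y' ≠ z := dne _ _ (by rw [← hTT]; exact d3)
  have dy'z' : y' ≠ z' := dne _ _ (by rw [← hTT, ← hUU]; exact d3)
  have fx := (h1 x hx).1
  have fx' := (h1 x' hx').1
  have fy := (h1 y hy).1
  have fz := (h1 z hz).1
  have fy' := (h1 y' hy').1
  have fz' := (h1 z' hz').1
  by_cases hyy : y = y'
  · subst hyy
    by_cases hzz : z = z'
    · subst hzz
      exact hf.no4 hd hp (fun _ => h6) x x' y z hne dxy dx'y dxz dx'z dyz fx fx' fy fz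
        _ _ _ _ cx cx' rfl rfl false true true true true true (by simp [nxx]) (by simp [a1])
        (by simp [a1']) (by simp [a2]) (by simp [a2']) (by simp [ayz]) _ (c12A hq)
    · have nzz : ¬ G.Adj z z' := h2 z hz z' hz' hUU
      exact hf.no5 hd hp (fun _ => h6) x x' y z z' hne dxy dx'y dxz dx'z dyz dxz' dx'z' dyz' hzz
        fx fx' fy fz fz' _ _ _ _ _ cx cx' rfl rfl hUU.symm false true true true
        (decide (G.Adj x' z)) true (decide (G.Adj x z')) true true false (by simp [nxx])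
        (by simp [a1]) (by simp [a1']) (by simp [a2]) (by simp) (by simp [ayz]) (by simp)
        (by simp [a2']) (by simp [ayz']) (by simp [nzz]) _ (c12B hq _ _)
  · have nyy : ¬ G.Adj y y' := h2 y hy y' hy' hTT
    by_cases hzz : z = z'
    · subst hzz
      exact hf.no5 hd hp (fun _ => h6) x x' z y y' hne dxz dx'z dxy dx'y dyz.symm dxy' dx'y'
        dy'z.symm hyy fx fx' fz fy fy' _ _ _ _ _ cx cx' rfl rfl hTT.symm false true true true
        (decide (G.Adj x' y)) true (decide (G.Adj x y')) true true false (by simp [nxx])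
        (by simp [a2]) (by simp [a2']) (by simp [a1]) (by simp) (by simp [ayz.symm]) (by simp)
        (by simp [a1']) (by simp [ayz'.symm]) (by simp [nyy]) _ (c12C hq _ _)
    · have nzz : ¬ G.Adj z z' := h2 z hz z' hz' hUU
      exact hf.no6 hd hp (fun _ => h6) x x' y z y' z' hne dxy dx'y dxz dx'z dyz dxy' dx'y' hyy
        dy'z.symm dxz' dx'z' dyz' hzz dy'z' fx fx' fy fz fy' fz' _ _ _ _ _ _ cx cx' rfl rfl
        hTT.symm hUU.symm false true (decide (G.Adj x' y)) true (decide (G.Adj x' z)) true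
        (decide (G.Adj x y')) true false true (decide (G.Adj x z')) true true false true
        (by simp [nxx]) (by simp [a1]) (by simp) (by simp [a2]) (by simp) (by simp [ayz])
        (by simp) (by simp [a1']) (by simp [nyy]) (by simp [(nTU y' z hy' hz hTT.symm rfl).symm])
        (by simp) (by simp [a2']) (by simp [nTU y z' hy hz' rfl hUU.symm]) (by simp [nzz])
        (by simp [ayz']) _ (c12D hq _ _ _ _)

theorem p5_frame (hpr : Prime G) {c : ℕ} (hc : CliquesLT G c) :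
    MW G univ (3 ^ (14 * c + 100) * 448) := by
  classical
  let Wi : ℕ → V → Prop := fun i v => (∀ i < 5, v ≠ p i) ∧ code G 5 p v = 2 ^ i ∧
      ∃ y, (∀ i < 5, y ≠ p i) ∧ code G 5 p y = 2 ^ i ∧ G.Adj v y
  let Good : V → Prop := fun v => (∀ i < 5, v ≠ p i) ∧ ∀ i < 5, ¬ Wi i v
  have hG : ∀ v, Good v → ∀ i < 5, v ≠ p i := fun v h => h.1
  have hG2 : ∀ v w, Good v → Good w → code G 5 p v = code G 5 p w → code G 5 p v ∈ IC →
      ¬ G.Adj v w := by
    intro v w gv gw hvw hv hadj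
    rcases chkIC _ hv with h | ⟨i, hi, h⟩
    · exact i2_nadj hf hd hp h6 gv.1 gw.1 hvw h hadj
    · exact gv.2 i hi ⟨gv.1, h, w, gw.1, by rw [← hvw]; exact h, hadj⟩
  obtain ⟨D1, hD1, hD1'⟩ := del_list nonN (fun q D => ((∀ v w, v ∉ D → w ∉ D → Good v → Good w →
      code G 5 p v = q.1 → code G 5 p w = q.2 → ¬ G.Adj v w) ∨
      (q ∉ ety ∧ ∀ v w, Good v → Good w → code G 5 p v = q.1 → code G 5 p w = q.2 →
        G.Adj v w)))
    (fun q D D' hDD h => h.imp_left (fun h v w hv hw => h v w (fun h' => hv (hDD h'))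
      (fun h' => hw (hDD h'))))
    (fun q hq => pair_del hf hd hp h6 Good hG hG2 q hq)
  let D0 : Finset V := (range 5).image p
  have hD0 : D0.card ≤ 5 := card_image_le.trans (by simp)
  have hD0' : ∀ v, v ∉ D0 → ∀ i < 5, v ≠ p i := by
    intro v hv i hi h
    exact hv (mem_image.2 ⟨i, mem_range.2 hi, h.symm⟩)
  let D2 : Finset V := univ.filter (fun v => v ∉ D0 ∧ code G 5 p v ∈ SG)
  have hD2 : D2.card ≤ 7 := by
    refine (card_le_card_of_injOn (t := SG.toFinset) (fun v => code G 5 p v) ?_ ?_).trans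
      (by decide)
    · intro v hv
      have := (mem_filter.1 hv).2.2
      exact List.mem_toFinset.2 this
    · intro v hv w hw hvw
      have h1 := (mem_filter.1 hv).2
      have h2 := (mem_filter.1 hw).2
      exact sg_eq hf hd hp h6 (hD0' v h1.1) (hD0' w h2.1) hvw h1.2
  let D3 : Finset V := CL.toFinset.biUnion (fun T => univ.filter (fun v => v ∉ D0 ∧ code G 5 p v = T))
  have hD3 : D3.card ≤ 4 * c := by
    refine (card_biUnion_le_card_mul _ _ c ?_).trans (Nat.mul_le_mul_right _ (by decide))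
    intro T hT
    refine (hc _ ?_).le
    intro v hv w hw hvw
    have h1 := (mem_filter.1 (mem_coe.1 hv)).2
    have h2 := (mem_filter.1 (mem_coe.1 hw)).2
    refine cl_adj hf hd hp h6 hvw (hD0' v h1.1) (hD0' w h2.1) (by rw [h1.2, h2.2]) ?_
    rw [h1.2]; exact List.mem_toFinset.1 hT
  let D4 : Finset V := (range 5).biUnion (fun i => univ.filter (fun v => Wi i v))
  have hD4 : D4.card ≤ 10 * c := by
    refine (card_biUnion_le_card_mul _ _ (2 * c) ?_).trans (by rw [card_range]; omega)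
    intro i hi
    exact W_card hf hd hp h6 hpr hc (mem_range.1 hi) _ (fun v hv => (mem_filter.1 hv).2)
  let V1 : Finset V := univ.filter (fun v => Good v ∧ v ∉ D1 ∧ code G 5 p v ∈ IC)
  have hV1 : ∀ v ∈ V1, Good v ∧ v ∉ D1 ∧ code G 5 p v ∈ IC := fun v hv => (mem_filter.1 hv).2
  have hety : ∀ v ∈ V1, ∀ w ∈ V1, (code G 5 p v, code G 5 p w) ∈ ety → ¬ G.Adj v w := by
    intro v hv w hw h
    rcases hD1' _ (chkne.2.2 _ h) with h' | ⟨h', -⟩
    · exact h' v w (hV1 v hv).2.1 (hV1 w hw).2.1 (hV1 v hv).1 (hV1 w hw).1 rfl rfl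
    · exact absurd h h'
  have hsame : ∀ v ∈ V1, ∀ w ∈ V1, code G 5 p v = code G 5 p w → ¬ G.Adj v w := by
    intro v hv w hw h
    exact hG2 v w (hV1 v hv).1 (hV1 w hw).1 h (hV1 v hv).2.2
  obtain ⟨D5, hD5, hD5'⟩ := del_list SP (fun S D => ∀ x ∈ V1, x ∉ D → code G 5 p x = S →
      (∃ y ∈ V1, code G 5 p y ∈ Lb S ∧ Evid G p x y) →
      (∃ z ∈ V1, code G 5 p z ∈ Rb S ∧ Evid G p x z) → False)
    (fun S D D' hDD h x hx hxD => h x hx (fun h' => hxD (hDD h')))
    (by
      intro S hS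
      by_cases hex : ∃ x ∈ V1, code G 5 p x = S ∧
        (∃ y ∈ V1, code G 5 p y ∈ Lb S ∧ Evid G p x y) ∧
        (∃ z ∈ V1, code G 5 p z ∈ Rb S ∧ Evid G p x z)
      · obtain ⟨x, hx, cx, ⟨y, hy, cy, ey⟩, ⟨z, hz, cz, ez⟩⟩ := hex
        refine ⟨{x}, by simp, ?_⟩
        rintro x' hx' hne cx' ⟨y', hy', cy', ey'⟩ ⟨z', hz', cz', ez'⟩
        rw [mem_singleton] at hne
        exact hne (both_uniq hf hd hp h6 V1 (fun v hv => ⟨(hV1 v hv).1.1, (hV1 v hv).2.2⟩) hsame
          hety hS hx' hx cx' cx hy' hz' hy hz cy' cz' cy cz ey' ez' ey ez)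
      · refine ⟨∅, by simp, ?_⟩
        intro x hx _ cx h1 h2
        exact hex ⟨x, hx, cx, h1, h2⟩)
  let D : Finset V := D0 ∪ (D1 ∪ (D2 ∪ (D3 ∪ (D4 ∪ D5))))
  have hD : D.card ≤ 14 * c + 100 := by
    have h1 := card_union_le D0 (D1 ∪ (D2 ∪ (D3 ∪ (D4 ∪ D5))))
    have h2 := card_union_le D1 (D2 ∪ (D3 ∪ (D4 ∪ D5)))
    have h3 := card_union_le D2 (D3 ∪ (D4 ∪ D5))
    have h3' := card_union_le D3 (D4 ∪ D5)
    have h3'' := card_union_le D4 D5
    have h4 : nonN.length = 40 := rfl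
    have h5 : SP.length = 5 := rfl
    simp only [D]
    omega
  refine MW.of_sdiff D hD (by norm_num) ?_
  have hS : ∀ v ∈ (univ : Finset V) \ D, v ∈ V1 ∧ v ∉ D5 := by
    intro v hv
    rw [mem_sdiff] at hv
    simp only [D, mem_union, not_or] at hv
    obtain ⟨_, h0, h1, h2, h3, h4, h5⟩ := hv
    have hfr := hD0' v h0
    refine ⟨mem_filter.2 ⟨mem_univ _, ⟨hfr, ?_⟩, h1, ?_⟩, h5⟩
    · intro i hi hw
      exact h4 (mem_biUnion.2 ⟨i, mem_range.2 hi, mem_filter.2 ⟨mem_univ _, hw⟩⟩)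
    · have := code_mem hf hd hp h6 hfr
      rw [List.mem_append, List.mem_append] at this
      rcases this with (h | h) | h
      · exact h
      · exact absurd (mem_biUnion.2 ⟨_, List.mem_toFinset.2 h,
          mem_filter.2 ⟨mem_univ _, h0, rfl⟩⟩) h3
      · exact absurd (mem_filter.2 ⟨mem_univ _, h0, h⟩) h2
  let LE : V → Prop := fun x => ∃ y ∈ V1, code G 5 p y ∈ Lb (code G 5 p x) ∧ Evid G p x y
  let fl : V → Bool := fun x => decide (LE x)
  let β : V → ℕ := fun x => bl (code G 5 p x) (fl x)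
  have hlt : ∀ v, code G 5 p v < 32 := fun v => code_lt G 5 p v
  let col : V → Fin 64 := fun v => ⟨code G 5 p v + 32 * (fl v).toNat, by
    have := hlt v
    have := Bool.toNat_le (fl v)
    omega⟩
  have hcol : ∀ x y, col x = col y → code G 5 p x = code G 5 p y ∧ fl x = fl y := by
    intro x y h
    have h' : code G 5 p x + 32 * (fl x).toNat = code G 5 p y + 32 * (fl y).toNat :=
      congrArg Fin.val h
    have h1 := hlt x
    have h2 := hlt y
    have h3 := Bool.toNat_le (fl x)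
    have h4 := Bool.toNat_le (fl y)
    refine ⟨by omega, ?_⟩
    have : (fl x).toNat = (fl y).toNat := by omega
    cases h5 : fl x <;> cases h6 : fl y <;> simp [h5, h6] at this ⊢
  -- no evidence towards the other side
  have noev : ∀ x ∈ (univ : Finset V) \ D, ∀ y ∈ (univ : Finset V) \ D,
      code G 5 p y ∈ (bif fl x then Rb (code G 5 p x) else Lb (code G 5 p x)) →
      (G.Adj x y ↔ (code G 5 p y).testBit (idx (code G 5 p x)) = true) := by
    intro x hx y hy h
    by_contra hev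
    have hev' : Evid G p x y := hev
    by_cases hl : LE x
    · have hfl : fl x = true := by simp [fl, hl]
      rw [hfl, cond_true] at h
      have hSP : ∀ A ∈ IC, ∀ B ∈ Rb A, A ∈ SP := by decide
      exact hD5' _ (hSP _ (hV1 x (hS x hx).1).2.2 _ h) x (hS x hx).1 (hS x hx).2 rfl hl
        ⟨y, (hS y hy).1, h, hev'⟩
    · have hfl : fl x = false := by simp [fl, hl]
      rw [hfl, cond_false] at h
      exact hl ⟨y, (hS y hy).1, h, hev'⟩
  refine MW.of_blocks (K := 64) (m := 7) (by norm_num) β col ?_ ?_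
  · intro x hx x' hx' y hy y' hy' hcx hcy hlt1 hlt2
    obtain ⟨cx, fx⟩ := hcol _ _ hcx
    obtain ⟨cy, fy⟩ := hcol _ _ hcy
    have vx := (hS x hx).1
    have vx' := (hS x' hx').1
    have vy := (hS y hy).1
    have vy' := (hS y' hy').1
    rcases chk15 _ (hV1 x vx).2.2 _ (hV1 y vy).2.2 with h | h | h | h
    · have h1 := hsame x vx y vy h
      have h2 := hsame x' vx' y' vy' (by rw [← cx, ← cy]; exact h)
      simp [h1, h2]
    · rcases hD1' _ h with h' | ⟨-, h'⟩
      · have h1 := h' x y (hV1 x vx).2.1 (hV1 y vy).2.1 (hV1 x vx).1 (hV1 y vy).1 rfl rfl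
        have h2 := h' x' y' (hV1 x' vx').2.1 (hV1 y' vy').2.1 (hV1 x' vx').1 (hV1 y' vy').1
          cx.symm cy.symm
        simp [h1, h2]
      · have h1 := h' x y (hV1 x vx).1 (hV1 y vy).1 rfl rfl
        have h2 := h' x' y' (hV1 x' vx').1 (hV1 y' vy').1 cx.symm cy.symm
        simp [h1, h2]
    · rcases hD1' _ h with h' | ⟨-, h'⟩
      · have h1 := h' y x (hV1 y vy).2.1 (hV1 x vx).2.1 (hV1 y vy).1 (hV1 x vx).1 rfl rfl
        have h2 := h' y' x' (hV1 y' vy').2.1 (hV1 x' vx').2.1 (hV1 y' vy').1 (hV1 x' vx').1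
          cy.symm cx.symm
        rw [G.adj_comm] at h1 h2
        simp [h1, h2]
      · have h1 := h' y x (hV1 y vy).1 (hV1 x vx).1 rfl rfl
        have h2 := h' y' x' (hV1 y' vy').1 (hV1 x' vx').1 cy.symm cx.symm
        simp [h1.symm, h2.symm]
    · rcases chk13 _ h (fl x) (fl y) with h' | h' | h'
      · exact absurd hlt1 (by simp only [β]; rw [h']; exact lt_irrefl _)
      · rw [noev x hx y hy h', noev x' hx' y' hy' (by rw [← cx, ← cy, ← fx]; exact h'), ← cx, ← cy]
      · rw [G.adj_comm x y, G.adj_comm x' y', noev y hy x hx h',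
          noev y' hy' x' hx' (by rw [← cx, ← cy, ← fy]; exact h'), ← cx, ← cy]
  · intro i
    have hblk : ∀ v ∈ ((univ : Finset V) \ D).filter (fun v => β v = i), v ∈ V1 ∧
        ((i = 6 ∧ code G 5 p v = 4) ∨ (i < 6 ∧ code G 5 p v ∈ blk i)) := by
      intro v hv
      rw [mem_filter] at hv
      obtain ⟨h1, h2⟩ := hv
      refine ⟨(hS v h1).1, ?_⟩
      have := chk14 _ (hV1 v (hS v h1).1).2.2 (fl v)
      simp only [β] at h2
      rw [h2] at this
      exact this
    by_cases hi : i < 6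
    · let c3 : V → Fin 3 := fun v => if code G 5 p v = (blk i).getD 0 0 then 0 else
        if code G 5 p v = (blk i).getD 1 0 then 1 else 2
      have hc3 : ∀ v ∈ ((univ : Finset V) \ D).filter (fun v => β v = i),
          code G 5 p v = (blk i).getD (c3 v).val 0 ∧ code G 5 p v ∈ blk i := by
        intro v hv
        have h2 : code G 5 p v ∈ blk i := by
          rcases (hblk v hv).2 with ⟨h, -⟩ | ⟨-, h⟩
          · omega
          · exact h
        refine ⟨?_, h2⟩
        have hall : ∀ i, i < 6 → ∀ a ∈ blk i, a ≠ (blk i).getD 0 0 → a ≠ (blk i).getD 1 0 →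
            a = (blk i).getD 2 0 := by decide
        simp only [c3]
        by_cases e0 : code G 5 p v = (blk i).getD 0 0
        · simp only [e0, if_true]; rfl
        · by_cases e1 : code G 5 p v = (blk i).getD 1 0
          · simp only [if_neg e0, if_pos e1]; exact e1
          · simp only [if_neg e0, if_neg e1]; exact hall i hi _ h2 e0 e1
      have hcc : ∀ x ∈ ((univ : Finset V) \ D).filter (fun v => β v = i),
          ∀ y ∈ ((univ : Finset V) \ D).filter (fun v => β v = i), c3 x = c3 y →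
          code G 5 p x = code G 5 p y := by
        intro x hx y hy h
        rw [(hc3 x hx).1, (hc3 y hy).1, h]
      have hcc' : ∀ x y, c3 x ≠ c3 y → code G 5 p x ≠ code G 5 p y := by
        intro x y h h'
        exact h (by simp only [c3, h'])
      have hNN : ∀ i, i < 6 → ∀ a ∈ blk i, ∀ b ∈ blk i, a ≠ b → (a, b) ∈ NN := by decide
      refine MW.block3 c3 hd ?_ ?_ ?_
      · intro x hx y hy h
        exact hsame x (hblk x hx).1 y (hblk y hy).1 (hcc x hx y hy h)
      · intro x hx x' hx' y hy y' hy' h1 h2 h3 e1 e2 n1 n2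
        have dxx : x ≠ x' := by rintro rfl; exact n2 e1
        have dyy : y ≠ y' := by rintro rfl; exact n1 e1
        have cxx := hcc x hx x' hx' h1
        have cyy := hcc y hy y' hy' h2
        have cxy := hcc' x y h3
        have vx := (hblk x hx).1
        have vx' := (hblk x' hx').1
        have vy := (hblk y hy).1
        have vy' := (hblk y' hy').1
        have m1 := hsame x vx x' vx' cxx
        have m2 := hsame y vy y' vy' cyy
        have d1 : x ≠ y := fun h => cxy (by rw [h])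
        have d2 : x ≠ y' := fun h => cxy (by rw [h, cyy])
        have d3 : x' ≠ y := fun h => cxy (by rw [cxx, h])
        have d4 : x' ≠ y' := fun h => cxy (by rw [cxx, h, cyy])
        exact hf.no4 hd hp (fun _ => h6) x x' y y' dxx d1 d3 d2 d4 dyy (hV1 x vx).1.1
          (hV1 x' vx').1.1 (hV1 y vy).1.1 (hV1 y' vy').1.1 _ _ _ _ rfl cxx.symm rfl cyy.symm
          false true false false true false (by simp [m1]) (by simp [e1]) (by simp [n2])
          (by simp [n1]) (by simp [e2]) (by simp [m2]) _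
          (chk9 (code G 5 p x, code G 5 p y) (hNN i hi _ (hc3 x hx).2 _ (hc3 y hy).2 cxy))
      · intro x hx y hy z hz h1 h2 h3 n1 n2 n3
        have cxy := hcc' x y h1
        have cyz := hcc' y z h2
        have cxz := hcc' x z h3
        have vx := (hblk x hx).1
        have vy := (hblk y hy).1
        have vz := (hblk z hz).1
        exact hf.no3 hd hp (fun _ => h6) x y z (fun h => cxy (by rw [h])) (fun h => cxz (by rw [h]))
          (fun h => cyz (by rw [h])) (hV1 x vx).1.1 (hV1 y vy).1.1 (hV1 z vz).1.1 _ _ _ rfl rfl rfl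
          false false false (by simp [n1]) (by simp [n3]) (by simp [n2]) _
          (chk10 i hi _ (hc3 x hx).2 _ (hc3 y hy).2 _ (hc3 z hz).2 cxy cyz cxz)
    · refine (MW.indep ?_).mono (by norm_num)
      intro a ha b hb
      have ha' := hblk a ha
      have hb' := hblk b hb
      refine hsame a ha'.1 b hb'.1 ?_
      rcases ha'.2 with ⟨-, h⟩ | ⟨h, -⟩
      · rcases hb'.2 with ⟨-, h'⟩ | ⟨h', -⟩
        · rw [h, h']
        · exact absurd h' hi
      · exact absurd h hi

end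

end P5F

/-- the `P₅` case -/
theorem p5_case {V : Type u} [Fintype V] [DecidableEq V] {G : SimpleGraph V} (hd : DiamondFree G)
    (hp : P15Free G) (hpr : Prime G) (h6 : C6Free G) (h5 : ¬ P5Free G) {c : ℕ}
    (hc : CliquesLT G c) : MW G univ (3 ^ (14 * c + 100) * 448) := by
  by_contra hcon
  refine h5 (fun a b x d e h1 h2 h3 h4 n1 n2 n3 n4 n5 n6 => hcon ?_)
  have hfr : Frame G 5 FP5 (fun i => [a, b, x, d, e].getD i a) := by
    refine Frame.of_adj ?_ (by decide)
    have m1 : ¬ G.Adj x a := fun h => n1 h.symm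
    have m2 : ¬ G.Adj d a := fun h => n2 h.symm
    have m3 : ¬ G.Adj e a := fun h => n3 h.symm
    have m4 : ¬ G.Adj d b := fun h => n4 h.symm
    have m5 : ¬ G.Adj e b := fun h => n5 h.symm
    have m6 : ¬ G.Adj e x := fun h => n6 h.symm
    intro i hi j hj
    interval_cases i <;> interval_cases j <;>
      simp [FP5, h1, h2, h3, h4, h1.symm, h2.symm, h3.symm, h4.symm,
        n1, n2, n3, n4, n5, n6, m1, m2, m3, m4, m5, m6]
  exact P5F.p5_frame hfr hd hp h6 hpr hc

end Pool.Agent.Lib80.CW
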