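import Pool.Agent.Lib_helper80.CW.Small

/-!
# Substitution and reduction to prime graphs
-/

namespace Pool.Agent.Lib80.CW

open Finset

universe u

set_option linter.unusedSectionVars false

variable {V : Type u} [DecidableEq V]

/-- decompositions of parts of a module -/
theorem Dec.of_module {G : SimpleGraph V} {S M : Finset V} {k : ℕ}
    (hmod : ∀ a ∈ M, ∀ b ∈ M, ∀ w ∈ S, w ∉ M → (G.Adj a w ↔ G.Adj b w))
    {A : Finset V} (h : Dec G M k A) : A ⊆ M → Dec G S k A := by
  induction h with
  | single v => intro _; exact .single v
  | union A B _ _ hd hfew ihA ihB =>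
    intro hAB
    refine .union A B (ihA (subset_union_left.trans hAB)) (ihB (subset_union_right.trans hAB)) hd ?_
    obtain ⟨t, ht⟩ := hfew
    refine ⟨t, fun a ha b hb hab w hw hwA => ?_⟩
    by_cases hwM : w ∈ M
    · exact ht a ha b hb hab w hwM hwA
    · exact hmod a (hAB ha) b (hAB hb) w hw hwM

/-- substitution: replacing the vertex `m` of `S' = (S \ M) ∪ {m}` by the module `M` -/
theorem MW.subst {G : SimpleGraph V} {S M : Finset V} {k : ℕ} {m : V} (hMS : M ⊆ S) (hm : m ∈ M)
    (hmod : ∀ a ∈ M, ∀ b ∈ M, ∀ w ∈ S, w ∉ M → (G.Adj a w ↔ G.Adj b w))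
    (h1 : MW G M k) (h2 : MW G (insert m (S \ M)) k) : MW G S k := by
  classical
  have h1' : Dec G M k M := h1.resolve_left (ne_empty_of_mem hm)
  have h2' : Dec G (insert m (S \ M)) k (insert m (S \ M)) :=
    h2.resolve_left (ne_empty_of_mem (mem_insert_self _ _))
  have hMk : Dec G S k M := h1'.of_module hmod Subset.rfl
  have key : ∀ A, Dec G (insert m (S \ M)) k A → A ⊆ insert m (S \ M) →
      Dec G S k (if m ∈ A then A ∪ M else A) := by
    intro A hA
    induction hA with
    | single v =>
      intro _
      by_cases hv : m ∈ ({v} : Finset V)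
      · rw [if_pos hv]
        rw [mem_singleton] at hv
        rw [← hv, union_eq_right.2 (singleton_subset_iff.2 hm)]
        exact hMk
      · rw [if_neg hv]
        exact .single v
    | union A B hA hB hd hfew ihA ihB =>
      intro hAB
      have hAS := subset_union_left.trans hAB
      have hBS := subset_union_right.trans hAB
      have iA := ihA hAS
      have iB := ihB hBS
      -- elements of M in A are m
      have hSM : ∀ x ∈ insert m (S \ M), x ∈ M → x = m := by
        intro x hx hxM
        rcases mem_insert.1 hx with h | h
        · exact h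
        · exact absurd hxM (mem_sdiff.1 h).2
      have hfew' : Few G S (if m ∈ A ∪ B then (A ∪ B) ∪ M else A ∪ B) k := by
        obtain ⟨t, ht⟩ := hfew
        by_cases hmC : m ∈ A ∪ B
        · rw [if_pos hmC]
          have hrep : ∀ a ∈ (A ∪ B) ∪ M, ∃ a' ∈ A ∪ B, (if a ∈ M then t m else t a) = t a' ∧
              ∀ w ∈ S, w ∉ M → (G.Adj a w ↔ G.Adj a' w) := by
            intro a ha
            by_cases haM : a ∈ M
            · exact ⟨m, hmC, by simp [haM], fun w hw hwM => hmod a haM m hm w hw hwM⟩
            · refine ⟨a, ?_, by simp [haM], fun w _ _ => Iff.rfl⟩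
              exact (mem_union.1 ha).resolve_right haM
          refine ⟨fun v => if v ∈ M then t m else t v, fun a ha b hb hab w hw hwA => ?_⟩
          obtain ⟨a', ha', ea, ra⟩ := hrep a ha
          obtain ⟨b', hb', eb, rb⟩ := hrep b hb
          have hwM : w ∉ M := fun h => hwA (mem_union_right _ h)
          have hwC : w ∉ A ∪ B := fun h => hwA (mem_union_left _ h)
          rw [ra w hw hwM, rb w hw hwM]
          have hab' : t a' = t b' := by rw [← ea, ← eb]; exact hab
          exact ht a' ha' b' hb' hab' w (mem_insert_of_mem (mem_sdiff.2 ⟨hw, hwM⟩)) hwC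
        · rw [if_neg hmC]
          refine ⟨t, fun a ha b hb hab w hw hwA => ?_⟩
          by_cases hwM : w ∈ M
          · have haS := hAB ha
            have hbS := hAB hb
            have haM : a ∉ M := fun h => hmC (hSM a haS h ▸ ha)
            have hbM : b ∉ M := fun h => hmC (hSM b hbS h ▸ hb)
            have haS' : a ∈ S := by
              rcases mem_insert.1 haS with h | h
              · exact absurd (h ▸ hm) haM
              · exact (mem_sdiff.1 h).1
            have hbS' : b ∈ S := by
              rcases mem_insert.1 hbS with h | h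
              · exact absurd (h ▸ hm) hbM
              · exact (mem_sdiff.1 h).1
            have e1 := hmod w hwM m hm a haS' haM
            have e2 := hmod w hwM m hm b hbS' hbM
            have e3 := ht a ha b hb hab m (mem_insert_self _ _) hmC
            rw [G.adj_comm a w, G.adj_comm b w, e1, e2, G.adj_comm m a, G.adj_comm m b]
            exact e3
          · exact ht a ha b hb hab w (mem_insert_of_mem (mem_sdiff.2 ⟨hw, hwM⟩)) hwA
      by_cases hmA : m ∈ A
      · have hmB : m ∉ B := fun h => disjoint_left.1 hd hmA h
        rw [if_pos hmA] at iA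
        rw [if_neg hmB] at iB
        have hmC : m ∈ A ∪ B := mem_union_left _ hmA
        rw [if_pos hmC] at hfew' ⊢
        have e : (A ∪ B) ∪ M = (A ∪ M) ∪ B := by
          rw [union_assoc, union_comm B M, ← union_assoc]
        rw [e] at hfew' ⊢
        refine .union _ _ iA iB ?_ hfew'
        rw [disjoint_left]
        intro x hx hxB
        rcases mem_union.1 hx with h | h
        · exact disjoint_left.1 hd h hxB
        · exact hmB (hSM x (hBS hxB) h ▸ hxB)
      · rw [if_neg hmA] at iA
        by_cases hmB : m ∈ B
        · rw [if_pos hmB] at iB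
          have hmC : m ∈ A ∪ B := mem_union_right _ hmB
          rw [if_pos hmC] at hfew' ⊢
          rw [union_assoc] at hfew' ⊢
          refine .union _ _ iA iB ?_ hfew'
          rw [disjoint_left]
          intro x hxA hx
          rcases mem_union.1 hx with h | h
          · exact disjoint_left.1 hd hxA h
          · exact hmA (hSM x (hAS hxA) h ▸ hxA)
        · rw [if_neg hmB] at iB
          have hmC : m ∉ A ∪ B := by
            rw [mem_union]; tauto
          rw [if_neg hmC] at hfew' ⊢
          exact .union _ _ iA iB hd hfew'
  have h3 := key _ h2' Subset.rfl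
  rw [if_pos (mem_insert_self _ _)] at h3
  have e : insert m (S \ M) ∪ M = S := by
    rw [insert_union, sdiff_union_of_subset hMS]
    exact insert_eq_of_mem (hMS hm)
  rw [e] at h3
  exact Or.inr h3

/-- transport along an embedding -/
theorem Dec.map {W : Type u} [DecidableEq W] {G : SimpleGraph V} {H : SimpleGraph W} (φ : W ↪ V)
    (hφ : ∀ x y, H.Adj x y ↔ G.Adj (φ x) (φ y)) {T A : Finset W} {k : ℕ} (h : Dec H T k A) :
    Dec G (T.map φ) k (A.map φ) := by
  classical
  induction h with
  | single v => rw [map_singleton]; exact .single _
  | union A B hA hB hd hfew ihA ihB =>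
    rw [map_union]
    refine .union _ _ ihA ihB ((disjoint_map φ).2 hd) ?_
    obtain ⟨w0, _⟩ := hA.nonempty
    have : Nonempty W := ⟨w0⟩
    obtain ⟨t, ht⟩ := hfew
    have hinv : ∀ x, Function.invFun φ (φ x) = x := Function.leftInverse_invFun φ.injective
    refine ⟨fun v => t (Function.invFun φ v), fun a ha b hb hab w hw hwA => ?_⟩
    rw [← map_union] at ha hb hwA
    obtain ⟨a', ha', rfl⟩ := mem_map.1 ha
    obtain ⟨b', hb', rfl⟩ := mem_map.1 hb
    obtain ⟨w', hw', rfl⟩ := mem_map.1 hw
    simp only [hinv] at hab
    rw [← hφ, ← hφ]
    exact ht a' ha' b' hb' hab w' hw' (fun h => hwA (mem_map_of_mem φ h))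

/-- transport from an induced subgraph -/
theorem MW.of_induce {G : SimpleGraph V} {S : Finset V} {k : ℕ}
    (h : MW (G.induce (S : Set V)) (univ : Finset (S : Set V)) k) : MW G S k := by
  have e : (univ : Finset (S : Set V)).map (Function.Embedding.subtype _) = S := by
    ext v
    simp
  rcases h with h | h
  · left
    rw [h, map_empty] at e
    exact e.symm
  · right
    have h1 := h.map (G := G) (Function.Embedding.subtype _) (fun x y => by simp)
    rw [e] at h1
    exact h1

/-- reduction to prime graphs for a class closed under induced subgraphs -/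
theorem mw_of_prime (P : ∀ {W : Type u}, SimpleGraph W → Prop)
    (hP : ∀ {W W' : Type u} (G : SimpleGraph W) (G' : SimpleGraph W'), (G' ↪g G) → P G → P G')
    (C : ℕ)
    (hprime : ∀ (W : Type u) [Fintype W] [DecidableEq W] (G : SimpleGraph W), P G → Prime G →
      MW G univ C) :
    ∀ (W : Type u) [Fintype W] [DecidableEq W] (G : SimpleGraph W), P G → MW G univ C := by
  have key : ∀ n : ℕ, ∀ (W : Type u) [Fintype W] [DecidableEq W] (G : SimpleGraph W),
      Fintype.card W ≤ n → P G → MW G univ C := by
    intro n
    induction n with
    | zero =>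
      intro W _ _ G hn _
      left
      have : IsEmpty W := Fintype.card_eq_zero_iff.1 (by omega)
      exact univ_eq_empty
    | succ n ih =>
      intro W _ _ G hn hG
      by_cases hpr : Prime G
      · exact hprime W G hG hpr
      · unfold Prime at hpr
        push Not at hpr
        obtain ⟨M, hM, h1, h2⟩ := hpr
        obtain ⟨m, hm⟩ : M.Nonempty := card_pos.1 (by omega)
        have hlt : M.card < Fintype.card W := by
          rw [← card_univ]
          exact card_lt_card (ssubset_univ_iff.2 h2)
        have hsub : ∀ T : Finset W, T.card ≤ n → MW G T C := by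
          intro T hT
          refine MW.of_induce (ih _ _ ?_ ?_)
          · refine le_trans (le_of_eq ?_) hT
            simp
          · exact hP G _ (SimpleGraph.Embedding.induce _) hG
        refine MW.subst (m := m) (subset_univ M) hm (fun a ha b hb w _ hw => hM a ha b hb w hw)
          (hsub M (by omega)) (hsub _ ?_)
        have h3 : (univ \ M).card = Fintype.card W - M.card := by
          rw [card_sdiff_of_subset (subset_univ M), card_univ]
        have h4 := card_insert_le m (univ \ M)
        omega
  exact fun W _ _ G hG => key (Fintype.card W) W G le_rfl hG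

end Pool.Agent.Lib80.CW
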