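import Pool.Agent.Lib_helper80.CW.Expr
import Pool.Agent.Lib_helper80.CW.Subst
import Pool.Agent.Lib_helper80.CW.Large
import Pool.Agent.Lib_helper80.CW.NoP5
import Pool.Agent.Lib_helper80.CW.P5
import Pool.Agent.Lib_helper80.CW.C6

/-!
# (diamond, `P₁ + P₅`)-free graphs have bounded clique-width
-/

namespace Pool.Agent.Lib80.CW

open Finset

universe u

theorem prime_bound : ∃ C : ℕ, ∀ (V : Type u) [Fintype V] [DecidableEq V] (G : SimpleGraph V),
    DiamondFree G → P15Free G → Prime G → MW G univ C := by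
  refine ⟨2000 + (3 ^ (6 * c0 + 40) * 256 + 3 ^ (14 * c0 + 100) * 448 + (3 ^ 20 * 6) +
    (2 * c0 + 100)), ?_⟩
  intro V _ _ G hd hp hpr
  by_cases hl : CliquesLT G c0
  · by_cases h6 : C6Free G
    · by_cases h5 : P5Free G
      · by_cases hc5 : C5Free G
        · exact (noP5_noC5_case hd h5 hc5 hpr hl).mono (by omega)
        · exact (noP5_C5_case hd h5 hc5 hpr).mono (by omega)
      · exact (p5_case hd hp hpr h6 h5 hl).mono (by omega)
    · exact (c6_case hd hp h6 hl).mono (by omega)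
  · exact (large_case hd hp hpr hl).mono (by omega)

theorem class_bound : ∃ C : ℕ, ∀ (V : Type u) [Fintype V] [DecidableEq V] (G : SimpleGraph V),
    DiamondFree G → P15Free G → MW G univ C := by
  obtain ⟨C, hC⟩ := prime_bound.{u}
  refine ⟨C, fun V _ _ G hd hp => ?_⟩
  refine mw_of_prime (fun G => DiamondFree G ∧ P15Free G) ?_ C (fun W _ _ G h => hC W G h.1 h.2)
    V G ⟨hd, hp⟩
  intro W W' G G' φ h
  have hφ : ∀ x y, G'.Adj x y ↔ G.Adj (φ x) (φ y) := fun x y => (φ.map_rel_iff).symm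
  refine ⟨?_, ?_⟩
  · intro a b c d h1 h2 h3 h4 h5' hne
    rw [hφ] at *
    exact h.1 _ _ _ _ h1 h2 h3 h4 h5' (fun h' => hne (φ.injective h'))
  · intro z a b c d e h1 h2 h3 h4 n1 n2 n3 n4 n5 n6 z1 z2 z3 z4 z5
    rw [hφ] at *
    exact h.2 _ _ _ _ _ _ h1 h2 h3 h4 n1 n2 n3 n4 n5 n6 z1 z2 z3 z4 z5

end Pool.Agent.Lib80.CW
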