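import Pool.Agent.Lib_helper80.CW.Deg2

/-!
# The large clique case, eight pairwise adjacent representatives
-/

namespace Pool.Agent.Lib80.CW

open Finset

universe u

set_option linter.unusedSectionVars false

/-- avoiding four predicates, each satisfied by at most one index -/
theorem exists_avoid4 (P1 P2 P3 P4 : Fin 8 → Prop) (h1 : ∀ i j, P1 i → P1 j → i = j)
    (h2 : ∀ i j, P2 i → P2 j → i = j) (h3 : ∀ i j, P3 i → P3 j → i = j)
    (h4 : ∀ i j, P4 i → P4 j → i = j) : ∃ i, ¬ P1 i ∧ ¬ P2 i ∧ ¬ P3 i ∧ ¬ P4 i := by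
  classical
  by_contra hcon
  push Not at hcon
  let f : Fin 8 → Fin 4 := fun i => if P1 i then 0 else if P2 i then 1 else if P3 i then 2 else 3
  have hf : Function.Injective f := by
    intro i j hij
    by_cases a1 : P1 i <;> by_cases b1 : P1 j <;> by_cases a2 : P2 i <;> by_cases b2 : P2 j <;>
      by_cases a3 : P3 i <;> by_cases b3 : P3 j <;>
      simp only [f, a1, b1, a2, b2, a3, b3, if_true, if_false] at hij <;>
      first
        | exact h1 i j a1 b1
        | exact h2 i j a2 b2
        | exact h3 i j a3 b3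
        | exact h4 i j (hcon i a1 a2 a3) (hcon j b1 b2 b3)
        | exact absurd hij (by decide)
  have := Fintype.card_le_of_injective f hf
  simp at this

variable {V : Type u} [DecidableEq V]

/-- Claim 5 of the paper proof, in symmetric form -/
theorem claim5 {G : SimpleGraph V} (hp : P15Free G) (K Q : Finset V)
    (hK : ∀ x ∈ K, ∀ y ∈ K, x ≠ y → G.Adj x y) (hQ : ∀ x ∈ Q, ∀ y ∈ Q, x ≠ y → G.Adj x y)
    (hKQ : Disjoint K Q)
    (hK1 : ∀ v, v ∉ K → ∀ x ∈ K, ∀ y ∈ K, G.Adj v x → G.Adj v y → x = y)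
    (hQ1 : ∀ v, v ∉ Q → ∀ x ∈ Q, ∀ y ∈ Q, G.Adj v x → G.Adj v y → x = y)
    (a b : Fin 8 → V) (ha : ∀ i, a i ∈ K) (hb : ∀ i, b i ∈ Q) (hai : Function.Injective a)
    (hbi : Function.Injective b) (hab : ∀ i, G.Adj (a i) (b i))
    (v : V) (hvK : v ∉ K) (hvQ : v ∉ Q) (w : V) (hwK : w ∉ K) (hwQ : w ∉ Q)
    (q : V) (hq : q ∈ Q) (hvq : G.Adj v q) (hwq : ¬ G.Adj w q) : G.Adj w v := by
  by_contra hwv
  have hqK : q ∉ K := fun h => disjoint_left.1 hKQ h hq
  have haQ : ∀ i, a i ∉ Q := fun i h => disjoint_left.1 hKQ (ha i) h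
  have hbK : ∀ i, b i ∉ K := fun i h => disjoint_left.1 hKQ h (hb i)
  obtain ⟨i, i1, i2, i3, i4⟩ := exists_avoid4 (fun i => b i = q) (fun i => G.Adj w (b i))
    (fun i => G.Adj v (a i)) (fun i => G.Adj w (a i))
    (fun i j h h' => hbi (h.trans h'.symm))
    (fun i j h h' => hbi (hQ1 w hwQ _ (hb i) _ (hb j) h h'))
    (fun i j h h' => hai (hK1 v hvK _ (ha i) _ (ha j) h h'))
    (fun i j h h' => hai (hK1 w hwK _ (ha i) _ (ha j) h h'))
  obtain ⟨j, j1, j2, j3, j4⟩ := exists_avoid4 (fun j => j = i) (fun j => G.Adj q (a j))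
    (fun j => G.Adj v (a j)) (fun j => G.Adj w (a j))
    (fun i j h h' => h.trans h'.symm)
    (fun i j h h' => hai (hK1 q hqK _ (ha i) _ (ha j) h h'))
    (fun i j h h' => hai (hK1 v hvK _ (ha i) _ (ha j) h h'))
    (fun i j h h' => hai (hK1 w hwK _ (ha i) _ (ha j) h h'))
  have n1 : ¬ G.Adj (a j) (b i) := fun h =>
    j1 (hai (hK1 (b i) (hbK i) _ (ha j) _ (ha i) h.symm (hab i).symm))
  have n2 : ¬ G.Adj (a i) q := fun h =>
    i1 (hQ1 (a i) (haQ i) _ (hb i) _ hq (hab i) h)
  have n3 : ¬ G.Adj (b i) v := fun h =>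
    i1 (hQ1 v hvQ _ (hb i) _ hq h.symm hvq)
  exact hp w (a j) (a i) (b i) q v (hK _ (ha j) _ (ha i) (fun h => j1 (hai h))) (hab i)
    (hQ _ (hb i) _ hq i1) hvq.symm n1 (fun h => j2 h.symm) (fun h => j3 h.symm) n2
    (fun h => i3 h.symm) n3 j4 i4 i2 hwq hwv

variable [Fintype V]

/-- eight pairwise adjacent representatives -/
theorem large_clique {G : SimpleGraph V} (hd : DiamondFree G) (hp : P15Free G) (hpr : Prime G)
    (K : Finset V) (hK : ∀ x ∈ K, ∀ y ∈ K, x ≠ y → G.Adj x y)
    (hK1 : ∀ v, v ∉ K → ∀ x ∈ K, ∀ y ∈ K, G.Adj v x → G.Adj v y → x = y)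
    (J : Finset V) (hJK : J ⊆ K) (hJ : J.card = 8) (r : V → V) (hrK : ∀ x ∈ J, r x ∉ K)
    (hr : ∀ x ∈ J, G.Adj (r x) x) (hi : ∀ x ∈ J, ∀ y ∈ J, x ≠ y → G.Adj (r x) (r y)) :
    MW G univ 2000 := by
  classical
  -- `r` is injective on `J`
  have hrinj : ∀ x ∈ J, ∀ y ∈ J, r x = r y → x = y := fun x hx y hy h =>
    hK1 (r x) (hrK x hx) x (hJK hx) y (hJK hy) (hr x hx) (h ▸ hr y hy)
  -- the matched pairs
  let e : J ≃ Fin 8 := J.equivFinOfCardEq hJ
  let a : Fin 8 → V := fun i => (e.symm i : V)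
  let b : Fin 8 → V := fun i => r (a i)
  have haJ : ∀ i, a i ∈ J := fun i => (e.symm i).2
  have hai : Function.Injective a := Subtype.val_injective.comp e.symm.injective
  have hbi : Function.Injective b := fun i j h => hai (hrinj _ (haJ i) _ (haJ j) h)
  have hab : ∀ i, G.Adj (a i) (b i) := fun i => (hr _ (haJ i)).symm
  -- a maximal clique containing the representatives
  have hne : (univ.filter (fun Q : Finset V => J.image r ⊆ Q ∧
      ∀ x ∈ Q, ∀ y ∈ Q, x ≠ y → G.Adj x y)).Nonempty := by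
    refine ⟨J.image r, mem_filter.2 ⟨mem_univ _, Subset.rfl, ?_⟩⟩
    intro x hx y hy hxy
    obtain ⟨x', hx', rfl⟩ := mem_image.1 hx
    obtain ⟨y', hy', rfl⟩ := mem_image.1 hy
    exact hi x' hx' y' hy' (fun h => hxy (by rw [h]))
  obtain ⟨Q, hQm, hQmax⟩ := exists_max_image _ card hne
  obtain ⟨_, hRQ, hQ⟩ := mem_filter.1 hQm
  have hbQ : ∀ i, b i ∈ Q := fun i => hRQ (mem_image_of_mem r (haJ i))
  have hQ1 : ∀ v, v ∉ Q → ∀ x ∈ Q, ∀ y ∈ Q, G.Adj v x → G.Adj v y → x = y := by
    intro v hv x hx y hy hvx hvy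
    by_contra hxy
    have hall : ∀ z ∈ Q, G.Adj v z := by
      intro z hz
      by_cases h1 : z = x
      · rw [h1]; exact hvx
      by_cases h2 : z = y
      · rw [h2]; exact hvy
      exact hd x y v z (hQ x hx y hy hxy) hvx.symm hvy.symm (hQ x hx z hz (Ne.symm h1))
        (hQ y hy z hz (Ne.symm h2)) (fun h => hv (h ▸ hz))
    have h3 : insert v Q ∈ univ.filter (fun Q : Finset V => J.image r ⊆ Q ∧
        ∀ x ∈ Q, ∀ y ∈ Q, x ≠ y → G.Adj x y) := by
      refine mem_filter.2 ⟨mem_univ _, hRQ.trans (subset_insert _ _), ?_⟩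
      intro x hx y hy hxy
      rcases mem_insert.1 hx with rfl | hx' <;> rcases mem_insert.1 hy with rfl | hy'
      · exact absurd rfl hxy
      · exact hall y hy'
      · exact (hall x hx').symm
      · exact hQ x hx' y hy' hxy
    have h4 := hQmax _ h3
    rw [card_insert_of_notMem hv] at h4
    omega
  have hKQ : Disjoint K Q := by
    rw [disjoint_left]
    intro y hyK hyQ
    have h1 : ∀ i, a i = y := by
      intro i
      have h2 : b i ≠ y := by
        intro h
        apply hrK _ (haJ i)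
        rw [show r (a i) = y from h]
        exact hyK
      exact hK1 (b i) (hrK _ (haJ i)) _ (hJK (haJ i)) _ hyK (hab i).symm
        (hQ _ (hbQ i) _ hyQ h2)
    have h3 : a 0 = a 1 := (h1 0).trans (h1 1).symm
    exact absurd (hai h3) (by decide)
  have haK : ∀ i, a i ∈ K := fun i => hJK (haJ i)
  -- claim 5
  have cQ := fun v hvK hvQ w hwK hwQ q hq => claim5 hp K Q hK hQ hKQ hK1 hQ1 a b haK hbQ hai hbi
    hab v hvK hvQ w hwK hwQ q hq
  have cK := fun v hvK hvQ w hwK hwQ q hq => claim5 hp Q K hQ hK hKQ.symm hQ1 hK1 b a hbQ haK hbi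
    hai (fun i => (hab i).symm) v hvQ hvK w hwQ hwK q hq
  -- distinct nonadjacent vertices of M have the same neighbours in K ∪ Q
  have same : ∀ v, v ∉ K → v ∉ Q → ∀ w, w ∉ K → w ∉ Q → ¬ G.Adj v w →
      ∀ q ∈ K ∪ Q, (G.Adj v q ↔ G.Adj w q) := by
    intro v hvK hvQ w hwK hwQ hvw q hq
    rcases mem_union.1 hq with hq | hq
    · constructor
      · intro h
        by_contra h'
        exact hvw (cK v hvK hvQ w hwK hwQ q hq h h').symm
      · intro h
        by_contra h'
        exact hvw (cK w hwK hwQ v hvK hvQ q hq h h')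
    · constructor
      · intro h
        by_contra h'
        exact hvw (cQ v hvK hvQ w hwK hwQ q hq h h').symm
      · intro h
        by_contra h'
        exact hvw (cQ w hwK hwQ v hvK hvQ q hq h h')
  let M : Finset V := univ \ (K ∪ Q)
  have hM : ∀ v, v ∈ M ↔ v ∉ K ∧ v ∉ Q := by
    intro v
    simp only [M, mem_sdiff, mem_univ, true_and, mem_union, not_or]
  by_cases hMcl : ∀ v ∈ M, ∀ w ∈ M, v ≠ w → G.Adj v w
  · -- three cliques
    -- the exceptional vertices of K and of Q
    have exc : ∀ L : Finset V, (∀ v ∈ M, v ∉ L) →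
        (∀ v, v ∉ L → ∀ x ∈ L, ∀ y ∈ L, G.Adj v x → G.Adj v y → x = y) →
        ∃ D : Finset V, D.card ≤ 1 ∧ ∀ x ∈ L, x ∉ D → ∀ v ∈ M, ∀ w ∈ M, G.Adj x v →
          G.Adj x w → v = w := by
      intro L hLM hL1
      by_cases hex : ∃ x ∈ L, ∃ v ∈ M, ∃ w ∈ M, G.Adj x v ∧ G.Adj x w ∧ v ≠ w
      · obtain ⟨x, hx, v, hv, w, hw, hxv, hxw, hvw⟩ := hex
        refine ⟨{x}, by simp, ?_⟩
        intro y hy hyx v' hv' w' _ hyv' _
        exfalso
        have hyx' : y ≠ x := fun h => hyx (by rw [h]; exact mem_singleton_self _)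
        -- x is complete to M
        have hxv' : G.Adj x v' := by
          by_cases h1 : v' = v
          · rw [h1]; exact hxv
          by_cases h2 : v' = w
          · rw [h2]; exact hxw
          exact hd v w x v' (hMcl v hv w hw hvw) hxv.symm hxw.symm (hMcl v hv v' hv' (Ne.symm h1))
            (hMcl w hw v' hv' (Ne.symm h2)) (fun h => hLM v' hv' (h ▸ hx))
        exact hyx' (hL1 v' (hLM v' hv') y hy x hx hyv'.symm hxv'.symm)
      · push Not at hex
        exact ⟨∅, by simp, fun x hx _ v hv w hw h1 h2 => hex x hx v hv w hw h1 h2⟩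
    obtain ⟨D1, hD1, hK2⟩ := exc K (fun v hv => ((hM v).1 hv).1) hK1
    obtain ⟨D2, hD2, hQ2⟩ := exc Q (fun v hv => ((hM v).1 hv).2) hQ1
    have hD : (D1 ∪ D2).card ≤ 2 := (card_union_le _ _).trans (by omega)
    have main : MW G (univ \ (D1 ∪ D2)) 7 := by
      let c : V → Fin 3 := fun v => if v ∈ K then 0 else if v ∈ Q then 1 else 2
      have c0 : ∀ v, c v = 0 ↔ v ∈ K := by
        intro v
        by_cases h1 : v ∈ K <;> by_cases h2 : v ∈ Q <;> simp [c, h1, h2]
      have c1 : ∀ v, c v = 1 ↔ v ∈ Q := by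
        intro v
        by_cases h1 : v ∈ K
        · have h2 : v ∉ Q := fun h => disjoint_left.1 hKQ h1 h
          simp [c, h1, h2]
        · by_cases h2 : v ∈ Q <;> simp [c, h1, h2]
      have c2 : ∀ v, c v = 2 ↔ v ∈ M := by
        intro v
        rw [hM]
        by_cases h1 : v ∈ K <;> by_cases h2 : v ∈ Q <;> simp [c, h1, h2]
      have c3 : ∀ i : Fin 3, i = 0 ∨ i = 1 ∨ i = 2 := by decide
      refine MW.matchings3 c ?_ ?_
      · intro x _ y _ hxy hne
        rcases c3 (c x) with h | h | h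
        · exact hK x ((c0 x).1 h) y ((c0 y).1 (hxy ▸ h)) hne
        · exact hQ x ((c1 x).1 h) y ((c1 y).1 (hxy ▸ h)) hne
        · exact hMcl x ((c2 x).1 h) y ((c2 y).1 (hxy ▸ h)) hne
      · intro x hx y hy y' hy' hyy hxy h1 h2
        have hxD : x ∉ D1 ∪ D2 := (mem_sdiff.1 hx).2
        rw [mem_union, not_or] at hxD
        rcases c3 (c y) with h | h | h
        · have hxK : x ∉ K := fun h' => hxy (((c0 x).2 h').trans h.symm)
          exact hK1 x hxK y ((c0 y).1 h) y' ((c0 y').1 (hyy ▸ h)) h1 h2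
        · have hxQ : x ∉ Q := fun h' => hxy (((c1 x).2 h').trans h.symm)
          exact hQ1 x hxQ y ((c1 y).1 h) y' ((c1 y').1 (hyy ▸ h)) h1 h2
        · have hyM := (c2 y).1 h
          have hyM' := (c2 y').1 (hyy ▸ h)
          rcases c3 (c x) with h' | h' | h'
          · exact hK2 x ((c0 x).1 h') hxD.1 y hyM y' hyM' h1 h2
          · exact hQ2 x ((c1 x).1 h') hxD.2 y hyM y' hyM' h1 h2
          · exact absurd (h'.trans h.symm) hxy
    exact (MW.of_sdiff (D1 ∪ D2) hD (by norm_num) main).mono (by norm_num)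
  · -- M is not a clique
    push Not at hMcl
    obtain ⟨v, hv, w, hw, hvw, hnvw⟩ := hMcl
    obtain ⟨hvK, hvQ⟩ := (hM v).1 hv
    obtain ⟨hwK, hwQ⟩ := (hM w).1 hw
    let Same : V → V → Prop := fun x y => ∀ q ∈ K ∪ Q, (G.Adj x q ↔ G.Adj y q)
    have hadj : ∀ x ∈ M, ∀ y ∈ M, ¬ Same x y → G.Adj x y := by
      intro x hx y hy hns
      by_contra h
      exact hns (same x ((hM x).1 hx).1 ((hM x).1 hx).2 y ((hM y).1 hy).1 ((hM y).1 hy).2 h)
    let M1 : Finset V := M.filter (fun u => Same u v)
    let M2 : Finset V := M.filter (fun u => ¬ Same u v)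
    have h12 : ∀ x ∈ M1, ∀ y ∈ M2, G.Adj x y := by
      intro x hx y hy
      obtain ⟨hxM, hxs⟩ := mem_filter.1 hx
      obtain ⟨hyM, hys⟩ := mem_filter.1 hy
      refine hadj x hxM y hyM (fun h => hys (fun q hq => ?_))
      rw [← h q hq, hxs q hq]
    have hvM1 : v ∈ M1 := mem_filter.2 ⟨hv, fun q _ => Iff.rfl⟩
    have hwM1 : w ∈ M1 := mem_filter.2 ⟨hw, fun q hq =>
      (same v hvK hvQ w hwK hwQ hnvw q hq).symm⟩
    have hM2ind : ∀ x ∈ M2, ∀ y ∈ M2, ¬ G.Adj x y := by
      intro x hx y hy hxy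
      exact hnvw (hd x y v w hxy (h12 v hvM1 x hx).symm (h12 v hvM1 y hy).symm
        (h12 w hwM1 x hx).symm (h12 w hwM1 y hy).symm hvw)
    have hM2same : ∀ x ∈ M2, ∀ y ∈ M2, Same x y := by
      intro x hx y hy
      have hxM := (mem_filter.1 hx).1
      have hyM := (mem_filter.1 hy).1
      by_contra h
      exact hM2ind x hx y hy (hadj x hxM y hyM h)
    -- neighbours in K ∪ Q of a vertex of M
    have hnb : ∀ x ∈ M, ((K ∪ Q).filter (fun q => G.Adj x q)).card ≤ 2 := by
      intro x hx
      obtain ⟨hxK, hxQ⟩ := (hM x).1 hx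
      rw [filter_union]
      refine (card_union_le _ _).trans ?_
      have e1 : (K.filter (fun q => G.Adj x q)).card ≤ 1 := by
        rw [card_le_one]
        intro p hp' q hq'
        obtain ⟨p1, p2⟩ := mem_filter.1 hp'
        obtain ⟨q1, q2⟩ := mem_filter.1 hq'
        exact hK1 x hxK p p1 q q1 p2 q2
      have e2 : (Q.filter (fun q => G.Adj x q)).card ≤ 1 := by
        rw [card_le_one]
        intro p hp' q hq'
        obtain ⟨p1, p2⟩ := mem_filter.1 hp'
        obtain ⟨q1, q2⟩ := mem_filter.1 hq'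
        exact hQ1 x hxQ p p1 q q1 p2 q2
      omega
    obtain ⟨D, hDcard, hD⟩ : ∃ D : Finset V, D.card ≤ 4 ∧ (∀ q ∈ K ∪ Q, q ∉ D → ∀ x ∈ M,
        ¬ G.Adj x q) := by
      by_cases hM2 : M2.Nonempty
      · obtain ⟨u, hu⟩ := hM2
        have huM := (mem_filter.1 hu).1
        refine ⟨(K ∪ Q).filter (fun q => G.Adj v q) ∪ (K ∪ Q).filter (fun q => G.Adj u q),
          (card_union_le _ _).trans (by have := hnb v hv; have := hnb u huM; omega), ?_⟩
        intro q hq hqD x hx hxq
        rw [mem_union, not_or] at hqD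
        by_cases hs : Same x v
        · exact hqD.1 (mem_filter.2 ⟨hq, (hs q hq).1 hxq⟩)
        · have hx2 : x ∈ M2 := mem_filter.2 ⟨hx, hs⟩
          exact hqD.2 (mem_filter.2 ⟨hq, (hM2same x hx2 u hu q hq).1 hxq⟩)
      · refine ⟨(K ∪ Q).filter (fun q => G.Adj v q), by have := hnb v hv; omega, ?_⟩
        intro q hq hqD x hx hxq
        by_cases hs : Same x v
        · exact hqD (mem_filter.2 ⟨hq, (hs q hq).1 hxq⟩)
        · exact hM2 ⟨x, mem_filter.2 ⟨hx, hs⟩⟩
    -- a common neighbour of M1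
    have hcommon : ∃ p, ∀ x ∈ M1, G.Adj p x := by
      by_cases h1 : ∃ q ∈ K ∪ Q, G.Adj v q
      · obtain ⟨q, hq, hvq⟩ := h1
        refine ⟨q, fun x hx => ?_⟩
        exact (((mem_filter.1 hx).2 q hq).2 hvq).symm
      · by_cases hM2 : M2.Nonempty
        · obtain ⟨u, hu⟩ := hM2
          exact ⟨u, fun x hx => (h12 x hx u hu).symm⟩
        · exfalso
          have h2 : ∀ x ∈ M, ∀ q ∈ K ∪ Q, ¬ G.Adj x q := by
            intro x hx q hq hxq
            by_cases hs : Same x v
            · exact h1 ⟨q, hq, (hs q hq).1 hxq⟩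
            · exact hM2 ⟨x, mem_filter.2 ⟨hx, hs⟩⟩
          have h3 : IsModule G (K ∪ Q) := by
            intro x hx y hy z hz
            have hzM : z ∈ M := mem_sdiff.2 ⟨mem_univ _, hz⟩
            exact ⟨fun h => absurd h.symm (h2 z hzM x hx), fun h => absurd h.symm (h2 z hzM y hy)⟩
          rcases hpr _ h3 with h4 | h4
          · have h5 : J.card ≤ (K ∪ Q).card := card_le_card (hJK.trans subset_union_left)
            omega
          · have h5 : v ∈ K ∪ Q := h4 ▸ mem_univ v
            rcases mem_union.1 h5 with h6 | h6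
            · exact hvK h6
            · exact hvQ h6
    obtain ⟨p, hp'⟩ := hcommon
    have main : MW G (univ \ D) (3 * 7) := by
      let β : V → ℕ := fun x => if x ∈ M then (if Same x v then 1 else 2) else 0
      let c : V → Fin 3 := fun x => if x ∈ M then (if Same x v then 1 else 2) else 0
      have hcb : ∀ x, (c x : ℕ) = β x := by
        intro x
        by_cases h1 : x ∈ M <;> by_cases h2 : Same x v <;> simp [c, β, h1, h2]
      have b0 : ∀ x, β x = 0 ↔ x ∈ K ∪ Q := by
        intro x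
        by_cases h1 : x ∈ M
        · have h3 : x ∉ K ∪ Q := (mem_sdiff.1 h1).2
          by_cases h2 : Same x v <;> simp [β, h1, h2, h3]
        · have h3 : x ∈ K ∪ Q := by
            by_contra h
            exact h1 (mem_sdiff.2 ⟨mem_univ _, h⟩)
          simp [β, h1, h3]
      have b1 : ∀ x, β x = 1 ↔ x ∈ M1 := by
        intro x
        rw [mem_filter]
        by_cases h1 : x ∈ M <;> by_cases h2 : Same x v <;> simp [β, h1, h2]
      have b2 : ∀ x, β x = 2 ↔ x ∈ M2 := by
        intro x
        rw [mem_filter]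
        by_cases h1 : x ∈ M <;> by_cases h2 : Same x v <;> simp [β, h1, h2]
      have b3 : ∀ x, β x = 0 ∨ β x = 1 ∨ β x = 2 := by
        intro x
        have := (c x).2
        rw [hcb] at this
        omega
      -- adjacency between different blocks
      have hbl : ∀ x ∈ univ \ D, ∀ y ∈ univ \ D, β x < β y → (G.Adj x y ↔ β x = 1) := by
        intro x hx y hy hxy
        rcases b3 x with h | h | h
        · have hyM : y ∈ M := by
            rcases b3 y with h' | h' | h'
            · omega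
            · exact (mem_filter.1 ((b1 y).1 h')).1
            · exact (mem_filter.1 ((b2 y).1 h')).1
          constructor
          · intro h'
            exact absurd h'.symm (hD x ((b0 x).1 h) (mem_sdiff.1 hx).2 y hyM)
          · intro h'; omega
        · have h' : β y = 2 := by
            rcases b3 y with h' | h' | h' <;> omega
          exact ⟨fun _ => h, fun _ => h12 x ((b1 x).1 h) y ((b2 y).1 h')⟩
        · rcases b3 y with h' | h' | h' <;> omega
      refine MW.of_blocks (by norm_num) β c ?_ ?_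
      · intro x hx x' hx' y hy y' hy' hcx hcy hxy hxy'
        rw [hbl x hx y hy hxy, hbl x' hx' y' hy' hxy', ← hcb, ← hcb, hcx]
      · intro i
        by_cases hi0 : i = 0
        · subst hi0
          let c' : V → Fin 3 := fun v => if v ∈ K then 0 else 1
          refine MW.matchings3 c' ?_ ?_
          · intro x hx y hy hxy hne
            have hx' := (b0 x).1 (mem_filter.1 hx).2
            have hy' := (b0 y).1 (mem_filter.1 hy).2
            by_cases h1 : x ∈ K <;> by_cases h2 : y ∈ K
            · exact hK x h1 y h2 hne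
            · simp [c', h1, h2] at hxy
            · simp [c', h1, h2] at hxy
            · exact hQ x ((mem_union.1 hx').resolve_left h1) y ((mem_union.1 hy').resolve_left h2)
                hne
          · intro x hx y hy y' hy' hyy hxy h1 h2
            have hx0 := (b0 x).1 (mem_filter.1 hx).2
            have hy0 := (b0 y).1 (mem_filter.1 hy).2
            have hy0' := (b0 y').1 (mem_filter.1 hy').2
            by_cases h3 : y ∈ K
            · have h4 : y' ∈ K := by
                by_contra h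
                simp [c', h3, h] at hyy
              have h5 : x ∉ K := fun h => hxy (by simp [c', h3, h])
              exact hK1 x h5 y h3 y' h4 h1 h2
            · have h4 : y' ∉ K := by
                intro h
                simp [c', h3, h] at hyy
              have h5 : x ∈ K := by
                by_contra h
                exact hxy (by simp [c', h3, h])
              exact hQ1 x (fun h => disjoint_left.1 hKQ h5 h) y ((mem_union.1 hy0).resolve_left h3)
                y' ((mem_union.1 hy0').resolve_left h4) h1 h2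
        · by_cases hi1 : i = 1
          · subst hi1
            refine (MW.cluster (fun x hx y hy z hz hxy hyz hne => ?_)).mono (by norm_num)
            have hx' := (b1 x).1 (mem_filter.1 hx).2
            have hy' := (b1 y).1 (mem_filter.1 hy).2
            have hz' := (b1 z).1 (mem_filter.1 hz).2
            exact hd y p x z (hp' y hy').symm hxy.symm (hp' x hx') hyz (hp' z hz') hne
          · refine (MW.indep (fun x hx y hy => ?_)).mono (by norm_num)
            have hx1 := (mem_filter.1 hx).2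
            have hy1 := (mem_filter.1 hy).2
            have hx2 : β x = 2 := by rcases b3 x with h | h | h <;> omega
            have hy2 : β y = 2 := by rcases b3 y with h | h | h <;> omega
            exact hM2ind x ((b2 x).1 hx2) y ((b2 y).1 hy2)
    exact (MW.of_sdiff D hDcard (by norm_num) main).mono (by norm_num)

end Pool.Agent.Lib80.CW
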