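import Pool.Agent.Lib_helper80.CW.Large

/-!
# The large clique case for Q1 (no induced `P₁ + P₂ + P₃`)
-/

namespace Pool.Agent.Lib80.CW

open Finset

universe u

set_option linter.unusedSectionVars false

/-- no induced `P₁ + P₂ + P₃` (isolated vertex `z`, edge `a b`, path `c d e`) -/
def P123Free {V : Type u} (G : SimpleGraph V) : Prop :=
  ∀ z a b c d e, G.Adj a b → G.Adj c d → G.Adj d e → c ≠ e → ¬ G.Adj c e →
    ¬ G.Adj a c → ¬ G.Adj a d → ¬ G.Adj a e → ¬ G.Adj b c → ¬ G.Adj b d → ¬ G.Adj b e →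
    ¬ G.Adj z a → ¬ G.Adj z b → ¬ G.Adj z c → ¬ G.Adj z d → ¬ G.Adj z e → False

theorem exists_avoidL (L : List (Fin 8 → Prop)) (hL : L.length ≤ 7)
    (h : ∀ P ∈ L, ∀ i j, P i → P j → i = j) : ∃ i, ∀ P ∈ L, ¬ P i := by
  classical
  have key : ∀ L : List (Fin 8 → Prop), (∀ P ∈ L, ∀ i j, P i → P j → i = j) →
      (univ.filter (fun i : Fin 8 => ∃ P ∈ L, P i)).card ≤ L.length := by
    intro L
    induction L with
    | nil => intro _; simp
    | cons P L ih =>
      intro h
      have h1 := ih (fun Q hQ => h Q (List.mem_cons_of_mem _ hQ))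
      have h2 : (univ.filter P).card ≤ 1 := by
        rw [card_le_one]
        intro i hi j hj
        exact h P List.mem_cons_self i j (mem_filter.1 hi).2 (mem_filter.1 hj).2
      have h3 : univ.filter (fun i : Fin 8 => ∃ Q ∈ P :: L, Q i) ⊆
          univ.filter P ∪ univ.filter (fun i : Fin 8 => ∃ Q ∈ L, Q i) := by
        intro i hi
        obtain ⟨Q, hQ, hQi⟩ := (mem_filter.1 hi).2
        rcases List.mem_cons.1 hQ with rfl | hQ
        · exact mem_union_left _ (mem_filter.2 ⟨mem_univ _, hQi⟩)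
        · exact mem_union_right _ (mem_filter.2 ⟨mem_univ _, Q, hQ, hQi⟩)
      have h4 := (card_le_card h3).trans (card_union_le _ _)
      rw [List.length_cons]
      omega
  have h1 := key L h
  by_contra hcon
  push Not at hcon
  have h2 : univ.filter (fun i : Fin 8 => ∃ P ∈ L, P i) = univ :=
    filter_true_of_mem (fun i _ => hcon i)
  rw [h2, card_univ, Fintype.card_fin] at h1
  omega

theorem exists_avoid7 (P1 P2 P3 P4 P5 P6 P7 : Fin 8 → Prop) (h1 : ∀ i j, P1 i → P1 j → i = j)
    (h2 : ∀ i j, P2 i → P2 j → i = j) (h3 : ∀ i j, P3 i → P3 j → i = j)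
    (h4 : ∀ i j, P4 i → P4 j → i = j) (h5 : ∀ i j, P5 i → P5 j → i = j)
    (h6 : ∀ i j, P6 i → P6 j → i = j) (h7 : ∀ i j, P7 i → P7 j → i = j) :
    ∃ i, ¬ P1 i ∧ ¬ P2 i ∧ ¬ P3 i ∧ ¬ P4 i ∧ ¬ P5 i ∧ ¬ P6 i ∧ ¬ P7 i := by
  obtain ⟨i, hi⟩ := exists_avoidL [P1, P2, P3, P4, P5, P6, P7] (by simp) (by
    simp only [List.forall_mem_cons, List.not_mem_nil, false_imp_iff, implies_true, and_true]
    exact ⟨h1, h2, h3, h4, h5, h6, h7⟩)
  simp only [List.forall_mem_cons, List.not_mem_nil, false_imp_iff, implies_true, and_true] at hi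
  exact ⟨i, hi⟩

variable {V : Type u} [DecidableEq V] [Fintype V]

/-- eight independent representatives, Q1 -/
theorem large_indep1 {G : SimpleGraph V} (hd : DiamondFree G) (hp : P123Free G)
    (K : Finset V) (hK : ∀ x ∈ K, ∀ y ∈ K, x ≠ y → G.Adj x y)
    (hK1 : ∀ v, v ∉ K → ∀ x ∈ K, ∀ y ∈ K, G.Adj v x → G.Adj v y → x = y)
    (J : Finset V) (hJK : J ⊆ K) (hJ : J.card = 8) (r : V → V) (hrK : ∀ x ∈ J, r x ∉ K)
    (hr : ∀ x ∈ J, G.Adj (r x) x) (hi : ∀ x ∈ J, ∀ y ∈ J, ¬ G.Adj (r x) (r y)) :
    MW G univ 18 := by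
  classical
  -- avoiding
  have avoid : ∀ v, v ∉ K → ∀ v', v' ∉ K → ∀ A : Finset V, A.card ≤ 5 →
      ∃ x ∈ J, ¬ G.Adj v x ∧ ¬ G.Adj v' x ∧ x ∉ A := by
    intro v hv v' hv' A hA
    have h1 : (J.filter (fun x => G.Adj v x)).card ≤ 1 := by
      rw [card_le_one]
      intro a ha b hb
      obtain ⟨ha, ha'⟩ := mem_filter.1 ha
      obtain ⟨hb, hb'⟩ := mem_filter.1 hb
      exact hK1 v hv a (hJK ha) b (hJK hb) ha' hb'
    have h2 : (J.filter (fun x => G.Adj v' x)).card ≤ 1 := by
      rw [card_le_one]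
      intro a ha b hb
      obtain ⟨ha, ha'⟩ := mem_filter.1 ha
      obtain ⟨hb, hb'⟩ := mem_filter.1 hb
      exact hK1 v' hv' a (hJK ha) b (hJK hb) ha' hb'
    have h3 : ((J.filter (fun x => G.Adj v x) ∪ J.filter (fun x => G.Adj v' x)) ∪ A).card < J.card := by
      have := card_union_le (J.filter (fun x => G.Adj v x) ∪ J.filter (fun x => G.Adj v' x)) A
      have := card_union_le (J.filter (fun x => G.Adj v x)) (J.filter (fun x => G.Adj v' x))
      omega
    obtain ⟨x, hxJ, hx⟩ := exists_mem_notMem_of_card_lt_card h3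
    rw [mem_union, mem_union, mem_filter, mem_filter] at hx
    exact ⟨x, hxJ, fun h => hx (Or.inl (Or.inl ⟨hxJ, h⟩)), fun h => hx (Or.inl (Or.inr ⟨hxJ, h⟩)),
      fun h => hx (Or.inr h)⟩
  have hKK : ∀ x ∈ J, ∀ y ∈ J, x ≠ y → G.Adj x y := fun x hx y hy => hK x (hJK hx) y (hJK hy)
  have hrx : ∀ x ∈ J, ∀ y ∈ K, x ≠ y → ¬ G.Adj (r x) y := fun x hx y hy hxy h =>
    hxy (hK1 (r x) (hrK x hx) x (hJK hx) y hy (hr x hx) h)
  -- the classes
  let isU : V → Prop := fun v => v ∉ K ∧ ∀ x ∈ J, ¬ G.Adj v x → G.Adj v (r x)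
  let isN : V → Prop := fun v => v ∉ K ∧ ∀ x ∈ J, ¬ G.Adj v x → ¬ G.Adj v (r x)
  -- claim 1
  have claim1 : ∀ v, v ∉ K → isU v ∨ isN v := by
    intro v hv
    by_contra hcon
    have hN : ¬ isN v := fun h => hcon (Or.inr h)
    have hU : ¬ isU v := fun h => hcon (Or.inl h)
    simp only [isN, not_and, not_forall, not_not] at hN
    simp only [isU, not_and, not_forall] at hU
    obtain ⟨xi, hxi, hvi, hai⟩ := hN hv
    obtain ⟨xk, hxk, hvk, hak⟩ := hU hv
    have hik : xi ≠ xk := by rintro rfl; exact hak hai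
    -- misses at most one
    have hinj : ∀ x ∈ J, ∀ y ∈ J, x ≠ y → r x ≠ r y := by
      intro x hx y hy hxy h
      exact hrx x hx y (hJK hy) hxy (h ▸ hr y hy)
    have one : ∀ xj ∈ J, ¬ G.Adj v xj → ¬ G.Adj v (r xj) → xj = xk := by
      intro xj hxj hvj haj
      by_contra hjk
      have hij : xi ≠ xj := by rintro rfl; exact haj hai
      obtain ⟨xl, hxl, hvl, _, hl⟩ := avoid v hv v hv {xi, xj, xk} (card_le_three.trans (by norm_num))
      have hli : xl ≠ xi := by rintro rfl; exact hl (by simp)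
      have hlj : xl ≠ xj := by rintro rfl; exact hl (by simp)
      have hlk : xl ≠ xk := by rintro rfl; exact hl (by simp)
      refine hp (r xk) v (r xi) (r xj) xj xl hai (hr xj hxj) (hKK _ hxj _ hxl hlj.symm)
        (fun h => hrK _ hxj (h ▸ hJK hxl)) (hrx _ hxj _ (hJK hxl) hlj.symm)
        haj hvj hvl (hi _ hxi _ hxj) (hrx _ hxi _ (hJK hxj) hij) (hrx _ hxi _ (hJK hxl) hli.symm)
        (fun h => hak h.symm) (hi _ hxk _ hxi) (hi _ hxk _ hxj)
        (hrx _ hxk _ (hJK hxj) (Ne.symm hjk)) (hrx _ hxk _ (hJK hxl) hlk.symm)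
    obtain ⟨xj, hxj, hvj, _, hj⟩ := avoid v hv v hv {xi, xk} (card_le_two.trans (by norm_num))
    have hji : xj ≠ xi := by rintro rfl; exact hj (by simp)
    have hjk : xj ≠ xk := by rintro rfl; exact hj (by simp)
    have haj : G.Adj v (r xj) := by
      by_contra h
      exact hjk (one xj hxj hvj h)
    obtain ⟨y, hy, hvy, _, hyA⟩ := avoid v hv v hv {xi, xj, xk} (card_le_three.trans (by norm_num))
    have hyi : y ≠ xi := by rintro rfl; exact hyA (by simp)
    have hyj : y ≠ xj := by rintro rfl; exact hyA (by simp)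
    have hyk : y ≠ xk := by rintro rfl; exact hyA (by simp)
    obtain ⟨z, hz, hvz, _, hzA⟩ := avoid v hv v hv {xi, xj, xk, y} (card_le_four.trans (by norm_num))
    have hzi : z ≠ xi := by rintro rfl; exact hzA (by simp)
    have hzj : z ≠ xj := by rintro rfl; exact hzA (by simp)
    have hzk : z ≠ xk := by rintro rfl; exact hzA (by simp)
    have hzy : z ≠ y := by rintro rfl; exact hzA (by simp)
    refine hp (r xk) y z (r xi) v (r xj) (hKK _ hy _ hz hzy.symm) hai.symm haj
      (hinj _ hxi _ hxj hji.symm) (hi _ hxi _ hxj)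
      (fun h => hrx _ hxi _ (hJK hy) hyi.symm h.symm) (fun h => hvy h.symm)
      (fun h => hrx _ hxj _ (hJK hy) hyj.symm h.symm)
      (fun h => hrx _ hxi _ (hJK hz) hzi.symm h.symm) (fun h => hvz h.symm)
      (fun h => hrx _ hxj _ (hJK hz) hzj.symm h.symm)
      (hrx _ hxk _ (hJK hy) hyk.symm) (hrx _ hxk _ (hJK hz) hzk.symm) (hi _ hxk _ hxi)
      (fun h => hak h.symm) (hi _ hxk _ hxj)
  -- claim 2
  have claim2 : ∀ u, isU u → ∀ u', isU u' → ¬ G.Adj u u' := by
    rintro u ⟨hu, hu1⟩ u' ⟨hu', hu1'⟩ huu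
    obtain ⟨x, hx, h1, h2, _⟩ := avoid u hu u' hu' ∅ (by simp)
    obtain ⟨y, hy, h3, h4, h5⟩ := avoid u hu u' hu' {x} (by simp)
    have hxy : x ≠ y := by rintro rfl; exact h5 (by simp)
    refine hi x hx y hy (hd u u' (r x) (r y) huu (hu1 x hx h1) (hu1' x hx h2) (hu1 y hy h3)
      (hu1' y hy h4) ?_)
    intro h
    exact hrx x hx y (hJK hy) hxy (h ▸ hr y hy)
  -- claim 3
  have claim3 : ∀ u, isU u → ∀ v, isN v → G.Adj u v := by
    rintro u ⟨hu, hu1⟩ v ⟨hv, hv1⟩
    by_contra huv
    obtain ⟨x, hx, h1, h2, _⟩ := avoid u hu v hv ∅ (by simp)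
    obtain ⟨y, hy, h3, h4, h5⟩ := avoid u hu v hv {x} (by simp)
    have hxy : y ≠ x := by rintro rfl; exact h5 (by simp)
    obtain ⟨z, hz, h6, h7, h8⟩ := avoid u hu v hv {x, y} (card_le_two.trans (by norm_num))
    have hzx : z ≠ x := by rintro rfl; exact h8 (by simp)
    have hzy : z ≠ y := by rintro rfl; exact h8 (by simp)
    obtain ⟨t, ht, h9, h10, h11⟩ := avoid u hu v hv {x, y, z} (card_le_three.trans (by norm_num))
    have htx : t ≠ x := by rintro rfl; exact h11 (by simp)
    have hty : t ≠ y := by rintro rfl; exact h11 (by simp)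
    have htz : t ≠ z := by rintro rfl; exact h11 (by simp)
    have hxyr : r x ≠ r y := fun h => hrx x hx y (hJK hy) hxy.symm (h ▸ hr y hy)
    refine hp v z t (r x) u (r y) (hKK _ hz _ ht htz.symm) (hu1 x hx h1).symm
      (hu1 y hy h3) hxyr (hi _ hx _ hy)
      (fun h => hrx _ hx _ (hJK hz) hzx.symm h.symm) (fun h => h6 h.symm)
      (fun h => hrx _ hy _ (hJK hz) hzy.symm h.symm)
      (fun h => hrx _ hx _ (hJK ht) htx.symm h.symm) (fun h => h9 h.symm)
      (fun h => hrx _ hy _ (hJK ht) hty.symm h.symm)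
      h7 h10 (hv1 x hx h2) (fun h => huv h.symm) (hv1 y hy h4)
  -- claim 4
  have claim4 : ∀ v, isN v → ∀ v', isN v' → ¬ G.Adj v v' := by
    rintro v ⟨hv, hv1⟩ v' ⟨hv', hv1'⟩ hvv
    obtain ⟨x, hx, h1, h2, _⟩ := avoid v hv v' hv' ∅ (by simp)
    obtain ⟨y, hy, h3, h4, h5⟩ := avoid v hv v' hv' {x} (by simp)
    have hxy : y ≠ x := by rintro rfl; exact h5 (by simp)
    obtain ⟨z, hz, h6, h7, h8⟩ := avoid v hv v' hv' {x, y} (card_le_two.trans (by norm_num))
    have hzx : z ≠ x := by rintro rfl; exact h8 (by simp)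
    have hzy : z ≠ y := by rintro rfl; exact h8 (by simp)
    refine hp (r z) v v' (r x) x y hvv (hr x hx) (hKK _ hx _ hy hxy.symm)
      (fun h => hrK _ hx (h ▸ hJK hy)) (hrx _ hx _ (hJK hy) hxy.symm)
      (hv1 x hx h1) h1 h3 (hv1' x hx h2) h2 h4
      (fun h => hv1 z hz h6 h.symm) (fun h => hv1' z hz h7 h.symm) (hi _ hz _ hx)
      (hrx _ hz _ (hJK hx) hzx) (hrx _ hz _ (hJK hy) hzy)
  -- labels
  let lab : V → Option V := fun v =>
    if v ∈ K then some v else if h : ∃ x ∈ K, G.Adj v x then some h.choose else none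
  have lab1 : ∀ v ∈ K, lab v = some v := fun v hv => by simp only [lab, if_pos hv]
  have lab2 : ∀ v, v ∉ K → ∀ x ∈ K, (G.Adj v x ↔ lab v = some x) := by
    intro v hv x hx
    simp only [lab, if_neg hv]
    constructor
    · intro h
      have hex : ∃ x ∈ K, G.Adj v x := ⟨x, hx, h⟩
      rw [dif_pos hex, hK1 v hv _ hex.choose_spec.1 x hx hex.choose_spec.2 h]
    · intro h
      by_cases hex : ∃ x ∈ K, G.Adj v x
      · rw [dif_pos hex] at h
        have h' := Option.some.inj h
        rw [← h']; exact hex.choose_spec.2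
      · rw [dif_neg hex] at h
        exact absurd h (by simp)
  have lab3 : ∀ v x, lab v = some x → x ∈ K := by
    intro v x h
    by_cases hv : v ∈ K
    · rw [lab1 v hv] at h
      exact (Option.some.inj h) ▸ hv
    · simp only [lab, if_neg hv] at h
      by_cases hex : ∃ x ∈ K, G.Adj v x
      · rw [dif_pos hex] at h
        rw [← Option.some.inj h]; exact hex.choose_spec.1
      · rw [dif_neg hex] at h
        exact absurd h (by simp)
  let c : V → Fin 3 := fun v => if v ∈ K then 0 else if isU v then 1 else 2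
  let T : Fin 3 → Fin 3 → Prop := fun i j => (i = 0 ∧ j = 0) ∨ (i = 1 ∧ j = 2) ∨ (i = 2 ∧ j = 1)
  have hc : ∀ v, (v ∈ K ∧ c v = 0) ∨ (v ∉ K ∧ isU v ∧ c v = 1) ∨ (v ∉ K ∧ isN v ∧ c v = 2) := by
    intro v
    by_cases hv : v ∈ K
    · left; exact ⟨hv, by simp only [c, if_pos hv]⟩
    · by_cases hU : isU v
      · right; left; exact ⟨hv, hU, by simp only [c, if_neg hv, if_pos hU]⟩
      · right; right
        exact ⟨hv, (claim1 v hv).resolve_left hU, by simp only [c, if_neg hv, if_neg hU]⟩
  have table : ∀ x y, lab x ≠ lab y → (G.Adj x y ↔ T (c x) (c y)) := by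
    intro x y hne
    rcases hc x with ⟨hx, hcx⟩ | ⟨hx, hxU, hcx⟩ | ⟨hx, hxN, hcx⟩ <;>
    rcases hc y with ⟨hy, hcy⟩ | ⟨hy, hyU, hcy⟩ | ⟨hy, hyN, hcy⟩
    · have h : G.Adj x y := hK x hx y hy (by rintro rfl; exact hne rfl)
      simp [T, hcx, hcy, h]
    · have h : ¬ G.Adj x y := fun h => hne ((lab1 x hx).trans ((lab2 y hy x hx).1 h.symm).symm)
      simp [T, hcx, hcy, h]
    · have h : ¬ G.Adj x y := fun h => hne ((lab1 x hx).trans ((lab2 y hy x hx).1 h.symm).symm)
      simp [T, hcx, hcy, h]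
    · have h : ¬ G.Adj x y := fun h => hne (((lab2 x hx y hy).1 h).trans (lab1 y hy).symm)
      simp [T, hcx, hcy, h]
    · have h : ¬ G.Adj x y := claim2 x hxU y hyU
      simp [T, hcx, hcy, h]
    · have h : G.Adj x y := claim3 x hxU y hyN
      simp [T, hcx, hcy, h]
    · have h : ¬ G.Adj x y := fun h => hne (((lab2 x hx y hy).1 h).trans (lab1 y hy).symm)
      simp [T, hcx, hcy, h]
    · have h : G.Adj x y := (claim3 y hyU x hxN).symm
      simp [T, hcx, hcy, h]
    · have h : ¬ G.Adj x y := claim4 x hxN y hyN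
      simp [T, hcx, hcy, h]
  obtain ⟨f, hf⟩ := exists_injOn_nat (univ : Finset V)
  have hf' : Function.Injective f := fun a b hab => hf (by simp) (by simp) hab
  let β : V → ℕ := fun v => (lab v).elim 0 (fun x => f x + 1)
  have hβ0 : ∀ v, β v = 0 → lab v = none := by
    intro v h
    rcases hl : lab v with _ | x
    · rfl
    · simp [β, hl] at h
  have hβ1 : ∀ v x, β v = f x + 1 → lab v = some x := by
    intro v x h
    rcases hl : lab v with _ | y
    · simp [β, hl] at h
    · simp only [β, hl, Option.elim] at h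
      rw [hf' (by omega : f y = f x)]
  have hβne : ∀ x y, β x < β y → lab x ≠ lab y := by
    intro x y h he
    simp only [β, he] at h
    exact lt_irrefl _ h
  -- the vertices outside `K`
  have hout : MW G (univ.filter (fun v => v ∉ K)) (2 * 1) := by
    refine MW.of_blocks le_rfl (fun v => if isU v then 0 else 1)
      (fun v => if isU v then (0 : Fin 2) else 1) ?_ ?_
    · have key : ∀ x ∈ univ.filter (fun v => v ∉ K), ∀ y ∈ univ.filter (fun v => v ∉ K),
          (if isU x then 0 else 1) < (if isU y then 0 else 1) → G.Adj x y := by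
        intro x hx y hy hxy
        by_cases hxU : isU x
        · by_cases hyU : isU y
          · simp only [if_pos hxU, if_pos hyU] at hxy
            exact absurd hxy (by norm_num)
          · exact claim3 x hxU y ((claim1 y (mem_filter.1 hy).2).resolve_left hyU)
        · by_cases hyU : isU y
          · simp only [if_neg hxU, if_pos hyU] at hxy
            exact absurd hxy (by norm_num)
          · simp only [if_neg hxU, if_neg hyU] at hxy
            exact absurd hxy (by norm_num)
      intro x hx x' hx' y hy y' hy' _ _ h3 h4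
      exact iff_of_true (key x hx y hy h3) (key x' hx' y' hy' h4)
    · intro i
      rcases i with _ | _ | i
      · refine MW.indep ?_
        intro a ha b hb
        have haU : isU a := by
          by_contra h
          have := (mem_filter.1 ha).2
          rw [if_neg h] at this
          exact absurd this (by norm_num)
        have hbU : isU b := by
          by_contra h
          have := (mem_filter.1 hb).2
          rw [if_neg h] at this
          exact absurd this (by norm_num)
        exact claim2 a haU b hbU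
      · refine MW.indep ?_
        have hN : ∀ a ∈ (univ.filter (fun v => v ∉ K)).filter
            (fun v => (if isU v then 0 else 1) = 0 + 1), isN a := by
          intro a ha
          obtain ⟨ha1, ha2⟩ := mem_filter.1 ha
          have haU : ¬ isU a := by
            intro h
            rw [if_pos h] at ha2
            exact absurd ha2 (by norm_num)
          exact (claim1 a (mem_filter.1 ha1).2).resolve_left haU
        intro a ha b hb
        exact claim4 a (hN a ha) b (hN b hb)
      · left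
        rw [filter_eq_empty_iff]
        intro v _ h
        by_cases hv : isU v
        · rw [if_pos hv] at h
          omega
        · rw [if_neg hv] at h
          omega
  have main : MW G univ (3 * 6) := by
    refine MW.of_blocks (by norm_num) β c ?_ ?_
    · intro x _ x' _ y _ y' _ h1 h2 h3 h4
      rw [table x y (hβne _ _ h3), table x' y' (hβne _ _ h4), h1, h2]
    · intro i
      by_cases hex : ∃ x ∈ K, f x + 1 = i
      · obtain ⟨x, hxK, rfl⟩ := hex
        refine (hout.insertVertex x (by norm_num)).subset ?_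
        intro v hv
        have hl := hβ1 v x (mem_filter.1 hv).2
        by_cases hvK : v ∈ K
        · rw [lab1 v hvK] at hl
          rw [Option.some.inj hl]
          exact mem_insert_self _ _
        · exact mem_insert_of_mem (mem_filter.2 ⟨mem_univ _, hvK⟩)
      · refine (hout.subset ?_).mono (by norm_num)
        intro v hv
        refine mem_filter.2 ⟨mem_univ _, fun hvK => hex ⟨v, hvK, ?_⟩⟩
        have h := (mem_filter.1 hv).2
        simp only [β, lab1 v hvK, Option.elim] at h
        exact h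
  exact main.mono (by norm_num)

/-- eight pairwise adjacent representatives, Q1 -/
theorem large_clique1 {G : SimpleGraph V} (hd : DiamondFree G) (hp : P123Free G)
    (K : Finset V) (hK : ∀ x ∈ K, ∀ y ∈ K, x ≠ y → G.Adj x y)
    (hK1 : ∀ v, v ∉ K → ∀ x ∈ K, ∀ y ∈ K, G.Adj v x → G.Adj v y → x = y)
    (J : Finset V) (hJK : J ⊆ K) (hJ : J.card = 8) (r : V → V) (hrK : ∀ x ∈ J, r x ∉ K)
    (hr : ∀ x ∈ J, G.Adj (r x) x) (hi : ∀ x ∈ J, ∀ y ∈ J, x ≠ y → G.Adj (r x) (r y)) :
    MW G univ 100 := by
  classical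
  -- `r` is injective on `J`
  have hrinj : ∀ x ∈ J, ∀ y ∈ J, r x = r y → x = y := fun x hx y hy h =>
    hK1 (r x) (hrK x hx) x (hJK hx) y (hJK hy) (hr x hx) (h ▸ hr y hy)
  -- the matched pairs
  let e : J ≃ Fin 8 := J.equivFinOfCardEq hJ
  let a : Fin 8 → V := fun i => (e.symm i : V)
  let b : Fin 8 → V := fun i => r (a i)
  have haJ : ∀ i, a i ∈ J := fun i => (e.symm i).2
  have hai : Function.Injective a := Subtype.val_injective.comp e.symm.injective
  have hbi : Function.Injective b := fun i j h => hai (hrinj _ (haJ i) _ (haJ j) h)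
  have hab : ∀ i, G.Adj (a i) (b i) := fun i => (hr _ (haJ i)).symm
  -- a maximal clique containing the representatives
  have hne : (univ.filter (fun Q : Finset V => J.image r ⊆ Q ∧
      ∀ x ∈ Q, ∀ y ∈ Q, x ≠ y → G.Adj x y)).Nonempty := by
    refine ⟨J.image r, mem_filter.2 ⟨mem_univ _, Subset.rfl, ?_⟩⟩
    intro x hx y hy hxy
    obtain ⟨x', hx', rfl⟩ := mem_image.1 hx
    obtain ⟨y', hy', rfl⟩ := mem_image.1 hy
    exact hi x' hx' y' hy' (fun h => hxy (by rw [h]))
  obtain ⟨Q, hQm, hQmax⟩ := exists_max_image _ card hne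
  obtain ⟨_, hRQ, hQ⟩ := mem_filter.1 hQm
  have hbQ : ∀ i, b i ∈ Q := fun i => hRQ (mem_image_of_mem r (haJ i))
  have hQ1 : ∀ v, v ∉ Q → ∀ x ∈ Q, ∀ y ∈ Q, G.Adj v x → G.Adj v y → x = y := by
    intro v hv x hx y hy hvx hvy
    by_contra hxy
    have hall : ∀ z ∈ Q, G.Adj v z := by
      intro z hz
      by_cases h1 : z = x
      · rw [h1]; exact hvx
      by_cases h2 : z = y
      · rw [h2]; exact hvy
      exact hd x y v z (hQ x hx y hy hxy) hvx.symm hvy.symm (hQ x hx z hz (Ne.symm h1))
        (hQ y hy z hz (Ne.symm h2)) (fun h => hv (h ▸ hz))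
    have h3 : insert v Q ∈ univ.filter (fun Q : Finset V => J.image r ⊆ Q ∧
        ∀ x ∈ Q, ∀ y ∈ Q, x ≠ y → G.Adj x y) := by
      refine mem_filter.2 ⟨mem_univ _, hRQ.trans (subset_insert _ _), ?_⟩
      intro x hx y hy hxy
      rcases mem_insert.1 hx with rfl | hx' <;> rcases mem_insert.1 hy with rfl | hy'
      · exact absurd rfl hxy
      · exact hall y hy'
      · exact (hall x hx').symm
      · exact hQ x hx' y hy' hxy
    have h4 := hQmax _ h3
    rw [card_insert_of_notMem hv] at h4
    omega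
  have hKQ : Disjoint K Q := by
    rw [disjoint_left]
    intro y hyK hyQ
    have h1 : ∀ i, a i = y := by
      intro i
      have h2 : b i ≠ y := by
        intro h
        apply hrK _ (haJ i)
        rw [show r (a i) = y from h]
        exact hyK
      exact hK1 (b i) (hrK _ (haJ i)) _ (hJK (haJ i)) _ hyK (hab i).symm
        (hQ _ (hbQ i) _ hyQ h2)
    have h3 : a 0 = a 1 := (h1 0).trans (h1 1).symm
    exact absurd (hai h3) (by decide)
  have haK : ∀ i, a i ∈ K := fun i => hJK (haJ i)
  have haQ : ∀ i, a i ∉ Q := fun i h => disjoint_left.1 hKQ (haK i) h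
  have hbK : ∀ i, b i ∉ K := fun i h => disjoint_left.1 hKQ h (hbQ i)
  have habn : ∀ i j, i ≠ j → ¬ G.Adj (a i) (b j) := fun i j hij h =>
    hij (hai (hK1 (b j) (hbK j) _ (haK i) _ (haK j) h.symm (hab j).symm))
  have bad1 : ∀ v, v ∉ K → ∀ i j, G.Adj v (a i) → G.Adj v (a j) → i = j := fun v hv i j h h' =>
    hai (hK1 v hv _ (haK i) _ (haK j) h h')
  have bad2 : ∀ v, v ∉ Q → ∀ i j, G.Adj v (b i) → G.Adj v (b j) → i = j := fun v hv i j h h' =>
    hbi (hQ1 v hv _ (hbQ i) _ (hbQ j) h h')
  have bad3 : ∀ k : Fin 8, ∀ i j : Fin 8, i = k → j = k → i = j := fun k i j h h' => h.trans h'.symm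
  have bad0 : ∀ i j : Fin 8, False → False → i = j := fun i j h _ => h.elim
  let M : Finset V := univ \ (K ∪ Q)
  have hM : ∀ v, v ∈ M ↔ v ∉ K ∧ v ∉ Q := by
    intro v
    simp only [M, mem_sdiff, mem_univ, true_and, mem_union, not_or]
  -- `M` has no induced `P₁ + P₂`
  have hMa : ∀ v ∈ M, ∀ w ∈ M, ∀ z ∈ M, G.Adj v w → ¬ G.Adj z v → ¬ G.Adj z w → False := by
    intro v hv w hw z hz hvw hzv hzw
    obtain ⟨hvK, hvQ⟩ := (hM v).1 hv
    obtain ⟨hwK, hwQ⟩ := (hM w).1 hw
    obtain ⟨hzK, hzQ⟩ := (hM z).1 hz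
    obtain ⟨i, i1, i2, i3, i4, i5, i6, _⟩ := exists_avoid7 (fun i => G.Adj v (a i))
      (fun i => G.Adj w (a i)) (fun i => G.Adj z (a i)) (fun i => G.Adj v (b i))
      (fun i => G.Adj w (b i)) (fun i => G.Adj z (b i)) (fun _ => False)
      (bad1 v hvK) (bad1 w hwK) (bad1 z hzK) (bad2 v hvQ) (bad2 w hwQ) (bad2 z hzQ) bad0
    obtain ⟨j, j1, j2, j3, j4, _, _, _⟩ := exists_avoid7 (fun i => G.Adj v (a i))
      (fun i => G.Adj w (a i)) (fun i => G.Adj z (a i)) (fun j => j = i)
      (fun _ => False) (fun _ => False) (fun _ => False)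
      (bad1 v hvK) (bad1 w hwK) (bad1 z hzK) (bad3 i) bad0 bad0 bad0
    exact hp z v w (a j) (a i) (b i) hvw (hK _ (haK j) _ (haK i) (fun h => j4 (hai h))) (hab i)
      (fun h => haQ j (h ▸ hbQ i)) (habn j i j4) j1 i1 i4 j2 i2 i5 hzv hzw j3 i3 i6
  -- `M` has no induced `P₃`
  have hMb : ∀ v ∈ M, ∀ w ∈ M, ∀ z ∈ M, G.Adj v w → G.Adj w z → v ≠ z → G.Adj v z := by
    intro v hv w hw z hz hvw hwz hvz
    by_contra hnvz
    obtain ⟨hvK, hvQ⟩ := (hM v).1 hv
    obtain ⟨hwK, hwQ⟩ := (hM w).1 hw
    obtain ⟨hzK, hzQ⟩ := (hM z).1 hz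
    obtain ⟨i, i1, i2, i3, _⟩ := exists_avoid7 (fun i => G.Adj v (a i))
      (fun i => G.Adj w (a i)) (fun i => G.Adj z (a i)) (fun _ => False)
      (fun _ => False) (fun _ => False) (fun _ => False)
      (bad1 v hvK) (bad1 w hwK) (bad1 z hzK) bad0 bad0 bad0 bad0
    obtain ⟨j, j1, j2, j3, j4, _⟩ := exists_avoid7 (fun i => G.Adj v (a i))
      (fun i => G.Adj w (a i)) (fun i => G.Adj z (a i)) (fun j => j = i)
      (fun _ => False) (fun _ => False) (fun _ => False)
      (bad1 v hvK) (bad1 w hwK) (bad1 z hzK) (bad3 i) bad0 bad0 bad0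
    obtain ⟨k, k1, k2, k3, k4, k5, _⟩ := exists_avoid7 (fun i => G.Adj v (b i))
      (fun i => G.Adj w (b i)) (fun i => G.Adj z (b i)) (fun k => k = i) (fun k => k = j)
      (fun _ => False) (fun _ => False)
      (bad2 v hvQ) (bad2 w hwQ) (bad2 z hzQ) (bad3 i) (bad3 j) bad0 bad0
    exact hp (b k) (a i) (a j) v w z (hK _ (haK i) _ (haK j) (fun h => j4 (hai h).symm)) hvw hwz
      hvz hnvz (fun h => i1 h.symm) (fun h => i2 h.symm) (fun h => i3 h.symm)
      (fun h => j1 h.symm) (fun h => j2 h.symm) (fun h => j3 h.symm)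
      (fun h => habn i k (Ne.symm k4) h.symm) (fun h => habn j k (Ne.symm k5) h.symm)
      (fun h => k1 h.symm) (fun h => k2 h.symm) (fun h => k3 h.symm)
  by_cases hMcl : ∀ v ∈ M, ∀ w ∈ M, v ≠ w → G.Adj v w
  · -- three cliques
    -- the exceptional vertices of K and of Q
    have exc : ∀ L : Finset V, (∀ v ∈ M, v ∉ L) →
        (∀ v, v ∉ L → ∀ x ∈ L, ∀ y ∈ L, G.Adj v x → G.Adj v y → x = y) →
        ∃ D : Finset V, D.card ≤ 1 ∧ ∀ x ∈ L, x ∉ D → ∀ v ∈ M, ∀ w ∈ M, G.Adj x v →
          G.Adj x w → v = w := by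
      intro L hLM hL1
      by_cases hex : ∃ x ∈ L, ∃ v ∈ M, ∃ w ∈ M, G.Adj x v ∧ G.Adj x w ∧ v ≠ w
      · obtain ⟨x, hx, v, hv, w, hw, hxv, hxw, hvw⟩ := hex
        refine ⟨{x}, by simp, ?_⟩
        intro y hy hyx v' hv' w' _ hyv' _
        exfalso
        have hyx' : y ≠ x := fun h => hyx (by rw [h]; exact mem_singleton_self _)
        -- x is complete to M
        have hxv' : G.Adj x v' := by
          by_cases h1 : v' = v
          · rw [h1]; exact hxv
          by_cases h2 : v' = w
          · rw [h2]; exact hxw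
          exact hd v w x v' (hMcl v hv w hw hvw) hxv.symm hxw.symm (hMcl v hv v' hv' (Ne.symm h1))
            (hMcl w hw v' hv' (Ne.symm h2)) (fun h => hLM v' hv' (h ▸ hx))
        exact hyx' (hL1 v' (hLM v' hv') y hy x hx hyv'.symm hxv'.symm)
      · push Not at hex
        exact ⟨∅, by simp, fun x hx _ v hv w hw h1 h2 => hex x hx v hv w hw h1 h2⟩
    obtain ⟨D1, hD1, hK2⟩ := exc K (fun v hv => ((hM v).1 hv).1) hK1
    obtain ⟨D2, hD2, hQ2⟩ := exc Q (fun v hv => ((hM v).1 hv).2) hQ1
    have hD : (D1 ∪ D2).card ≤ 2 := (card_union_le _ _).trans (by omega)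
    have main : MW G (univ \ (D1 ∪ D2)) 7 := by
      let c : V → Fin 3 := fun v => if v ∈ K then 0 else if v ∈ Q then 1 else 2
      have c0 : ∀ v, c v = 0 ↔ v ∈ K := by
        intro v
        by_cases h1 : v ∈ K <;> by_cases h2 : v ∈ Q <;> simp [c, h1, h2]
      have c1 : ∀ v, c v = 1 ↔ v ∈ Q := by
        intro v
        by_cases h1 : v ∈ K
        · have h2 : v ∉ Q := fun h => disjoint_left.1 hKQ h1 h
          simp [c, h1, h2]
        · by_cases h2 : v ∈ Q <;> simp [c, h1, h2]
      have c2 : ∀ v, c v = 2 ↔ v ∈ M := by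
        intro v
        rw [hM]
        by_cases h1 : v ∈ K <;> by_cases h2 : v ∈ Q <;> simp [c, h1, h2]
      have c3 : ∀ i : Fin 3, i = 0 ∨ i = 1 ∨ i = 2 := by decide
      refine MW.matchings3 c ?_ ?_
      · intro x _ y _ hxy hne
        rcases c3 (c x) with h | h | h
        · exact hK x ((c0 x).1 h) y ((c0 y).1 (hxy ▸ h)) hne
        · exact hQ x ((c1 x).1 h) y ((c1 y).1 (hxy ▸ h)) hne
        · exact hMcl x ((c2 x).1 h) y ((c2 y).1 (hxy ▸ h)) hne
      · intro x hx y hy y' hy' hyy hxy h1 h2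
        have hxD : x ∉ D1 ∪ D2 := (mem_sdiff.1 hx).2
        rw [mem_union, not_or] at hxD
        rcases c3 (c y) with h | h | h
        · have hxK : x ∉ K := fun h' => hxy (((c0 x).2 h').trans h.symm)
          exact hK1 x hxK y ((c0 y).1 h) y' ((c0 y').1 (hyy ▸ h)) h1 h2
        · have hxQ : x ∉ Q := fun h' => hxy (((c1 x).2 h').trans h.symm)
          exact hQ1 x hxQ y ((c1 y).1 h) y' ((c1 y').1 (hyy ▸ h)) h1 h2
        · have hyM := (c2 y).1 h
          have hyM' := (c2 y').1 (hyy ▸ h)
          rcases c3 (c x) with h' | h' | h'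
          · exact hK2 x ((c0 x).1 h') hxD.1 y hyM y' hyM' h1 h2
          · exact hQ2 x ((c1 x).1 h') hxD.2 y hyM y' hyM' h1 h2
          · exact absurd (h'.trans h.symm) hxy
    exact (MW.of_sdiff (D1 ∪ D2) hD (by norm_num) main).mono (by norm_num)
  · -- M is independent
    have hMind : ∀ v ∈ M, ∀ w ∈ M, ¬ G.Adj v w := by
      intro v hv w hw hvw
      apply hMcl
      have hall : ∀ z ∈ M, z ≠ v → G.Adj v z := by
        intro z hz hzv
        by_cases hzw : z = w
        · rw [hzw]; exact hvw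
        by_cases h1 : G.Adj z v
        · exact h1.symm
        by_cases h2 : G.Adj z w
        · exact hMb v hv w hw z hz hvw h2.symm (Ne.symm hzv)
        · exact (hMa v hv w hw z hz hvw h1 h2).elim
      intro x hx y hy hxy
      by_cases hxv : x = v
      · rw [hxv]; exact hall y hy (fun h => hxy (hxv.trans h.symm))
      by_cases hyv : y = v
      · rw [hyv]; exact (hall x hx hxv).symm
      exact hMb x hx v hv y hy (hall x hx hxv).symm (hall y hy hyv) hxy
    -- the vertices of K and Q are complete or anticomplete to M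
    have cpl : ∀ v ∈ M, ∀ w ∈ M, ∀ q ∈ K ∪ Q, G.Adj v q → G.Adj w q := by
      intro v hv w hw q hq hvq
      by_contra hwq
      obtain ⟨hvK, hvQ⟩ := (hM v).1 hv
      obtain ⟨hwK, hwQ⟩ := (hM w).1 hw
      have hvw : ¬ G.Adj w v := hMind w hw v hv
      rcases mem_union.1 hq with hq | hq
      · -- q in K
        have hqQ : q ∉ Q := fun h => disjoint_left.1 hKQ hq h
        obtain ⟨k, k1, k2, _⟩ := exists_avoid7 (fun i => a i = q) (fun i => G.Adj w (a i))
          (fun _ => False) (fun _ => False) (fun _ => False) (fun _ => False) (fun _ => False)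
          (fun i j h h' => hai (h.trans h'.symm)) (bad1 w hwK) bad0 bad0 bad0 bad0 bad0
        obtain ⟨i, i1, i2, i3, i4, _⟩ := exists_avoid7 (fun i => G.Adj v (b i))
          (fun i => G.Adj w (b i)) (fun i => G.Adj q (b i)) (fun i => i = k)
          (fun _ => False) (fun _ => False) (fun _ => False)
          (bad2 v hvQ) (bad2 w hwQ) (bad2 q hqQ) (bad3 k) bad0 bad0 bad0
        obtain ⟨j, j1, j2, j3, j4, j5, _⟩ := exists_avoid7 (fun i => G.Adj v (b i))
          (fun i => G.Adj w (b i)) (fun i => G.Adj q (b i)) (fun i => i = k)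
          (fun j => j = i) (fun _ => False) (fun _ => False)
          (bad2 v hvQ) (bad2 w hwQ) (bad2 q hqQ) (bad3 k) (bad3 i) bad0 bad0
        have hvk : ¬ G.Adj v (a k) := fun h => k1 (hK1 v hvK _ (haK k) _ hq h hvq)
        exact hp w (b i) (b j) v q (a k) (hQ _ (hbQ i) _ (hbQ j) (fun h => j5 (hbi h).symm)) hvq
          (hK _ hq _ (haK k) (Ne.symm k1)) (fun h => hvK (h ▸ haK k)) hvk
          (fun h => i1 h.symm) (fun h => i3 h.symm) (fun h => habn k i (Ne.symm i4) h.symm)
          (fun h => j1 h.symm) (fun h => j3 h.symm) (fun h => habn k j (Ne.symm j4) h.symm)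
          i2 j2 hvw hwq k2
      · -- q in Q
        have hqK : q ∉ K := fun h => disjoint_left.1 hKQ h hq
        obtain ⟨k, k1, k2, _⟩ := exists_avoid7 (fun i => b i = q) (fun i => G.Adj w (b i))
          (fun _ => False) (fun _ => False) (fun _ => False) (fun _ => False) (fun _ => False)
          (fun i j h h' => hbi (h.trans h'.symm)) (bad2 w hwQ) bad0 bad0 bad0 bad0 bad0
        obtain ⟨i, i1, i2, i3, i4, _⟩ := exists_avoid7 (fun i => G.Adj v (a i))
          (fun i => G.Adj w (a i)) (fun i => G.Adj q (a i)) (fun i => i = k)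
          (fun _ => False) (fun _ => False) (fun _ => False)
          (bad1 v hvK) (bad1 w hwK) (bad1 q hqK) (bad3 k) bad0 bad0 bad0
        obtain ⟨j, j1, j2, j3, j4, j5, _⟩ := exists_avoid7 (fun i => G.Adj v (a i))
          (fun i => G.Adj w (a i)) (fun i => G.Adj q (a i)) (fun i => i = k)
          (fun j => j = i) (fun _ => False) (fun _ => False)
          (bad1 v hvK) (bad1 w hwK) (bad1 q hqK) (bad3 k) (bad3 i) bad0 bad0
        have hvk : ¬ G.Adj v (b k) := fun h => k1 (hQ1 v hvQ _ (hbQ k) _ hq h hvq)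
        exact hp w (a i) (a j) v q (b k) (hK _ (haK i) _ (haK j) (fun h => j5 (hai h).symm)) hvq
          (hQ _ hq _ (hbQ k) (Ne.symm k1)) (fun h => hvQ (h ▸ hbQ k)) hvk
          (fun h => i1 h.symm) (fun h => i3 h.symm) (habn i k i4)
          (fun h => j1 h.symm) (fun h => j3 h.symm) (habn j k j4)
          i2 j2 hvw hwq k2
    obtain ⟨D, hDcard, hD⟩ : ∃ D : Finset V, D.card ≤ 2 ∧ (∀ q ∈ K ∪ Q, q ∉ D → ∀ x ∈ M,
        ¬ G.Adj x q) := by
      by_cases hMne : M.Nonempty
      · obtain ⟨v, hv⟩ := hMne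
        obtain ⟨hvK, hvQ⟩ := (hM v).1 hv
        refine ⟨(K ∪ Q).filter (fun q => G.Adj v q), ?_, ?_⟩
        · rw [filter_union]
          refine (card_union_le _ _).trans ?_
          have e1 : (K.filter (fun q => G.Adj v q)).card ≤ 1 := by
            rw [card_le_one]
            intro p hp' q hq'
            obtain ⟨p1, p2⟩ := mem_filter.1 hp'
            obtain ⟨q1, q2⟩ := mem_filter.1 hq'
            exact hK1 v hvK p p1 q q1 p2 q2
          have e2 : (Q.filter (fun q => G.Adj v q)).card ≤ 1 := by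
            rw [card_le_one]
            intro p hp' q hq'
            obtain ⟨p1, p2⟩ := mem_filter.1 hp'
            obtain ⟨q1, q2⟩ := mem_filter.1 hq'
            exact hQ1 v hvQ p p1 q q1 p2 q2
          omega
        · intro q hq hqD x hx hxq
          exact hqD (mem_filter.2 ⟨hq, cpl x hx v hv q hq hxq⟩)
      · refine ⟨∅, by simp, fun q _ _ x hx _ => hMne ⟨x, hx⟩⟩
    have main : MW G (univ \ D) (1 * 7) := by
      refine MW.of_blocks (by norm_num) (fun x => if x ∈ M then 1 else 0)
        (fun _ => (0 : Fin 1)) ?_ ?_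
      · have key : ∀ x ∈ univ \ D, ∀ y, (if x ∈ M then 1 else 0) < (if y ∈ M then 1 else 0) →
            ¬ G.Adj x y := by
          intro x hx y hxy
          by_cases hxM : x ∈ M
          · by_cases hyM : y ∈ M
            · simp only [if_pos hxM, if_pos hyM] at hxy
              exact absurd hxy (by norm_num)
            · simp only [if_pos hxM, if_neg hyM] at hxy
              exact absurd hxy (by norm_num)
          · by_cases hyM : y ∈ M
            · have hx' : x ∈ K ∪ Q := by
                by_contra h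
                exact hxM (mem_sdiff.2 ⟨mem_univ _, h⟩)
              exact fun h => hD x hx' (mem_sdiff.1 hx).2 y hyM h.symm
            · simp only [if_neg hxM, if_neg hyM] at hxy
              exact absurd hxy (by norm_num)
        intro x hx x' hx' y hy y' hy' _ _ hxy hxy'
        exact iff_of_false (key x hx y hxy) (key x' hx' y' hxy')
      · intro i
        by_cases hi0 : i = 0
        · subst hi0
          have b0 : ∀ x, (if x ∈ M then 1 else 0) = 0 → x ∈ K ∪ Q := by
            intro x hx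
            by_contra h
            have hxM : x ∈ M := mem_sdiff.2 ⟨mem_univ _, h⟩
            rw [if_pos hxM] at hx
            exact absurd hx (by norm_num)
          let c' : V → Fin 3 := fun v => if v ∈ K then 0 else 1
          refine MW.matchings3 c' ?_ ?_
          · intro x hx y hy hxy hne
            have hx' := b0 x (mem_filter.1 hx).2
            have hy' := b0 y (mem_filter.1 hy).2
            by_cases h1 : x ∈ K <;> by_cases h2 : y ∈ K
            · exact hK x h1 y h2 hne
            · simp [c', h1, h2] at hxy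
            · simp [c', h1, h2] at hxy
            · exact hQ x ((mem_union.1 hx').resolve_left h1) y ((mem_union.1 hy').resolve_left h2)
                hne
          · intro x hx y hy y' hy' hyy hxy h1 h2
            have hx0 := b0 x (mem_filter.1 hx).2
            have hy0 := b0 y (mem_filter.1 hy).2
            have hy0' := b0 y' (mem_filter.1 hy').2
            by_cases h3 : y ∈ K
            · have h4 : y' ∈ K := by
                by_contra h
                simp [c', h3, h] at hyy
              have h5 : x ∉ K := fun h => hxy (by simp [c', h3, h])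
              exact hK1 x h5 y h3 y' h4 h1 h2
            · have h4 : y' ∉ K := by
                intro h
                simp [c', h3, h] at hyy
              have h5 : x ∈ K := by
                by_contra h
                exact hxy (by simp [c', h3, h])
              exact hQ1 x (fun h => disjoint_left.1 hKQ h5 h) y ((mem_union.1 hy0).resolve_left h3)
                y' ((mem_union.1 hy0').resolve_left h4) h1 h2
        · refine (MW.indep (fun x hx y hy => ?_)).mono (by norm_num)
          have hM' : ∀ x ∈ (univ \ D).filter (fun x => (if x ∈ M then 1 else 0) = i), x ∈ M := by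
            intro x hx
            by_contra h
            have := (mem_filter.1 hx).2
            rw [if_neg h] at this
            exact hi0 this.symm
          exact hMind x (hM' x hx) y (hM' y hy)
    exact (MW.of_sdiff D hDcard (by norm_num) main).mono (by norm_num)

/-- prime diamond-free, `P₁ + P₂ + P₃`-free graphs with a large clique -/
theorem large_case1 {G : SimpleGraph V} (hd : DiamondFree G) (hp : P123Free G) (hpr : Prime G)
    (h : ¬ CliquesLT G c0) : MW G univ 100 := by
  classical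
  unfold CliquesLT at h
  push Not at h
  obtain ⟨K0, hK0, hc0⟩ := h
  -- a maximum clique
  obtain ⟨K, hK, hmax⟩ := exists_max_image (univ.filter (fun K : Finset V => G.IsClique (K : Set V)))
    card ⟨K0, mem_filter.2 ⟨mem_univ _, hK0⟩⟩
  have hKc : G.IsClique (K : Set V) := (mem_filter.1 hK).2
  have hKcard : c0 ≤ K.card := hc0.trans (hmax K0 (mem_filter.2 ⟨mem_univ _, hK0⟩))
  have hc : (65538 : ℕ) ≤ K.card := by
    have : c0 = 65538 := by norm_num [c0]
    omega
  have hKK : ∀ x ∈ K, ∀ y ∈ K, x ≠ y → G.Adj x y := fun x hx y hy hxy => hKc hx hy hxy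
  have hK1 : ∀ v, v ∉ K → ∀ x ∈ K, ∀ y ∈ K, G.Adj v x → G.Adj v y → x = y := by
    intro v hv x hx y hy hvx hvy
    by_contra hxy
    have hall : ∀ z ∈ K, G.Adj v z := by
      intro z hz
      by_cases hzx : z = x
      · rw [hzx]; exact hvx
      by_cases hzy : z = y
      · rw [hzy]; exact hvy
      refine hd x y v z (hKK x hx y hy hxy) hvx.symm hvy.symm (hKK x hx z hz (Ne.symm hzx))
        (hKK y hy z hz (Ne.symm hzy)) ?_
      rintro rfl; exact hv hz
    have h1 : G.IsClique ((insert v K : Finset V) : Set V) := by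
      rw [coe_insert, SimpleGraph.isClique_insert]
      exact ⟨hKc, fun z hz _ => hall z hz⟩
    have h2 := hmax (insert v K) (mem_filter.2 ⟨mem_univ _, h1⟩)
    rw [card_insert_of_notMem hv] at h2
    omega
  -- used labels
  let K' : Finset V := K.filter (fun x => ∃ v, v ∉ K ∧ G.Adj v x)
  have hun : (K.filter (fun x => ¬ ∃ v, v ∉ K ∧ G.Adj v x)).card ≤ 1 := by
    rw [card_le_one]
    intro x hx y hy
    obtain ⟨hx, hx'⟩ := mem_filter.1 hx
    obtain ⟨hy, hy'⟩ := mem_filter.1 hy
    push Not at hx' hy'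
    by_contra hxy
    have hmod : IsModule G {x, y} := by
      have key : ∀ w, w ∉ ({x, y} : Finset V) → (G.Adj x w ↔ G.Adj y w) := by
        intro w hw
        have hwx : w ≠ x := by rintro rfl; exact hw (by simp)
        have hwy : w ≠ y := by rintro rfl; exact hw (by simp)
        by_cases hwK : w ∈ K
        · exact iff_of_true (hKK x hx w hwK hwx.symm) (hKK y hy w hwK hwy.symm)
        · exact iff_of_false (fun h => hx' w hwK h.symm) (fun h => hy' w hwK h.symm)
      intro a ha b hb w hw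
      rw [mem_insert, mem_singleton] at ha hb
      rcases ha with rfl | rfl <;> rcases hb with rfl | rfl
      · rfl
      · exact key w hw
      · exact (key w hw).symm
      · rfl
    rcases hpr _ hmod with h | h
    · rw [card_pair hxy] at h; omega
    · have h1 : K.card ≤ ({x, y} : Finset V).card := card_le_card (by rw [h]; exact subset_univ _)
      rw [card_pair hxy] at h1
      omega
  have hsum := card_filter_add_card_filter_not (s := K) (fun x => ∃ v, v ∉ K ∧ G.Adj v x)
  have hK'card : 2 ^ 16 ≤ K'.card := by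
    have : (2 : ℕ) ^ 16 = 65536 := by norm_num
    have h2 : K'.card = (K.filter (fun x => ∃ v, v ∉ K ∧ G.Adj v x)).card := rfl
    omega
  have hK'K : K' ⊆ K := filter_subset _ _
  let r : V → V := fun x => if h : ∃ v, v ∉ K ∧ G.Adj v x then h.choose else x
  have hr : ∀ x ∈ K', r x ∉ K ∧ G.Adj (r x) x := by
    intro x hx
    have hex : ∃ v, v ∉ K ∧ G.Adj v x := (mem_filter.1 hx).2
    simp only [r, dif_pos hex]
    exact hex.choose_spec
  obtain ⟨J, hJ, hJ8, hcase⟩ := exists_eight (fun x y => G.Adj (r x) (r y))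
    (fun x y h => SimpleGraph.Adj.symm h) K' hK'card
  have hJK : J ⊆ K := hJ.trans hK'K
  rcases hcase with hcase | hcase
  · exact large_clique1 hd hp K hKK hK1 J hJK hJ8 r (fun x hx => (hr x (hJ hx)).1)
      (fun x hx => (hr x (hJ hx)).2) hcase
  · refine (large_indep1 hd hp K hKK hK1 J hJK hJ8 r (fun x hx => (hr x (hJ hx)).1)
      (fun x hx => (hr x (hJ hx)).2) ?_).mono (by norm_num)
    intro x hx y hy
    by_cases hxy : x = y
    · subst hxy; exact G.loopless.irrefl _
    · exact hcase x hx y hy hxy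

end Pool.Agent.Lib80.CW
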