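import Mathlib

/-!
# Module-width style decompositions

`Few G S A k` : inside the vertex set `S`, the vertices of `A` have at most `k` different
traces on `S \ A`.  `MW G S k` : the induced subgraph of `G` on `S` can be built by a binary
tree all of whose nodes have at most `k` traces.
-/

namespace Pool.Agent.Lib80.CW

open Finset

universe u

set_option linter.unusedSectionVars false
set_option linter.unusedSimpArgs false

variable {V : Type u} [DecidableEq V]

/-- the vertices of `A` have at most `k` distinct traces on `S \ A` -/
def Few (G : SimpleGraph V) (S A : Finset V) (k : ℕ) : Prop :=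
  ∃ t : V → Fin k, ∀ a ∈ A, ∀ b ∈ A, t a = t b → ∀ w ∈ S, w ∉ A → (G.Adj a w ↔ G.Adj b w)

/-- sets that can be built from single vertices by disjoint unions, all unions having few
traces -/
inductive Dec (G : SimpleGraph V) (S : Finset V) (k : ℕ) : Finset V → Prop
  | single (v : V) : Dec G S k {v}
  | union (A B : Finset V) : Dec G S k A → Dec G S k B → Disjoint A B →
      Few G S (A ∪ B) k → Dec G S k (A ∪ B)

/-- the induced subgraph on `S` has module-width at most `k` -/
def MW (G : SimpleGraph V) (S : Finset V) (k : ℕ) : Prop := S = ∅ ∨ Dec G S k S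

variable {G : SimpleGraph V} {S A B : Finset V} {k l m : ℕ}

theorem Few.mono (h : k ≤ l) (hf : Few G S A k) : Few G S A l := by
  obtain ⟨t, ht⟩ := hf
  refine ⟨fun v => Fin.castLE h (t v), fun a ha b hb hab => ht a ha b hb ?_⟩
  exact Fin.castLE_injective h hab

theorem Dec.mono (h : k ≤ l) (hf : Dec G S k A) : Dec G S l A := by
  induction hf with
  | single v => exact .single v
  | union A B _ _ hd hfew ihA ihB => exact .union A B ihA ihB hd (hfew.mono h)

theorem MW.mono (h : k ≤ l) (hf : MW G S k) : MW G S l :=
  hf.imp_right (fun h' => h'.mono h)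

theorem Dec.nonempty (hf : Dec G S k A) : A.Nonempty := by
  induction hf with
  | single v => exact ⟨v, by simp⟩
  | union A B _ _ _ _ ihA _ => exact ihA.mono subset_union_left

/-- restriction to a subset -/
theorem Few.restrict {T : Finset V} (hT : T ⊆ S) (hf : Few G S A k) : Few G T (A ∩ T) k := by
  obtain ⟨t, ht⟩ := hf
  refine ⟨t, fun a ha b hb hab w hw hwA => ?_⟩
  rw [mem_inter] at ha hb
  exact ht a ha.1 b hb.1 hab w (hT hw) (fun h => hwA (mem_inter.2 ⟨h, hw⟩))

theorem Dec.restrict {T : Finset V} (hT : T ⊆ S) (hf : Dec G S k A) :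
    A ∩ T = ∅ ∨ Dec G T k (A ∩ T) := by
  induction hf with
  | single v =>
    by_cases hv : v ∈ T
    · right
      rw [Finset.singleton_inter_of_mem hv]
      exact .single v
    · left
      exact Finset.singleton_inter_of_notMem hv
  | union A B _ _ hd hfew ihA ihB =>
    have hfew' : Few G T ((A ∪ B) ∩ T) k := hfew.restrict hT
    rw [union_inter_distrib_right] at hfew' ⊢
    rcases ihA with hA | hA
    · rcases ihB with hB | hB
      · left; rw [hA, hB]; simp
      · right; rw [hA]; simpa using hB
    · rcases ihB with hB | hB
      · right; rw [hB]; simpa using hA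
      · right
        refine .union _ _ hA hB ?_ hfew'
        exact hd.mono inter_subset_left inter_subset_left

theorem MW.subset {T : Finset V} (hT : T ⊆ S) (hf : MW G S k) : MW G T k := by
  rcases hf with hf | hf
  · left; exact subset_empty.1 (hf ▸ hT)
  · have := hf.restrict hT
    rwa [inter_eq_right.2 hT] at this

/-- complement invariance -/
theorem Few.compl (hf : Few G S A k) : Few Gᶜ S A k := by
  obtain ⟨t, ht⟩ := hf
  refine ⟨t, fun a ha b hb hab w hw hwA => ?_⟩
  have ha' : a ≠ w := fun h => hwA (h ▸ ha)
  have hb' : b ≠ w := fun h => hwA (h ▸ hb)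
  simp only [SimpleGraph.compl_adj, ha', hb', ne_eq, not_false_iff, true_and]
  rw [ht a ha b hb hab w hw hwA]

theorem Dec.compl (hf : Dec G S k A) : Dec Gᶜ S k A := by
  induction hf with
  | single v => exact .single v
  | union A B _ _ hd hfew ihA ihB => exact .union A B ihA ihB hd hfew.compl

theorem MW.compl (hf : MW G S k) : MW Gᶜ S k := hf.imp_right Dec.compl

/-- linear criterion -/
theorem MW.of_linear (pos : V → ℕ) (hpos : Set.InjOn pos S)
    (h : ∀ p, Few G S (S.filter (fun v => pos v ≤ p)) k) : MW G S k := by
  have key : ∀ p, S.filter (fun v => pos v ≤ p) = ∅ ∨ Dec G S k (S.filter (fun v => pos v ≤ p)) := by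
    intro p
    induction p with
    | zero =>
      by_cases he : S.filter (fun v => pos v ≤ 0) = ∅
      · exact Or.inl he
      · right
        obtain ⟨v, hv⟩ := nonempty_iff_ne_empty.2 he
        have : S.filter (fun v => pos v ≤ 0) = {v} := by
          ext w
          rw [mem_singleton]
          constructor
          · intro hw
            rw [mem_filter] at hw hv
            exact hpos hw.1 hv.1 (by omega)
          · rintro rfl; exact hv
        rw [this]; exact .single v
    | succ p ih =>
      by_cases hex : ∃ v ∈ S, pos v = p + 1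
      · obtain ⟨v, hvS, hv⟩ := hex
        have heq : S.filter (fun v => pos v ≤ p + 1) = S.filter (fun v => pos v ≤ p) ∪ {v} := by
          ext w
          rw [mem_union, mem_filter, mem_filter, mem_singleton]
          constructor
          · rintro ⟨hw, hw'⟩
            by_cases h' : pos w ≤ p
            · exact Or.inl ⟨hw, h'⟩
            · right; exact hpos hw hvS (by omega)
          · rintro (⟨hw, hw'⟩ | rfl)
            · exact ⟨hw, by omega⟩
            · exact ⟨hvS, by omega⟩
        right
        rcases ih with ih | ih
        · rw [heq, ih, empty_union]; exact .single v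
        · have hf := h (p + 1)
          rw [heq] at hf ⊢
          refine .union _ _ ih (.single v) ?_ hf
          rw [disjoint_singleton_right, mem_filter]
          rintro ⟨_, h'⟩; omega
      · push Not at hex
        have heq : S.filter (fun v => pos v ≤ p + 1) = S.filter (fun v => pos v ≤ p) := by
          ext w
          rw [mem_filter, mem_filter]
          constructor
          · rintro ⟨hw, hw'⟩
            have := hex w hw
            exact ⟨hw, by omega⟩
          · rintro ⟨hw, hw'⟩
            exact ⟨hw, by omega⟩
        rw [heq]; exact ih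
  have hS : S.filter (fun v => pos v ≤ S.sup pos) = S :=
    filter_true_of_mem (fun v hv => le_sup (f := pos) hv)
  have := key (S.sup pos)
  rwa [hS] at this

/-- a convenient variant: adjacency across each cut is determined by a type function -/
theorem MW.of_linear' (pos : V → ℕ) (hpos : Set.InjOn pos S)
    (h : ∀ p, ∃ t : V → Fin k, ∀ a ∈ S, ∀ b ∈ S, pos a ≤ p → pos b ≤ p → t a = t b →
      ∀ w ∈ S, p < pos w → (G.Adj a w ↔ G.Adj b w)) : MW G S k := by
  refine MW.of_linear pos hpos (fun p => ?_)
  obtain ⟨t, ht⟩ := h p
  refine ⟨t, fun a ha b hb hab w hw hwA => ?_⟩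
  rw [mem_filter] at ha hb hwA
  exact ht a ha.1 b hb.1 ha.2 hb.2 hab w hw (by by_contra h'; exact hwA ⟨hw, by omega⟩)

/-- **ordered block lemma** -/
theorem MW.of_blocks {K m : ℕ} (hm : 1 ≤ m) (β : V → ℕ) (c : V → Fin K)
    (hom : ∀ x ∈ S, ∀ x' ∈ S, ∀ y ∈ S, ∀ y' ∈ S, c x = c x' → c y = c y' → β x < β y →
      β x' < β y' → (G.Adj x y ↔ G.Adj x' y'))
    (hb : ∀ i, MW G (S.filter (fun v => β v = i)) m) : MW G S (K * m) := by
  -- few traces of subsets of a block
  have h1 : ∀ i, ∀ A ⊆ S.filter (fun v => β v = i), Few G (S.filter (fun v => β v = i)) A m →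
      Few G S A (K * m) := by
    intro i A hA hf
    obtain ⟨t, ht⟩ := hf
    refine ⟨fun v => finProdFinEquiv (c v, t v), fun a ha b hb' hab w hw hwA => ?_⟩
    have hab' := finProdFinEquiv.injective hab
    rw [Prod.mk.injEq] at hab'
    have ha2 := mem_filter.1 (hA ha)
    have hb2 := mem_filter.1 (hA hb')
    rcases lt_trichotomy (β w) i with hlt | heq | hgt
    · have := hom w hw w hw a ha2.1 b hb2.1 rfl hab'.1 (by omega) (by omega)
      rw [G.adj_comm a w, G.adj_comm b w]; exact this
    · exact ht a ha b hb' hab'.2 w (mem_filter.2 ⟨hw, heq⟩) hwA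
    · exact hom a ha2.1 b hb2.1 w hw w hw hab'.1 rfl (by omega) (by omega)
  have h2 : ∀ i, ∀ A, Dec G (S.filter (fun v => β v = i)) m A → A ⊆ S.filter (fun v => β v = i) →
      Dec G S (K * m) A := by
    intro i A hA
    induction hA with
    | single v => intro _; exact .single v
    | union A B _ _ hd hfew ihA ihB =>
      intro hAB
      exact .union A B (ihA (subset_union_left.trans hAB)) (ihB (subset_union_right.trans hAB)) hd
        (h1 i _ hAB hfew)
  have h3 : ∀ p, Few G S (S.filter (fun v => β v ≤ p)) (K * m) := by
    intro p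
    have hK : K ≤ K * m := Nat.le_mul_of_pos_right K hm
    refine Few.mono hK ⟨c, fun a ha b hb' hab w hw hwA => ?_⟩
    rw [mem_filter] at ha hb' hwA
    have hw' : p < β w := by
      by_contra h'; exact hwA ⟨hw, by omega⟩
    exact hom a ha.1 b hb'.1 w hw w hw hab rfl (by omega) (by omega)
  have key : ∀ p, S.filter (fun v => β v ≤ p) = ∅ ∨
      Dec G S (K * m) (S.filter (fun v => β v ≤ p)) := by
    intro p
    induction p with
    | zero =>
      have heq : S.filter (fun v => β v ≤ 0) = S.filter (fun v => β v = 0) := by
        ext w; simp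
      rw [heq]
      exact (hb 0).imp_right (fun h => h2 0 _ h Subset.rfl)
    | succ p ih =>
      have heq : S.filter (fun v => β v ≤ p + 1) =
          S.filter (fun v => β v ≤ p) ∪ S.filter (fun v => β v = p + 1) := by
        ext w
        simp only [mem_filter, mem_union]
        constructor
        · rintro ⟨hw, hw'⟩
          by_cases h' : β w ≤ p
          · exact Or.inl ⟨hw, h'⟩
          · exact Or.inr ⟨hw, by omega⟩
        · rintro (⟨hw, hw'⟩ | ⟨hw, hw'⟩) <;> exact ⟨hw, by omega⟩
      have hf := h3 (p + 1)
      rw [heq] at hf ⊢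
      rcases ih with ih | ih
      · rw [ih, empty_union]
        exact (hb (p + 1)).imp_right (fun h => h2 (p + 1) _ h Subset.rfl)
      · rcases hb (p + 1) with hbb | hbb
        · rw [hbb, union_empty]; exact Or.inr ih
        · right
          refine .union _ _ ih (h2 (p + 1) _ hbb Subset.rfl) ?_ hf
          rw [disjoint_left]
          intro w hw hw'
          rw [mem_filter] at hw hw'
          omega
  have hS : S.filter (fun v => β v ≤ S.sup β) = S :=
    filter_true_of_mem (fun v hv => le_sup (f := β) hv)
  have := key (S.sup β)
  rwa [hS] at this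

/-- adding one vertex -/
theorem MW.insertVertex (v : V) (hm : 1 ≤ m) (h : MW G S m) : MW G (insert v S) (3 * m) := by
  classical
  by_cases hv : v ∈ S
  · rw [insert_eq_of_mem hv]; exact h.mono (by omega)
  refine MW.of_blocks (K := 3) hm (fun w => if w = v then 1 else 0)
    (fun w => if w = v then 0 else if G.Adj w v then 1 else 2) ?_ ?_
  · intro x _ x' _ y _ y' _ hx hy hxy hxy'
    have hyv : y = v := by
      by_contra h'
      simp only [if_neg h'] at hxy; omega
    have hyv' : y' = v := by
      by_contra h'
      simp only [if_neg h'] at hxy'; omega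
    have hxv : x ≠ v := by
      rintro rfl; simp [hyv] at hxy
    have hxv' : x' ≠ v := by
      rintro rfl; simp [hyv'] at hxy'
    subst hyv
    rw [hyv']
    simp only [if_neg hxv, if_neg hxv'] at hx
    by_cases h1 : G.Adj x y <;> by_cases h2 : G.Adj x' y <;> simp [h1, h2] at hx ⊢
  · intro i
    by_cases hi : i = 1
    · subst hi
      have : (insert v S).filter (fun w => (if w = v then 1 else 0) = 1) = {v} := by
        ext w
        by_cases hw : w = v <;> simp [hw]
      rw [this]; exact Or.inr (.single v)
    · by_cases hi0 : i = 0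
      · subst hi0
        have : (insert v S).filter (fun w => (if w = v then 1 else 0) = 0) = S := by
          ext w
          by_cases hw : w = v
          · simp [hw, hv]
          · simp [hw]
        rw [this]; exact h
      · left
        ext w
        by_cases hw : w = v
        · simp [hw, Ne.symm hi]
        · simp [hw, Ne.symm hi0]

/-- deleting few vertices -/
theorem MW.of_sdiff (D : Finset V) {d : ℕ} (hD : D.card ≤ d) (hm : 1 ≤ m) (h : MW G (S \ D) m) :
    MW G S (3 ^ d * m) := by
  induction D using Finset.induction_on generalizing S d m with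
  | empty =>
    rw [sdiff_empty] at h
    exact h.mono (Nat.le_mul_of_pos_left m (by positivity))
  | insert v D hv ih =>
    rw [card_insert_of_notMem hv] at hD
    have hd : 1 ≤ d := by omega
    have h1 : MW G (insert v (S \ insert v D)) (3 * m) := h.insertVertex v hm
    have h2 : MW G (S \ D) (3 * m) := by
      refine h1.subset ?_
      intro w hw
      rw [mem_sdiff] at hw
      by_cases hwv : w = v
      · simp [hwv]
      · simp [hw.1, hw.2, hwv]
    have h3 := ih (S := S) (d := d - 1) (m := 3 * m) (by omega) (by omega) h2
    refine h3.mono ?_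
    obtain ⟨e, rfl⟩ : ∃ e, d = e + 1 := ⟨d - 1, by omega⟩
    simp only [Nat.add_sub_cancel]
    rw [pow_succ]; ring_nf; exact le_refl _

end Pool.Agent.Lib80.CW
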