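import Pool.Agent.Lib_helper80.CW.Small

/-!
# The `P₅`-free, `C₅`-free case
-/

namespace Pool.Agent.Lib80.CW

open Finset

universe u

set_option linter.unusedSectionVars false

variable {V : Type u} [DecidableEq V] [Fintype V]

/-- two vertices with the same neighbours cannot exist in a prime graph with a third vertex -/
theorem Prime.twins_false {G : SimpleGraph V} (hpr : Prime G) {x x' z : V} (hne : x ≠ x')
    (hzx : z ≠ x) (hzx' : z ≠ x') (h : ∀ w, w ≠ x → w ≠ x' → (G.Adj x w ↔ G.Adj x' w)) :
    False := by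
  have hmod : IsModule G ({x, x'} : Finset V) := by
    intro a ha b hb w hw
    simp only [mem_insert, mem_singleton, not_or] at ha hb hw
    rcases ha with rfl | rfl <;> rcases hb with rfl | rfl
    · exact Iff.rfl
    · exact h w hw.1 hw.2
    · exact (h w hw.1 hw.2).symm
    · exact Iff.rfl
  rcases hpr _ hmod with h1 | h1
  · rw [card_pair hne] at h1; omega
  · have : z ∈ ({x, x'} : Finset V) := h1 ▸ mem_univ z
    simp only [mem_insert, mem_singleton] at this
    rcases this with h2 | h2
    · exact hzx h2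
    · exact hzx' h2

/-- a set closed under adjacency with two elements is everything -/
theorem Prime.closed {G : SimpleGraph V} (hpr : Prime G) (R : V → Prop)
    (hR : ∀ a w, R a → G.Adj a w → R w) {x y : V} (hx : R x) (hy : R y) (hxy : x ≠ y) (v : V) :
    R v := by
  classical
  have hmod : IsModule G (univ.filter R) := by
    intro a ha b hb w hw
    simp only [mem_filter, mem_univ, true_and] at ha hb hw
    exact ⟨fun h => absurd (hR a w ha h) hw, fun h => absurd (hR b w hb h) hw⟩
  rcases hpr _ hmod with h1 | h1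
  · have : x = y := card_le_one.1 h1 x (by simpa using hx) y (by simpa using hy)
    exact absurd this hxy
  · have hv : v ∈ univ.filter R := by rw [h1]; exact mem_univ v
    simpa using hv

/-- triangle-free, `P₅`-free, `C₅`-free, prime -/
theorem bip_case {G : SimpleGraph V} (ht : ∀ a b c, G.Adj a b → G.Adj b c → ¬ G.Adj a c)
    (h5 : P5Free G) (hc : C5Free G) (hpr : Prime G) : MW G univ 3 := by
  classical
  by_cases hcard : Fintype.card V ≤ 2
  · refine (MW.of_card G univ).mono ?_
    rw [card_univ]; omega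
  -- no isolated vertices etc.
  have hne : Nonempty V := Fintype.card_pos_iff.1 (by omega)
  obtain ⟨v⟩ := hne
  let X : V → Prop := fun x => x = v ∨ ∃ y, G.Adj v y ∧ G.Adj y x
  have hvX : X v := Or.inl rfl
  -- v has a neighbour
  have hnb : ∃ b, G.Adj v b := by
    by_contra hno
    push Not at hno
    have hmod : IsModule G (univ.erase v) := by
      intro a _ b _ w hw
      have : w = v := by
        by_contra h'; exact hw (mem_erase.2 ⟨h', mem_univ _⟩)
      subst this
      exact ⟨fun h => absurd h.symm (hno a), fun h => absurd h.symm (hno b)⟩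
    rcases hpr _ hmod with h1 | h1
    · rw [card_erase_of_mem (mem_univ _), card_univ] at h1; omega
    · have hv : v ∈ univ.erase v := by rw [h1]; exact mem_univ v
      simp at hv
  obtain ⟨b0, hb0⟩ := hnb
  -- everything is in X or adjacent to X
  have hall : ∀ z, X z ∨ ∃ a, X a ∧ G.Adj a z := by
    intro z
    refine hpr.closed (fun z => X z ∨ ∃ a, X a ∧ G.Adj a z) ?_ (x := v) (y := b0)
      (Or.inl hvX) (Or.inr ⟨v, hvX, hb0⟩) hb0.ne z
    intro x x' hx hxx'
    by_contra hx'
    push Not at hx'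
    obtain ⟨hx'1, hx'2⟩ := hx'
    rcases hx with hx | ⟨a, ha, hax⟩
    · exact hx'2 x hx hxx'
    · rcases ha with rfl | ⟨b, hvb, hba⟩
      · exact hx'1 (Or.inr ⟨x, hax, hxx'⟩)
      · refine h5 v b a x x' hvb hba hax hxx' (ht v b a hvb hba) ?_ (hx'2 v hvX)
          (ht b a x hba hax) (fun h => hx'1 (Or.inr ⟨b, hvb, h⟩))
          (hx'2 a (Or.inr ⟨b, hvb, hba⟩))
        intro h
        exact hx'1 (Or.inr ⟨x, h, hxx'⟩)
  -- the neighbours of v are not in X
  have hN1 : ∀ y, G.Adj v y → ¬ X y := by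
    rintro y hy (rfl | ⟨b, hvb, hby⟩)
    · exact G.loopless.irrefl _ hy
    · exact ht v b y hvb hby hy
  -- X is independent
  have hXX : ∀ x x', X x → X x' → ¬ G.Adj x x' := by
    rintro x x' hx hx' hxx'
    rcases hx with rfl | ⟨y, hvy, hyx⟩
    · exact hN1 x' hxx' hx'
    rcases hx' with rfl | ⟨y', hvy', hyx'⟩
    · exact hN1 x hxx'.symm (Or.inr ⟨y, hvy, hyx⟩)
    exact hc v y x x' y' hvy hyx hxx' hyx'.symm hvy'.symm (ht v y x hvy hyx)
      (ht v y' x' hvy' hyx') (ht y x x' hyx hxx')
      (fun h => ht v y y' hvy h hvy') (fun h => ht x x' y' hxx' hyx'.symm h)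
  -- the rest is independent
  have hYY : ∀ x x', ¬ X x → ¬ X x' → ¬ G.Adj x x' := by
    intro x x' hx hx' hxx'
    have hvx : ¬ G.Adj v x := fun h => hx' (Or.inr ⟨x, h, hxx'⟩)
    have hvx' : ¬ G.Adj v x' := fun h => hx (Or.inr ⟨x', h, hxx'.symm⟩)
    obtain ⟨a, ha, hax⟩ := (hall x).resolve_left hx
    rcases ha with rfl | ⟨b, hvb, hba⟩
    · exact hvx hax
    exact h5 v b a x x' hvb hba hax hxx' (ht v b a hvb hba) hvx hvx'
      (fun h => hx (Or.inr ⟨b, hvb, h⟩)) (fun h => hx' (Or.inr ⟨b, hvb, h⟩))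
      (ht a x x' hax hxx')
  -- vertices of X with a neighbour outside N(v) are complete to N(v)
  have hcompl : ∀ x y b', X x → ¬ X y → G.Adj x y → ¬ G.Adj v y → G.Adj v b' → G.Adj x b' := by
    intro x y b' hx hy hxy hvy hvb'
    by_contra hxb'
    rcases hx with rfl | ⟨b, hvb, hbx⟩
    · exact hvy hxy
    exact h5 b' v b x y hvb'.symm hvb hbx hxy (fun h => ht v b' b hvb' h hvb)
      (fun h => hxb' h.symm) (fun h => hy (Or.inr ⟨b', hvb', h⟩))
      (ht v b x hvb hbx) hvy (fun h => hy (Or.inr ⟨b, hvb, h⟩))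
  refine (MW.chain (G := G) (S := univ) (fun z => decide (X z)) ?_ ?_).mono (by omega)
  · intro x _ y _ hxy
    by_cases hx : X x
    · by_cases hy : X y
      · exact hXX x y hx hy
      · simp [hx, hy] at hxy
    · by_cases hy : X y
      · simp [hx, hy] at hxy
      · exact hYY x y hx hy
  · intro x _ x' _ y _ y' _ hx hx' hy hy' hxy hxy'
    rw [decide_eq_true_eq] at hx hx'
    rw [decide_eq_false_iff_not] at hy hy'
    by_contra hcon
    push Not at hcon
    obtain ⟨h1, h2⟩ := hcon
    by_cases hvy : G.Adj v y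
    · by_cases hvy' : G.Adj v y'
      · exact h5 x y v y' x' hxy hvy.symm hvy' hxy'.symm (hXX x v hx hvX) h1 (hXX x x' hx hx')
          (hYY y y' hy hy') (fun h => h2 h.symm) (hXX v x' hvX hx')
      · exact h2 (hcompl x' y' y hx' hy' hxy' hvy' hvy)
    · by_cases hvy' : G.Adj v y'
      · exact h1 (hcompl x y y' hx hy hxy hvy hvy')
      · have hxb := hcompl x y b0 hx hy hxy hvy hb0
        have hxb' := hcompl x' y' b0 hx' hy' hxy' hvy' hb0
        have hb0X := hN1 b0 hb0
        exact h5 y x b0 x' y' hxy.symm hxb hxb'.symm hxy' (hYY y b0 hy hb0X) (fun h => h2 h.symm)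
          (hYY y y' hy hy') (hXX x x' hx hx') h1 (hYY b0 y' hb0X hy')

end Pool.Agent.Lib80.CW
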