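import Pool.Agent.Lib_helper80.CW.NoP5a

/-!
# The `P₅`-free, `C₅`-free case: analysis of a maximal clique
-/

namespace Pool.Agent.Lib80.CW

open Finset

universe u

set_option linter.unusedSectionVars false

variable {V : Type u} [DecidableEq V] [Fintype V]

section clique

variable {G : SimpleGraph V} {K : Finset V}

/-- rule `(*)` -/
theorem star_rule (h5 : P5Free G) (hc : C5Free G)
    (hK : ∀ x ∈ K, ∀ y ∈ K, x ≠ y → G.Adj x y)
    (hK1 : ∀ v, v ∉ K → ∀ x ∈ K, ∀ y ∈ K, G.Adj v x → G.Adj v y → x = y)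
    {a b c x y : V} (ha : a ∉ K) (hb : b ∉ K) (hx : x ∈ K) (hy : y ∈ K)
    (hxy : x ≠ y) (hax : G.Adj a x) (hby : G.Adj b y) (hab : ¬ G.Adj a b) (hcb : G.Adj c b) :
    G.Adj c x ∨ G.Adj c y := by
  by_contra hcon
  push Not at hcon
  obtain ⟨hcx, hcy⟩ := hcon
  have hay : ¬ G.Adj a y := fun h => hxy (hK1 a ha x hx y hy hax h)
  have hbx : ¬ G.Adj b x := fun h => hxy (hK1 b hb x hx y hy h hby)
  by_cases hac : G.Adj a c
  · exact hc a x y b c hax (hK x hx y hy hxy) hby.symm hcb.symm hac.symm hay hab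
      (fun h => hbx h.symm) (fun h => hcx h.symm) (fun h => hcy h.symm)
  · exact h5 a x y b c hax (hK x hx y hy hxy) hby.symm hcb.symm hay hab hac
      (fun h => hbx h.symm) (fun h => hcx h.symm) (fun h => hcy h.symm)

/-- an edge between two labels is complete to the other labels -/
theorem edge_rule (h5 : P5Free G) (hc : C5Free G)
    (hK : ∀ x ∈ K, ∀ y ∈ K, x ≠ y → G.Adj x y)
    (hK1 : ∀ v, v ∉ K → ∀ x ∈ K, ∀ y ∈ K, G.Adj v x → G.Adj v y → x = y)
    {b c y w a x : V} (hb : b ∉ K) (hcK : c ∉ K) (hy : y ∈ K) (hw : w ∈ K)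
    (hyw : y ≠ w) (hby : G.Adj b y) (hcw : G.Adj c w) (hbc : G.Adj b c)
    (ha : a ∉ K) (hx : x ∈ K) (hax : G.Adj a x) (hxy : x ≠ y) (hxw : x ≠ w) :
    G.Adj a b ∧ G.Adj a c := by
  constructor
  · by_contra hab
    rcases star_rule h5 hc hK hK1 ha hb hx hy hxy hax hby hab hbc.symm with h | h
    · exact hxw (hK1 c hcK x hx w hw h hcw)
    · exact hyw (hK1 c hcK y hy w hw h hcw)
  · by_contra hac
    rcases star_rule h5 hc hK hK1 ha hcK hx hw hxw hax hcw hac hbc with h | h
    · exact hxy (hK1 b hb x hx y hy h hby)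
    · exact hyw (hK1 b hb y hy w hw hby h)

/-- three pairwise adjacent vertices with different labels: everything is bounded -/
theorem tri_case (hd : DiamondFree G) (h5 : P5Free G) (hc : C5Free G) (hpr : Prime G)
    (hK : ∀ x ∈ K, ∀ y ∈ K, x ≠ y → G.Adj x y)
    (hK1 : ∀ v, v ∉ K → ∀ x ∈ K, ∀ y ∈ K, G.Adj v x → G.Adj v y → x = y)
    {a b c x y w : V} (ha : a ∉ K) (hb : b ∉ K) (hcK : c ∉ K)
    (hx : x ∈ K) (hy : y ∈ K) (hw : w ∈ K) (hxy : x ≠ y) (hxw : x ≠ w) (hyw : y ≠ w)
    (hax : G.Adj a x) (hby : G.Adj b y) (hcw : G.Adj c w)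
    (hab : G.Adj a b) (hac : G.Adj a c) (hbc : G.Adj b c) :
    ∀ u v, u ∉ K → v ∉ K → u ≠ v → G.Adj u v := by
  -- for every label there is an edge between two other labels
  have sub1 : ∀ s ∈ K, ∃ g h tg th, g ∉ K ∧ h ∉ K ∧ tg ∈ K ∧ th ∈ K ∧ tg ≠ th ∧ tg ≠ s ∧ th ≠ s ∧
      G.Adj g tg ∧ G.Adj h th ∧ G.Adj g h ∧ ∀ u, u ∉ K → G.Adj u s → G.Adj u g ∧ G.Adj u h := by
    intro s hs
    by_cases hsy : s = y
    · subst hsy
      exact ⟨a, c, x, w, ha, hcK, hx, hw, hxw, hxy, hyw.symm, hax, hcw, hac, fun u hu hus =>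
        edge_rule h5 hc hK hK1 ha hcK hx hw hxw hax hcw hac hu hs hus hxy.symm hyw⟩
    · by_cases hsw : s = w
      · subst hsw
        exact ⟨a, b, x, y, ha, hb, hx, hy, hxy, hxw, hyw, hax, hby, hab, fun u hu hus =>
          edge_rule h5 hc hK hK1 ha hb hx hy hxy hax hby hab hu hs hus hxw.symm hyw.symm⟩
      · exact ⟨b, c, y, w, hb, hcK, hy, hw, hyw, fun h => hsy h.symm, fun h => hsw h.symm, hby,
          hcw, hbc, fun u hu hus =>
          edge_rule h5 hc hK hK1 hb hcK hy hw hyw hby hcw hbc hu hs hus hsy hsw⟩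
  have sub2 : ∀ u s u' t, u ∉ K → s ∈ K → G.Adj u s → u' ∉ K → t ∈ K → G.Adj u' t → s ≠ t →
      G.Adj u u' := by
    intro u s u' t hu hs hus hu' ht hut hst
    by_contra hnot
    obtain ⟨g, h, tg, th, hg, hh, htg, hth, htgh, hgs, hhs, hgg, hhh, hgh, hcomp⟩ := sub1 s hs
    obtain ⟨hug, huh⟩ := hcomp u hu hus
    have hu'u : ¬ G.Adj u' u := fun h' => hnot h'.symm
    by_cases hgt : tg = t
    · have hht : th ≠ t := fun h' => htgh (hgt.trans h'.symm)
      rcases star_rule h5 hc hK hK1 hu' hu ht hs hst.symm hut hus hu'u huh.symm with h' | h'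
      · exact hht (hK1 h hh th hth t ht hhh h')
      · exact hhs (hK1 h hh th hth s hs hhh h')
    · rcases star_rule h5 hc hK hK1 hu' hu ht hs hst.symm hut hus hu'u hug.symm with h' | h'
      · exact hgt (hK1 g hg tg htg t ht hgg h')
      · exact hgs (hK1 g hg tg htg s hs hgg h')
  have sub3 : ∀ u u' s, u ∉ K → u' ∉ K → s ∈ K → G.Adj u s → G.Adj u' s → u = u' := by
    intro u u' s hu hu' hs hus hus'
    by_contra hne
    obtain ⟨g, h, tg, th, hg, hh, htg, hth, htgh, hgs, hhs, hgg, hhh, hgh, hcomp⟩ := sub1 s hs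
    obtain ⟨hug, huh⟩ := hcomp u hu hus
    obtain ⟨hug', huh'⟩ := hcomp u' hu' hus'
    have huu' : G.Adj u u' := hd g h u u' hgh hug.symm huh.symm hug'.symm huh'.symm hne
    have hsg : G.Adj s g := hd u u' s g huu' hus hus' hug hug' (fun h' => hg (h' ▸ hs))
    exact hgs (hK1 g hg tg htg s hs hgg hsg.symm)
  -- labelled vertices form a clique
  have hRR : ∀ u s u' t, u ∉ K → s ∈ K → G.Adj u s → u' ∉ K → t ∈ K → G.Adj u' t → u ≠ u' →
      G.Adj u u' := by
    intro u s u' t hu hs hus hu' ht hut hne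
    by_cases hst : s = t
    · subst hst; exact absurd (sub3 u u' s hu hu' hs hus hut) hne
    · exact sub2 u s u' t hu hs hus hu' ht hut hst
  -- a third element of K
  have hthird : ∀ s t, ∃ k ∈ K, k ≠ s ∧ k ≠ t := by
    intro s t
    by_cases h1 : x = s ∨ x = t
    · by_cases h2 : y = s ∨ y = t
      · refine ⟨w, hw, ?_, ?_⟩
        · rintro rfl
          rcases h1 with h1 | h1
          · exact hxw h1
          · rcases h2 with h2 | h2
            · exact hyw h2
            · exact hxy (h1.trans h2.symm)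
        · rintro rfl
          rcases h1 with h1 | h1
          · rcases h2 with h2 | h2
            · exact hxy (h1.trans h2.symm)
            · exact hyw h2
          · exact hxw h1
      · push Not at h2; exact ⟨y, hy, h2.1, h2.2⟩
    · push Not at h1; exact ⟨x, hx, h1.1, h1.2⟩
  -- a neighbour of a labelled vertex, unlabelled, is complete to labelled vertices
  have hZR : ∀ z r s r' s', z ∉ K → (∀ k ∈ K, ¬ G.Adj z k) → r ∉ K → s ∈ K → G.Adj r s →
      r' ∉ K → s' ∈ K → G.Adj r' s' → G.Adj z r → G.Adj z r' := by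
    intro z r s r' s' hz hzK hr hs hrs hr' hs' hrs' hzr
    by_contra hzr'
    have hne : r' ≠ r := by rintro rfl; exact hzr' hzr
    have hrr' : G.Adj r' r := hRR r' s' r s hr' hs' hrs' hr hs hrs hne
    have hss' : s ≠ s' := by
      rintro rfl; exact hne (sub3 r' r s hr' hr hs hrs' hrs)
    obtain ⟨k, hk, hks, hks'⟩ := hthird s s'
    exact h5 k s' r' r z (hK k hk s' hs' hks') hrs'.symm hrr' hzr.symm
      (fun h => hks' (hK1 r' hr' k hk s' hs' h.symm hrs'))
      (fun h => hks (hK1 r hr k hk s hs h.symm hrs))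
      (fun h => hzK k hk h.symm)
      (fun h => hss' (hK1 r hr s hs s' hs' hrs h.symm))
      (fun h => hzK s' hs' h.symm) (fun h => hzr' h.symm)
  -- everything outside K is labelled or adjacent to a labelled vertex
  have hall : ∀ v, v ∈ K ∨ (∃ s ∈ K, G.Adj v s) ∨
      ∃ r s, r ∉ K ∧ s ∈ K ∧ G.Adj r s ∧ G.Adj v r := by
    intro v
    refine hpr.closed (fun v => v ∈ K ∨ (∃ s ∈ K, G.Adj v s) ∨
      ∃ r s, r ∉ K ∧ s ∈ K ∧ G.Adj r s ∧ G.Adj v r) ?_ (x := x) (y := y) (Or.inl hx) (Or.inl hy)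
      hxy v
    intro p q hp hpq
    by_contra hq
    push Not at hq
    obtain ⟨hqK, hq1, hq2⟩ := hq
    by_cases hpK : p ∈ K
    · exact hq1 p hpK hpq.symm
    · rcases hp with hp | ⟨s, hs, hps⟩ | ⟨r, s, hr, hs, hrs, hpr'⟩
      · exact hpK hp
      · exact hq2 p s hpK hs hps hpq.symm
      · by_cases hpl : ∃ t ∈ K, G.Adj p t
        · obtain ⟨t, ht, hpt⟩ := hpl
          exact hq2 p t hpK ht hpt hpq.symm
        · push Not at hpl
          obtain ⟨k, hk, hks, _⟩ := hthird s s
          exact h5 k s r p q (hK k hk s hs hks) hrs.symm hpr'.symm hpq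
            (fun h => hks (hK1 r hr k hk s hs h.symm hrs))
            (fun h => hpl k hk h.symm) (fun h => hq1 k hk h.symm)
            (fun h => hpl s hs h.symm) (fun h => hq1 s hs h.symm)
            (fun h => hq2 r s hr hs hrs h.symm)
  intro u v hu hv huv
  -- case analysis on labels
  by_cases hul : ∃ s ∈ K, G.Adj u s
  · obtain ⟨s, hs, hus⟩ := hul
    by_cases hvl : ∃ t ∈ K, G.Adj v t
    · obtain ⟨t, ht, hvt⟩ := hvl
      exact hRR u s v t hu hs hus hv ht hvt huv
    · push Not at hvl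
      rcases hall v with h | ⟨t, ht, hvt⟩ | ⟨r, t, hr, ht, hrt, hvr⟩
      · exact absurd h hv
      · exact absurd hvt (hvl t ht)
      · exact (hZR v r t u s hv hvl hr ht hrt hu hs hus hvr).symm
  · push Not at hul
    rcases hall u with h | ⟨t, ht, hut⟩ | ⟨r, t, hr, ht, hrt, hur⟩
    · exact absurd h hu
    · exact absurd hut (hul t ht)
    · by_cases hvl : ∃ t ∈ K, G.Adj v t
      · obtain ⟨s, hs, hvs⟩ := hvl
        exact hZR u r t v s hu hul hr ht hrt hv hs hvs hur
      · push Not at hvl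
        rcases hall v with h | ⟨t', ht', hvt'⟩ | ⟨r', t', hr', ht', hrt', hvr'⟩
        · exact absurd h hv
        · exact absurd hvt' (hvl t' ht')
        · have hua := hZR u r t a x hu hul hr ht hrt ha hx hax hur
          have hub := hZR u r t b y hu hul hr ht hrt hb hy hby hur
          have hva := hZR v r' t' a x hv hvl hr' ht' hrt' ha hx hax hvr'
          have hvb := hZR v r' t' b y hv hvl hr' ht' hrt' hb hy hby hvr'
          exact hd a b u v hab hua.symm hub.symm hva.symm hvb.symm huv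

/-- analysis of a maximal clique with at least three vertices -/
theorem clique_case (hd : DiamondFree G) (h5 : P5Free G) (hc : C5Free G) (hpr : Prime G)
    {c : ℕ} (hc0 : CliquesLT G c)
    (hK : ∀ x ∈ K, ∀ y ∈ K, x ≠ y → G.Adj x y)
    (hK1 : ∀ v, v ∉ K → ∀ x ∈ K, ∀ y ∈ K, G.Adj v x → G.Adj v y → x = y)
    (hK3 : 3 ≤ K.card) :
    Fintype.card V < 2 * c ∨ (K.card = 3 ∧ ∃ x ∈ K, ∀ z, G.Adj x z → z ∈ K) := by
  classical
  have hKc : K.card < c := hc0 K (fun x hx y hy hxy => hK x hx y hy hxy)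
  have hsplit : Fintype.card V = K.card + (univ \ K).card := by
    rw [← card_univ, ← card_sdiff_add_card_eq_card (subset_univ K)]; ring
  -- twins inside K
  have htw : ∀ x ∈ K, ∀ x' ∈ K, x ≠ x' → (∀ v, v ∉ K → ¬ G.Adj v x) →
      (∀ v, v ∉ K → ¬ G.Adj v x') → False := by
    intro x hx x' hx' hne h1 h2
    obtain ⟨z, hz, hzx⟩ : ∃ z ∈ K, z ∉ ({x, x'} : Finset V) := by
      by_contra hcon
      push Not at hcon
      have := card_le_card hcon
      rw [card_pair hne] at this
      omega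
    simp only [mem_insert, mem_singleton, not_or] at hzx
    refine hpr.twins_false hne hzx.1 hzx.2 (fun w hwx hwx' => ?_)
    by_cases hw : w ∈ K
    · exact ⟨fun _ => hK x' hx' w hw (Ne.symm hwx'), fun _ => hK x hx w hw (Ne.symm hwx)⟩
    · exact ⟨fun h => absurd h.symm (h1 w hw), fun h => absurd h.symm (h2 w hw)⟩
  by_cases hI : ∃ b c' y w, b ∉ K ∧ c' ∉ K ∧ y ∈ K ∧ w ∈ K ∧ y ≠ w ∧ G.Adj b y ∧ G.Adj c' w ∧
      G.Adj b c'
  · obtain ⟨b, c', y, w, hb, hc', hy, hw, hyw, hby, hcw, hbc⟩ := hI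
    by_cases hI1 : ∃ a x, a ∉ K ∧ x ∈ K ∧ G.Adj a x ∧ x ≠ y ∧ x ≠ w
    · obtain ⟨a, x, ha, hx, hax, hxy, hxw⟩ := hI1
      obtain ⟨hab, hac⟩ := edge_rule h5 hc hK hK1 hb hc' hy hw hyw hby hcw hbc ha hx hax hxy hxw
      have hcl := tri_case hd h5 hc hpr hK hK1 ha hb hc' hx hy hw hxy hxw hyw hax hby hcw hab hac
        hbc
      left
      have : (univ \ K).card < c := by
        refine hc0 _ (fun u hu v hv huv => hcl u v ?_ ?_ huv)
        · exact (mem_sdiff.1 hu).2
        · exact (mem_sdiff.1 hv).2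
      omega
    · right
      push Not at hI1
      have hnone : ∀ x ∈ K, x ≠ y → x ≠ w → ∀ v, v ∉ K → ¬ G.Adj v x := by
        intro x hx hxy hxw v hv hvx
        exact hxw (hI1 v x hv hx hvx hxy)
      obtain ⟨x, hx, hxn⟩ : ∃ x ∈ K, x ∉ ({y, w} : Finset V) := by
        by_contra hcon
        push Not at hcon
        have := card_le_card hcon
        rw [card_pair hyw] at this
        omega
      simp only [mem_insert, mem_singleton, not_or] at hxn
      have hKeq : K = {x, y, w} := by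
        ext z
        simp only [mem_insert, mem_singleton]
        constructor
        · intro hz
          by_contra hcon
          push Not at hcon
          exact htw x hx z hz hcon.1.symm (hnone x hx hxn.1 hxn.2) (hnone z hz hcon.2.1 hcon.2.2)
        · rintro (rfl | rfl | rfl)
          · exact hx
          · exact hy
          · exact hw
      refine ⟨?_, x, hx, ?_⟩
      · rw [hKeq]
        exact card_eq_three.2 ⟨x, y, w, hxn.1, hxn.2, hyw, rfl⟩
      · intro z hxz
        by_contra hz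
        exact hnone x hx hxn.1 hxn.2 z hz hxz.symm
  · left
    push Not at hI
    by_cases hII : ∃ b z y, b ∉ K ∧ z ∉ K ∧ y ∈ K ∧ G.Adj b y ∧ (∀ k ∈ K, ¬ G.Adj z k) ∧ G.Adj b z
    · exfalso
      obtain ⟨b, z, y, hb, hz, hy, hby, hzK, hbz⟩ := hII
      have honly : ∀ a x, a ∉ K → x ∈ K → G.Adj a x → x = y := by
        intro a x ha hx hax
        by_contra hxy
        have hab : ¬ G.Adj a b := fun h => hI a b x y ha hb hx hy hxy hax hby h
        rcases star_rule h5 hc hK hK1 ha hb hx hy hxy hax hby hab hbz.symm with h | h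
        · exact hzK x hx h
        · exact hzK y hy h
      have h2 : 1 < (K.erase y).card := by
        rw [card_erase_of_mem hy]; omega
      obtain ⟨x1, hx1, x2, hx2, hne⟩ := one_lt_card.1 h2
      rw [mem_erase] at hx1 hx2
      exact htw x1 hx1.2 x2 hx2.2 hne (fun v hv hvx => hx1.1 (honly v x1 hv hx1.2 hvx))
        (fun v hv hvx => hx2.1 (honly v x2 hv hx2.2 hvx))
    · push Not at hII
      obtain ⟨x0, hx0, x1, hx1, hx01⟩ := one_lt_card.1 (show 1 < K.card by omega)
      have hall : ∀ v, v ∈ K ∨ ∃ s ∈ K, G.Adj v s := by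
        intro v
        refine hpr.closed (fun v => v ∈ K ∨ ∃ s ∈ K, G.Adj v s) ?_ (x := x0) (y := x1)
          (Or.inl hx0) (Or.inl hx1) hx01 v
        intro p q hp hpq
        by_contra hq
        push Not at hq
        by_cases hpK : p ∈ K
        · exact hq.2 p hpK hpq.symm
        · obtain ⟨s, hs, hps⟩ := hp.resolve_left hpK
          exact hII p q s hpK hq.1 hs hps hq.2 hpq
      have hinj : ∀ u v s, u ∉ K → v ∉ K → s ∈ K → G.Adj u s → G.Adj v s → u = v := by
        intro u v s hu hv hs hus hvs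
        have hmod : IsModule G (univ.filter (fun a => a ∉ K ∧ G.Adj a s)) := by
          intro a ha b hb w hw
          simp only [mem_filter, mem_univ, true_and] at ha hb hw
          by_cases hwK : w ∈ K
          · by_cases hws : w = s
            · subst hws; exact ⟨fun _ => hb.2, fun _ => ha.2⟩
            · exact ⟨fun h => absurd (hK1 a ha.1 w hwK s hs h ha.2) hws,
                fun h => absurd (hK1 b hb.1 w hwK s hs h hb.2) hws⟩
          · have hws : ¬ G.Adj w s := fun h => hw ⟨hwK, h⟩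
            obtain ⟨t, ht, hwt⟩ := (hall w).resolve_left hwK
            have hst : s ≠ t := by rintro rfl; exact hws hwt
            exact ⟨fun h => absurd h (hI a w s t ha.1 hwK hs ht hst ha.2 hwt),
              fun h => absurd h (hI b w s t hb.1 hwK hs ht hst hb.2 hwt)⟩
        rcases hpr _ hmod with h1 | h1
        · exact card_le_one.1 h1 u (by simp [hu, hus]) v (by simp [hv, hvs])
        · exfalso
          have : s ∈ univ.filter (fun a => a ∉ K ∧ G.Adj a s) := by rw [h1]; exact mem_univ s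
          simp only [mem_filter, mem_univ, true_and] at this
          exact this.1 hs
      have hle : (univ \ K).card ≤ K.card := by
        refine card_le_card_of_forall_subsingleton (fun v s => G.Adj v s) ?_ ?_
        · intro v hv
          exact (hall v).resolve_left (mem_sdiff.1 hv).2
        · intro s hs u hu v hv
          simp only [mem_sdiff, mem_univ, true_and, Set.mem_ofPred_eq] at hu hv
          exact hinj u v s hu.1 hv.1 hs hu.2 hv.2
      omega

end clique

end Pool.Agent.Lib80.CW
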