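import Pool.Agent.Lib_helper80.CW.NoP5b

/-!
# The `P₅`-free, `C₅`-free case: every triangle has a vertex of degree two
-/

namespace Pool.Agent.Lib80.CW

open Finset

universe u

set_option linter.unusedSectionVars false

variable {V : Type u} [DecidableEq V] [Fintype V]

/-- `x` has exactly the two neighbours `y`, `w`, and they are adjacent -/
def D2 (G : SimpleGraph V) (x y w : V) : Prop :=
  G.Adj y w ∧ ∀ z, G.Adj x z ↔ z = y ∨ z = w

/-- vertices of degree two in a triangle -/
def InS (G : SimpleGraph V) (x : V) : Prop := ∃ y w, D2 G x y w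

/-- every triangle contains a vertex of degree two -/
def Tri2 (G : SimpleGraph V) : Prop :=
  ∀ a b c, G.Adj a b → G.Adj b c → G.Adj a c → D2 G a b c ∨ D2 G b a c ∨ D2 G c a b

variable {G : SimpleGraph V}

theorem D2.symm {x y w : V} (h : D2 G x y w) : D2 G x w y :=
  ⟨h.1.symm, fun z => (h.2 z).trans or_comm⟩

theorem D2.adj1 {x y w : V} (h : D2 G x y w) : G.Adj x y := (h.2 y).2 (Or.inl rfl)

theorem D2.adj2 {x y w : V} (h : D2 G x y w) : G.Adj x w := (h.2 w).2 (Or.inr rfl)

/-- the `P₄` rule -/
theorem p4_rule (h5 : P5Free G) {x y w b c d : V} (hD : D2 G x y w) (hyb : G.Adj y b)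
    (hbc : G.Adj b c) (hcd : G.Adj c d) (hyc : ¬ G.Adj y c) (hyd : ¬ G.Adj y d)
    (hbd : ¬ G.Adj b d) (hbw : b ≠ w) : False := by
  refine h5 x y b c d hD.adj1 hyb hbc hcd ?_ ?_ ?_ hyc hyd hbd
  · intro h
    rcases (hD.2 b).1 h with rfl | rfl
    · exact G.loopless.irrefl _ hyb
    · exact hbw rfl
  · intro h
    rcases (hD.2 c).1 h with rfl | rfl
    · exact hyd hcd
    · exact hyc hD.1
  · intro h
    rcases (hD.2 d).1 h with rfl | rfl
    · exact hbd hyb.symm
    · exact hyd hD.1

theorem twins_of_D2 (hpr : Prime G) {x x' y w : V} (hD : D2 G x y w) (hD' : D2 G x' y w) :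
    x = x' := by
  by_contra hne
  refine hpr.twins_false (z := y) hne hD.adj1.ne' hD'.adj1.ne' (fun z _ _ => ?_)
  rw [hD.2 z, hD'.2 z]

/-- neighbours of a vertex in `S` are not in `S` -/
theorem nbr_not_S (hpr : Prime G) {x y w : V} (hD : D2 G x y w) : ¬ InS G y := by
  rintro ⟨p, q, hpq, hN⟩
  have hxw : x ≠ w := hD.adj2.ne
  have hyw : y ≠ w := hD.1.ne
  have h1 := (hN x).1 hD.adj1.symm
  have h2 := (hN w).1 hD.1
  have hN' : ∀ z, G.Adj y z ↔ z = x ∨ z = w := by
    intro z
    rw [hN z]
    rcases h1 with rfl | rfl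
    · rcases h2 with rfl | rfl
      · exact absurd rfl hxw
      · exact Iff.rfl
    · rcases h2 with rfl | rfl
      · exact or_comm
      · exact absurd rfl hxw
  refine hpr.twins_false (z := w) hD.adj1.ne hD.adj2.ne' hyw.symm (fun z hzx hzy => ?_)
  rw [hD.2 z, hN' z]
  constructor
  · rintro (h | h)
    · exact absurd h hzy
    · exact Or.inr h
  · rintro (h | h)
    · exact absurd h hzx
    · exact Or.inr h

theorem nbr_not_S' (hpr : Prime G) {x y w : V} (hD : D2 G x y w) : ¬ InS G w :=
  nbr_not_S hpr hD.symm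

/-- no triangle outside `S` -/
theorem no_tri (ht : Tri2 G) {a b c : V} (hab : G.Adj a b) (hbc : G.Adj b c) (hac : G.Adj a c)
    (ha : ¬ InS G a) (hb : ¬ InS G b) (hc : ¬ InS G c) : False := by
  rcases ht a b c hab hbc hac with h | h | h
  · exact ha ⟨_, _, h⟩
  · exact hb ⟨_, _, h⟩
  · exact hc ⟨_, _, h⟩

/-- everything is within distance two of `{y, w}` -/
theorem claimA (h5 : P5Free G) (hpr : Prime G) {x y w : V} (hD : D2 G x y w) (v : V) :
    (v = y ∨ v = w ∨ G.Adj y v ∨ G.Adj w v) ∨ ∃ u, (G.Adj y u ∨ G.Adj w u) ∧ G.Adj u v := by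
  refine hpr.closed (fun v => (v = y ∨ v = w ∨ G.Adj y v ∨ G.Adj w v) ∨
    ∃ u, (G.Adj y u ∨ G.Adj w u) ∧ G.Adj u v) ?_ (x := y) (y := w) (Or.inl (Or.inl rfl))
    (Or.inl (Or.inr (Or.inl rfl))) hD.1.ne v
  intro a z ha haz
  rcases ha with (rfl | rfl | h | h) | ⟨u, hu, hua⟩
  · exact Or.inl (Or.inr (Or.inr (Or.inl haz)))
  · exact Or.inl (Or.inr (Or.inr (Or.inr haz)))
  · exact Or.inr ⟨a, Or.inl h, haz⟩
  · exact Or.inr ⟨a, Or.inr h, haz⟩
  · by_contra hz
    push Not at hz
    obtain ⟨⟨hzy, hzw, hyz, hwz⟩, hz2⟩ := hz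
    have hya : ¬ G.Adj y a := fun h => hz2 a (Or.inl h) haz
    have hwa : ¬ G.Adj w a := fun h => hz2 a (Or.inr h) haz
    have huz : ¬ G.Adj u z := hz2 u hu
    rcases hu with hu | hu
    · exact p4_rule h5 hD hu hua haz hya hyz huz (by rintro rfl; exact hwa hua)
    · exact p4_rule h5 hD.symm hu hua haz hwa hwz huz (by rintro rfl; exact hya hua)

theorem claimB_aux (h5 : P5Free G) (hc : C5Free G) (hpr : Prime G) (ht : Tri2 G) {x y w u v : V}
    (hD : D2 G x y w) (hyu : G.Adj y u) (huv : G.Adj u v) (hvy : v ≠ y) (hvw : v ≠ w)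
    (hyv : ¬ G.Adj y v) (hwv : ¬ G.Adj w v) (hvS : ¬ InS G v) : False := by
  have huw : u ≠ w := by rintro rfl; exact hwv huv
  have hux : u ≠ x := by
    rintro rfl
    rcases (hD.2 v).1 huv with h | h
    · exact hvy h
    · exact hvw h
  have hxw : x ≠ w := hD.adj2.ne
  have hxy : x ≠ y := hD.adj1.ne
  have hyw : y ≠ w := hD.1.ne
  have hwu : ¬ G.Adj w u := by
    intro hwu
    rcases ht y w u hD.1 hwu hyu with h | h | h
    · rcases (h.2 x).1 hD.adj1.symm with h' | h'
      · exact hxw h'
      · exact hux h'.symm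
    · rcases (h.2 x).1 hD.adj2.symm with h' | h'
      · exact hxy h'
      · exact hux h'.symm
    · rcases (h.2 v).1 huv with h' | h'
      · exact hvy h'
      · exact hvw h'
  have key : ∀ b, G.Adj w b → b ≠ x → b ≠ y → ¬ InS G b → False := by
    intro b hwb hbx hby hbS
    have hyb : ¬ G.Adj y b := by
      intro hyb
      rcases ht y w b hD.1 hwb hyb with h | h | h
      · rcases (h.2 x).1 hD.adj1.symm with h' | h'
        · exact hxw h'
        · exact hbx h'.symm
      · rcases (h.2 x).1 hD.adj2.symm with h' | h'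
        · exact hxy h'
        · exact hbx h'.symm
      · exact hbS ⟨_, _, h⟩
    by_cases hbu : G.Adj b u
    · have hbv : ¬ G.Adj b v := by
        intro hbv
        rcases ht b u v hbu huv hbv with h | h | h
        · rcases (h.2 w).1 hwb.symm with h' | h'
          · exact huw h'.symm
          · exact hvw h'.symm
        · rcases (h.2 y).1 hyu.symm with h' | h'
          · exact hby h'.symm
          · exact hvy h'.symm
        · exact hvS ⟨_, _, h⟩
      exact p4_rule h5 hD.symm hwb hbu huv hwu hwv hbv hby
    · by_cases hbv : G.Adj b v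
      · exact hc b v u y w hbv huv.symm hyu.symm hD.1 hwb hbu (fun h => hyb h.symm)
          (fun h => hyv h.symm) (fun h => hwv h.symm) (fun h => hwu h.symm)
      · exact h5 b w y u v hwb.symm hD.1.symm hyu huv (fun h => hyb h.symm) hbu hbv hwu hwv hyv
  have hN : ∀ b, G.Adj w b → b = x ∨ b = y := by
    intro b hwb
    by_contra hcon
    push Not at hcon
    obtain ⟨hbx, hby⟩ := hcon
    by_cases hbS : InS G b
    · -- b has neighbours w and g
      have hg : ∃ g, D2 G b w g := by
        obtain ⟨p, q, h⟩ := hbS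
        rcases (h.2 w).1 hwb.symm with h' | h'
        · subst h'; exact ⟨q, h⟩
        · subst h'; exact ⟨p, h.symm⟩
      obtain ⟨g, hg⟩ := hg
      have hgS : ¬ InS G g := nbr_not_S' hpr hg
      have hgx : g ≠ x := by
        rintro rfl; exact hgS ⟨_, _, hD⟩
      by_cases hgy : g = y
      · subst hgy
        exact hbx (twins_of_D2 hpr hg.symm hD)
      · exact key g hg.1 hgx hgy hgS
    · exact key b hwb hbx hby hbS
  exact nbr_not_S' hpr hD ⟨x, y, hD.adj1, fun z => ⟨hN z, by
    rintro (rfl | rfl)
    · exact hD.adj2.symm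
    · exact hD.1.symm⟩⟩

/-- vertices outside `S` are adjacent to `y` or `w` -/
theorem claimB (h5 : P5Free G) (hc : C5Free G) (hpr : Prime G) (ht : Tri2 G) {x y w v : V}
    (hD : D2 G x y w) (hvS : ¬ InS G v) : G.Adj y v ∨ G.Adj w v := by
  by_contra hcon
  push Not at hcon
  obtain ⟨hyv, hwv⟩ := hcon
  have hvy : v ≠ y := by rintro rfl; exact hwv hD.1.symm
  have hvw : v ≠ w := by rintro rfl; exact hyv hD.1
  rcases claimA h5 hpr hD v with (h | h | h | h) | ⟨u, hu | hu, huv⟩
  · exact hvy h
  · exact hvw h
  · exact hyv h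
  · exact hwv h
  · exact claimB_aux h5 hc hpr ht hD hu huv hvy hvw hyv hwv hvS
  · exact claimB_aux h5 hc hpr ht hD.symm hu huv hvw hvy hwv hyv hvS

/-- the graph outside `S` is a chain graph -/
theorem claimC (h5 : P5Free G) (hc : C5Free G) (hpr : Prime G) (ht : Tri2 G) {x y w : V}
    (hD : D2 G x y w) (T : Finset V) (hT : ∀ v ∈ T, ¬ InS G v) : MW G T 2 := by
  classical
  have hyS := nbr_not_S hpr hD
  have hwS := nbr_not_S' hpr hD
  have hww : ∀ a b, ¬ InS G a → ¬ InS G b → G.Adj w a → G.Adj w b → ¬ G.Adj a b :=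
    fun a b ha hb hwa hwb hab => no_tri ht hwa hab hwb hwS ha hb
  have hyy : ∀ a b, ¬ InS G a → ¬ InS G b → G.Adj y a → G.Adj y b → ¬ G.Adj a b :=
    fun a b ha hb hya hyb hab => no_tri ht hya hab hyb hyS ha hb
  refine MW.chain (G := G) (fun v => decide (G.Adj w v)) ?_ ?_
  · intro a ha b hb hab
    by_cases h1 : G.Adj w a
    · by_cases h2 : G.Adj w b
      · exact hww a b (hT a ha) (hT b hb) h1 h2
      · simp [h1, h2] at hab
    · by_cases h2 : G.Adj w b
      · simp [h1, h2] at hab
      · have h1' := (claimB h5 hc hpr ht hD (hT a ha)).resolve_right h1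
        have h2' := (claimB h5 hc hpr ht hD (hT b hb)).resolve_right h2
        exact hyy a b (hT a ha) (hT b hb) h1' h2'
  · intro x1 hx1 x2 hx2 y1 hy1 y2 hy2 hc1 hc2 hc3 hc4 h11 h22
    rw [decide_eq_true_eq] at hc1 hc2
    rw [decide_eq_false_iff_not] at hc3 hc4
    have e1 := (claimB h5 hc hpr ht hD (hT y1 hy1)).resolve_right hc3
    have e2 := (claimB h5 hc hpr ht hD (hT y2 hy2)).resolve_right hc4
    have f1 : ¬ G.Adj y x1 := fun h =>
      no_tri ht hD.1 hc1 h hyS hwS (hT x1 hx1)
    have f2 : ¬ G.Adj y x2 := fun h =>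
      no_tri ht hD.1 hc2 h hyS hwS (hT x2 hx2)
    by_contra hcon
    push Not at hcon
    exact h5 x1 y1 y y2 x2 h11 e1.symm e2 h22.symm (fun h => f1 h.symm) hcon.1
      (hww x1 x2 (hT x1 hx1) (hT x2 hx2) hc1 hc2) (hyy y1 y2 (hT y1 hy1) (hT y2 hy2) e1 e2)
      (fun h => hcon.2 h.symm) f2

/-- two vertices of `S` : if `y' ≠ y` then only `w`, `w'` are adjacent to `y` outside `S` -/
theorem claimD (h5 : P5Free G) (hc : C5Free G) (hpr : Prime G) (ht : Tri2 G) {x y w x' y' w' : V}
    (hD : D2 G x y w) (hD' : D2 G x' y' w') (hwy' : G.Adj w y') (hyw' : G.Adj y w')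
    (hne : y' ≠ y) {p : V} (hp : ¬ InS G p) (hyp : G.Adj y p) : p = w ∨ p = w' := by
  have hyS := nbr_not_S hpr hD
  have hwS := nbr_not_S' hpr hD
  have hy'S := nbr_not_S hpr hD'
  have hw'S := nbr_not_S' hpr hD'
  by_contra hcon
  push Not at hcon
  obtain ⟨hpw, hpw'⟩ := hcon
  have hyy' : ¬ G.Adj y y' := fun h => no_tri ht hD.1 hwy' h hyS hwS hy'S
  have hy'p : G.Adj y' p := by
    rcases claimB h5 hc hpr ht hD' hp with h | h
    · exact h
    · exact (no_tri ht hyw' h hyp hyS hw'S hp).elim
  refine p4_rule h5 hD hyp hy'p.symm hD'.adj1.symm hyy' ?_ ?_ hpw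
  · intro h
    rcases (hD'.2 y).1 h.symm with h' | h'
    · exact hne h'.symm
    · subst h'; exact G.loopless.irrefl _ hyw'
  · intro h
    rcases (hD'.2 p).1 h.symm with h' | h'
    · subst h'; exact hyy' hyp
    · exact hpw' h'

/-- the case `w' = w`, `y' ≠ y` is impossible -/
theorem claimE (h5 : P5Free G) (hc : C5Free G) (hpr : Prime G) (ht : Tri2 G) {x y w x' y' : V}
    (hD : D2 G x y w) (hD' : D2 G x' y' w) (hne : y' ≠ y) : False := by
  have hyS := nbr_not_S hpr hD
  have hwS := nbr_not_S' hpr hD
  -- all vertices other than w are adjacent to w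
  have hout : ∀ v, ¬ InS G v → v ≠ w → G.Adj w v := by
    intro v hv hvw
    rcases claimB h5 hc hpr ht hD hv with h | h
    · rcases claimD h5 hc hpr ht hD hD' hD'.1.symm hD.1 hne hv h with h' | h'
      · exact absurd h' hvw
      · exact absurd h' hvw
    · exact h
  have hall : ∀ v, v ≠ w → G.Adj w v := by
    intro v hvw
    by_cases hv : InS G v
    · obtain ⟨p, q, hpq⟩ := hv
      have hpS := nbr_not_S hpr hpq
      have hqS := nbr_not_S' hpr hpq
      by_cases hpw : p = w
      · subst hpw; exact hpq.adj1.symm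
      · by_cases hqw : q = w
        · subst hqw; exact hpq.adj2.symm
        · exact (no_tri ht (hout p hpS hpw) hpq.1 (hout q hqS hqw) hwS hpS hqS).elim
    · exact hout v hv hvw
  have hmod : IsModule G (univ.erase w) := by
    intro a ha b hb z hz
    have hzw : z = w := by
      by_contra h; exact hz (mem_erase.2 ⟨h, mem_univ _⟩)
    subst hzw
    exact ⟨fun _ => (hall b (mem_erase.1 hb).1).symm, fun _ => (hall a (mem_erase.1 ha).1).symm⟩
  rcases hpr _ hmod with h1 | h1
  · exact hD.adj1.ne (card_le_one.1 h1 x (mem_erase.2 ⟨hD.adj2.ne, mem_univ _⟩) y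
      (mem_erase.2 ⟨hD.1.ne, mem_univ _⟩))
  · have hv : w ∈ univ.erase w := by rw [h1]; exact mem_univ w
    simp at hv

/-- diamond-free, `P₅`-free, `C₅`-free, prime, bounded cliques -/
theorem noP5_noC5_case' {G : SimpleGraph V} (hd : DiamondFree G) (h5 : P5Free G) (hc : C5Free G)
    (hpr : Prime G) {c : ℕ} (hc0 : CliquesLT G c) : MW G univ (2 * c + 100) := by
  classical
  by_cases hcard : Fintype.card V < 2 * c
  · refine (MW.of_card G univ).mono ?_
    rw [card_univ]; omega
  by_cases htf : ∀ a b c, G.Adj a b → G.Adj b c → ¬ G.Adj a c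
  · exact (bip_case htf h5 hc hpr).mono (by omega)
  push Not at htf
  -- every triangle has a vertex of degree two
  have ht : Tri2 G := by
    intro a b d hab hbd had
    -- extend to a maximal clique
    obtain ⟨K, hKm, hKmax⟩ := (univ.filter (fun K : Finset V => ({a, b, d} : Finset V) ⊆ K ∧
      ∀ x ∈ K, ∀ y ∈ K, x ≠ y → G.Adj x y)).exists_max_image card ⟨{a, b, d}, by
        simp only [mem_filter, mem_univ, true_and, Subset.rfl]
        intro x hx y hy hxy
        simp only [mem_insert, mem_singleton] at hx hy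
        rcases hx with rfl | rfl | rfl <;> rcases hy with rfl | rfl | rfl
        · exact absurd rfl hxy
        · exact hab
        · exact had
        · exact hab.symm
        · exact absurd rfl hxy
        · exact hbd
        · exact had.symm
        · exact hbd.symm
        · exact absurd rfl hxy⟩
    simp only [mem_filter, mem_univ, true_and] at hKm hKmax
    obtain ⟨hsub, hK⟩ := hKm
    have hc3 : ({a, b, d} : Finset V).card = 3 :=
      card_eq_three.2 ⟨a, b, d, hab.ne, had.ne, hbd.ne, rfl⟩
    have hK3 : 3 ≤ K.card := by rw [← hc3]; exact card_le_card hsub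
    have hK1 : ∀ v, v ∉ K → ∀ x ∈ K, ∀ y ∈ K, G.Adj v x → G.Adj v y → x = y := by
      intro v hv x hx y hy hvx hvy
      by_contra hxy
      have hcomp : ∀ z ∈ K, G.Adj v z := by
        intro z hz
        by_cases hzx : z = x
        · subst hzx; exact hvx
        · by_cases hzy : z = y
          · subst hzy; exact hvy
          · exact hd x y v z (hK x hx y hy hxy) hvx.symm hvy.symm (hK x hx z hz (Ne.symm hzx))
              (hK y hy z hz (Ne.symm hzy)) (fun h => hv (h ▸ hz))
      have hle := hKmax (insert v K) ⟨hsub.trans (subset_insert _ _), ?_⟩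
      · rw [card_insert_of_notMem hv] at hle; omega
      · intro p hp q hq hpq
        rw [mem_insert] at hp hq
        rcases hp with rfl | hp <;> rcases hq with rfl | hq
        · exact absurd rfl hpq
        · exact hcomp q hq
        · exact (hcomp p hp).symm
        · exact hK p hp q hq hpq
    rcases clique_case hd h5 hc hpr hc0 hK hK1 hK3 with h | ⟨h3, x, hx, hN⟩
    · exact absurd h hcard
    · have hKeq : ({a, b, d} : Finset V) = K := eq_of_subset_of_card_le hsub (by omega)
      rw [← hKeq] at hx hN
      simp only [mem_insert, mem_singleton] at hx hN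
      rcases hx with rfl | rfl | rfl
      · left
        refine ⟨hbd, fun z => ⟨fun h => ?_, ?_⟩⟩
        · exact (hN z h).resolve_left h.ne'
        · rintro (rfl | rfl)
          · exact hab
          · exact had
      · right; left
        refine ⟨had, fun z => ⟨fun h => ?_, ?_⟩⟩
        · rcases hN z h with h' | h' | h'
          · exact Or.inl h'
          · exact absurd h' h.ne'
          · exact Or.inr h'
        · rintro (rfl | rfl)
          · exact hab.symm
          · exact hbd
      · right; right
        refine ⟨hab, fun z => ⟨fun h => ?_, ?_⟩⟩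
        · rcases hN z h with h' | h' | h'
          · exact Or.inl h'
          · exact Or.inr h'
          · exact absurd h' h.ne'
        · rintro (rfl | rfl)
          · exact had.symm
          · exact hbd.symm
  obtain ⟨a, b, d, hab, hbd, had⟩ := htf
  have hx : ∃ x, InS G x := by
    rcases ht a b d hab hbd had with h | h | h
    · exact ⟨_, _, _, h⟩
    · exact ⟨_, _, _, h⟩
    · exact ⟨_, _, _, h⟩
  obtain ⟨x, y, w, hD⟩ := hx
  have hyS := nbr_not_S hpr hD
  have hwS := nbr_not_S' hpr hD
  by_cases hone : ∀ x', InS G x' → x' = x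
  · have h1 : MW G (univ \ {x}) 2 := by
      refine claimC h5 hc hpr ht hD _ (fun v hv hvS => ?_)
      rw [mem_sdiff, mem_singleton] at hv
      exact hv.2 (hone v hvS)
    exact (MW.of_sdiff {x} (d := 1) (by simp) (by omega) h1).mono (by omega)
  · push Not at hone
    obtain ⟨x', ⟨y', w', hD'⟩, hxx'⟩ := hone
    -- orient
    have hor : ∃ y' w', D2 G x' y' w' ∧ G.Adj w y' ∧ G.Adj y w' := by
      have hy'S := nbr_not_S hpr hD'
      have hw'S := nbr_not_S' hpr hD'
      rcases claimB h5 hc hpr ht hD hy'S with h1 | h1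
      · rcases claimB h5 hc hpr ht hD hw'S with h2 | h2
        · exact (no_tri ht h1 hD'.1 h2 hyS hy'S hw'S).elim
        · exact ⟨w', y', hD'.symm, h2, h1⟩
      · rcases claimB h5 hc hpr ht hD hw'S with h2 | h2
        · exact ⟨y', w', hD', h1, h2⟩
        · exact (no_tri ht h1 hD'.1 h2 hwS hy'S hw'S).elim
    obtain ⟨y', w', hD', hwy', hyw'⟩ := hor
    by_cases hy : y' = y
    · by_cases hw : w' = w
      · subst hy; subst hw
        exact absurd (twins_of_D2 hpr hD' hD) hxx'
      · subst hy
        exact (claimE h5 hc hpr ht hD.symm hD'.symm hw).elim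
    · by_cases hw : w' = w
      · subst hw
        exact (claimE h5 hc hpr ht hD hD' hy).elim
      · -- few vertices
        have hQ : ∀ v, ¬ InS G v → v ∈ ({y, w, y', w'} : Finset V) := by
          intro v hv
          simp only [mem_insert, mem_singleton]
          rcases claimB h5 hc hpr ht hD hv with h | h
          · rcases claimD h5 hc hpr ht hD hD' hwy' hyw' hy hv h with h' | h'
            · exact Or.inr (Or.inl h')
            · exact Or.inr (Or.inr (Or.inr h'))
          · rcases claimD h5 hc hpr ht hD.symm hD'.symm hyw' hwy' hw hv h with h' | h'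
            · exact Or.inl h'
            · exact Or.inr (Or.inr (Or.inl h'))
        have hc4 : ({y, w, y', w'} : Finset V).card ≤ 4 := card_le_four
        have hS : (univ.filter (fun v => InS G v)).card ≤ 16 := by
          have h1 : (univ.filter (fun v => InS G v)).card ≤
              (({y, w, y', w'} : Finset V).powerset).card := by
            refine card_le_card_of_injOn (fun v => univ.filter (fun z => G.Adj v z)) ?_ ?_
            · intro v hv
              simp only [coe_filter, mem_univ, true_and, Set.mem_ofPred_eq] at hv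
              simp only [mem_coe, mem_powerset]
              intro z hz
              simp only [mem_filter, mem_univ, true_and] at hz
              obtain ⟨p, q, hpq⟩ := hv
              apply hQ
              rcases (hpq.2 z).1 hz with h | h
              · subst h; exact nbr_not_S hpr hpq
              · subst h; exact nbr_not_S' hpr hpq
            · intro u hu v hv huv
              simp only [coe_filter, mem_univ, true_and, Set.mem_ofPred_eq] at hu hv
              obtain ⟨p, q, hpq⟩ := hu
              have hv' : D2 G v p q := by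
                refine ⟨hpq.1, fun z => ?_⟩
                have : z ∈ univ.filter (fun z => G.Adj u z) ↔
                    z ∈ univ.filter (fun z => G.Adj v z) := by
                  have := huv
                  simp only at this
                  rw [this]
                simp only [mem_filter, mem_univ, true_and] at this
                rw [← this]; exact hpq.2 z
              exact twins_of_D2 hpr hpq hv'
          rw [card_powerset] at h1
          exact h1.trans (by
            calc 2 ^ ({y, w, y', w'} : Finset V).card ≤ 2 ^ 4 :=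
                  Nat.pow_le_pow_right (by norm_num) hc4
              _ = 16 := by norm_num)
        have hcard' : (univ : Finset V).card ≤ 20 := by
          have hsub : (univ : Finset V) ⊆ (univ.filter (fun v => InS G v)) ∪ {y, w, y', w'} := by
            intro v _
            rw [mem_union]
            by_cases hv : InS G v
            · exact Or.inl (by simpa using hv)
            · exact Or.inr (hQ v hv)
          exact (card_le_card hsub).trans ((card_union_le _ _).trans (by omega))
        exact (MW.of_card G univ).mono (by omega)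

end Pool.Agent.Lib80.CW
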