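import Pool.Agent.Lib_helper80.CW.Small

/-!
# Pairs of classes that become homogeneous after deleting one vertex
-/

namespace Pool.Agent.Lib80.CW

open Finset

universe u

set_option linter.unusedSectionVars false

/-- exactly two or three of four Booleans -/
def bad (a b c d : Bool) : Bool := !(a && b && c && d) &&
  ((a && b) || (a && c) || (a && d) || (b && c) || (b && d) || (c && d))

variable {V : Type u} [DecidableEq V] {G : SimpleGraph V}

open Classical in
theorem pair_hom (A B : V → Prop)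
    (h : ∀ s s' t t', A s → A s' → B t → B t' → s ≠ s' → t ≠ t' →
      bad (decide (G.Adj s t)) (decide (G.Adj s t')) (decide (G.Adj s' t)) (decide (G.Adj s' t'))
        = false) :
    ∃ D : Finset V, D.card ≤ 1 ∧ ((∀ v w, v ∉ D → w ∉ D → A v → B w → ¬ G.Adj v w) ∨
      ((∀ v w, A v → B w → G.Adj v w) ∧ ∃ s s' t t', A s ∧ A s' ∧ B t ∧ B t' ∧ s ≠ s' ∧ t ≠ t')) := by
  -- full rectangles
  have hrect : ∀ s s' t t', A s → A s' → B t → B t' → s ≠ s' → t ≠ t' →
      ((G.Adj s t ∧ G.Adj s t') ∨ (G.Adj s t ∧ G.Adj s' t) ∨ (G.Adj s t ∧ G.Adj s' t')) →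
      G.Adj s t ∧ G.Adj s t' ∧ G.Adj s' t ∧ G.Adj s' t' := by
    intro s s' t t' h1 h2 h3 h4 h5 h6 hh
    have := h s s' t t' h1 h2 h3 h4 h5 h6
    by_cases e1 : G.Adj s t <;> by_cases e2 : G.Adj s t' <;> by_cases e3 : G.Adj s' t <;>
      by_cases e4 : G.Adj s' t' <;> simp_all [bad]
  by_cases hA : ∃ s s', A s ∧ A s' ∧ s ≠ s'
  · by_cases hB : ∃ t t', B t ∧ B t' ∧ t ≠ t'
    · obtain ⟨s0, s1, hs0, hs1, hs⟩ := hA
      obtain ⟨t0, t1, ht0, ht1, ht⟩ := hB
      by_cases hfull : ∃ s s' t t', A s ∧ A s' ∧ B t ∧ B t' ∧ s ≠ s' ∧ t ≠ t' ∧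
          (G.Adj s t ∧ G.Adj s t' ∧ G.Adj s' t ∧ G.Adj s' t')
      · obtain ⟨s, s', t, t', hAs, hAs', hBt, hBt', hss, htt, e1, e2, e3, e4⟩ := hfull
        refine ⟨∅, by simp, Or.inr ⟨?_, s, s', t, t', hAs, hAs', hBt, hBt', hss, htt⟩⟩
        -- every a is adjacent to t and t'
        have h1 : ∀ a, A a → G.Adj a t ∧ G.Adj a t' := by
          intro a ha
          by_cases has : a = s
          · subst has; exact ⟨e1, e2⟩
          · have := hrect s a t t' hAs ha hBt hBt' (fun h' => has h'.symm) htt (Or.inl ⟨e1, e2⟩)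
            exact ⟨this.2.2.1, this.2.2.2⟩
        intro a b ha hb
        by_cases hbt : b = t
        · subst hbt; exact (h1 a ha).1
        · -- another element of A
          obtain ⟨a', ha', hne⟩ : ∃ a', A a' ∧ a ≠ a' := by
            by_cases has : a = s
            · exact ⟨s', hAs', by rw [has]; exact hss⟩
            · exact ⟨s, hAs, has⟩
          have := hrect a a' t b ha ha' hBt hb hne (fun h' => hbt h'.symm)
            (Or.inr (Or.inl ⟨(h1 a ha).1, (h1 a' ha').1⟩))
          exact this.2.1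
      · push Not at hfull
        by_cases hedge : ∃ s t, A s ∧ B t ∧ G.Adj s t
        · obtain ⟨s, t, hAs, hBt, hst⟩ := hedge
          refine ⟨{s}, by simp, Or.inl ?_⟩
          intro v w hv hw hAv hBw hvw
          have hvs : s ≠ v := fun h' => hv (by simp [h'])
          by_cases hwt : t = w
          · subst hwt
            obtain ⟨t', hBt', hne⟩ : ∃ t', B t' ∧ t ≠ t' := by
              by_cases h0 : t = t0
              · exact ⟨t1, ht1, by rw [h0]; exact ht⟩
              · exact ⟨t0, ht0, h0⟩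
            have := hrect s v t t' hAs hAv hBt hBt' hvs hne (Or.inr (Or.inl ⟨hst, hvw⟩))
            exact hfull s v t t' hAs hAv hBt hBt' hvs hne this.1 this.2.1 this.2.2.1 this.2.2.2
          · have := hrect s v t w hAs hAv hBt hBw hvs hwt (Or.inr (Or.inr ⟨hst, hvw⟩))
            exact hfull s v t w hAs hAv hBt hBw hvs hwt this.1 this.2.1 this.2.2.1 this.2.2.2
        · refine ⟨∅, by simp, Or.inl ?_⟩
          intro v w _ _ hAv hBw hvw
          exact hedge ⟨v, w, hAv, hBw, hvw⟩
    · push Not at hB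
      by_cases hex : ∃ t, B t
      · obtain ⟨t, hBt⟩ := hex
        refine ⟨{t}, by simp, Or.inl ?_⟩
        intro v w hv hw hAv hBw _
        exact hw (by rw [hB w t hBw hBt]; simp)
      · exact ⟨∅, by simp, Or.inl (fun v w _ _ _ hBw _ => hex ⟨w, hBw⟩)⟩
  · push Not at hA
    by_cases hex : ∃ s, A s
    · obtain ⟨s, hAs⟩ := hex
      refine ⟨{s}, by simp, Or.inl ?_⟩
      intro v w hv hw hAv hBw _
      exact hv (by rw [hA v s hAv hAs]; simp)
    · exact ⟨∅, by simp, Or.inl (fun v w _ _ hAv _ _ => hex ⟨v, hAv⟩)⟩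

end Pool.Agent.Lib80.CW
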