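import Pool.Agent.Lib_helper80.CW.CheckK
import Pool.Agent.Lib_helper80.CW.PairHom
import Pool.Agent.Lib_helper80.CW.Block
import Pool.Agent.Lib_helper80.CW.C6

/-!
# `C₆`-free graphs containing an induced `P₅`: the finite checks
-/

namespace Pool.Agent.Lib80.CW

open Finset

universe u

set_option linter.unusedSectionVars false
set_option maxRecDepth 100000

/-- the path on five vertices -/
def FP5 : Pat := fun i j => i + 1 == j || j + 1 == i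

namespace P5F

/-- codes of the classes that survive -/
def IC : List ℕ := [1, 2, 4, 8, 16, 5, 9, 10, 18, 20, 21]
/-- classes attached to one vertex (clusters) -/
def W5 : List ℕ := [1, 2, 4, 8, 16]
/-- independent classes -/
def I2 : List ℕ := [5, 9, 10, 18, 20, 21]
/-- clique classes -/
def CL : List ℕ := [3, 6, 12, 24]
/-- singletons -/
def SG : List ℕ := [11, 19, 13, 25, 22, 26, 27]
/-- pairs of classes which are homogeneous after deleting one vertex -/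
def nonN : List (ℕ × ℕ) :=
  [(1, 2), (1, 4), (1, 8), (1, 16), (1, 5), (1, 9), (1, 18), (1, 21), (2, 4), (2, 16), (2, 5), (2,
  10), (2, 18), (4, 8), (4, 16), (4, 5), (4, 9), (4, 10), (4, 18), (4, 20), (4, 21), (8, 16), (8,
  9), (8, 10), (8, 20), (16, 18), (16, 20), (16, 21), (5, 9), (5, 20), (5, 21), (9, 16), (9, 10),
  (9, 18), (9, 21), (10, 18), (10, 21), (18, 20), (18, 21), (20, 21)]
/-- such pairs without full rectangles -/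
def ety : List (ℕ × ℕ) :=
  [(1, 8), (1, 5), (1, 9), (1, 21), (2, 4), (2, 16), (2, 10), (2, 18), (4, 8), (4, 5), (4, 20),
  (4, 21), (8, 9), (8, 10), (16, 18), (16, 20), (16, 21), (5, 9), (5, 20), (5, 21), (9, 10), (9,
  21), (10, 18), (18, 20), (18, 21), (20, 21)]
/-- chain pairs -/
def NN : List (ℕ × ℕ) :=
  [(1, 10), (1, 20), (2, 8), (2, 9), (2, 20), (2, 21), (5, 8), (5, 10), (5, 16), (5, 18), (8, 2),
  (8, 5), (8, 18), (8, 21), (9, 2), (9, 20), (10, 1), (10, 5), (10, 16), (10, 20), (16, 5), (16,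
  10), (18, 5), (18, 8), (20, 1), (20, 2), (20, 9), (20, 10), (21, 2), (21, 8)]

def L1 : List Emb :=
  [.dia 1 5 0 2, .dia 3 5 2 4, .dia 2 5 1 3, .p15 5 0 1 2 3 4, .c6 0 1 2 3 4 5]

theorem chk1 : ∀ T, T < 32 → T ∈ IC ++ CL ++ SG ∨
    found true (5 + 1) (pat 5 FP5 (tl [T]) (El [])) L1 = true := by
  decide

def L2 : List Emb :=
  [.dia 5 6 0 2, .dia 5 6 0 3, .dia 5 6 1 3, .dia 5 6 1 4, .dia 5 6 2 4]

theorem chk2 : ∀ T ∈ I2, found true (5 + 2) (pat 5 FP5 (tl [T, T]) (El [true])) L2 = true := by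
  decide

def L3 : List Emb :=
  [.dia 0 1 5 6, .dia 1 2 5 6, .dia 2 3 5 6, .dia 3 4 5 6]

theorem chk3 : ∀ T ∈ CL, found true (5 + 2) (pat 5 FP5 (tl [T, T]) (El [false])) L3 = true := by
  decide

def L4 : List Emb :=
  [.dia 5 6 0 3, .dia 0 1 5 6, .dia 5 6 1 4, .dia 3 4 5 6, .dia 2 3 5 6, .dia 1 2 5 6]

theorem chk4 : ∀ T ∈ SG, ∀ b : Bool,
    found true (5 + 2) (pat 5 FP5 (tl [T, T]) (El [b])) L4 = true := by
  decide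

def L5 : List Emb :=
  [.p15 4 6 5 9 8 7, .p15 2 6 5 9 7 8, .p15 8 1 2 9 5 6, .p15 7 2 1 9 5 6, .p15 7 3 4 9 5 6, .p15
  8 4 3 9 5 6, .dia 7 8 2 9, .p15 3 6 5 9 7 8, .p15 1 6 5 9 8 7, .dia 7 8 0 9, .dia 7 8 1 9, .dia
  7 8 3 9, .dia 7 8 4 9, .p15 8 0 1 9 5 6, .p15 7 2 3 9 5 6, .p15 8 1 0 9 5 6, .p15 7 3 2 9 5 6,
  .p15 0 8 2 5 9 4, .p15 6 0 1 9 8 7, .p15 9 6 1 2 3 4, .p15 4 7 2 5 9 0, .p15 9 0 1 2 3 7]

theorem chk5 : ∀ i, i < 5 → ∀ T ∈ IC ++ CL ++ SG, T.testBit i = true ∨ (i = 2 ∧ T = 27) ∨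
    ∀ b1 b2 : Bool,
    found true (5 + 5) (pat 5 FP5 (tl [2 ^ i, 2 ^ i, 2 ^ i, 2 ^ i, T])
      (El [true, false, false, false, false, true, true, false, b1, b2])) L5 = true := by
  decide

def L6 : List Emb :=
  [.p15 9 6 5 11 7 8, .dia 9 10 2 11, .p15 6 8 7 11 9 10]

theorem chk6 : ∀ b1 b2 : Bool,
    found true (5 + 7) (pat 5 FP5 (tl [4, 4, 4, 4, 4, 4, 27])
      (El [true, false, false, false, false, true, false, false, false, false,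
        false, false, false, false, true, true, false, true, false, b1, b2])) L6 = true := by
  decide

def L7 : List Emb :=
  [.dia 0 5 7 8, .dia 0 6 7 8, .dia 4 5 7 8, .dia 4 6 7 8, .dia 2 7 5 6, .dia 2 8 5 6, .p15 2 6 0
  5 7 4, .p15 2 8 4 7 6 0, .p15 0 2 3 4 7 5, .p15 6 4 3 2 7 5, .p15 5 4 3 2 7 6, .p15 5 2 3 4 7 6,
  .dia 3 5 7 8, .dia 3 6 7 8, .p15 1 6 7 4 8 5, .p15 1 5 7 4 8 6, .dia 1 8 5 6, .p15 0 6 2 3 4 8,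
  .dia 1 7 5 6, .p15 4 2 1 0 5 7, .p15 7 2 1 0 5 8, .p15 2 5 0 6 8 4, .p15 4 0 1 2 5 7, .p15 0 5 2
  3 4 7, .dia 0 7 5 6, .dia 0 8 5 6, .dia 4 7 5 6, .dia 4 8 5 6, .dia 2 5 7 8, .dia 2 6 7 8, .p15
  6 3 2 1 8 5, .p15 5 8 1 2 3 4, .p15 1 6 7 3 8 5, .p15 3 6 7 0 8 5, .p15 3 5 7 0 8 6, .p15 6 1 0
  7 3 4, .p15 6 0 1 7 3 4, .c6 0 1 6 3 4 7, .dia 3 7 5 6, .dia 3 8 5 6, .p15 6 4 3 2 8 5, .p15 5 4
  3 2 8 6, .p15 2 7 4 8 5 0, .p15 4 0 1 2 6 8, .p15 0 7 4 8 6 2, .p15 4 8 0 1 2 5, .p15 5 0 1 8 3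
  4, .p15 4 6 7 1 8 5, .p15 7 0 1 2 3 6, .p15 8 0 1 2 3 5, .p15 6 0 1 2 7 5, .p15 5 0 1 2 8 4, .c6
  0 1 5 3 4 8, .dia 1 5 7 8, .dia 1 6 7 8, .p15 6 7 1 2 3 4, .p15 5 1 2 3 8 6, .p15 0 8 4 7 5 2,
  .p15 4 5 7 1 8 6, .p15 6 0 1 2 8 5, .p15 5 0 1 2 7 4, .c6 0 1 5 3 4 7, .p15 5 3 2 1 7 6, .p15 4
  6 0 1 2 8, .p15 4 7 2 8 6 0, .p15 0 4 3 2 7 5, .p15 0 4 3 2 8 5, .p15 0 2 3 4 8 5, .p15 5 4 3 2
  8 0, .p15 6 4 3 2 7 0, .p15 0 6 7 3 8 5, .p15 0 5 7 3 8 6, .p15 4 8 0 7 6 2, .p15 4 5 2 6 7 0,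
  .p15 6 0 1 8 3 4, .p15 5 0 1 7 3 4, .p15 8 1 2 3 6 7, .p15 7 1 2 3 5 8, .p15 5 2 1 0 7 6, .p15 5
  2 1 0 8 6, .p15 5 3 2 1 8 6, .p15 1 5 7 3 8 6, .p15 0 6 7 4 8 5, .p15 2 5 7 4 8 6, .c6 0 1 6 3 4
  8, .p15 3 8 5 1 6 7, .p15 0 5 7 2 8 6]

theorem chk7 : ∀ q ∈ nonN, ∀ b0 b1 b2 b3 : Bool, bad b0 b1 b2 b3 = true →
    found true (5 + 4) (pat 5 FP5 (tl [q.1, q.1, q.2, q.2])
      (El [false, b0, b2, b1, b3, false])) L7 = true := by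
  decide

def L8 : List Emb :=
  [.dia 0 6 7 8, .dia 4 8 5 6, .dia 2 7 5 6, .dia 1 7 5 6, .dia 3 6 7 8, .p15 4 2 1 0 5 7, .p15 0
  4 3 2 7 5, .p15 0 2 3 4 7 5, .p15 4 0 1 2 6 8]

theorem chk8 : ∀ q ∈ ety,
    found true (5 + 4) (pat 5 FP5 (tl [q.1, q.1, q.2, q.2])
      (El [false, true, true, true, true, false])) L8 = true := by
  decide

def L9 : List Emb :=
  [.p15 4 5 7 1 8 6, .c6 0 5 7 4 8 6, .p15 0 5 7 3 8 6, .p15 4 5 7 0 8 6, .c6 1 5 7 4 8 6, .c6 0 7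
  5 4 6 8, .p15 1 5 7 3 8 6, .p15 3 5 7 1 8 6, .p15 2 5 7 4 8 6, .p15 1 7 5 3 6 8]

theorem chk9 : ∀ q ∈ NN,
    found true (5 + 4) (pat 5 FP5 (tl [q.1, q.1, q.2, q.2])
      (El [false, true, false, false, true, false])) L9 = true := by
  decide

/-- the blocks -/
def blk : ℕ → List ℕ
  | 1 => [16, 5, 10]
  | 2 => [1, 10, 20]
  | 3 => [9, 2, 20]
  | 4 => [2, 8, 21]
  | 5 => [8, 5, 18]
  | _ => []

def L10 : List Emb :=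
  [.p15 5 7 3 2 6 0, .p15 5 6 3 2 7 0, .p15 6 7 3 2 5 0, .p15 7 6 3 2 5 0, .p15 6 5 3 2 7 0, .p15
  7 5 3 2 6 0, .p15 5 6 1 2 7 4, .p15 5 7 1 2 6 4, .p15 6 5 1 2 7 4, .p15 7 5 1 2 6 4, .p15 6 7 1
  2 5 4, .p15 7 6 1 2 5 4]

theorem chk10 : ∀ i, i < 6 → ∀ a ∈ blk i, ∀ b ∈ blk i, ∀ c ∈ blk i, a ≠ b → b ≠ c → a ≠ c →
    found true (5 + 3) (pat 5 FP5 (tl [a, b, c]) (El [false, false, false])) L10 = true := by
  decide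

/-- frame index of a split class -/
def idx : ℕ → ℕ
  | 10 => 2
  | 20 => 3
  | 2 => 0
  | 8 => 4
  | 5 => 1
  | _ => 0
/-- classes in the left block -/
def Lb : ℕ → List ℕ
  | 10 => [16, 5]
  | 20 => [1, 10]
  | 2 => [9, 20]
  | 8 => [2, 21]
  | 5 => [8, 18]
  | _ => []
/-- classes in the right block -/
def Rb : ℕ → List ℕ
  | 10 => [1, 20]
  | 20 => [9, 2]
  | 2 => [8, 21]
  | 8 => [5, 18]
  | 5 => [16, 10]
  | _ => []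
/-- split classes -/
def SP : List ℕ := [10, 20, 2, 8, 5]

def L11 : List Emb :=
  [.p15 7 1 2 3 4 6, .p15 0 7 2 3 5 6, .c6 0 6 2 3 5 7, .p15 5 0 6 2 7 4, .c6 0 6 5 2 3 7, .p15 6
  7 1 2 3 4, .p15 7 6 1 2 5 4, .p15 0 6 3 2 5 7, .p15 4 6 0 1 5 7, .p15 6 5 1 2 7 4, .p15 7 0 1 2
  6 4, .c6 0 1 5 6 4 7, .p15 6 4 3 2 7 0, .c6 1 6 5 3 4 7, .c6 0 6 4 3 5 7, .p15 7 5 3 2 6 0, .p15
  7 0 1 2 3 6, .p15 4 7 1 2 5 6, .c6 1 2 5 7 4 6, .p15 6 7 3 2 5 0]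

theorem chk11 : ∀ S ∈ SP, ∀ T ∈ Lb S, ∀ U ∈ Rb S,
    found true (5 + 3) (pat 5 FP5 (tl [S, T, U])
      (El [!(T.testBit (idx S)), !(U.testBit (idx S)), false])) L11 = true := by
  decide

def L12 : List Emb :=
  [.dia 7 8 5 6, .dia 5 7 8 10, .dia 5 8 7 9, .dia 5 7 8 9, .dia 6 9 8 10, .dia 6 10 7 9, .p15 4 8
  5 1 6 9, .p15 0 8 5 3 6 9, .p15 0 5 7 4 9 6, .p15 0 8 5 4 6 9, .c6 0 8 5 4 6 9, .c6 0 7 5 4 6 9,
  .p15 3 8 5 1 6 9, .c6 0 8 5 3 6 9, .p15 4 5 8 2 10 6, .p15 1 5 8 4 9 6, .p15 4 8 5 0 6 9, .c6 2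
  5 8 4 10 6]

/-- the exceptional triples -/
def ft : List (ℕ × ℕ × ℕ) := [(10, 16, 1), (20, 1, 2), (2, 20, 8), (8, 2, 5), (5, 8, 16)]

theorem chkft : ∀ S ∈ SP, ∀ T ∈ Lb S, ∀ U ∈ Rb S, (T, U) ∈ ety ∨ (U, T) ∈ ety ∨ (S, T, U) ∈ ft := by
  decide

def L13 : List Emb :=
  [.p15 5 6 0 1 2 3, .p15 5 6 1 2 3 4, .p15 6 0 1 2 5 4, .p15 5 4 3 2 6 0, .p15 6 0 1 2 3 5]

theorem chkF5 : ∀ q ∈ ft, found true (5 + 2) (pat 5 FP5 (tl [q.2.1, q.2.2]) (El [false])) L13 = true := by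
  decide

theorem chkft3 : ∀ q ∈ ft, ∀ q' ∈ ft, q.1 = q'.1 → q = q' := by
  decide

theorem chkSP : ∀ S ∈ SP, ∀ T ∈ Lb S, ∀ U ∈ Rb S, S ≠ T ∧ S ≠ U ∧ T ≠ U := by
  decide

theorem chkne : (∀ q ∈ nonN, q.1 ≠ q.2 ∧ q.1 ∈ IC ∧ q.2 ∈ IC) ∧ (∀ q ∈ NN, q.1 ≠ q.2 ∧ q.1 ∈ IC ∧ q.2 ∈ IC ∧
    (q.2, q.1) ∈ NN) ∧ (∀ q ∈ ety, q ∈ nonN) := by
  decide

theorem chkIC : ∀ T ∈ IC, T ∈ I2 ∨ ∃ i < 5, T = 2 ^ i := by
  decide

theorem chkft2 : ∀ q ∈ ft, q.2.1.testBit (idx q.1) = false ∧ q.2.2.testBit (idx q.1) = false := by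
  decide

theorem chk12A : ∀ q ∈ ft, found true (5 + 4) (pat 5 FP5 (tl [q.1, q.1, q.2.1, q.2.2])
      (El [false, true, true, true, true, true])) L12 = true := by
  decide

theorem chk12B : ∀ q ∈ ft, ∀ b0 b1 : Bool,
    found true (5 + 5) (pat 5 FP5 (tl [q.1, q.1, q.2.1, q.2.2, q.2.2])
      (El [false, true, true, true, b1, true, b0, true, true, false])) L12 = true := by
  decide

theorem chk12C : ∀ q ∈ ft, ∀ b0 b1 : Bool,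
    found true (5 + 5) (pat 5 FP5 (tl [q.1, q.1, q.2.2, q.2.1, q.2.1])
      (El [false, true, true, true, b1, true, b0, true, true, false])) L12 = true := by
  decide

theorem chk12D : ∀ q ∈ ft, ∀ b0 b1 b2 b3 : Bool,
    found true (5 + 6) (pat 5 FP5 (tl [q.1, q.1, q.2.1, q.2.2, q.2.1, q.2.2])
      (El [false, true, b2, true, b3, true, b0, true, false, true, b1, true, true, false, true])) L12
      = true := by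
  decide

/-- block of a class (flag: left evidence) -/
def bl : ℕ → Bool → ℕ
  | 16, _ => 1
  | 1, _ => 2
  | 9, _ => 3
  | 21, _ => 4
  | 18, _ => 5
  | 4, _ => 6
  | 10, b => bif b then 1 else 2
  | 20, b => bif b then 2 else 3
  | 2, b => bif b then 3 else 4
  | 8, b => bif b then 4 else 5
  | 5, b => bif b then 5 else 1
  | _, _ => 7

theorem chk13 : ∀ q ∈ NN, ∀ la lb : Bool, bl q.1 la = bl q.2 lb ∨
    q.2 ∈ (bif la then Rb q.1 else Lb q.1) ∨ q.1 ∈ (bif lb then Rb q.2 else Lb q.2) := by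
  decide

theorem chk14 : ∀ A ∈ IC, ∀ la : Bool, (bl A la = 6 ∧ A = 4) ∨ (bl A la < 6 ∧ A ∈ blk (bl A la)) := by
  decide

theorem chk15 : ∀ A ∈ IC, ∀ B ∈ IC, A = B ∨ (A, B) ∈ nonN ∨ (B, A) ∈ nonN ∨ (A, B) ∈ NN := by
  decide

end P5F

end Pool.Agent.Lib80.CW
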