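import Pool.Agent.Lib_helper80.CW.Defs

/-!
# Small building blocks: cliques, independent sets, clusters, chain graphs
-/

namespace Pool.Agent.Lib80.CW

open Finset

universe u

set_option linter.unusedSectionVars false

variable {V : Type u} [DecidableEq V] {G : SimpleGraph V} {S : Finset V}

theorem exists_injOn_nat (S : Finset V) : ∃ f : V → ℕ, Set.InjOn f S := by
  classical
  refine ⟨fun v => if h : v ∈ S then (S.equivFin ⟨v, h⟩ : ℕ) else 0, fun a ha b hb hab => ?_⟩
  have ha' : a ∈ S := ha
  have hb' : b ∈ S := hb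
  simp only [dif_pos ha', dif_pos hb'] at hab
  have := S.equivFin.injective (Fin.ext hab)
  exact congrArg Subtype.val this

/-- constant adjacency -/
theorem MW.const (P : Prop) (h : ∀ a ∈ S, ∀ b ∈ S, a ≠ b → (G.Adj a b ↔ P)) : MW G S 1 := by
  obtain ⟨f, hf⟩ := exists_injOn_nat S
  refine MW.of_linear' f hf (fun p => ⟨fun _ => 0, fun a ha b hb hpa hpb _ w hw hpw => ?_⟩)
  rw [h a ha w hw (by rintro rfl; omega), h b hb w hw (by rintro rfl; omega)]

theorem MW.clique (h : ∀ a ∈ S, ∀ b ∈ S, a ≠ b → G.Adj a b) : MW G S 1 :=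
  MW.const True (fun a ha b hb hab => ⟨fun _ => trivial, fun _ => h a ha b hb hab⟩)

theorem MW.indep (h : ∀ a ∈ S, ∀ b ∈ S, ¬ G.Adj a b) : MW G S 1 :=
  MW.const False (fun a ha b hb _ => ⟨fun h' => h a ha b hb h', fun h' => h'.elim⟩)

theorem MW.of_card (G : SimpleGraph V) (S : Finset V) : MW G S (S.card + 1) := by
  classical
  obtain ⟨f, hf⟩ := exists_injOn_nat S
  refine MW.of_linear' f hf (fun p => ?_)
  refine ⟨fun v => if h : v ∈ S then Fin.castSucc (S.equivFin ⟨v, h⟩) else Fin.last _, ?_⟩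
  intro a ha b hb _ _ hab w _ _
  simp only [dif_pos ha, dif_pos hb] at hab
  have := S.equivFin.injective (Fin.castSucc_injective _ hab)
  rw [Subtype.mk.injEq] at this
  rw [this]

/-- disjoint union of cliques -/
theorem MW.cluster (h : ∀ a ∈ S, ∀ b ∈ S, ∀ c ∈ S, G.Adj a b → G.Adj b c → a ≠ c → G.Adj a c) :
    MW G S 1 := by
  classical
  obtain ⟨f, hf⟩ := exists_injOn_nat S
  -- closed neighbourhoods
  let N : V → Finset V := fun v => S.filter (fun w => w = v ∨ G.Adj w v)
  let β : V → ℕ := fun v => if hv : (N v).Nonempty then ((N v).image f).min' (hv.image f) else 0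
  have hself : ∀ v ∈ S, v ∈ N v := fun v hv => mem_filter.2 ⟨hv, Or.inl rfl⟩
  have hNeq : ∀ v ∈ S, ∀ w ∈ S, (v = w ∨ G.Adj v w) → N v = N w := by
    have hsub : ∀ v ∈ S, ∀ w ∈ S, (v = w ∨ G.Adj v w) → N v ⊆ N w := by
      rintro v hv w hw (rfl | hvw)
      · exact Subset.rfl
      · intro x hx
        rw [mem_filter] at hx ⊢
        refine ⟨hx.1, ?_⟩
        rcases hx.2 with rfl | hxv
        · exact Or.inr hvw
        · by_cases hxw : x = w
          · exact Or.inl hxw
          · exact Or.inr (h x hx.1 v hv w hw hxv hvw hxw)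
    intro v hv w hw hvw
    exact Subset.antisymm (hsub v hv w hw hvw)
      (hsub w hw v hv (hvw.imp Eq.symm (fun h' => h'.symm)))
  have hβ1 : ∀ v ∈ S, ∀ w ∈ S, G.Adj v w → β v = β w := by
    intro v hv w hw hvw
    have := hNeq v hv w hw (Or.inr hvw)
    simp only [β, this]
  have hβ2 : ∀ v ∈ S, ∀ w ∈ S, β v = β w → v ≠ w → G.Adj v w := by
    intro v hv w hw hvw hne
    have hv' : (N v).Nonempty := ⟨v, hself v hv⟩
    have hw' : (N w).Nonempty := ⟨w, hself w hw⟩
    simp only [β, dif_pos hv', dif_pos hw'] at hvw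
    have h1 := ((N v).image f).min'_mem (hv'.image f)
    have h2 := ((N w).image f).min'_mem (hw'.image f)
    rw [mem_image] at h1 h2
    obtain ⟨x, hx, hfx⟩ := h1
    obtain ⟨y, hy, hfy⟩ := h2
    have hxS : x ∈ S := (mem_filter.1 hx).1
    have hyS : y ∈ S := (mem_filter.1 hy).1
    have hxy : x = y := hf hxS hyS (by rw [hfx, hfy, hvw])
    subst hxy
    have e1 : N x = N v := hNeq x hxS v hv (mem_filter.1 hx).2
    have e2 : N x = N w := hNeq x hxS w hw (mem_filter.1 hy).2
    have : v ∈ N w := by rw [← e2, e1]; exact hself v hv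
    exact (mem_filter.1 this).2.resolve_left hne
  have := MW.of_blocks (G := G) (S := S) (K := 1) (m := 1) le_rfl β (fun _ => 0) ?_ ?_
  · simpa using this
  · intro x hx x' hx' y hy y' hy' _ _ hxy hxy'
    constructor
    · intro h'; have := hβ1 x hx y hy h'; omega
    · intro h'; have := hβ1 x' hx' y' hy' h'; omega
  · intro i
    refine MW.clique (fun a ha b hb hab => ?_)
    rw [mem_filter] at ha hb
    exact hβ2 a ha.1 b hb.1 (by omega) hab

/-- chain graphs: two independent sets, `2K₂`-free between them -/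
theorem MW.chain (c : V → Bool)
    (hind : ∀ x ∈ S, ∀ y ∈ S, c x = c y → ¬ G.Adj x y)
    (h2 : ∀ x ∈ S, ∀ x' ∈ S, ∀ y ∈ S, ∀ y' ∈ S, c x = true → c x' = true → c y = false →
      c y' = false → G.Adj x y → G.Adj x' y' → G.Adj x y' ∨ G.Adj x' y) :
    MW G S 2 := by
  classical
  -- d y = number of neighbours in the true class
  let X := S.filter (fun v => c v = true)
  let Y := S.filter (fun v => c v = false)
  let N : V → Finset V := fun y => X.filter (fun x => G.Adj x y)
  let d : V → ℕ := fun y => (N y).card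
  have hnest : ∀ y ∈ Y, ∀ y' ∈ Y, d y ≤ d y' → N y ⊆ N y' := by
    intro y hy y' hy' hdd
    by_contra hns
    obtain ⟨x, hx, hx'⟩ := not_subset.1 hns
    have hns' : ¬ N y' ⊆ N y := by
      intro hs
      have hss : N y' ⊂ N y := ⟨hs, hns⟩
      have := card_lt_card hss
      exact absurd hdd (by simpa [d] using this)
    obtain ⟨x', hx'1, hx'2⟩ := not_subset.1 hns'
    have hxX := mem_filter.1 (mem_filter.1 hx).1
    have hx'X := mem_filter.1 (mem_filter.1 hx'1).1
    have hyS := mem_filter.1 hy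
    have hy'S := mem_filter.1 hy'
    rcases h2 x hxX.1 x' hx'X.1 y hyS.1 y' hy'S.1 hxX.2 hx'X.2 hyS.2 hy'S.2
      (mem_filter.1 hx).2 (mem_filter.1 hx'1).2 with h' | h'
    · exact hx' (mem_filter.2 ⟨(mem_filter.1 hx).1, h'⟩)
    · exact hx'2 (mem_filter.2 ⟨(mem_filter.1 hx'1).1, h'⟩)
  -- e x = least d y over neighbours y of x
  let M : V → Finset V := fun x => Y.filter (fun y => G.Adj x y)
  let e : V → ℕ := fun x => if hx : (M x).Nonempty then ((M x).image d).min' (hx.image d)
    else S.card + 1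
  have hdle : ∀ y, d y ≤ S.card := fun y => card_le_card ((filter_subset _ _).trans (filter_subset _ _))
  have hkey : ∀ x ∈ X, ∀ y ∈ Y, (G.Adj x y ↔ e x ≤ d y) := by
    intro x hx y hy
    constructor
    · intro hxy
      have hM : y ∈ M x := mem_filter.2 ⟨hy, hxy⟩
      have hne : (M x).Nonempty := ⟨y, hM⟩
      simp only [e, dif_pos hne]
      exact min'_le _ _ (mem_image_of_mem d hM)
    · intro hle
      by_cases hne : (M x).Nonempty
      · simp only [e, dif_pos hne] at hle
        have h1 := ((M x).image d).min'_mem (hne.image d)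
        rw [mem_image] at h1
        obtain ⟨y0, hy0, hdy0⟩ := h1
        rw [← hdy0] at hle
        have hy0' := mem_filter.1 hy0
        have := hnest y0 hy0'.1 y hy hle (mem_filter.2 ⟨hx, hy0'.2⟩)
        exact (mem_filter.1 this).2
      · simp only [e, dif_neg hne] at hle
        have := hdle y
        omega
  have hXc : ∀ v ∈ S, c v = true → v ∈ X := fun v hv h' => mem_filter.2 ⟨hv, h'⟩
  have hYc : ∀ v ∈ S, c v = false → v ∈ Y := fun v hv h' => mem_filter.2 ⟨hv, h'⟩
  let β : V → ℕ := fun v => if c v = true then 2 * e v else 2 * d v + 1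
  have hβX : ∀ v, c v = true → β v = 2 * e v := fun v h' => by simp [β, h']
  have hβY : ∀ v, c v = false → β v = 2 * d v + 1 := fun v h' => by simp [β, h']
  have := MW.of_blocks (G := G) (S := S) (K := 2) (m := 1) le_rfl β
    (fun v => if c v = true then 0 else 1) ?_ ?_
  · simpa using this
  · intro x hx x' hx' y hy y' hy' hcx hcy hxy hxy'
    rcases hx1 : c x with _ | _ <;> rcases hy1 : c y with _ | _ <;>
      rcases hx2 : c x' with _ | _ <;> rcases hy2 : c y' with _ | _ <;>
      simp [hx1, hy1, hx2, hy2] at hcx hcy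
    · exact ⟨fun h' => absurd h' (hind x hx y hy (by rw [hx1, hy1])),
        fun h' => absurd h' (hind x' hx' y' hy' (by rw [hx2, hy2]))⟩
    · -- x in Y, y in X, x before y : nonadjacent
      rw [hβY x hx1, hβX y hy1] at hxy
      rw [hβY x' hx2, hβX y' hy2] at hxy'
      rw [G.adj_comm x y, G.adj_comm x' y', hkey y (hXc y hy hy1) x (hYc x hx hx1),
        hkey y' (hXc y' hy' hy2) x' (hYc x' hx' hx2)]
      omega
    · rw [hβX x hx1, hβY y hy1] at hxy
      rw [hβX x' hx2, hβY y' hy2] at hxy'
      rw [hkey x (hXc x hx hx1) y (hYc y hy hy1), hkey x' (hXc x' hx' hx2) y' (hYc y' hy' hy2)]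
      omega
    · exact ⟨fun h' => absurd h' (hind x hx y hy (by rw [hx1, hy1])),
        fun h' => absurd h' (hind x' hx' y' hy' (by rw [hx2, hy2]))⟩
  · intro i
    refine MW.indep (fun a ha b hb => ?_)
    rw [mem_filter] at ha hb
    refine hind a ha.1 b hb.1 ?_
    rcases h1 : c a with _ | _ <;> rcases h2' : c b with _ | _
    · rfl
    · have := ha.2; have := hb.2; rw [hβY a h1] at *; rw [hβX b h2'] at *; omega
    · have := ha.2; have := hb.2; rw [hβX a h1] at *; rw [hβY b h2'] at *; omega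
    · rfl

end Pool.Agent.Lib80.CW
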